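import Pool.Agent.RDF.Defs

set_option autoImplicit false

/-!
# Basic properties of `form`, `lift`, `wedge`
-/

namespace Pool.Agent.RDF

open Polynomial

variable {R S : Type*} [CommRing R] [CommRing S]

theorem form_map (f : R →+* S) (d : ℕ) (F : R[X]) (p : R × R) :
    f (form d F p) = form d (F.map f) (Prod.map f f p) := by
  simp [form, map_sum, coeff_map]

theorem lift_map (f : R →+* S) (d : ℕ) (F G : R[X]) (p : R × R) :
    Prod.map f f (lift d F G p) = lift d (F.map f) (G.map f) (Prod.map f f p) := by
  simp [lift, ← form_map]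

theorem iter_map (f : R →+* S) (d k : ℕ) (F G : R[X]) (p : R × R) :
    Prod.map f f ((lift d F G)^[k] p) = (lift d (F.map f) (G.map f))^[k] (Prod.map f f p) := by
  induction k generalizing p with
  | zero => rfl
  | succ k ih => rw [Function.iterate_succ_apply, Function.iterate_succ_apply, ih, lift_map]

theorem form_smul (d : ℕ) (F : R[X]) (c : R) (p : R × R) :
    form d F (c • p) = c ^ d * form d F p := by
  rw [form, form, Finset.mul_sum]
  refine Finset.sum_congr rfl fun i hi => ?_
  have h : i + (d - i) = d := Nat.add_sub_cancel' (by simpa [Nat.lt_succ_iff] using hi)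
  have e : c ^ d = c ^ i * c ^ (d - i) := by rw [← pow_add, h]
  simp only [Prod.smul_fst, Prod.smul_snd, smul_eq_mul, mul_pow, e]
  ring

theorem lift_smul (d : ℕ) (F G : R[X]) (c : R) (p : R × R) :
    lift d F G (c • p) = c ^ d • lift d F G p := by
  ext <;> simp [lift, form_smul]

theorem iter_smul (d k : ℕ) (F G : R[X]) (c : R) (p : R × R) :
    (lift d F G)^[k] (c • p) = c ^ d ^ k • (lift d F G)^[k] p := by
  induction k generalizing p c with
  | zero => simp
  | succ k ih =>
    rw [Function.iterate_succ_apply, Function.iterate_succ_apply, lift_smul, ih, ← pow_mul]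
    congr 2
    ring

theorem iter_zero (d k : ℕ) (hd : 1 ≤ d) (F G : R[X]) : (lift d F G)^[k] 0 = 0 := by
  have h := iter_smul d k F G (0 : R) (0 : R × R)
  rw [zero_smul] at h
  rw [h, zero_pow (pow_ne_zero _ (by omega)), zero_smul]

theorem wedge_smul_left (c : R) (p q : R × R) : wedge (c • p) q = c * wedge p q := by
  simp [wedge]; ring

theorem wedge_smul_right (c : R) (p q : R × R) : wedge p (c • q) = c * wedge p q := by
  simp [wedge]; ring

theorem wedge_comm (p q : R × R) : wedge p q = - wedge q p := by
  simp [wedge]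

theorem wedge_map (f : R →+* S) (p q : R × R) :
    f (wedge p q) = wedge (Prod.map f f p) (Prod.map f f q) := by
  simp [wedge]

theorem bas_map (f : R →+* S) (d m : ℕ) (F G : R[X]) (a : Fin m → Fin d) (z : R × R) :
    f (bas d m F G a z) = bas d m (F.map f) (G.map f) a (Prod.map f f z) := by
  simp only [bas, map_prod, map_mul, map_pow, ← iter_map, Prod.map_fst, Prod.map_snd]

theorem mat_map (f : R →+* S) (d m : ℕ) (F G : R[X]) (z : Fin (d ^ m) → R × R) :
    f (mat d m F G z).det = (mat d m (F.map f) (G.map f) (fun i => Prod.map f f (z i))).det := by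
  rw [RingHom.map_det]
  congr 1
  ext i j
  simp [mat, bas_map]

theorem nrm_nonneg {L : Type*} [Field L] (abv : AbsoluteValue L ℝ) (p : L × L) :
    0 ≤ nrm abv p := le_max_of_le_left (abv.nonneg _)

theorem nrm_pos {L : Type*} [Field L] (abv : AbsoluteValue L ℝ) {p : L × L} (hp : p ≠ 0) :
    0 < nrm abv p := by
  by_contra h
  have h1 : abv p.1 ≤ 0 := (le_max_left _ _).trans (not_lt.mp h)
  have h2 : abv p.2 ≤ 0 := (le_max_right _ _).trans (not_lt.mp h)
  apply hp
  ext
  · exact abv.eq_zero.mp (le_antisymm h1 (abv.nonneg _))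
  · exact abv.eq_zero.mp (le_antisymm h2 (abv.nonneg _))

theorem nrm_smul {L : Type*} [Field L] (abv : AbsoluteValue L ℝ) (c : L) (p : L × L) :
    nrm abv (c • p) = abv c * nrm abv p := by
  simp only [nrm, Prod.smul_fst, Prod.smul_snd, smul_eq_mul, map_mul]
  exact (mul_max_of_nonneg _ _ (abv.nonneg _)).symm

end Pool.Agent.RDF
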