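import Pool.Agent.RDF.Basic

set_option autoImplicit false

/-!
# Points of bounded degree: definitions
-/

namespace Pool.Agent.RDF

open Polynomial NumberField IsDedekindDomain Pool.Agent.GPoly

/-- Both coordinates of `p` lie in a subextension of degree at most `N` of `L / K`. -/
def DegLe (K : Type) {L : Type} [Field K] [Field L] [Algebra K L] (N : ℕ) (p : L × L) : Prop :=
  ∃ E : IntermediateField K L, Module.finrank K E ≤ N ∧ p.1 ∈ E ∧ p.2 ∈ E

/-- The prime `v` is `(N, k)`-defective for `F / G` (of degree `d`): either `F` and `G` have, modulo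
`v`, no common irreducible factor of degree at most `N` and their coefficients of `X ^ d` are not
both in `v`; or `F` and `G` are linearly independent modulo `v`, the resultant is not in
`v ^ (k + 1)`, and for some `j ≤ k` the two components of `Φ^j(X, 1)` have, modulo `v`, a common
irreducible factor of degree greater than `N`. -/
def DefectiveN {K : Type} [Field K] [NumberField K] (d N k : ℕ) (F G : (𝓞 K)[X])
    (v : HeightOneSpectrum (𝓞 K)) : Prop :=
  ((∀ h : (𝓞 K ⧸ v.asIdeal)[X], Irreducible h → h ∣ F.map (Ideal.Quotient.mk v.asIdeal) →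
      h ∣ G.map (Ideal.Quotient.mk v.asIdeal) → N < h.natDegree) ∧
    (F.coeff d ∉ v.asIdeal ∨ G.coeff d ∉ v.asIdeal)) ∨
  ((∃ i j, F.coeff i * G.coeff j - F.coeff j * G.coeff i ∉ v.asIdeal) ∧
    resultant F G d d ∉ v.asIdeal ^ (k + 1) ∧
    ∃ (h : (𝓞 K ⧸ v.asIdeal)[X]) (j : ℕ), Irreducible h ∧ N < h.natDegree ∧ j ≤ k ∧
      h ∣ ((lift d (F.map C) (G.map C))^[j] (X, 1)).1.map (Ideal.Quotient.mk v.asIdeal) ∧
      h ∣ ((lift d (F.map C) (G.map C))^[j] (X, 1)).2.map (Ideal.Quotient.mk v.asIdeal))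

/-- The prime `w` of `L` lies above the prime `v` of `K`. -/
def Above {K L : Type} [Field K] [NumberField K] [Field L] [NumberField L] [Algebra K L]
    (v : HeightOneSpectrum (𝓞 K)) (w : HeightOneSpectrum (𝓞 L)) : Prop :=
  ∀ a ∈ v.asIdeal, algebraMap (𝓞 K) (𝓞 L) a ∈ w.asIdeal

end Pool.Agent.RDF
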