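import Pool.Agent.RDF.Basic

set_option autoImplicit false

/-!
# The determinant of the forms `x^a y^(d-1-a) F^b G^(n-1-b)`
-/

namespace Pool.Agent.RDF

open Polynomial

namespace DetE

section

variable {R : Type*} [CommRing R]

theorem form_eq (d : ℕ) (F : R[X]) (p : R × R) :
    form d F p = MvPolynomial.eval ![p.1, p.2] (F.homogenize d) := by
  rw [homogenize, map_sum, Finset.Nat.sum_antidiagonal_eq_sum_range_succ_mk, form]
  refine Finset.sum_congr rfl fun i _ => ?_
  rw [MvPolynomial.eval_monomial, Finsupp.prod_fintype _ _ fun _ => pow_zero _,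
    Fin.prod_univ_two]
  simp [mul_assoc]

theorem form_mul {m n : ℕ} {P Q : R[X]} (hP : P.natDegree ≤ m) (hQ : Q.natDegree ≤ n)
    (p : R × R) : form (m + n) (P * Q) p = form m P p * form n Q p := by
  rw [form_eq, form_eq, form_eq, homogenize_mul P Q hP hQ, map_mul]

theorem form_pow {d : ℕ} {P : R[X]} (hP : P.natDegree ≤ d) (k : ℕ) (p : R × R) :
    form (k * d) (P ^ k) p = form d P p ^ k := by
  induction k with
  | zero => simp [form]
  | succ k ih =>
    rw [Nat.succ_mul, pow_succ, form_mul (natDegree_pow_le_of_le k hP) hP, ih, pow_succ]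

theorem form_X_pow {m n : ℕ} (h : m ≤ n) (p : R × R) :
    form n (X ^ m : R[X]) p = p.1 ^ m * p.2 ^ (n - m) := by
  rw [form_eq, homogenize_X_pow h]
  simp

theorem res_mul {m₁ m₂ n : ℕ} (F₁ F₂ G : R[X]) (h₁ : F₁.natDegree ≤ m₁) (h₂ : F₂.natDegree ≤ m₂)
    (hG : G.natDegree ≤ n) :
    resultant (F₁ * F₂) G (m₁ + m₂) n = resultant F₁ G m₁ n * resultant F₂ G m₂ n := by
  obtain ⟨k₁, hk₁⟩ := Nat.exists_eq_add_of_le h₁
  obtain ⟨k₂, hk₂⟩ := Nat.exists_eq_add_of_le h₂
  have e : m₁ + m₂ = F₁.natDegree + F₂.natDegree + (k₁ + k₂) := by omega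
  rw [e, resultant_add_left_deg _ _ _ _ _ natDegree_mul_le, hk₁, hk₂,
    resultant_add_left_deg _ _ _ _ _ le_rfl, resultant_add_left_deg _ _ _ _ _ le_rfl,
    resultant_mul_left _ _ _ _ hG]
  ring

theorem res_pow {m n : ℕ} (F G : R[X]) (hF : F.natDegree ≤ m) (hG : G.natDegree ≤ n) (k : ℕ) :
    resultant (F ^ k) G (k * m) n = resultant F G m n ^ k := by
  induction k with
  | zero => simp
  | succ k ih =>
    rw [pow_succ, Nat.succ_mul, res_mul _ _ _ (natDegree_pow_le_of_le k hF) hF hG, ih, pow_succ]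

theorem sylv_left {m n : ℕ} (F G : R[X]) (hG : G.natDegree ≤ n) (i : Fin (m + n)) (j : Fin m) :
    sylvester F G m n i (Fin.castAdd n j) = (X ^ (j : ℕ) * G).coeff i := by
  rw [sylvester, Matrix.of_apply, Fin.addCases_left, coeff_X_pow_mul']
  by_cases h : (j : ℕ) ≤ i
  · rw [if_pos h]
    by_cases h' : (i : ℕ) ≤ j + n
    · rw [if_pos ⟨h, h'⟩]
    · rw [if_neg fun h'' => h' h''.2, coeff_eq_zero_of_natDegree_lt (by omega)]
  · rw [if_neg h, if_neg fun h'' => h h''.1]

theorem sylv_right {m n : ℕ} (F G : R[X]) (hF : F.natDegree ≤ m) (i : Fin (m + n)) (j : Fin n) :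
    sylvester F G m n i (Fin.natAdd m j) = (X ^ (j : ℕ) * F).coeff i := by
  rw [sylvester, Matrix.of_apply, Fin.addCases_right, coeff_X_pow_mul']
  by_cases h : (j : ℕ) ≤ i
  · rw [if_pos h]
    by_cases h' : (i : ℕ) ≤ j + m
    · rw [if_pos ⟨h, h'⟩]
    · rw [if_neg fun h'' => h' h''.2, coeff_eq_zero_of_natDegree_lt (by omega)]
  · rw [if_neg h, if_neg fun h'' => h h''.1]

/-- The polynomial of the row `i`. -/
noncomputable def pr (d n : ℕ) (F G : R[X]) (i : ℕ) : R[X] :=
  X ^ (i % d) * F ^ (i / d) * G ^ (n - 1 - i / d)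

theorem pr_natDegree {d n : ℕ} (F G : R[X]) (hF : F.natDegree ≤ d) (hG : G.natDegree ≤ d)
    {i : ℕ} (hi : i < n * d) : (pr d n F G i).natDegree < n * d := by
  have hd : 0 < d := by
    rcases Nat.eq_zero_or_pos d with h | h
    · rw [h, mul_zero] at hi
      omega
    · exact h
  have h1 : i % d < d := Nat.mod_lt _ hd
  have h2 : i / d < n := Nat.div_lt_of_lt_mul (by rw [mul_comm]; exact hi)
  have h3 : (pr d n F G i).natDegree ≤ i % d + i / d * d + (n - 1 - i / d) * d := by
    refine (natDegree_mul_le).trans (add_le_add ((natDegree_mul_le).trans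
      (add_le_add (natDegree_X_pow_le _) (natDegree_pow_le_of_le _ hF)))
      (natDegree_pow_le_of_le _ hG))
  have h4 : i / d * d + (n - 1 - i / d) * d = (n - 1) * d := by
    rw [← Nat.add_mul, Nat.add_sub_cancel' (Nat.le_sub_one_of_lt h2)]
  have h5 : (n - 1) * d + d = n * d := by
    rw [← Nat.succ_mul, Nat.succ_eq_add_one, Nat.sub_add_cancel (Nat.one_le_of_lt h2)]
  generalize i / d * d = x at *
  generalize (n - 1 - i / d) * d = y at *
  omega

/-- The matrix of the coefficients. -/
noncomputable def EM (d n : ℕ) (F G : R[X]) : Matrix (Fin (n * d)) (Fin (n * d)) R :=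
  Matrix.of fun i c => (pr d n F G i).coeff c

theorem det_EM {d : ℕ} (n : ℕ) (F G : R[X]) (hF : F.natDegree ≤ d) (hG : G.natDegree ≤ d) :
    (EM d n F G).det = resultant F G d d ^ n.choose 2 := by
  induction n with
  | zero =>
    have : IsEmpty (Fin (0 * d)) := by
      rw [zero_mul]
      infer_instance
    rw [Matrix.det_isEmpty, Nat.choose_zero_succ, pow_zero]
  | succ n ih =>
    set e : Fin (n * d) ⊕ Fin d ≃ Fin ((n + 1) * d) :=
      finSumFinEquiv.trans (finCongr (Nat.succ_mul n d).symm) with he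
    have hmat : (EM d (n + 1) F G).submatrix e e =
        Matrix.fromBlocks (EM d n F G) 0 0 (1 : Matrix (Fin d) (Fin d) R) *
          (sylvester (F ^ n) G (n * d) d).transpose.submatrix finSumFinEquiv finSumFinEquiv := by
      ext i c
      have hc : ((e c : Fin ((n + 1) * d)) : ℕ) = ((finSumFinEquiv c : Fin (n * d + d)) : ℕ) := rfl
      rcases i with i | a
      · have hi : (i : ℕ) / d < n :=
          Nat.div_lt_of_lt_mul (lt_of_lt_of_eq i.2 (mul_comm _ _))
        have hei : ((e (Sum.inl i) : Fin ((n + 1) * d)) : ℕ) = i := rfl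
        have h1 : pr d (n + 1) F G i = pr d n F G i * G := by
          have h2 : n + 1 - 1 - (i : ℕ) / d = (n - 1 - (i : ℕ) / d) + 1 := by
            generalize (i : ℕ) / d = q at *
            omega
          rw [pr, pr, h2, pow_succ]
          ring
        rw [Matrix.submatrix_apply, EM, Matrix.of_apply, hei, hc, h1, Matrix.mul_apply,
          Fintype.sum_sum_type]
        simp only [Matrix.fromBlocks_apply₁₁, Matrix.fromBlocks_apply₁₂, Matrix.zero_apply,
          zero_mul, Finset.sum_const_zero, add_zero, Matrix.submatrix_apply,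
          Matrix.transpose_apply, finSumFinEquiv_apply_left, EM, Matrix.of_apply]
        rw [Finset.sum_congr rfl fun j _ => by rw [sylv_left _ _ hG]]
        conv_lhs => rw [(pr d n F G i).as_sum_range' (n * d) (pr_natDegree F G hF hG i.2)]
        rw [Finset.sum_range, Finset.sum_mul, finsetSum_coeff]
        refine Finset.sum_congr rfl fun j _ => ?_
        rw [← C_mul_X_pow_eq_monomial, mul_assoc, coeff_C_mul]
      · have hea : ((e (Sum.inr a) : Fin ((n + 1) * d)) : ℕ) = n * d + a := rfl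
        have hd : 0 < d := Fin.pos a
        have h1 : pr d (n + 1) F G (n * d + a) = X ^ (a : ℕ) * F ^ n := by
          have h2 : (n * d + (a : ℕ)) / d = n := by
            rw [mul_comm, Nat.mul_add_div hd, Nat.div_eq_of_lt a.2, add_zero]
          have h3 : (n * d + (a : ℕ)) % d = a := by
            rw [mul_comm, Nat.mul_add_mod, Nat.mod_eq_of_lt a.2]
          rw [pr, h2, h3, Nat.add_sub_cancel, Nat.sub_self, pow_zero, mul_one]
        rw [Matrix.submatrix_apply, EM, Matrix.of_apply, hea, hc, h1, Matrix.mul_apply,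
          Fintype.sum_sum_type]
        simp only [Matrix.fromBlocks_apply₂₁, Matrix.fromBlocks_apply₂₂, Matrix.zero_apply,
          zero_mul, Finset.sum_const_zero, zero_add, Matrix.submatrix_apply,
          Matrix.transpose_apply, finSumFinEquiv_apply_right]
        rw [Finset.sum_eq_single a (fun j _ hj => by rw [Matrix.one_apply_ne hj.symm, zero_mul])
          (fun h => absurd (Finset.mem_univ a) h), Matrix.one_apply_eq, one_mul,
          sylv_right _ _ (natDegree_pow_le_of_le n hF)]
    have h1 := congrArg Matrix.det hmat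
    rw [Matrix.det_submatrix_equiv_self, Matrix.det_mul, Matrix.det_fromBlocks_zero₂₁,
      Matrix.det_one, mul_one, ih, Matrix.det_submatrix_equiv_self, Matrix.det_transpose] at h1
    have h2 : (sylvester (F ^ n) G (n * d) d).det = resultant F G d d ^ n := res_pow F G hF hG n
    rw [h1, h2, ← pow_add, Nat.choose_succ_succ' n 1, Nat.choose_one_right, add_comm]

end

end DetE

theorem exists_E {L : Type*} [Field L] (d n : ℕ) (hd : 1 ≤ d) (hn : 1 ≤ n) (F G : L[X])
    (hF : F.natDegree ≤ d) (hG : G.natDegree ≤ d) :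
    ∃ E : Matrix (Fin n × Fin d) (Fin n × Fin d) L,
      (E.det = (resultant F G d d) ^ n.choose 2 ∨ E.det = -(resultant F G d d) ^ n.choose 2) ∧
      ∀ (b : Fin n) (a : Fin d) (z : L × L),
        ∑ c : Fin n × Fin d, E (b, a) c *
          (z.1 ^ (c.2 + d * c.1 : ℕ) * z.2 ^ (n * d - 1 - (c.2 + d * c.1 : ℕ))) =
        z.1 ^ (a : ℕ) * z.2 ^ (d - 1 - (a : ℕ)) *
          (form d F z ^ (b : ℕ) * form d G z ^ (n - 1 - (b : ℕ))) := by
  refine ⟨(DetE.EM d n F G).submatrix finProdFinEquiv finProdFinEquiv, Or.inl ?_, ?_⟩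
  · rw [Matrix.det_submatrix_equiv_self, DetE.det_EM n F G hF hG]
  · intro b a z
    have hba : ((finProdFinEquiv (b, a) : Fin (n * d)) : ℕ) = a + d * b := rfl
    have h1 : DetE.pr d n F G (a + d * b) = X ^ (a : ℕ) * F ^ (b : ℕ) * G ^ (n - 1 - (b : ℕ)) := by
      have h2 : ((a : ℕ) + d * b) / d = b := by
        rw [Nat.add_mul_div_left _ _ (by omega), Nat.div_eq_of_lt a.2, zero_add]
      have h3 : ((a : ℕ) + d * b) % d = a := by
        rw [Nat.add_mul_mod_self_left, Nat.mod_eq_of_lt a.2]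
      rw [DetE.pr, h2, h3]
    have h4 : ∑ c : Fin n × Fin d,
        ((DetE.EM d n F G).submatrix finProdFinEquiv finProdFinEquiv) (b, a) c *
          (z.1 ^ (c.2 + d * c.1 : ℕ) * z.2 ^ (n * d - 1 - (c.2 + d * c.1 : ℕ))) =
        ∑ i : Fin (n * d), (DetE.pr d n F G (a + d * b)).coeff i *
          (z.1 ^ (i : ℕ) * z.2 ^ (n * d - 1 - (i : ℕ))) :=
      Fintype.sum_equiv finProdFinEquiv _ _ fun c => rfl
    have hnd : 1 ≤ n * d := Nat.mul_pos hn hd
    have h5 : ∑ i : Fin (n * d), (DetE.pr d n F G (a + d * b)).coeff i *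
          (z.1 ^ (i : ℕ) * z.2 ^ (n * d - 1 - (i : ℕ))) =
        form (n * d - 1) (DetE.pr d n F G (a + d * b)) z := by
      rw [form, Nat.sub_add_cancel hnd, Finset.sum_range]
      exact Finset.sum_congr rfl fun i _ => by ring
    have h6 : n * d - 1 = (d - 1) + b * d + (n - 1 - b) * d := by
      have h7 : (b : ℕ) * d + (n - 1 - b) * d = (n - 1) * d := by
        rw [← Nat.add_mul]
        congr 1
        omega
      have h8 : (n - 1) * d + d = n * d := by
        rw [← Nat.succ_mul]
        congr 1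
        omega
      omega
    have h9 : (X ^ (a : ℕ) : L[X]).natDegree ≤ d - 1 :=
      (natDegree_X_pow_le _).trans (by omega)
    rw [h4, h5, h1, h6, DetE.form_mul (natDegree_mul_le.trans (add_le_add h9
      (natDegree_pow_le_of_le _ hF))) (natDegree_pow_le_of_le _ hG), DetE.form_mul h9
      (natDegree_pow_le_of_le _ hF), DetE.form_pow hF, DetE.form_pow hG,
      DetE.form_X_pow (by omega)]
    ring

end Pool.Agent.RDF
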