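import Pool.Agent.RDF.ResId

set_option autoImplicit false

/-!
# The resultant and the fibres

If the form of `P` is `c ∏ (p ∧ z_i)` then `Res(P, Q) = c^d ∏ Q(z_i)`. For `P = Φ ∧ g` and
`Q = Φ ∧ g'` with `g ∧ g' = 1` this gives the product of the sizes of `Φ` at the points of the fibre
of `g`.
-/

namespace Pool.Agent.RDF

open Polynomial

variable {L : Type*} [Field L]

/-- `Res(a F + b G, a' F + b' G) = (a b' - b a')^d Res(F, G)`. -/
theorem resultant_lin (d : ℕ) (F G : L[X]) (hF : F.natDegree ≤ d) (hG : G.natDegree ≤ d)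
    (a b a' b' : L) :
    resultant (C a * F + C b * G) (C a' * F + C b' * G) d d =
      (a * b' - b * a') ^ d * resultant F G d d := by
  have hC : ∀ (r : L) (p : L[X]), p.natDegree ≤ d → (C r * p).natDegree ≤ d := fun r p hp =>
    (natDegree_C_mul_le r p).trans hp
  by_cases ha : a = 0
  · subst ha
    rw [C_0, zero_mul, zero_add, resultant_C_mul_left]
    have h1 : C a' * F + C b' * G = C a' * F + G * C b' := by ring
    rw [h1, resultant_add_mul_right _ _ _ _ _ (by simp) hG, resultant_C_mul_right, resultant_comm]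
    have h2 : ((-1 : L)) ^ (d * d) = (-1) ^ d := by
      rcases Nat.even_or_odd d with h | h
      · rw [h.neg_one_pow, (h.mul_right d).neg_one_pow]
      · rw [h.neg_one_pow, (h.mul h).neg_one_pow]
    rw [h2, zero_mul, zero_sub, neg_pow (b * a'), mul_pow]
    ring
  · have hQ : C a' * F + C b' * G = C ((a * b' - b * a') / a) * G +
        (C a * F + C b * G) * C (a' / a) := by
      have e1 : C ((a * b' - b * a') / a) = C b' - C b * C (a' / a) := by
        rw [← C_mul, ← C_sub]
        congr 1
        field_simp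
      have e2 : C a * C (a' / a) = C a' := by
        rw [← C_mul]
        congr 1
        field_simp
      rw [e1, ← e2]
      ring
    have hP : (C a * F + C b * G).natDegree ≤ d :=
      (natDegree_add_le _ _).trans (max_le (hC _ _ hF) (hC _ _ hG))
    rw [hQ, resultant_add_mul_right _ _ _ _ _ (by simp) hP, resultant_C_mul_right]
    have h1 : C a * F + C b * G = C a * F + G * C b := by ring
    rw [h1, resultant_add_mul_left _ _ _ _ _ (by simp) hG, resultant_C_mul_left, ← mul_assoc,
      ← mul_pow]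
    congr 2
    field_simp

/-- The linear form vanishing at `z`. -/
noncomputable def lin (z : L × L) : L[X] := C z.2 * X - C z.1

theorem natDegree_lin_le (z : L × L) : (lin z).natDegree ≤ 1 := by
  unfold lin
  refine (natDegree_sub_le _ _).trans (max_le ?_ (by simp))
  exact (natDegree_C_mul_le _ _).trans natDegree_X_le

theorem form_infty (n : ℕ) (Q : L[X]) (a : L) : form n Q (a, 0) = Q.coeff n * a ^ n := by
  rw [form, Finset.sum_eq_single n]
  · simp
  · intro i hi hin
    have : n - i ≠ 0 := by
      have := Finset.mem_range.mp hi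
      omega
    simp [zero_pow this]
  · intro h
    exact absurd (Finset.mem_range.mpr (Nat.lt_succ_self n)) h

theorem form_affine (n : ℕ) (Q : L[X]) (hQ : Q.natDegree ≤ n) (a b : L) (hb : b ≠ 0) :
    form n Q (a, b) = b ^ n * Q.eval (a / b) := by
  rw [form, eval_eq_sum_range' (Nat.lt_succ_of_le hQ), Finset.mul_sum]
  refine Finset.sum_congr rfl fun i hi => ?_
  have hi' : i ≤ n := Nat.lt_succ_iff.mp (Finset.mem_range.mp hi)
  have e : b ^ n = b ^ i * b ^ (n - i) := by rw [← pow_add, Nat.add_sub_cancel' hi']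
  rw [e, div_pow]
  field_simp

/-- `Res(f ℓ_z, Q) = Res(f, Q) Q(z)` for formal degrees. -/
theorem resultant_mul_lin (f Q : L[X]) (k n : ℕ) (hn : 1 ≤ n) (hf : f.natDegree ≤ k)
    (hQ : Q.natDegree ≤ n) (z : L × L) :
    resultant (f * lin z) Q (k + 1) n = resultant f Q k n * form n Q z := by
  obtain ⟨a, b⟩ := z
  by_cases hf0 : f = 0
  · subst hf0
    rw [zero_mul, resultant_zero_left, resultant_zero_left, zero_pow (by omega)]
    ring
  by_cases hb : b = 0
  · subst hb
    have e : f * lin (a, (0 : L)) = C (-a) * f := by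
      simp only [lin, C_0, zero_mul, zero_sub, C_neg]
      ring
    rw [e, resultant_C_mul_left, resultant_succ_left_deg _ _ _ _ hf, form_infty, neg_pow]
    have h1 : ((-1 : L)) ^ n * (-1) ^ n = 1 := by rw [← mul_pow]; simp
    calc (-1) ^ n * a ^ n * ((-1) ^ n * Q.coeff n * resultant f Q k n)
        = ((-1 : L) ^ n * (-1) ^ n) * (resultant f Q k n * (Q.coeff n * a ^ n)) := by ring
      _ = _ := by rw [h1, one_mul]
  · have hl : lin (a, b) = C b * (X - C (a / b)) := by
      simp only [lin, mul_sub, ← C_mul]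
      congr 2
      field_simp
    have hl1 : (lin (a, b)).natDegree = 1 := by
      rw [hl, natDegree_C_mul hb, natDegree_X_sub_C]
    have hl0 : lin (a, b) ≠ 0 := by
      intro h
      rw [h, natDegree_zero] at hl1
      exact zero_ne_one hl1
    obtain ⟨t, rfl⟩ := Nat.exists_eq_add_of_le hf
    have hd : (f * lin (a, b)).natDegree = f.natDegree + 1 := by
      rw [natDegree_mul hf0 hl0, hl1]
    have e1 : f.natDegree + t + 1 = (f.natDegree + 1) + t := by ring
    rw [e1, resultant_add_left_deg _ _ _ _ _ hd.le, resultant_add_left_deg _ _ _ _ _ le_rfl]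
    have h2 := resultant_mul_left f (lin (a, b)) Q n hQ
    rw [hl1] at h2
    rw [h2]
    have h3 : resultant (lin (a, b)) Q 1 n = form n Q (a, b) := by
      rw [hl, resultant_C_mul_left, resultant_X_sub_C_left _ _ _ hQ, form_affine n Q hQ a b hb]
    rw [h3]
    ring

theorem natDegree_prod_lin_le (k : ℕ) (z : Fin k → L × L) : (∏ i, lin (z i)).natDegree ≤ k := by
  refine (natDegree_prod_le _ _).trans ?_
  refine (Finset.sum_le_sum fun i _ => natDegree_lin_le (z i)).trans ?_
  simp

theorem resultant_prod_lin (Q : L[X]) (n : ℕ) (hn : 1 ≤ n) (hQ : Q.natDegree ≤ n) (k : ℕ)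
    (z : Fin k → L × L) : resultant (∏ i, lin (z i)) Q k n = ∏ i, form n Q (z i) := by
  induction k with
  | zero => simp
  | succ k ih =>
    rw [Fin.prod_univ_castSucc, Fin.prod_univ_castSucc,
      resultant_mul_lin _ _ _ _ hn (natDegree_prod_lin_le k _) hQ, ih]

theorem form_one (n : ℕ) (Q : L[X]) (hQ : Q.natDegree ≤ n) (x : L) :
    form n Q (x, 1) = Q.eval x := by
  rw [form_affine n Q hQ x 1 one_ne_zero]
  simp

/-- `Res(P, Q) = c^d ∏ Q(z_i)` if `P = c ∏ (p ∧ z_i)`. -/
theorem resultant_eq_prod_form [Infinite L] (d : ℕ) (hd : 1 ≤ d) (P Q : L[X])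
    (hP : P.natDegree ≤ d) (hQ : Q.natDegree ≤ d) (c : L) (z : Fin d → L × L)
    (h : ∀ p, form d P p = c * ∏ i, wedge p (z i)) :
    resultant P Q d d = c ^ d * ∏ i, form d Q (z i) := by
  have hPe : P = C c * ∏ i, lin (z i) := by
    apply Polynomial.funext
    intro x
    rw [← form_one d P hP x, h, eval_mul, eval_C, eval_prod]
    congr 1
    refine Finset.prod_congr rfl fun i _ => ?_
    simp only [wedge, lin, eval_sub, eval_mul, eval_C, eval_X]
    ring
  rw [hPe, resultant_C_mul_left, resultant_prod_lin Q d hd hQ]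

theorem form_lin_comb (d : ℕ) (F G : L[X]) (g p : L × L) :
    form d (C g.2 * F - C g.1 * G) p = wedge (lift d F G p) g := by
  simp only [form, wedge, lift, coeff_sub, coeff_C_mul, Finset.sum_mul, Finset.mul_sum,
    ← Finset.sum_sub_distrib]
  refine Finset.sum_congr rfl fun i _ => ?_
  ring

/-- A companion vector of `g`. -/
theorem exists_wedge_one (abv : AbsoluteValue L ℝ) (g : L × L) (hg : nrm abv g = 1) :
    ∃ g' : L × L, wedge g g' = 1 ∧ nrm abv g' = 1 := by
  rcases max_choice (abv g.1) (abv g.2) with h | h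
  · have h1 : abv g.1 = 1 := by rw [← h]; exact hg
    have h0 : g.1 ≠ 0 := by
      intro h0
      rw [h0, map_zero] at h1
      exact zero_ne_one h1
    refine ⟨(0, g.1⁻¹), ?_, ?_⟩
    · simp [wedge, h0]
    · simp [nrm, h1]
  · have h1 : abv g.2 = 1 := by rw [← h]; exact hg
    have h0 : g.2 ≠ 0 := by
      intro h0
      rw [h0, map_zero] at h1
      exact zero_ne_one h1
    refine ⟨(-g.2⁻¹, 0), ?_, ?_⟩
    · simp [wedge, h0]
    · simp [nrm, h1]

theorem nrm_eq_of_wedge (abv : AbsoluteValue L ℝ) (u g g' : L × L) (hg : nrm abv g = 1)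
    (hgg : wedge g g' = 1) (hu : wedge u g = 0) : abv (wedge u g') = nrm abv u := by
  have h : u = wedge u g' • g := by
    have h1 : u.1 * wedge g g' = wedge u g' * g.1 - wedge u g * g'.1 := by
      simp only [wedge]; ring
    have h2 : u.2 * wedge g g' = wedge u g' * g.2 - wedge u g * g'.2 := by
      simp only [wedge]; ring
    rw [hgg, hu, mul_one, zero_mul, sub_zero] at h1 h2
    ext
    · simpa using h1
    · simpa using h2
  conv_rhs => rw [h]
  rw [nrm_smul, hg, mul_one]

/-- The product of the sizes of `Φ` at the points of a fibre is the size of the resultant. -/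
theorem log_resultant_fibre [Infinite L] (abv : AbsoluteValue L ℝ) (d : ℕ) (hd : 1 ≤ d)
    (F G : L[X]) (hF : F.natDegree ≤ d) (hG : G.natDegree ≤ d) (hR : resultant F G d d ≠ 0)
    (g : L × L) (hg : nrm abv g = 1) (c : L) (hc : abv c = 1) (z : Fin d → L × L)
    (hz : ∀ i, z i ≠ 0) (h : ∀ p, wedge (lift d F G p) g = c * ∏ i, wedge p (z i)) :
    Real.log (abv (resultant F G d d)) = ∑ i, Real.log (nrm abv (lift d F G (z i))) := by
  obtain ⟨g', hgg, -⟩ := exists_wedge_one abv g hg
  have hC : ∀ (r : L) (p : L[X]), p.natDegree ≤ d → (C r * p).natDegree ≤ d := fun r p hp =>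
    (natDegree_C_mul_le r p).trans hp
  have hdeg : ∀ g : L × L, (C g.2 * F - C g.1 * G).natDegree ≤ d := fun g =>
    (natDegree_sub_le _ _).trans (max_le (hC _ _ hF) (hC _ _ hG))
  have h1 : resultant (C g.2 * F - C g.1 * G) (C g'.2 * F - C g'.1 * G) d d =
      resultant F G d d := by
    have := resultant_lin d F G hF hG g.2 (-g.1) g'.2 (-g'.1)
    rw [C_neg, C_neg, neg_mul, neg_mul, ← sub_eq_add_neg, ← sub_eq_add_neg] at this
    rw [this]
    have e : g.2 * -g'.1 - -g.1 * g'.2 = wedge g g' := by simp only [wedge]; ring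
    rw [e, hgg, one_pow, one_mul]
  have h2 := resultant_eq_prod_form d hd (C g.2 * F - C g.1 * G) (C g'.2 * F - C g'.1 * G)
    (hdeg g) (hdeg g') c z (fun p => by rw [form_lin_comb]; exact h p)
  rw [h1] at h2
  have h3 : ∀ i, abv (form d (C g'.2 * F - C g'.1 * G) (z i)) = nrm abv (lift d F G (z i)) := by
    intro i
    rw [form_lin_comb]
    refine nrm_eq_of_wedge abv _ g g' hg hgg ?_
    rw [h (z i), Finset.prod_eq_zero (Finset.mem_univ i), mul_zero]
    simp [wedge]
  rw [h2, map_mul, map_pow, hc, one_pow, one_mul, map_prod, Finset.prod_congr rfl fun i _ => h3 i,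
    Real.log_prod]
  intro i _
  exact (nrm_pos abv (lift_ne_zero d hd F G hR (hz i))).ne'

end Pool.Agent.RDF
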