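import Pool.Agent.RDF.Basic

set_option autoImplicit false

/-!
# The resultant identity and the lower bound for the norm of the lift

Multiplying the row vector `(x^i y^(2d-1-i))_i` with the Sylvester matrix and with its adjugate
gives `Res(F, G) x^i y^(2d-1-i)` as a combination of `F(x, y)` and `G(x, y)`, whose coefficients
are minors of the Sylvester matrix times monomials of degree `d - 1`.
-/

namespace Pool.Agent.RDF

open Polynomial

section identity

variable {L : Type*} [Field L]

/-- The vector of the monomials of degree `2 d - 1`. -/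
private def mono (d : ℕ) (p : L × L) (i : Fin (d + d)) : L :=
  p.1 ^ (i : ℕ) * p.2 ^ (d + d - 1 - (i : ℕ))

/-- The monomials of degree `d - 1` times the two forms. -/
private noncomputable def comb (d : ℕ) (F G : L[X]) (p : L × L) (j : Fin (d + d)) : L :=
  j.addCases
    (fun j₁ => p.1 ^ (j₁ : ℕ) * p.2 ^ (d - 1 - (j₁ : ℕ)) * form d G p)
    (fun j₁ => p.1 ^ (j₁ : ℕ) * p.2 ^ (d - 1 - (j₁ : ℕ)) * form d F p)

private theorem sum_ite_coeff (d : ℕ) (F : L[X]) (p : L × L) (j : ℕ) (hj : j < d) :
    ∑ i : Fin (d + d), p.1 ^ (i : ℕ) * p.2 ^ (d + d - 1 - (i : ℕ)) *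
      (if (i : ℕ) ∈ Set.Icc j (j + d) then F.coeff (i - j) else 0) =
    p.1 ^ j * p.2 ^ (d - 1 - j) * form d F p := by
  rw [Fin.sum_univ_eq_sum_range (fun i : ℕ => p.1 ^ i * p.2 ^ (d + d - 1 - i) *
      (if i ∈ Set.Icc j (j + d) then F.coeff (i - j) else 0)) (d + d)]
  rw [form, Finset.mul_sum]
  symm
  apply Finset.sum_of_injOn (fun i => i + j)
  · intro a _ b _ h
    simpa using h
  · intro a ha
    have : a < d + 1 := by simpa using ha
    simp only [Finset.coe_range, Set.mem_Iio]
    omega
  · intro i hi hn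
    rw [if_neg, mul_zero]
    rintro ⟨h1, h2⟩
    apply hn
    refine ⟨i - j, ?_, by simp [h1]⟩
    simp only [Finset.coe_range, Set.mem_Iio]
    omega
  · intro i hi
    have hi' : i < d + 1 := by simpa using hi
    rw [if_pos ⟨by omega, by omega⟩, Nat.add_sub_cancel, pow_add]
    have e : p.2 ^ (d - 1 - j) * p.2 ^ (d - i) = p.2 ^ (d + d - 1 - (i + j)) := by
      rw [← pow_add]
      congr 1
      omega
    rw [← e]
    ring

private theorem vecMul_sylvester (d : ℕ) (F G : L[X]) (p : L × L) :
    Matrix.vecMul (mono d p) (sylvester F G d d) = comb d F G p := by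
  funext j
  rw [Matrix.vecMul, dotProduct]
  induction j using Fin.addCases with
  | left j =>
    simp only [sylvester, Matrix.of_apply, comb, mono, Fin.addCases_left]
    exact sum_ite_coeff d G p j j.2
  | right j =>
    simp only [sylvester, Matrix.of_apply, comb, mono, Fin.addCases_right]
    exact sum_ite_coeff d F p j j.2

private theorem res_mul_mono (d : ℕ) (F G : L[X]) (p : L × L) (i : Fin (d + d)) :
    resultant F G d d * mono d p i =
      ∑ j, comb d F G p j * (sylvester F G d d).adjugate j i := by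
  have h : Matrix.vecMul (comb d F G p) (sylvester F G d d).adjugate =
      resultant F G d d • mono d p := by
    rw [← vecMul_sylvester, Matrix.vecMul_vecMul, Matrix.mul_adjugate, Matrix.vecMul_smul,
      Matrix.vecMul_one]
    rfl
  have h2 := congrFun h i
  rw [Pi.smul_apply, smul_eq_mul] at h2
  rw [← h2]
  rfl

end identity

theorem lift_ne_zero {L : Type*} [Field L] (d : ℕ) (hd : 1 ≤ d) (F G : L[X])
    (hR : resultant F G d d ≠ 0) {p : L × L} (hp : p ≠ 0) : lift d F G p ≠ 0 := by
  intro h
  have hF : form d F p = 0 := congrArg Prod.fst h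
  have hG : form d G p = 0 := congrArg Prod.snd h
  have hc : ∀ j, comb d F G p j = 0 := by
    intro j
    induction j using Fin.addCases with
    | left j =>
      simp only [comb, Fin.addCases_left]
      rw [hG, mul_zero]
    | right j =>
      simp only [comb, Fin.addCases_right]
      rw [hF, mul_zero]
  have hm : ∀ i, mono d p i = 0 := by
    intro i
    have := res_mul_mono d F G p i
    simp only [hc, zero_mul, Finset.sum_const_zero] at this
    exact (mul_eq_zero.mp this).resolve_left hR
  apply hp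
  ext
  · have := hm ⟨d + d - 1, by omega⟩
    simp only [mono, Nat.sub_self, pow_zero, mul_one] at this
    exact pow_eq_zero_iff (by omega) |>.mp this
  · have := hm ⟨0, by omega⟩
    simp only [mono, Nat.sub_zero, pow_zero, one_mul] at this
    exact pow_eq_zero_iff (by omega) |>.mp this

theorem iter_ne_zero {L : Type*} [Field L] (d : ℕ) (hd : 1 ≤ d) (F G : L[X])
    (hF : F.natDegree ≤ d) (hG : G.natDegree ≤ d) (hR : resultant F G d d ≠ 0) (k : ℕ) {p : L × L}
    (hp : p ≠ 0) : (lift d F G)^[k] p ≠ 0 := by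
  induction k with
  | zero => exact hp
  | succ k ih =>
    rw [Function.iterate_succ_apply']
    exact lift_ne_zero d hd F G hR ih

section bounds

variable {L : Type*} [Field L]

/-- A bound for sums: `κ n` times the bound for the terms, `n` the number of the terms. -/
private def SumBound (abv : AbsoluteValue L ℝ) (κ : ℕ → ℝ) : Prop :=
  ∀ {ι : Type} [Fintype ι] (f : ι → L) (C : ℝ), 0 ≤ C → (∀ i, abv (f i) ≤ C) →
    abv (∑ i, f i) ≤ κ (Fintype.card ι) * C

private theorem sumBound_arch (abv : AbsoluteValue L ℝ) : SumBound abv (fun n => n) := by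
  intro ι _ f C hC h
  refine (abv.sum_le _ _).trans ?_
  refine (Finset.sum_le_sum fun i _ => h i).trans ?_
  rw [Finset.sum_const, nsmul_eq_mul, Finset.card_univ]

private theorem sumBound_na (abv : AbsoluteValue L ℝ) (hna : IsNonarchimedean abv) :
    SumBound abv (fun _ => 1) := by
  intro ι _ f C hC h
  rw [one_mul]
  classical
  have : ∀ s : Finset ι, abv (∑ i ∈ s, f i) ≤ C := by
    intro s
    induction s using Finset.induction_on with
    | empty => simpa using hC
    | insert a s ha ih =>
      rw [Finset.sum_insert ha]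
      exact (hna _ _).trans (max_le (h a) ih)
  exact this Finset.univ

private theorem abv_adjugate_le (abv : AbsoluteValue L ℝ) {κ : ℕ → ℝ} (hκ : SumBound abv κ)
    (n : ℕ) (A : Matrix (Fin (n + 1)) (Fin (n + 1)) L) (B : ℝ) (hB : ∀ i j, abv (A i j) ≤ B)
    (i j : Fin (n + 1)) : abv (A.adjugate i j) ≤ κ (n + 1).factorial * B ^ n := by
  have hB0 : 0 ≤ B := (abv.nonneg _).trans (hB 0 0)
  rw [Matrix.adjugate_apply, Matrix.det_apply]
  have := hκ (ι := Equiv.Perm (Fin (n + 1)))
    (fun σ => Equiv.Perm.sign σ • ∏ k, (A.updateRow j (Pi.single i 1)) (σ k) k) (B ^ n)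
    (pow_nonneg hB0 n) ?_
  · rwa [Fintype.card_perm, Fintype.card_fin] at this
  · intro σ
    have e : abv (Equiv.Perm.sign σ • ∏ k, (A.updateRow j (Pi.single i 1)) (σ k) k) =
        abv (∏ k, (A.updateRow j (Pi.single i 1)) (σ k) k) := by
      rcases Int.units_eq_one_or (Equiv.Perm.sign σ) with h | h <;> simp [h]
    rw [e, map_prod]
    rw [← Finset.mul_prod_erase Finset.univ _ (Finset.mem_univ (σ.symm j))]
    have h1 : abv ((A.updateRow j (Pi.single i 1)) (σ (σ.symm j)) (σ.symm j)) ≤ 1 := by
      rw [Equiv.apply_symm_apply, Matrix.updateRow_self, Pi.single_apply]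
      split_ifs <;> simp
    have h2 : ∏ k ∈ Finset.univ.erase (σ.symm j),
        abv ((A.updateRow j (Pi.single i 1)) (σ k) k) ≤ B ^ n := by
      have : ∏ k ∈ Finset.univ.erase (σ.symm j),
          abv ((A.updateRow j (Pi.single i 1)) (σ k) k) ≤
          ∏ k ∈ Finset.univ.erase (σ.symm j), B := by
        refine Finset.prod_le_prod (fun _ _ => abv.nonneg _) fun k hk => ?_
        have hk' : σ k ≠ j := by
          intro h
          apply Finset.ne_of_mem_erase hk
          rw [← h, Equiv.symm_apply_apply]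
        rw [Matrix.updateRow_ne hk']
        exact hB _ _
      refine this.trans (le_of_eq ?_)
      rw [Finset.prod_const, Finset.card_erase_of_mem (Finset.mem_univ _), Finset.card_univ,
        Fintype.card_fin, Nat.add_sub_cancel]
    calc _ ≤ 1 * B ^ n := mul_le_mul h1 h2 (Finset.prod_nonneg fun _ _ => abv.nonneg _) zero_le_one
      _ = B ^ n := one_mul _

private theorem abv_comb_le (abv : AbsoluteValue L ℝ) (d : ℕ) (F G : L[X])
    (p : L × L) (j : Fin (d + d)) :
    abv (comb d F G p j) ≤ nrm abv p ^ (d - 1) * nrm abv (lift d F G p) := by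
  have key : ∀ (j : ℕ), j < d → ∀ t : L, abv t ≤ nrm abv (lift d F G p) →
      abv (p.1 ^ j * p.2 ^ (d - 1 - j) * t) ≤ nrm abv p ^ (d - 1) * nrm abv (lift d F G p) := by
    intro j hj t ht
    rw [map_mul, map_mul, map_pow, map_pow]
    have h1 : abv p.1 ^ j ≤ nrm abv p ^ j := pow_le_pow_left₀ (abv.nonneg _) (le_max_left _ _) _
    have h2 : abv p.2 ^ (d - 1 - j) ≤ nrm abv p ^ (d - 1 - j) :=
      pow_le_pow_left₀ (abv.nonneg _) (le_max_right _ _) _
    have e : nrm abv p ^ (d - 1) = nrm abv p ^ j * nrm abv p ^ (d - 1 - j) := by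
      rw [← pow_add]
      congr 1
      omega
    rw [e]
    have h0 := nrm_nonneg abv p
    refine mul_le_mul (mul_le_mul h1 h2 (pow_nonneg (abv.nonneg _) _) (pow_nonneg h0 _)) ht
      (abv.nonneg _) (by positivity)
  induction j using Fin.addCases with
  | left j =>
    simp only [comb, Fin.addCases_left]
    exact key j j.2 _ (le_max_right _ _)
  | right j =>
    simp only [comb, Fin.addCases_right]
    exact key j j.2 _ (le_max_left _ _)

private theorem abv_sylvester_le (abv : AbsoluteValue L ℝ) (d : ℕ) (F G : L[X]) (B : ℝ)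
    (hBF : ∀ i, abv (F.coeff i) ≤ B) (hBG : ∀ i, abv (G.coeff i) ≤ B) (i j : Fin (d + d)) :
    abv (sylvester F G d d i j) ≤ B := by
  have hB0 : 0 ≤ B := (abv.nonneg _).trans (hBF 0)
  induction j using Fin.addCases with
  | left j =>
    simp only [sylvester, Matrix.of_apply, Fin.addCases_left]
    split_ifs
    · exact hBG _
    · simpa using hB0
  | right j =>
    simp only [sylvester, Matrix.of_apply, Fin.addCases_right]
    split_ifs
    · exact hBF _
    · simpa using hB0

private theorem main_bound (abv : AbsoluteValue L ℝ) {κ : ℕ → ℝ} (hκ : SumBound abv κ)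
    (hκ0 : ∀ n, 0 ≤ κ n)
    (d : ℕ) (hd : 1 ≤ d) (F G : L[X]) (B : ℝ)
    (hBF : ∀ i, abv (F.coeff i) ≤ B) (hBG : ∀ i, abv (G.coeff i) ≤ B) (p : L × L) :
    abv (resultant F G d d) * nrm abv p ^ d ≤
      (κ (2 * d) * κ (2 * d).factorial) * B ^ (2 * d - 1) * nrm abv (lift d F G p) := by
  have hB0 : 0 ≤ B := (abv.nonneg _).trans (hBF 0)
  by_cases hp : p = 0
  · subst hp
    have h0 : nrm abv (0 : L × L) = 0 := by simp [nrm]
    have h0' := nrm_nonneg abv (lift d F G 0)
    rw [h0, zero_pow (by omega), mul_zero]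
    have := hκ0 (2 * d)
    have := hκ0 (2 * d).factorial
    positivity
  have hp0 : 0 < nrm abv p := nrm_pos abv hp
  have hl0 := nrm_nonneg abv (lift d F G p)
  -- the bound for the adjugate
  have hadj : ∀ i j, abv ((sylvester F G d d).adjugate i j) ≤
      κ (2 * d).factorial * B ^ (2 * d - 1) := by
    obtain ⟨n, hn⟩ : ∃ n, d + d = n + 1 := ⟨d + d - 1, by omega⟩
    have hn' : 2 * d = n + 1 := by omega
    have hs := abv_sylvester_le abv d F G B hBF hBG
    rw [hn', Nat.add_sub_cancel]
    generalize sylvester F G d d = A at hs ⊢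
    revert A
    rw [hn]
    intro A hs i j
    exact abv_adjugate_le abv hκ n A B hs i j
  -- the bound for each monomial
  have hmono : ∀ i, abv (resultant F G d d) * abv (mono d p i) ≤
      (κ (2 * d) * κ (2 * d).factorial) * B ^ (2 * d - 1) *
        (nrm abv p ^ (d - 1) * nrm abv (lift d F G p)) := by
    intro i
    rw [← map_mul, res_mul_mono]
    have := hκ (fun j => comb d F G p j * (sylvester F G d d).adjugate j i)
      ((nrm abv p ^ (d - 1) * nrm abv (lift d F G p)) *
        (κ (2 * d).factorial * B ^ (2 * d - 1))) ?_ ?_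
    · refine this.trans (le_of_eq ?_)
      rw [Fintype.card_fin, show d + d = 2 * d from (two_mul d).symm]
      ring
    · have := hκ0 (2 * d).factorial
      positivity
    · intro j
      rw [map_mul]
      refine mul_le_mul (abv_comb_le abv d F G p j) (hadj j i) (abv.nonneg _) (by positivity)
  have hx : abv (resultant F G d d) * abv p.1 ^ (2 * d - 1) ≤
      (κ (2 * d) * κ (2 * d).factorial) * B ^ (2 * d - 1) *
        (nrm abv p ^ (d - 1) * nrm abv (lift d F G p)) := by
    have := hmono ⟨d + d - 1, by omega⟩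
    simp only [mono, Nat.sub_self, pow_zero, mul_one, map_pow] at this
    rwa [← two_mul] at this
  have hy : abv (resultant F G d d) * abv p.2 ^ (2 * d - 1) ≤
      (κ (2 * d) * κ (2 * d).factorial) * B ^ (2 * d - 1) *
        (nrm abv p ^ (d - 1) * nrm abv (lift d F G p)) := by
    have := hmono ⟨0, by omega⟩
    simp only [mono, Nat.sub_zero, pow_zero, one_mul, map_pow] at this
    rwa [← two_mul] at this
  have hxy : abv (resultant F G d d) * nrm abv p ^ (2 * d - 1) ≤
      (κ (2 * d) * κ (2 * d).factorial) * B ^ (2 * d - 1) *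
        (nrm abv p ^ (d - 1) * nrm abv (lift d F G p)) := by
    rw [nrm]
    rcases le_total (abv p.1) (abv p.2) with h | h
    · rw [max_eq_right h]
      rw [nrm, max_eq_right h] at hy
      exact hy
    · rw [max_eq_left h]
      rw [nrm, max_eq_left h] at hx
      exact hx
  have e : nrm abv p ^ (2 * d - 1) = nrm abv p ^ d * nrm abv p ^ (d - 1) := by
    rw [← pow_add]
    congr 1
    omega
  rw [e] at hxy
  have hpos : 0 < nrm abv p ^ (d - 1) := pow_pos hp0 _
  refine le_of_mul_le_mul_right ?_ hpos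
  calc abv (resultant F G d d) * nrm abv p ^ d * nrm abv p ^ (d - 1)
      = abv (resultant F G d d) * (nrm abv p ^ d * nrm abv p ^ (d - 1)) := by ring
    _ ≤ _ := hxy
    _ = _ := by ring

end bounds

theorem nrm_lift_ge {L : Type*} [Field L] (abv : AbsoluteValue L ℝ) (hna : IsNonarchimedean abv)
    (d : ℕ) (hd : 1 ≤ d) (F G : L[X]) (hF : F.natDegree ≤ d) (hG : G.natDegree ≤ d) (B : ℝ)
    (hBF : ∀ i, abv (F.coeff i) ≤ B) (hBG : ∀ i, abv (G.coeff i) ≤ B) (p : L × L) :
    abv (resultant F G d d) * nrm abv p ^ d ≤ B ^ (2 * d - 1) * nrm abv (lift d F G p) := by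
  have := main_bound abv (sumBound_na abv hna) (fun _ => zero_le_one) d hd F G B hBF hBG p
  simpa using this

theorem nrm_lift_ge_arch (d : ℕ) (hd : 1 ≤ d) : ∃ c : ℝ, 1 ≤ c ∧ ∀ {L : Type*} [Field L]
    (abv : AbsoluteValue L ℝ) (F G : L[X]), F.natDegree ≤ d → G.natDegree ≤ d → ∀ B : ℝ,
    (∀ i, abv (F.coeff i) ≤ B) → (∀ i, abv (G.coeff i) ≤ B) → ∀ p : L × L,
    abv (resultant F G d d) * nrm abv p ^ d ≤ c * B ^ (2 * d - 1) * nrm abv (lift d F G p) := by
  refine ⟨((2 * d : ℕ) : ℝ) * (((2 * d).factorial : ℕ) : ℝ), ?_, ?_⟩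
  · have h1 : (1 : ℝ) ≤ ((2 * d : ℕ) : ℝ) := by exact_mod_cast (by omega : 1 ≤ 2 * d)
    have h2 : (1 : ℝ) ≤ (((2 * d).factorial : ℕ) : ℝ) := by
      exact_mod_cast Nat.one_le_iff_ne_zero.mpr (Nat.factorial_ne_zero _)
    calc (1 : ℝ) = 1 * 1 := (one_mul 1).symm
      _ ≤ _ := mul_le_mul h1 h2 zero_le_one (by positivity)
  · intro L _ abv F G _ _ B hBF hBG p
    exact main_bound abv (sumBound_arch abv) (fun n => Nat.cast_nonneg n) d hd F G B hBF hBG p

end Pool.Agent.RDF
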