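import Mathlib
import Pool.Agent.GPoly.Places
import Pool.Agent.GPoly.PlacesB

set_option autoImplicit false

/-!
# Rational functions with defective primes: definitions

`F, G` are polynomials of degree at most `d` over a commutative ring `R`; `form d F` is the binary
form `∑ F_i x^i y^(d-i)`, `lift d F G` is the map `Φ : (x, y) ↦ (F(x, y), G(x, y))` of `R²`.
-/

namespace Pool.Agent.RDF

open Polynomial NumberField IsDedekindDomain Pool.Agent.GPoly

/-- The binary form `∑ F_i x^i y^(d-i)` of degree `d` of a polynomial `F`, at the point `(x, y)`. -/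
noncomputable def form {R : Type*} [CommRing R] (d : ℕ) (F : R[X]) (p : R × R) : R :=
  ∑ i ∈ Finset.range (d + 1), F.coeff i * p.1 ^ i * p.2 ^ (d - i)

/-- The homogeneous lift `Φ = (F, G)` of the rational function `F / G` of degree `d`. -/
noncomputable def lift {R : Type*} [CommRing R] (d : ℕ) (F G : R[X]) (p : R × R) : R × R :=
  (form d F p, form d G p)

/-- The determinant of two vectors; nonzero vectors over a field give the same point of the
projective line if and only if it vanishes. -/
def wedge {R : Type*} [CommRing R] (p q : R × R) : R := p.1 * q.2 - q.1 * p.2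

/-- The form `P_a = ∏_{k < m} x_k ^ a_k y_k ^ (d - 1 - a_k)`, `(x_k, y_k) = Φ^k(z)`, of degree
`d ^ m - 1`. -/
noncomputable def bas {R : Type*} [CommRing R] (d m : ℕ) (F G : R[X]) (a : Fin m → Fin d)
    (z : R × R) : R :=
  ∏ k : Fin m, ((lift d F G)^[(k : ℕ)] z).1 ^ (a k : ℕ) *
    ((lift d F G)^[(k : ℕ)] z).2 ^ (d - 1 - (a k : ℕ))

/-- The square matrix of the values of the `d ^ m` forms `P_a` at `d ^ m` points. -/
noncomputable def mat {R : Type*} [CommRing R] (d m : ℕ) (F G : R[X])
    (z : Fin (d ^ m) → R × R) : Matrix (Fin (d ^ m)) (Fin (d ^ m)) R :=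
  Matrix.of fun i j => bas d m F G (finFunctionFinEquiv.symm j) (z i)

/-- The exponent of the resultant in `det (P_a)`. -/
def rr (d : ℕ) : ℕ → ℕ
  | 0 => 0
  | m + 1 => d * rr d m + (d ^ m).choose 2

/-- The sup norm of a vector with respect to an absolute value. -/
noncomputable def nrm {L : Type*} [Field L] (abv : AbsoluteValue L ℝ) (p : L × L) : ℝ :=
  max (abv p.1) (abv p.2)

/-- `(d - 1) ∑_{k < m} log ‖Φ^k(z)‖`: the bound for `log |P_a(z)|`. -/
noncomputable def UU {L : Type*} [Field L] (abv : AbsoluteValue L ℝ) (d m : ℕ) (F G : L[X])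
    (z : L × L) : ℝ :=
  ((d : ℝ) - 1) * ∑ k ∈ Finset.range m, Real.log (nrm abv ((lift d F G)^[k] z))

/-- The prime `v` is `k`-defective for `F / G` (of degree `d`): either `F` and `G` have no common
zero in the projective line over the residue field of `v`; or `F` and `G` are linearly independent
modulo `v`, the resultant is not in `v^(k+1)`, and for some `j ≤ k` the two components of
`Φ^j(X, 1)` have, modulo `v`, a common factor `h` of positive degree without a root in the residue
field. -/
def Defective {K : Type} [Field K] [NumberField K] (d k : ℕ) (F G : (𝓞 K)[X])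
    (v : HeightOneSpectrum (𝓞 K)) : Prop :=
  (¬ ∃ p : (𝓞 K ⧸ v.asIdeal) × (𝓞 K ⧸ v.asIdeal), p ≠ 0 ∧
    lift d (F.map (Ideal.Quotient.mk v.asIdeal)) (G.map (Ideal.Quotient.mk v.asIdeal)) p = 0) ∨
  (∃ i j, F.coeff i * G.coeff j - F.coeff j * G.coeff i ∉ v.asIdeal) ∧
    resultant F G d d ∉ v.asIdeal ^ (k + 1) ∧
    ∃ (h : (𝓞 K)[X]) (j : ℕ), h.Monic ∧ 0 < h.natDegree ∧ (∀ x, h.eval x ∉ v.asIdeal) ∧ j ≤ k ∧
      (∃ q : (𝓞 K)[X], ∀ i,
        (((lift d (F.map C) (G.map C))^[j] (X, 1)).1 - q * h).coeff i ∈ v.asIdeal) ∧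
      (∃ q : (𝓞 K)[X], ∀ i,
        (((lift d (F.map C) (G.map C))^[j] (X, 1)).2 - q * h).coeff i ∈ v.asIdeal)

/-- The coefficient vector of the pair `(F, G)`. -/
noncomputable def coeffs {K : Type*} [Field K] (d : ℕ) (F G : K[X]) :
    Fin (d + 1) ⊕ Fin (d + 1) → K :=
  Sum.elim (fun i => F.coeff i) (fun i => G.coeff i)

end Pool.Agent.RDF
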