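import Pool.Agent.RDF.Basic

set_option autoImplicit false

/-!
# Case (i): no common zero over the residue field
-/

namespace Pool.Agent.RDF

open Polynomial NumberField IsDedekindDomain Pool.Agent.GPoly

/-- An element of absolute value at most `1` at `v` has a denominator outside `v`. -/
theorem exists_denom {K : Type} [Field K] [NumberField K] (v : HeightOneSpectrum (𝓞 K)) (x : K)
    (hx : av v x ≤ 1) : ∃ c y : 𝓞 K, c ∉ v.asIdeal ∧ algebraMap (𝓞 K) K c * x =
      algebraMap (𝓞 K) K y := by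
  obtain ⟨a, b, hb, rfl⟩ := IsFractionRing.div_surjective (A := 𝓞 K) x
  have hb0 : b ≠ 0 := nonZeroDivisors.ne_zero hb
  have hbK : algebraMap (𝓞 K) K b ≠ 0 :=
    (map_ne_zero_iff _ (RingOfIntegers.coe_injective)).mpr hb0
  have hI0 : Ideal.span {b} ≠ (0 : Ideal (𝓞 K)) := by
    simpa [Ideal.zero_eq_bot, Ideal.span_singleton_eq_bot] using hb0
  have hfin : FiniteMultiplicity v.asIdeal (Ideal.span {b}) :=
    FiniteMultiplicity.of_prime_left v.prime hI0
  obtain ⟨I, hI, hnd⟩ := hfin.exists_eq_pow_mul_and_not_dvd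
  set n := multiplicity v.asIdeal (Ideal.span {b}) with hn
  have hle : ¬ I ≤ v.asIdeal := fun h => hnd (Ideal.dvd_iff_le.mpr h)
  obtain ⟨c, hcI, hcv⟩ := Set.not_subset.mp hle
  have hbn : b ∈ v.asIdeal ^ n := by
    have h1 : (Ideal.span {b} : Ideal (𝓞 K)) ≤ v.asIdeal ^ n := by
      rw [hI]
      exact Ideal.mul_le_left
    have h2 : b ∈ (Ideal.span {b} : Ideal (𝓞 K)) := Ideal.mem_span_singleton_self b
    exact h1 h2
  have han : a ∈ v.asIdeal ^ n := by
    rw [av_int_le_pow] at hbn ⊢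
    refine le_trans ?_ hbn
    rw [map_div₀] at hx
    have hpos : 0 < av v (algebraMap (𝓞 K) K b) := (av v).pos hbK
    rwa [div_le_one hpos] at hx
  have hca : c * a ∈ Ideal.span {b} := by
    rw [hI, mul_comm c a]
    exact Ideal.mul_mem_mul han hcI
  obtain ⟨y, hy⟩ := Ideal.mem_span_singleton'.mp hca
  refine ⟨c, y, hcv, ?_⟩
  rw [← mul_div_assoc, div_eq_iff hbK, ← map_mul, ← map_mul, hy]

/-- Case (i), for primitive vectors. -/
theorem UU_eq_zero {K : Type} [Field K] [NumberField K] (d m : ℕ) (hd : 1 ≤ d) (F G : (𝓞 K)[X])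
    (v : HeightOneSpectrum (𝓞 K))
    (hdef : ¬ ∃ p : (𝓞 K ⧸ v.asIdeal) × (𝓞 K ⧸ v.asIdeal), p ≠ 0 ∧
      lift d (F.map (Ideal.Quotient.mk v.asIdeal)) (G.map (Ideal.Quotient.mk v.asIdeal)) p = 0)
    (z : K × K) (hz : nrm (av v) z = 1) :
    UU (av v) d m (F.map (algebraMap (𝓞 K) K)) (G.map (algebraMap (𝓞 K) K)) z = 0 := by
  obtain ⟨c1, y1, hc1, h1⟩ := exists_denom v z.1 (hz ▸ le_max_left _ _)
  obtain ⟨c2, y2, hc2, h2⟩ := exists_denom v z.2 (hz ▸ le_max_right _ _)
  set c := c1 * c2 with hc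
  have hcv : c ∉ v.asIdeal := fun h => (v.isPrime.mem_or_mem h).elim hc1 hc2
  set p : 𝓞 K × 𝓞 K := (c2 * y1, c1 * y2) with hp
  have hcz : algebraMap (𝓞 K) K c • z = Prod.map (algebraMap (𝓞 K) K) (algebraMap (𝓞 K) K) p := by
    ext
    · simp only [Prod.smul_fst, smul_eq_mul, Prod.map_fst, hp, hc, map_mul, ← h1]
      ring
    · simp only [Prod.smul_snd, smul_eq_mul, Prod.map_snd, hp, hc, map_mul, ← h2]
      ring
  have hc1' : av v (algebraMap (𝓞 K) K c) = 1 := (av_int_eq_one v c).mpr hcv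
  -- a vector of integers has norm one iff it is not zero modulo `v`
  have key : ∀ q : 𝓞 K × 𝓞 K,
      nrm (av v) (Prod.map (algebraMap (𝓞 K) K) (algebraMap (𝓞 K) K) q) = 1 ↔
      Prod.map (Ideal.Quotient.mk v.asIdeal) (Ideal.Quotient.mk v.asIdeal) q ≠ 0 := by
    intro q
    have l1 := av_int_le_one v q.1
    have l2 := av_int_le_one v q.2
    constructor
    · intro h h0
      have e1 : q.1 ∈ v.asIdeal := Ideal.Quotient.eq_zero_iff_mem.mp (congrArg Prod.fst h0)
      have e2 : q.2 ∈ v.asIdeal := Ideal.Quotient.eq_zero_iff_mem.mp (congrArg Prod.snd h0)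
      rw [← av_int_lt_one v] at e1 e2
      have : nrm (av v) (Prod.map (algebraMap (𝓞 K) K) (algebraMap (𝓞 K) K) q) < 1 :=
        max_lt e1 e2
      exact absurd h this.ne
    · intro h
      refine le_antisymm (max_le l1 l2) ?_
      by_contra hlt
      push Not at hlt
      have e1 := (le_max_left _ _).trans_lt hlt
      have e2 := (le_max_right _ _).trans_lt hlt
      apply h
      ext
      · exact Ideal.Quotient.eq_zero_iff_mem.mpr ((av_int_lt_one v q.1).mp e1)
      · exact Ideal.Quotient.eq_zero_iff_mem.mpr ((av_int_lt_one v q.2).mp e2)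
  have hp0 : Prod.map (Ideal.Quotient.mk v.asIdeal) (Ideal.Quotient.mk v.asIdeal) p ≠ 0 := by
    rw [← key, ← hcz, nrm_smul, hc1', hz, one_mul]
  have hk : ∀ k, Prod.map (Ideal.Quotient.mk v.asIdeal) (Ideal.Quotient.mk v.asIdeal)
      ((lift d F G)^[k] p) ≠ 0 := by
    intro k
    induction k with
    | zero => exact hp0
    | succ k ih =>
      rw [Function.iterate_succ_apply', lift_map]
      exact fun h => hdef ⟨_, ih, h⟩
  have hnrm : ∀ k, nrm (av v) ((lift d (F.map (algebraMap (𝓞 K) K))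
      (G.map (algebraMap (𝓞 K) K)))^[k] z) = 1 := by
    intro k
    have e := iter_smul d k (F.map (algebraMap (𝓞 K) K)) (G.map (algebraMap (𝓞 K) K))
      (algebraMap (𝓞 K) K c) z
    have e2 := congrArg (nrm (av v)) e
    rw [nrm_smul, map_pow, hc1', one_pow, one_mul, hcz, ← iter_map, (key _).mpr (hk k)] at e2
    exact e2.symm
  rw [UU, Finset.sum_eq_zero, mul_zero]
  intro k _
  rw [hnrm k, Real.log_one]

end Pool.Agent.RDF
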