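import Pool.Agent.RDF.Basic

set_option autoImplicit false

/-!
# The trivial bound for the determinant, homogeneity
-/

namespace Pool.Agent.RDF

open Polynomial NumberField IsDedekindDomain Pool.Agent.GPoly

/-- `(d - 1) ∑_{k < m} d ^ k = d ^ m - 1` -/
theorem geom_sub (d m : ℕ) (hd : 1 ≤ d) : ∑ k ∈ Finset.range m, d ^ k * (d - 1) = d ^ m - 1 := by
  obtain ⟨e, rfl⟩ : ∃ e, d = e + 1 := ⟨d - 1, by omega⟩
  have h := Finset.sum_mul (Finset.range m) (fun k => (e + 1) ^ k) e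
  rw [Nat.add_sub_cancel, ← h]
  have h1 := geom_sum_mul_add e m
  omega

/-- The bound for `P_a(z)`. -/
theorem abv_bas_le {L : Type*} [Field L] (abv : AbsoluteValue L ℝ) (d m : ℕ)
    (F G : L[X]) (a : Fin m → Fin d) (z : L × L) :
    abv (bas d m F G a z) ≤ ∏ k ∈ Finset.range m, nrm abv ((lift d F G)^[k] z) ^ (d - 1) := by
  rw [bas, map_prod, Finset.prod_range]
  refine Finset.prod_le_prod (fun k _ => abv.nonneg _) fun k _ => ?_
  rw [map_mul, map_pow, map_pow]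
  have h : (a k : ℕ) + (d - 1 - (a k : ℕ)) = d - 1 := by
    have := (a k).2
    omega
  have e : nrm abv ((lift d F G)^[(k : ℕ)] z) ^ (d - 1) =
      nrm abv ((lift d F G)^[(k : ℕ)] z) ^ (a k : ℕ) *
        nrm abv ((lift d F G)^[(k : ℕ)] z) ^ (d - 1 - (a k : ℕ)) := by
    rw [← pow_add, h]
  rw [e]
  exact mul_le_mul (pow_le_pow_left₀ (abv.nonneg _) (le_max_left _ _) _)
    (pow_le_pow_left₀ (abv.nonneg _) (le_max_right _ _) _) (pow_nonneg (abv.nonneg _) _)
    (pow_nonneg (nrm_nonneg _ _) _)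

theorem log_prod_nrm {L : Type*} [Field L] (abv : AbsoluteValue L ℝ) (d m : ℕ) (hd : 1 ≤ d)
    (F G : L[X]) (z : L × L) (hz : ∀ k, (lift d F G)^[k] z ≠ 0) :
    0 < ∏ k ∈ Finset.range m, nrm abv ((lift d F G)^[k] z) ^ (d - 1) ∧
    Real.log (∏ k ∈ Finset.range m, nrm abv ((lift d F G)^[k] z) ^ (d - 1)) =
      UU abv d m F G z := by
  have hp : ∀ k, 0 < nrm abv ((lift d F G)^[k] z) := fun k => nrm_pos abv (hz k)
  refine ⟨Finset.prod_pos fun k _ => pow_pos (hp k) _, ?_⟩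
  rw [Real.log_prod fun k _ => (pow_pos (hp k) _).ne', UU, Finset.mul_sum]
  refine Finset.sum_congr rfl fun k _ => ?_
  rw [Real.log_pow, Nat.cast_sub hd, Nat.cast_one]

/-- The bound for a term of the determinant. -/
theorem abv_term_le {L : Type*} [Field L] (abv : AbsoluteValue L ℝ) (d m : ℕ)
    (F G : L[X]) (z : Fin (d ^ m) → L × L) (σ : Equiv.Perm (Fin (d ^ m))) :
    abv (Equiv.Perm.sign σ • ∏ i, mat d m F G z (σ i) i) ≤
      ∏ i, ∏ k ∈ Finset.range m, nrm abv ((lift d F G)^[k] (z i)) ^ (d - 1) := by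
  have h1 : abv (Equiv.Perm.sign σ • ∏ i, mat d m F G z (σ i) i) =
      abv (∏ i, mat d m F G z (σ i) i) := by
    rcases Int.units_eq_one_or (Equiv.Perm.sign σ) with h | h
    · rw [h, one_smul]
    · rw [h, Units.neg_smul, one_smul, abv.map_neg]
  rw [h1, map_prod]
  have h2 := Equiv.prod_comp σ fun i =>
    ∏ k ∈ Finset.range m, nrm abv ((lift d F G)^[k] (z i)) ^ (d - 1)
  refine le_trans ?_ (le_of_eq h2)
  refine Finset.prod_le_prod (fun i _ => abv.nonneg _) fun i _ => ?_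
  exact abv_bas_le abv d m F G _ _

theorem log_det_le_arch {L : Type*} [Field L] (abv : AbsoluteValue L ℝ) (d m : ℕ) (hd : 1 ≤ d)
    (F G : L[X]) (z : Fin (d ^ m) → L × L) (hz : ∀ i k, (lift d F G)^[k] (z i) ≠ 0)
    (h0 : (mat d m F G z).det ≠ 0) :
    Real.log (abv (mat d m F G z).det) ≤
      Real.log ((d ^ m).factorial : ℝ) + ∑ i, UU abv d m F G (z i) := by
  have hle : abv (mat d m F G z).det ≤ ((d ^ m).factorial : ℝ) *
      ∏ i, ∏ k ∈ Finset.range m, nrm abv ((lift d F G)^[k] (z i)) ^ (d - 1) := by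
    rw [Matrix.det_apply]
    refine (abv.sum_le _ _).trans ((Finset.sum_le_sum fun σ _ =>
      abv_term_le abv d m F G z σ).trans (le_of_eq ?_))
    rw [Finset.sum_const, Finset.card_univ, Fintype.card_perm, Fintype.card_fin, nsmul_eq_mul]
  have hpos : 0 < abv (mat d m F G z).det := abv.pos h0
  have hf : ((d ^ m).factorial : ℝ) ≠ 0 := by exact_mod_cast Nat.factorial_ne_zero _
  have hp : ∀ i, (∏ k ∈ Finset.range m, nrm abv ((lift d F G)^[k] (z i)) ^ (d - 1)) ≠ 0 :=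
    fun i => (log_prod_nrm abv d m hd F G (z i) (hz i)).1.ne'
  refine (Real.log_le_log hpos hle).trans (le_of_eq ?_)
  rw [Real.log_mul hf (Finset.prod_ne_zero_iff.2 fun i _ => hp i), Real.log_prod fun i _ => hp i]
  congr 1
  exact Finset.sum_congr rfl fun i _ => (log_prod_nrm abv d m hd F G (z i) (hz i)).2

theorem log_det_le {L : Type*} [Field L] (abv : AbsoluteValue L ℝ) (hna : IsNonarchimedean abv)
    (d m : ℕ) (hd : 1 ≤ d) (F G : L[X]) (z : Fin (d ^ m) → L × L)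
    (hz : ∀ i k, (lift d F G)^[k] (z i) ≠ 0) (h0 : (mat d m F G z).det ≠ 0) :
    Real.log (abv (mat d m F G z).det) ≤ ∑ i, UU abv d m F G (z i) := by
  have hp : ∀ i, 0 < ∏ k ∈ Finset.range m, nrm abv ((lift d F G)^[k] (z i)) ^ (d - 1) :=
    fun i => (log_prod_nrm abv d m hd F G (z i) (hz i)).1
  have hle : abv (mat d m F G z).det ≤
      ∏ i, ∏ k ∈ Finset.range m, nrm abv ((lift d F G)^[k] (z i)) ^ (d - 1) := by
    rw [Matrix.det_apply]
    refine Finset.sum_induction _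
      (fun x => abv x ≤ ∏ i, ∏ k ∈ Finset.range m, nrm abv ((lift d F G)^[k] (z i)) ^ (d - 1))
      (fun x y hx hy => (hna x y).trans (max_le hx hy)) ?_ fun σ _ => abv_term_le abv d m F G z σ
    rw [map_zero]
    exact Finset.prod_nonneg fun i _ => (hp i).le
  refine (Real.log_le_log (abv.pos h0) hle).trans (le_of_eq ?_)
  rw [Real.log_prod fun i _ => (hp i).ne']
  exact Finset.sum_congr rfl fun i _ => (log_prod_nrm abv d m hd F G (z i) (hz i)).2

theorem UU_smul {L : Type*} [Field L] (abv : AbsoluteValue L ℝ) (d m : ℕ) (hd : 1 ≤ d)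
    (F G : L[X]) (c : L) (hc : c ≠ 0) (z : L × L) (hz : ∀ k, (lift d F G)^[k] z ≠ 0) :
    UU abv d m F G (c • z) = UU abv d m F G z + ((d : ℝ) ^ m - 1) * Real.log (abv c) := by
  have hc' : abv c ≠ 0 := (abv.pos hc).ne'
  have h1 : ∀ k, Real.log (nrm abv ((lift d F G)^[k] (c • z))) =
      Real.log (nrm abv ((lift d F G)^[k] z)) + (d : ℝ) ^ k * Real.log (abv c) := by
    intro k
    rw [iter_smul, nrm_smul, map_pow, Real.log_mul (pow_ne_zero _ hc') (nrm_pos abv (hz k)).ne',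
      Real.log_pow, Nat.cast_pow, add_comm]
  have h2 : ((d : ℝ) - 1) * ∑ k ∈ Finset.range m, (d : ℝ) ^ k = (d : ℝ) ^ m - 1 := by
    rw [mul_comm, geom_sum_mul]
  rw [UU, UU, Finset.sum_congr rfl fun k _ => h1 k, Finset.sum_add_distrib, ← Finset.sum_mul, mul_add,
    ← mul_assoc, h2]

theorem bas_smul {L : Type*} [CommRing L] (d m : ℕ) (hd : 1 ≤ d) (F G : L[X]) (a : Fin m → Fin d)
    (c : L) (z : L × L) : bas d m F G a (c • z) = c ^ (d ^ m - 1) * bas d m F G a z := by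
  have h1 : ∀ k : Fin m, ((lift d F G)^[(k : ℕ)] (c • z)).1 ^ (a k : ℕ) *
      ((lift d F G)^[(k : ℕ)] (c • z)).2 ^ (d - 1 - (a k : ℕ)) =
      c ^ (d ^ (k : ℕ) * (d - 1)) * (((lift d F G)^[(k : ℕ)] z).1 ^ (a k : ℕ) *
      ((lift d F G)^[(k : ℕ)] z).2 ^ (d - 1 - (a k : ℕ))) := by
    intro k
    have h : d - 1 = (a k : ℕ) + (d - 1 - (a k : ℕ)) := by
      have := (a k).2
      omega
    have e : c ^ (d ^ (k : ℕ) * (d - 1)) = (c ^ d ^ (k : ℕ)) ^ (a k : ℕ) *
        (c ^ d ^ (k : ℕ)) ^ (d - 1 - (a k : ℕ)) := by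
      rw [← pow_add, ← h, ← pow_mul]
    rw [iter_smul, e]
    simp only [Prod.smul_fst, Prod.smul_snd, smul_eq_mul, mul_pow]
    ring
  rw [bas, bas, Finset.prod_congr rfl fun k _ => h1 k, Finset.prod_mul_distrib,
    Finset.prod_pow_eq_pow_sum, ← geom_sub d m hd, Finset.sum_range]

theorem det_smul {L : Type*} [Field L] (d m : ℕ) (hd : 1 ≤ d) (F G : L[X])
    (c : Fin (d ^ m) → L) (z : Fin (d ^ m) → L × L) :
    (mat d m F G fun i => c i • z i).det =
      (∏ i, c i ^ (d ^ m - 1)) * (mat d m F G z).det := by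
  rw [← Matrix.det_mul_column]
  congr 1
  ext i j
  simp only [mat, Matrix.of_apply]
  exact bas_smul d m hd F G _ (c i) (z i)

end Pool.Agent.RDF
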