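import Pool.Agent.RDF.Det
import Pool.Agent.RDF.Had
import Pool.Agent.RDF.ResId

set_option autoImplicit false

/-!
# The determinant of the forms `P_a` and the inequality (*)
-/

namespace Pool.Agent.RDF

open Polynomial

theorem sum_pairs {n : ℕ} (w : Fin n → Fin n → ℝ) (hw : ∀ i j, w i j = w j i) :
    ∑ i, ∑ j ∈ Finset.univ.erase i, w i j = 2 * ∑ i, ∑ j ∈ Finset.Ioi i, w i j := by
  classical
  have h1 : ∀ i : Fin n, ∑ j ∈ Finset.univ.erase i, w i j =
      ∑ j ∈ Finset.Ioi i, w i j + ∑ j ∈ Finset.Iio i, w i j := by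
    intro i
    have h2 : Finset.univ.erase i = Finset.Ioi i ∪ Finset.Iio i := by
      ext j
      simp only [Finset.mem_erase, Finset.mem_univ, and_true, Finset.mem_union, Finset.mem_Ioi,
        Finset.mem_Iio]
      rw [ne_iff_lt_or_gt, or_comm]
    rw [h2, Finset.sum_union]
    rw [Finset.disjoint_left]
    intro j hj hj'
    exact lt_asymm (Finset.mem_Ioi.1 hj) (Finset.mem_Iio.1 hj')
  have h3 : ∑ i : Fin n, ∑ j ∈ Finset.Iio i, w i j = ∑ i, ∑ j ∈ Finset.Ioi i, w i j := by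
    rw [Finset.sum_comm' (t' := Finset.univ) (s' := fun j => Finset.Ioi j) (fun i j => by simp)]
    exact Finset.sum_congr rfl fun j _ => Finset.sum_congr rfl fun i _ => hw i j
  rw [Finset.sum_congr rfl fun i _ => h1 i, Finset.sum_add_distrib, h3]
  ring

theorem det_mat_ne_zero {L : Type*} [Field L] (d m : ℕ) (hd : 1 ≤ d) (F G : L[X])
    (hF : F.natDegree ≤ d) (hG : G.natDegree ≤ d) (hR : resultant F G d d ≠ 0)
    (z : Fin (d ^ m) → L × L) (hw : ∀ i j, i ≠ j → wedge (z i) (z j) ≠ 0) :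
    (mat d m F G z).det ≠ 0 := by
  obtain ⟨ε, hε, h⟩ := det_mat d m hd F G hF hG
  rw [h z]
  refine mul_ne_zero (mul_ne_zero ?_ (pow_ne_zero _ hR)) ?_
  · rcases hε with rfl | rfl <;> simp
  · exact Finset.prod_ne_zero_iff.2 fun i _ => Finset.prod_ne_zero_iff.2 fun j hj =>
      hw i j (Finset.mem_Ioi.1 hj).ne

/-- The logarithm of the determinant in terms of the pairs. -/
theorem log_det_eq {L : Type*} [Field L] (abv : AbsoluteValue L ℝ)
    (d m : ℕ) (hd : 1 ≤ d) (F G : L[X]) (hF : F.natDegree ≤ d) (hG : G.natDegree ≤ d)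
    (hR : resultant F G d d ≠ 0) (z : Fin (d ^ m) → L × L)
    (hw : ∀ i j, i ≠ j → wedge (z i) (z j) ≠ 0) :
    2 * Real.log (abv (mat d m F G z).det) =
      2 * (rr d m * Real.log (abv (resultant F G d d))) +
      ∑ i, ∑ j ∈ Finset.univ.erase i, Real.log (abv (wedge (z i) (z j))) := by
  obtain ⟨ε, hε, h⟩ := det_mat d m hd F G hF hG
  have hε1 : abv ε = 1 := by
    rcases hε with rfl | rfl
    · exact abv.map_one
    · rw [abv.map_neg, abv.map_one]
  have h1 : ∀ i, ∀ j ∈ Finset.Ioi i, abv (wedge (z i) (z j)) ≠ 0 := fun i j hj =>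
    (abv.ne_zero_iff).2 (hw i j (Finset.mem_Ioi.1 hj).ne)
  have hR1 : abv (resultant F G d d) ≠ 0 := (abv.ne_zero_iff).2 hR
  rw [sum_pairs (fun i j => Real.log (abv (wedge (z i) (z j)))) (fun i j => by
    rw [wedge_comm, abv.map_neg]), h z, map_mul, map_mul, hε1, one_mul, map_pow, map_prod,
    Real.log_mul (pow_ne_zero _ hR1)
      (Finset.prod_ne_zero_iff.2 fun i _ => by
        rw [map_prod]
        exact Finset.prod_ne_zero_iff.2 (h1 i)), Real.log_pow,
    Real.log_prod (fun i _ => by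
      rw [map_prod]
      exact Finset.prod_ne_zero_iff.2 (h1 i))]
  have h2 : ∀ i : Fin (d ^ m), Real.log (abv (∏ j ∈ Finset.Ioi i, wedge (z i) (z j))) =
      ∑ j ∈ Finset.Ioi i, Real.log (abv (wedge (z i) (z j))) := fun i => by
    rw [map_prod, Real.log_prod (h1 i)]
  rw [Finset.sum_congr rfl fun i _ => h2 i]
  ring

/-- The inequality (*) for a family indexed by any finite type. -/
theorem star {L : Type*} [Field L] (abv : AbsoluteValue L ℝ) (hna : IsNonarchimedean abv)
    (d m : ℕ) (hd : 1 ≤ d) (F G : L[X]) (hF : F.natDegree ≤ d) (hG : G.natDegree ≤ d)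
    (hR : resultant F G d d ≠ 0) {ι : Type*} [Fintype ι] [DecidableEq ι]
    (hι : Fintype.card ι = d ^ m) (z : ι → L × L) (hz : ∀ i, z i ≠ 0)
    (hw : ∀ i j, i ≠ j → wedge (z i) (z j) ≠ 0) :
    2 * (rr d m * Real.log (abv (resultant F G d d))) +
      ∑ i, ∑ j ∈ Finset.univ.erase i, Real.log (abv (wedge (z i) (z j))) ≤
      2 * ∑ i, UU abv d m F G (z i) := by
  obtain ⟨e⟩ : Nonempty (Fin (d ^ m) ≃ ι) := ⟨(Fintype.equivFinOfCardEq hι).symm⟩
  have hw' : ∀ i j, i ≠ j → wedge (z (e i)) (z (e j)) ≠ 0 := fun i j hij =>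
    hw _ _ (e.injective.ne hij)
  have h0 := det_mat_ne_zero d m hd F G hF hG hR (fun i => z (e i)) hw'
  have h1 := log_det_eq abv d m hd F G hF hG hR (fun i => z (e i)) hw'
  have h2 := log_det_le abv hna d m hd F G (fun i => z (e i))
    (fun i k => iter_ne_zero d hd F G hF hG hR k (hz (e i))) h0
  have h3 : ∑ i, UU abv d m F G (z (e i)) = ∑ i, UU abv d m F G (z i) :=
    e.sum_comp fun i => UU abv d m F G (z i)
  have h4 : ∑ i, ∑ j ∈ Finset.univ.erase i, Real.log (abv (wedge (z (e i)) (z (e j)))) =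
      ∑ i, ∑ j ∈ Finset.univ.erase i, Real.log (abv (wedge (z i) (z j))) := by
    rw [← e.sum_comp fun i => ∑ j ∈ Finset.univ.erase i, Real.log (abv (wedge (z i) (z j)))]
    refine Finset.sum_congr rfl fun i _ => ?_
    have h5 : (Finset.univ.erase i).map e.toEmbedding = Finset.univ.erase (e i) := by
      ext j
      simp only [Finset.mem_map_equiv, Finset.mem_erase, Finset.mem_univ, and_true, ne_eq,
        Equiv.symm_apply_eq]
    rw [← h5, Finset.sum_map]
    rfl
  rw [h3] at h2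
  rw [h4] at h1
  linarith

end Pool.Agent.RDF
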