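import Pool.Agent.RDF.Had
import Pool.Agent.RDF.LocI
import Pool.Agent.RDF.ResId
import Pool.Agent.RDF.Star

set_option autoImplicit false

/-!
# The local estimate: primitive representatives, and case (i)
-/

namespace Pool.Agent.RDF

open Polynomial NumberField IsDedekindDomain Pool.Agent.GPoly

/-- The wedge of two vectors of norm one has size at most one. -/
theorem abv_wedge_le_one {L : Type*} [Field L] (abv : AbsoluteValue L ℝ)
    (hna : IsNonarchimedean abv) (p q : L × L) (hp : nrm abv p = 1) (hq : nrm abv q = 1) :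
    abv (wedge p q) ≤ 1 := by
  have h1 : abv p.1 ≤ 1 := hp ▸ le_max_left _ _
  have h2 : abv p.2 ≤ 1 := hp ▸ le_max_right _ _
  have h3 : abv q.1 ≤ 1 := hq ▸ le_max_left _ _
  have h4 : abv q.2 ≤ 1 := hq ▸ le_max_right _ _
  have h := hna (p.1 * q.2) (-(q.1 * p.2))
  rw [abv.map_neg, map_mul, map_mul, ← sub_eq_add_neg] at h
  refine h.trans (max_le ?_ ?_)
  · exact mul_le_one₀ h1 (abv.nonneg _) h4
  · exact mul_le_one₀ h3 (abv.nonneg _) h2

/-- A nonzero vector has a multiple of norm one. -/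
theorem exists_prim {L : Type*} [Field L] (abv : AbsoluteValue L ℝ) (p : L × L) (hp : p ≠ 0) :
    ∃ c : L, c ≠ 0 ∧ nrm abv (c • p) = 1 := by
  have hpos := nrm_pos abv hp
  rcases le_total (abv p.1) (abv p.2) with h | h
  · have e : nrm abv p = abv p.2 := max_eq_right h
    have h2 : p.2 ≠ 0 := abv.pos_iff.1 (e ▸ hpos)
    refine ⟨p.2⁻¹, inv_ne_zero h2, ?_⟩
    rw [nrm_smul, e, ← map_mul, inv_mul_cancel₀ h2, map_one]
  · have e : nrm abv p = abv p.1 := max_eq_left h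
    have h2 : p.1 ≠ 0 := abv.pos_iff.1 (e ▸ hpos)
    refine ⟨p.1⁻¹, inv_ne_zero h2, ?_⟩
    rw [nrm_smul, e, ← map_mul, inv_mul_cancel₀ h2, map_one]

/-- It suffices to bound the determinant for vectors of norm one. -/
theorem of_prim {L : Type*} [Field L] (abv : AbsoluteValue L ℝ) (d m : ℕ) (hd : 1 ≤ d)
    (F G : L[X]) (hF : F.natDegree ≤ d) (hG : G.natDegree ≤ d) (hR : resultant F G d d ≠ 0)
    (E : ℝ)
    (h : ∀ z : Fin (d ^ m) → L × L, (∀ i, nrm abv (z i) = 1) →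
      (∀ i j, i ≠ j → wedge (z i) (z j) ≠ 0) →
      Real.log (abv (mat d m F G z).det) ≤ ∑ i, UU abv d m F G (z i) - E)
    (z : Fin (d ^ m) → L × L) (hz : ∀ i, z i ≠ 0) (hw : ∀ i j, i ≠ j → wedge (z i) (z j) ≠ 0) :
    Real.log (abv (mat d m F G z).det) ≤ ∑ i, UU abv d m F G (z i) - E := by
  choose c hc hc1 using fun i => exists_prim abv (z i) (hz i)
  have hw' : ∀ i j, i ≠ j → wedge (c i • z i) (c j • z j) ≠ 0 := fun i j hij => by
    rw [wedge_smul_left, wedge_smul_right]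
    exact mul_ne_zero (hc i) (mul_ne_zero (hc j) (hw i j hij))
  have h1 := h (fun i => c i • z i) hc1 hw'
  have hdet := det_mat_ne_zero d m hd F G hF hG hR z hw
  have hcp : ∀ i, abv (c i) ^ (d ^ m - 1) ≠ 0 := fun i => pow_ne_zero _ (abv.pos (hc i)).ne'
  have hT : ((d ^ m - 1 : ℕ) : ℝ) = (d : ℝ) ^ m - 1 := by
    rw [Nat.cast_sub (Nat.one_le_pow _ _ (by omega)), Nat.cast_pow, Nat.cast_one]
  have h2 : Real.log (abv (mat d m F G fun i => c i • z i).det) =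
      ∑ i, ((d : ℝ) ^ m - 1) * Real.log (abv (c i)) + Real.log (abv (mat d m F G z).det) := by
    rw [det_smul d m hd, map_mul, map_prod, Real.log_mul ?_ (abv.pos hdet).ne', Real.log_prod]
    · congr 1
      refine Finset.sum_congr rfl fun i _ => ?_
      rw [map_pow, Real.log_pow, hT]
    · intro i _
      rw [map_pow]
      exact hcp i
    · refine Finset.prod_ne_zero_iff.2 fun i _ => ?_
      rw [map_pow]
      exact hcp i
  have h3 : ∑ i, UU abv d m F G (c i • z i) =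
      ∑ i, UU abv d m F G (z i) + ∑ i, ((d : ℝ) ^ m - 1) * Real.log (abv (c i)) := by
    rw [← Finset.sum_add_distrib]
    refine Finset.sum_congr rfl fun i _ => ?_
    exact UU_smul abv d m hd F G (c i) (hc i) (z i) fun k =>
      iter_ne_zero d hd F G hF hG hR k (hz i)
  rw [h2, h3] at h1
  linarith

/-- The exponent of the resultant, from below. -/
theorem le_rr (d m : ℕ) (hd : 2 ≤ d) (κ C : ℝ) (hκ : κ * (2 * d ^ 2) ≤ 1) (hC : 1 ≤ C) :
    κ * ((d : ℝ) ^ m) ^ 2 - C * (m + 1) * (d : ℝ) ^ m ≤ rr d m := by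
  have h := rr_closed d m (by omega)
  have hT1 : 1 ≤ d ^ m := Nat.one_le_pow _ _ (by omega)
  have h' : (2 : ℝ) * d * (d - 1) * rr d m + m * (d - 1) * (d : ℝ) ^ m =
      (d : ℝ) ^ m * ((d : ℝ) ^ m - 1) := by
    have := congrArg (fun n : ℕ => (n : ℝ)) h
    push_cast [Nat.cast_sub (show 1 ≤ d by omega), Nat.cast_sub hT1] at this
    exact this
  set T : ℝ := (d : ℝ) ^ m with hT
  have hT1' : (1 : ℝ) ≤ T := by
    have : (1 : ℝ) ≤ ((d ^ m : ℕ) : ℝ) := by exact_mod_cast hT1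
    simpa [hT] using this
  have hd' : (2 : ℝ) ≤ d := by exact_mod_cast hd
  have hm : (0 : ℝ) ≤ m := Nat.cast_nonneg m
  have hpos : (0 : ℝ) < 2 * d * (d - 1) := by nlinarith
  -- multiply by `2 d (d - 1)`
  by_contra hlt
  push Not at hlt
  have h1 : (2 : ℝ) * d * (d - 1) * rr d m < 2 * d * (d - 1) * (κ * T ^ 2 - C * (m + 1) * T) :=
    mul_lt_mul_of_pos_left hlt hpos
  have h2 : 2 * d * (d - 1) * (κ * T ^ 2) ≤ T ^ 2 := by
    rcases le_or_gt κ 0 with h0 | h0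
    · have : 2 * d * (d - 1) * (κ * T ^ 2) ≤ 0 :=
        mul_nonpos_of_nonneg_of_nonpos hpos.le (mul_nonpos_of_nonpos_of_nonneg h0 (sq_nonneg _))
      exact this.trans (sq_nonneg _)
    · have h3 : 2 * d * ((d : ℝ) - 1) * κ ≤ 1 := by nlinarith
      calc 2 * d * (d - 1) * (κ * T ^ 2) = (2 * d * ((d : ℝ) - 1) * κ) * T ^ 2 := by ring
        _ ≤ 1 * T ^ 2 := mul_le_mul_of_nonneg_right h3 (sq_nonneg _)
        _ = T ^ 2 := one_mul _
  have h4 : (m * (d - 1) + 1 : ℝ) * T ≤ 2 * d * (d - 1) * (C * (m + 1) * T) := by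
    have h5 : (m * (d - 1) + 1 : ℝ) ≤ 2 * d * (d - 1) * (C * (m + 1)) := by
      have h6 : (m * (d - 1) + 1 : ℝ) ≤ 2 * d * (d - 1) * (1 * (m + 1)) := by
        have h7 : 0 ≤ (m : ℝ) * ((d - 1) * (2 * d - 1)) :=
          mul_nonneg hm (mul_nonneg (by linarith) (by linarith))
        have h8 : (1 : ℝ) ≤ 2 * d * (d - 1) := by nlinarith
        linarith
      refine h6.trans (mul_le_mul_of_nonneg_left ?_ hpos.le)
      exact mul_le_mul_of_nonneg_right hC (by linarith)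
    calc (m * (d - 1) + 1 : ℝ) * T ≤ (2 * d * (d - 1) * (C * (m + 1))) * T :=
          mul_le_mul_of_nonneg_right h5 (by linarith)
      _ = _ := by ring
  nlinarith

/-- Case (i): no common zero over the residue field. -/
theorem local_prim_i {K : Type} [Field K] [NumberField K] (d m : ℕ) (hd : 2 ≤ d)
    (F G : (𝓞 K)[X]) (hF : F.natDegree ≤ d) (hG : G.natDegree ≤ d) (hR : resultant F G d d ≠ 0)
    (v : HeightOneSpectrum (𝓞 K))
    (hdef : ¬ ∃ p : (𝓞 K ⧸ v.asIdeal) × (𝓞 K ⧸ v.asIdeal), p ≠ 0 ∧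
      lift d (F.map (Ideal.Quotient.mk v.asIdeal)) (G.map (Ideal.Quotient.mk v.asIdeal)) p = 0)
    (κ C : ℝ) (hκ : κ * (2 * d ^ 2) ≤ 1) (hC : 1 ≤ C)
    (z : Fin (d ^ m) → K × K) (hz : ∀ i, nrm (av v) (z i) = 1)
    (hw : ∀ i j, i ≠ j → wedge (z i) (z j) ≠ 0) :
    Real.log (av v (mat d m (F.map (algebraMap (𝓞 K) K)) (G.map (algebraMap (𝓞 K) K)) z).det) ≤
      ∑ i, UU (av v) d m (F.map (algebraMap (𝓞 K) K)) (G.map (algebraMap (𝓞 K) K)) (z i) -
      (κ * ((d : ℝ) ^ m) ^ 2 - C * (m + 1) * (d : ℝ) ^ m) *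
        (-Real.log (av v (algebraMap (𝓞 K) K (resultant F G d d)))) := by
  have hd1 : 1 ≤ d := by omega
  have hinj := RingOfIntegers.coe_injective (K := K)
  have hF' : (F.map (algebraMap (𝓞 K) K)).natDegree ≤ d := natDegree_map_le.trans hF
  have hG' : (G.map (algebraMap (𝓞 K) K)).natDegree ≤ d := natDegree_map_le.trans hG
  have hRm : resultant (F.map (algebraMap (𝓞 K) K)) (G.map (algebraMap (𝓞 K) K)) d d =
      algebraMap (𝓞 K) K (resultant F G d d) := resultant_map_map _ _ _ _ _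
  have hR' : resultant (F.map (algebraMap (𝓞 K) K)) (G.map (algebraMap (𝓞 K) K)) d d ≠ 0 := by
    rw [hRm]
    exact (map_ne_zero_iff _ hinj).2 hR
  have h1 := log_det_eq (av v) d m hd1 _ _ hF' hG' hR' z hw
  have h2 : ∑ i, UU (av v) d m (F.map (algebraMap (𝓞 K) K)) (G.map (algebraMap (𝓞 K) K)) (z i) = 0 :=
    Finset.sum_eq_zero fun i _ => UU_eq_zero d m hd1 F G v hdef (z i) (hz i)
  have h3 : ∑ i, ∑ j ∈ Finset.univ.erase i, Real.log (av v (wedge (z i) (z j))) ≤ 0 :=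
    Finset.sum_nonpos fun i _ => Finset.sum_nonpos fun j _ =>
      Real.log_nonpos ((av v).nonneg _) (abv_wedge_le_one _ (av_nonarch v) _ _ (hz i) (hz j))
  have h4 : 0 ≤ -Real.log (av v (algebraMap (𝓞 K) K (resultant F G d d))) := by
    rw [neg_nonneg]
    exact Real.log_nonpos ((av v).nonneg _) (av_int_le_one v _)
  rw [hRm] at h1
  rw [h2]
  have h5 := mul_le_mul_of_nonneg_right (le_rr d m hd κ C hκ hC) h4
  linarith

/-- Case (i), for all vectors. -/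
theorem local_defect_i' {K : Type} [Field K] [NumberField K] (d m : ℕ) (hd : 2 ≤ d)
    (F G : (𝓞 K)[X]) (hF : F.natDegree ≤ d) (hG : G.natDegree ≤ d) (hR : resultant F G d d ≠ 0)
    (v : HeightOneSpectrum (𝓞 K))
    (hdef : ¬ ∃ p : (𝓞 K ⧸ v.asIdeal) × (𝓞 K ⧸ v.asIdeal), p ≠ 0 ∧
      lift d (F.map (Ideal.Quotient.mk v.asIdeal)) (G.map (Ideal.Quotient.mk v.asIdeal)) p = 0)
    (κ C : ℝ) (hκ : κ * (2 * d ^ 2) ≤ 1) (hC : 1 ≤ C)
    (z : Fin (d ^ m) → K × K) (hz : ∀ i, z i ≠ 0)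
    (hw : ∀ i j, i ≠ j → wedge (z i) (z j) ≠ 0) :
    Real.log (av v (mat d m (F.map (algebraMap (𝓞 K) K)) (G.map (algebraMap (𝓞 K) K)) z).det) ≤
      ∑ i, UU (av v) d m (F.map (algebraMap (𝓞 K) K)) (G.map (algebraMap (𝓞 K) K)) (z i) -
      (κ * ((d : ℝ) ^ m) ^ 2 - C * (m + 1) * (d : ℝ) ^ m) *
        (-Real.log (av v (algebraMap (𝓞 K) K (resultant F G d d)))) := by
  refine of_prim (av v) d m (by omega) _ _ (natDegree_map_le.trans hF)
    (natDegree_map_le.trans hG) ?_ _ (fun z hz hw =>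
      local_prim_i d m hd F G hF hG hR v hdef κ C hκ hC z hz hw) z hz hw
  rw [resultant_map_map]
  exact (map_ne_zero_iff _ (RingOfIntegers.coe_injective)).2 hR

/-- `local_defect` for the first alternative. -/
theorem local_defect_i (d : ℕ) (hd : 2 ≤ d) : ∃ κ C : ℝ, 0 < κ ∧ 0 ≤ C ∧
    ∀ (K : Type) [Field K] [NumberField K] (F G : (𝓞 K)[X]), F.natDegree ≤ d → G.natDegree ≤ d →
      resultant F G d d ≠ 0 → ∀ v : HeightOneSpectrum (𝓞 K), 
      (¬ ∃ p : (𝓞 K ⧸ v.asIdeal) × (𝓞 K ⧸ v.asIdeal), p ≠ 0 ∧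
        lift d (F.map (Ideal.Quotient.mk v.asIdeal)) (G.map (Ideal.Quotient.mk v.asIdeal)) p = 0) →
      ∀ (m : ℕ) (z : Fin (d ^ m) → K × K), (∀ i, z i ≠ 0) →
      (∀ i j, i ≠ j → wedge (z i) (z j) ≠ 0) →
      Real.log (av v (mat d m (F.map (algebraMap (𝓞 K) K)) (G.map (algebraMap (𝓞 K) K)) z).det) ≤
        ∑ i, UU (av v) d m (F.map (algebraMap (𝓞 K) K)) (G.map (algebraMap (𝓞 K) K)) (z i) -
        (κ * ((d : ℝ) ^ m) ^ 2 - C * (m + 1) * (d : ℝ) ^ m) *
          (-Real.log (av v (algebraMap (𝓞 K) K (resultant F G d d)))) := by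
  have hd' : (2 : ℝ) ≤ d := by exact_mod_cast hd
  refine ⟨1 / (2 * d ^ 2), 1, by positivity, zero_le_one, fun K _ _ F G hF hG hR v hdef m z hz hw =>
    local_defect_i' d m hd F G hF hG hR v hdef _ 1 ?_ le_rfl z hz hw⟩
  rw [div_mul_cancel₀]
  positivity

end Pool.Agent.RDF
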