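import Pool.Agent.RDF.NResP

set_option autoImplicit false

/-!
# Auxiliary points above a prime of `K`, for the points of bounded degree
-/

namespace Pool.Agent.RDF

open NumberField IsDedekindDomain Polynomial Pool.Agent.GPoly

variable {K L : Type} [Field K] [NumberField K] [Field L] [NumberField L] [Algebra K L]

/-- the auxiliary points over `L` -/
theorem exists_auxN {v : HeightOneSpectrum (𝓞 K)} {w : HeightOneSpectrum (𝓞 L)} (hvw : Above v w)
    (N : ℕ) (h : (𝓞 K ⧸ v.asIdeal)[X]) (hirr : Irreducible h) (hdeg : N < h.natDegree) (π : 𝓞 K)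
    (hπ : π ∈ v.asIdeal)
    (hmax : ∀ a ∈ v.asIdeal, av w (algebraMap (𝓞 K) L a) ≤ av w (algebraMap (𝓞 K) L π)) (M : ℕ) :
    ∃ (Ω : Type) (_ : Field Ω) (_ : IsAlgClosed Ω) (abv : AbsoluteValue Ω ℝ) (ι : L →+* Ω)
      (y : Fin M → Ω), IsNonarchimedean abv ∧ (∀ x, abv (ι x) = av w x) ∧
      (∀ n : ℕ, ∃ t : Fin n → Ω, (∀ i, abv (t i) ≤ 1) ∧ ∀ i j, i ≠ j → abv (t i - t j) = 1) ∧
      (∀ l, abv (y l) ≤ 1) ∧
      (∀ l l', l ≠ l' → abv (y l - y l') = av w (algebraMap (𝓞 K) L π)) ∧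
      (∀ l (x : L × L), DegLe K N x → abv (ι x.1 - ι x.2 * y l) = nrm (av w) x) ∧
      (∀ l (A : (𝓞 K)[X]), h ∣ A.map (Ideal.Quotient.mk v.asIdeal) →
        abv (A.eval₂ (ι.comp (algebraMap (𝓞 K) L)) (y l)) ≤ av w (algebraMap (𝓞 K) L π)) := by
  classical
  obtain ⟨Ω, _, _, φ, B, hna, hB⟩ := aux_ext w
  obtain ⟨n₀, hMN, hNp, hNv⟩ := aux_prime w M
  have hBN : B (n₀ : Ω) = 1 := by
    have h1 := hB (algebraMap (𝓞 L) L (n₀ : 𝓞 L))
    rw [(av_int_eq_one w _).2 hNv] at h1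
    rw [← h1]
    congr 1
    simp
  have _i : NeZero ((n₀ : ℕ) : Ω) := ⟨fun h0 => by
    rw [h0, map_zero] at hBN
    exact zero_ne_one hBN⟩
  obtain ⟨ζ, hζ⟩ := HasEnoughRootsOfUnity.exists_primitiveRoot Ω n₀
  obtain ⟨hζ1, hζ2⟩ := aux_zeta B hna n₀ hNp.one_lt.le hBN ζ hζ
  set f : 𝓞 K →+* Ω := φ.comp (algebraMap (𝓞 K) L) with hf
  have hfv : ∀ a : 𝓞 K, B (f a) = av w (algebraMap (𝓞 K) L a) := fun a => hB _
  have htower : ∀ a : 𝓞 K, algebraMap (𝓞 K) L a =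
      algebraMap (𝓞 L) L (algebraMap (𝓞 K) (𝓞 L) a) := fun a =>
    IsScalarTower.algebraMap_apply (𝓞 K) (𝓞 L) L a
  have hBf : ∀ a : 𝓞 K, B (f a) ≤ 1 := fun a => by
    rw [hfv, htower]
    exact av_int_le_one w _
  have hcf : ∀ (p : (𝓞 K)[X]) i, B ((p.map f).coeff i) ≤ 1 := fun p i => by
    rw [coeff_map]
    exact hBf _
  -- the size of `π`
  set ϖ : Ω := f π with hϖ
  set r : ℝ := av w (algebraMap (𝓞 K) L π) with hr
  have hϖB : B ϖ = r := hfv π
  have hr1 : r < 1 := by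
    rw [hr, htower]
    exact (av_int_lt_one w _).mpr (hvw π hπ)
  have hr0 : 0 ≤ r := (av w).nonneg _
  -- a monic lift of `h`
  let _ : Field (𝓞 K ⧸ v.asIdeal) := Ideal.Quotient.field v.asIdeal
  set hn : (𝓞 K ⧸ v.asIdeal)[X] := C (h.leadingCoeff)⁻¹ * h with hhn
  have hlc : h.leadingCoeff ≠ 0 := leadingCoeff_ne_zero.mpr hirr.ne_zero
  have hnm : hn.Monic := by
    rw [Monic, hhn, leadingCoeff_mul, leadingCoeff_C, inv_mul_cancel₀ hlc]
  have hass : Associated hn h :=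
    associated_of_dvd_dvd ⟨C h.leadingCoeff, by
      rw [hhn, mul_comm, ← mul_assoc, ← C_mul, mul_inv_cancel₀ hlc, C_1, one_mul]⟩
      (Dvd.intro_left _ rfl)
  have hnd : hn.natDegree = h.natDegree := natDegree_eq_of_degree_eq (degree_eq_degree_of_associated hass)
  have hsurj : Function.Surjective (Ideal.Quotient.mk v.asIdeal) := Ideal.Quotient.mk_surjective
  obtain ⟨H, hH, hHd, hHm⟩ := Polynomial.lifts_and_degree_eq_and_monic
    (Polynomial.mem_lifts_of_surjective hsurj hn) hnm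
  have hHn : H.natDegree = h.natDegree := (natDegree_eq_of_degree_eq hHd).trans hnd
  have hmf : (H.map f).Monic := hHm.map f
  obtain ⟨y₀, hy₀⟩ := IsAlgClosed.exists_root (H.map f) (by
    intro h0
    rw [degree_eq_natDegree hmf.ne_zero, hHm.natDegree_map] at h0
    have : H.natDegree = 0 := by exact_mod_cast h0
    omega)
  have hy₀' : (H.map f).eval y₀ = 0 := hy₀
  have hy1 : B y₀ ≤ 1 := aux_root_le B hna _ hmf (hcf H) y₀ hy₀'
  have hζp : ∀ l : ℕ, B (ϖ * ζ ^ l) = r := fun l => by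
    rw [map_mul, map_pow B ζ l, hζ1, one_pow, mul_one, hϖB]
  have hyl : ∀ l : ℕ, B (y₀ + ϖ * ζ ^ l) ≤ 1 := fun l =>
    (hna _ _).trans (max_le hy1 ((hζp l).le.trans hr1.le))
  have hirrn : Irreducible hn := hass.irreducible_iff.mpr hirr
  have key : ∀ (l : ℕ) (E : IntermediateField K L) (_ : Module.finrank K E ≤ N) (x : L) (_ : x ∈ E),
      av w x ≤ 1 → B (φ x - (y₀ + ϖ * ζ ^ l)) = 1 := by
    intro l E hE x hxE hx
    refine le_antisymm ((aux_sub_le B hna _ _).trans (max_le (by rw [hB]; exact hx) (hyl l))) ?_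
    by_contra hlt
    push Not at hlt
    have h1 : B (φ x - y₀) < 1 := by
      have e : φ x - y₀ = (φ x - (y₀ + ϖ * ζ ^ l)) + ϖ * ζ ^ l := by ring
      rw [e]
      refine lt_of_le_of_lt (hna _ _) (max_lt hlt ?_)
      rw [hζp]
      exact hr1
    have h2 := aux_eval_sub_le B hna (H.map f) (hcf H) (φ x) y₀ (by rw [hB]; exact hx) hy1
    have h3 : (H.map f).eval (φ x) = φ (H.eval₂ (algebraMap (𝓞 K) L) x) := by
      rw [eval_map, hf, hom_eval₂]
    rw [hy₀', sub_zero, h3, hB] at h2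
    obtain ⟨p, hp, hpN, hpd⟩ := exists_resPoly hvw N E hE x hxE hx
    have h4 := hpd H (lt_of_le_of_lt h2 h1)
    rw [hH] at h4
    have h5 : Associated p hn := hp.associated_of_dvd hirrn h4
    have h6 := natDegree_eq_of_degree_eq (degree_eq_degree_of_associated h5)
    omega
  refine ⟨Ω, inferInstance, inferInstance, B, φ, fun l => y₀ + ϖ * ζ ^ (l : ℕ), hna, hB, ?_,
    fun l => hyl l, ?_, ?_, ?_⟩
  · intro n
    obtain ⟨n', hn', hnp, hnv⟩ := aux_prime w n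
    have hBn : B (n' : Ω) = 1 := by
      have h1 := hB (algebraMap (𝓞 L) L (n' : 𝓞 L))
      rw [(av_int_eq_one w _).2 hnv] at h1
      rw [← h1]
      congr 1
      simp
    have _j : NeZero ((n' : ℕ) : Ω) := ⟨fun h0 => by
      rw [h0, map_zero] at hBn
      exact zero_ne_one hBn⟩
    obtain ⟨η, hη⟩ := HasEnoughRootsOfUnity.exists_primitiveRoot Ω n'
    obtain ⟨hη1, hη2⟩ := aux_zeta B hna n' hnp.one_lt.le hBn η hη
    refine ⟨fun i => η ^ (i : ℕ), fun i => ?_, fun i j hij => ?_⟩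
    · show B (η ^ (i : ℕ)) ≤ 1
      rw [map_pow, hη1, one_pow]
    · exact hη2 _ _ (by omega) (by omega) (fun e => hij (Fin.ext e))
  · intro l l' hl
    have e : y₀ + ϖ * ζ ^ (l : ℕ) - (y₀ + ϖ * ζ ^ (l' : ℕ)) =
        ϖ * (ζ ^ (l : ℕ) - ζ ^ (l' : ℕ)) := by ring
    show B (y₀ + ϖ * ζ ^ (l : ℕ) - (y₀ + ϖ * ζ ^ (l' : ℕ))) = _
    rw [e, map_mul, hζ2 _ _ (by omega) (by omega) (fun h => hl (Fin.ext h)), mul_one, hϖB]
  · rintro l ⟨x₁, x₂⟩ ⟨E, hE, hx₁, hx₂⟩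
    show B (φ x₁ - φ x₂ * (y₀ + ϖ * ζ ^ (l : ℕ))) = max (av w x₁) (av w x₂)
    rcases lt_or_ge (av w x₂) (av w x₁) with hlt | hle
    · rw [max_eq_left hlt.le, ← hB x₁]
      refine aux_sub_eq B hna ?_
      rw [map_mul, hB, hB]
      calc av w x₂ * B (y₀ + ϖ * ζ ^ (l : ℕ)) ≤ av w x₂ * 1 :=
            mul_le_mul_of_nonneg_left (hyl l) ((av w).nonneg _)
        _ = av w x₂ := mul_one _
        _ < av w x₁ := hlt
    · rw [max_eq_right hle]
      by_cases hx2 : x₂ = 0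
      · subst hx2
        rw [map_zero] at hle
        have : x₁ = 0 := (av w).eq_zero.1 (le_antisymm hle ((av w).nonneg _))
        subst this
        simp
      · have hpos : 0 < av w x₂ := (av w).pos hx2
        have e : φ x₁ - φ x₂ * (y₀ + ϖ * ζ ^ (l : ℕ)) =
            φ x₂ * (φ (x₁ / x₂) - (y₀ + ϖ * ζ ^ (l : ℕ))) := by
          rw [mul_sub, ← map_mul, mul_div_cancel₀ _ hx2]
        rw [e, map_mul, hB, key l E hE (x₁ / x₂) (E.div_mem hx₁ hx₂) (by
          rw [map_div₀]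
          exact (div_le_one hpos).2 hle), mul_one]
  · rintro l A hA
    show B (A.eval₂ f (y₀ + ϖ * ζ ^ (l : ℕ))) ≤ _
    obtain ⟨qb, hqb⟩ := hass.dvd.trans hA
    obtain ⟨q, hq⟩ := Polynomial.map_surjective _ hsurj qb
    have hco : ∀ i, (A - q * H).coeff i ∈ v.asIdeal := by
      intro i
      have h1 : (A - q * H).map (Ideal.Quotient.mk v.asIdeal) = 0 := by
        rw [Polynomial.map_sub, Polynomial.map_mul, hq, hH, hqb, mul_comm qb, sub_self]
      have h2 := congrArg (fun p => p.coeff i) h1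
      simp only [coeff_map, coeff_zero] at h2
      exact Ideal.Quotient.eq_zero_iff_mem.mp h2
    have e : A.eval₂ f (y₀ + ϖ * ζ ^ (l : ℕ)) =
        ((A - q * H).map f).eval (y₀ + ϖ * ζ ^ (l : ℕ)) +
          (q.map f).eval (y₀ + ϖ * ζ ^ (l : ℕ)) * (H.map f).eval (y₀ + ϖ * ζ ^ (l : ℕ)) := by
      rw [← eval_map, ← eval_mul, ← Polynomial.map_mul, ← eval_add, ← Polynomial.map_add,
        sub_add_cancel]
    rw [e]
    refine (hna _ _).trans (max_le ?_ ?_)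
    · refine aux_eval_le B hna _ _ hr0 (fun i => ?_) _ (hyl l)
      rw [coeff_map, hfv]
      exact hmax _ (hco i)
    · rw [map_mul]
      have h1 : B ((q.map f).eval (y₀ + ϖ * ζ ^ (l : ℕ))) ≤ 1 :=
        aux_eval_le B hna _ _ zero_le_one (hcf q) _ (hyl l)
      have h2 := aux_eval_sub_le B hna (H.map f) (hcf H) (y₀ + ϖ * ζ ^ (l : ℕ)) y₀ (hyl l) hy1
      rw [hy₀', sub_zero, add_sub_cancel_left, hζp] at h2
      calc B ((q.map f).eval (y₀ + ϖ * ζ ^ (l : ℕ))) * B ((H.map f).eval (y₀ + ϖ * ζ ^ (l : ℕ)))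
          ≤ 1 * r := mul_le_mul h1 h2 (B.nonneg _) zero_le_one
        _ = _ := one_mul _

end Pool.Agent.RDF
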