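import Pool.Agent.RDF.ResId

set_option autoImplicit false

/-!
# The upper bound for `UU` at an auxiliary point
-/

namespace Pool.Agent.RDF

open Polynomial

section

variable {L : Type*} [Field L] (abv : AbsoluteValue L ℝ)

theorem sum_le_of_na (hna : IsNonarchimedean abv) {ι : Type*} (s : Finset ι) (f : ι → L) (B : ℝ)
    (hB : 0 ≤ B) (h : ∀ i ∈ s, abv (f i) ≤ B) : abv (∑ i ∈ s, f i) ≤ B := by
  refine Finset.sum_induction f (fun x => abv x ≤ B) (fun a b ha hb => ?_) ?_ h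
  · exact (hna a b).trans (max_le ha hb)
  · simpa using hB

theorem form_le (hna : IsNonarchimedean abv) (d : ℕ) (F : L[X])
    (hBF : ∀ i, abv (F.coeff i) ≤ 1) (p : L × L) : abv (form d F p) ≤ nrm abv p ^ d := by
  refine sum_le_of_na abv hna _ _ _ (pow_nonneg (nrm_nonneg abv p) d) fun i hi => ?_
  have hid : i + (d - i) = d := Nat.add_sub_cancel' (by simpa [Nat.lt_succ_iff] using hi)
  rw [map_mul, map_mul, map_pow, map_pow]
  have h1 : abv p.1 ^ i ≤ nrm abv p ^ i := pow_le_pow_left₀ (abv.nonneg _) (le_max_left _ _) i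
  have h2 : abv p.2 ^ (d - i) ≤ nrm abv p ^ (d - i) :=
    pow_le_pow_left₀ (abv.nonneg _) (le_max_right _ _) _
  have h3 : abv (F.coeff i) * abv p.1 ^ i ≤ 1 * nrm abv p ^ i :=
    mul_le_mul (hBF i) h1 (pow_nonneg (abv.nonneg _) _) zero_le_one
  calc abv (F.coeff i) * abv p.1 ^ i * abv p.2 ^ (d - i)
      ≤ (1 * nrm abv p ^ i) * nrm abv p ^ (d - i) :=
        mul_le_mul h3 h2 (pow_nonneg (abv.nonneg _) _)
          (mul_nonneg zero_le_one (pow_nonneg (nrm_nonneg abv p) _))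
    _ = nrm abv p ^ d := by rw [one_mul, ← pow_add, hid]

theorem nrm_lift_le (hna : IsNonarchimedean abv) (d : ℕ) (F G : L[X])
    (hBF : ∀ i, abv (F.coeff i) ≤ 1) (hBG : ∀ i, abv (G.coeff i) ≤ 1) (p : L × L) :
    nrm abv (lift d F G p) ≤ nrm abv p ^ d :=
  max_le (form_le abv hna d F hBF p) (form_le abv hna d G hBG p)

theorem nrm_iter_le (hna : IsNonarchimedean abv) (d : ℕ) (F G : L[X])
    (hBF : ∀ i, abv (F.coeff i) ≤ 1) (hBG : ∀ i, abv (G.coeff i) ≤ 1) (p : L × L) (k : ℕ) :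
    nrm abv ((lift d F G)^[k] p) ≤ nrm abv p ^ d ^ k := by
  induction k with
  | zero => simp
  | succ k ih =>
    rw [Function.iterate_succ_apply']
    refine (nrm_lift_le abv hna d F G hBF hBG _).trans ?_
    calc nrm abv ((lift d F G)^[k] p) ^ d ≤ (nrm abv p ^ d ^ k) ^ d :=
          pow_le_pow_left₀ (nrm_nonneg abv _) ih d
      _ = nrm abv p ^ d ^ (k + 1) := by rw [← pow_mul, pow_succ]

end

/-- The upper bound for `UU` at an auxiliary point. -/
theorem UU_le {L : Type*} [Field L] (abv : AbsoluteValue L ℝ) (hna : IsNonarchimedean abv)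
    (d m j : ℕ) (hd : 2 ≤ d) (F G : L[X]) (hF : F.natDegree ≤ d) (hG : G.natDegree ≤ d)
    (hR : resultant F G d d ≠ 0)
    (hBF : ∀ i, abv (F.coeff i) ≤ 1) (hBG : ∀ i, abv (G.coeff i) ≤ 1) (p : L × L) (hp : p ≠ 0)
    (hp1 : nrm abv p ≤ 1) (a : ℝ) (ha : 0 ≤ a)
    (h : nrm abv ((lift d F G)^[j] p) ≤ Real.exp (-a)) :
    UU abv d m F G p ≤ -(((d : ℝ) ^ m / (d : ℝ) ^ j - 1) * a) := by
  have hd1 : (1 : ℝ) ≤ (d : ℝ) := by exact_mod_cast (by omega : 1 ≤ d)
  have hd0 : (0 : ℝ) < (d : ℝ) := by linarith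
  -- every term is at most zero
  have hneg : ∀ k, Real.log (nrm abv ((lift d F G)^[k] p)) ≤ 0 := by
    intro k
    refine Real.log_nonpos (nrm_nonneg abv _) ?_
    exact (nrm_iter_le abv hna d F G hBF hBG p k).trans (pow_le_one₀ (nrm_nonneg abv _) hp1)
  -- the terms from `j` on
  have hbig : ∀ i, Real.log (nrm abv ((lift d F G)^[j + i] p)) ≤ -((d : ℝ) ^ i * a) := by
    intro i
    have h1 : (lift d F G)^[j + i] p = (lift d F G)^[i] ((lift d F G)^[j] p) := by
      rw [add_comm, Function.iterate_add_apply]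
    have h2 : 0 < nrm abv ((lift d F G)^[j + i] p) :=
      nrm_pos abv (iter_ne_zero d (by omega) F G hF hG hR _ hp)
    have h3 : nrm abv ((lift d F G)^[j + i] p) ≤ Real.exp (-((d : ℝ) ^ i * a)) := by
      rw [h1]
      refine (nrm_iter_le abv hna d F G hBF hBG _ i).trans ?_
      calc nrm abv ((lift d F G)^[j] p) ^ d ^ i ≤ Real.exp (-a) ^ d ^ i :=
            pow_le_pow_left₀ (nrm_nonneg abv _) h _
        _ = Real.exp (-((d : ℝ) ^ i * a)) := by
            rw [← Real.exp_nat_mul]; congr 1; push_cast; ring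
    calc Real.log (nrm abv ((lift d F G)^[j + i] p)) ≤ Real.log (Real.exp (-((d : ℝ) ^ i * a))) :=
          Real.log_le_log h2 h3
      _ = _ := Real.log_exp _
  unfold UU
  rcases le_total j m with hjm | hjm
  · obtain ⟨n, rfl⟩ := Nat.exists_eq_add_of_le hjm
    rw [Finset.sum_range_add]
    have s1 : ∑ k ∈ Finset.range j, Real.log (nrm abv ((lift d F G)^[k] p)) ≤ 0 :=
      Finset.sum_nonpos fun k _ => hneg k
    have s2 : ∑ i ∈ Finset.range n, Real.log (nrm abv ((lift d F G)^[j + i] p)) ≤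
        -((∑ i ∈ Finset.range n, (d : ℝ) ^ i) * a) := by
      rw [Finset.sum_mul, ← Finset.sum_neg_distrib]
      exact Finset.sum_le_sum fun i _ => hbig i
    have s3 : ((d : ℝ) - 1) * ∑ i ∈ Finset.range n, (d : ℝ) ^ i = (d : ℝ) ^ n - 1 :=
      mul_geom_sum _ _
    have s4 : (d : ℝ) ^ (j + n) / (d : ℝ) ^ j = (d : ℝ) ^ n := by
      rw [pow_add]; field_simp
    rw [s4, ← s3]
    have s5 := mul_le_mul_of_nonneg_left (add_le_add s1 s2) (by linarith : (0 : ℝ) ≤ (d : ℝ) - 1)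
    calc _ ≤ _ := s5
      _ = _ := by ring
  · have h1 : (d : ℝ) ^ m / (d : ℝ) ^ j ≤ 1 := by
      rw [div_le_one (by positivity)]
      exact pow_le_pow_right₀ hd1 hjm
    have h2 : ((d : ℝ) - 1) * ∑ k ∈ Finset.range m, Real.log (nrm abv ((lift d F G)^[k] p)) ≤ 0 :=
      mul_nonpos_of_nonneg_of_nonpos (by linarith) (Finset.sum_nonpos fun k _ => hneg k)
    have h3 : ((d : ℝ) ^ m / (d : ℝ) ^ j - 1) * a ≤ 0 :=
      mul_nonpos_of_nonpos_of_nonneg (by linarith) ha
    linarith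

end Pool.Agent.RDF
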