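import Pool.Agent.RDF.Basic
import Pool.Agent.GPoly.Vander

set_option autoImplicit false

/-!
# Auxiliary points with a non-rational reduction

The `v`-adic absolute value extends to an algebraically closed field; there, near a root of a monic polynomial without root modulo `v`, we choose
points whose differences have the size of `π ^ s`.
-/

namespace Pool.Agent.RDF

open NumberField IsDedekindDomain Polynomial Pool.Agent.GPoly

variable {K : Type} [Field K] [NumberField K]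

/-- The `v`-adic absolute value extends to an algebraically closed field. -/
theorem aux_ext (v : HeightOneSpectrum (𝓞 K)) :
    ∃ (Ω : Type) (_ : Field Ω) (_ : IsAlgClosed Ω) (φ : K →+* Ω) (B : AbsoluteValue Ω ℝ),
      IsNonarchimedean B ∧ ∀ x : K, B (φ x) = av v x := by
  classical
  have hnt : ∃ x : v.adicCompletion K, 1 < ‖x‖ := by
    obtain ⟨a, ha, ha0⟩ := Submodule.exists_mem_ne_zero_of_ne_bot v.ne_bot
    have h1 : ‖FinitePlace.embedding v (algebraMap (𝓞 K) K a)‖ < 1 :=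
      (FinitePlace.norm_lt_one_iff_mem K v a).2 ha
    have h2 : 0 < ‖FinitePlace.embedding v (algebraMap (𝓞 K) K a)‖ := by
      rw [norm_pos_iff]
      simpa using ha0
    refine ⟨(FinitePlace.embedding v (algebraMap (𝓞 K) K a))⁻¹, ?_⟩
    rw [norm_inv]
    exact (one_lt_inv₀ h2).2 h1
  let _i : NontriviallyNormedField (v.adicCompletion K) :=
    { HeightOneSpectrum.instNormedFieldValuedAdicCompletion K v with non_trivial := hnt }
  let N := spectralMulAlgNorm (v.adicCompletion K) (AlgebraicClosure (v.adicCompletion K))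
  let B : AbsoluteValue (AlgebraicClosure (v.adicCompletion K)) ℝ :=
    { toFun := fun x => N x
      map_mul' := fun x y => map_mul N x y
      nonneg' := fun x => apply_nonneg N x
      eq_zero' := fun x => map_eq_zero_iff_eq_zero N
      add_le' := fun x y => map_add_le_add N x y }
  refine ⟨AlgebraicClosure (v.adicCompletion K), inferInstance, inferInstance,
    (algebraMap (v.adicCompletion K) (AlgebraicClosure (v.adicCompletion K))).comp
      (FinitePlace.embedding v), B, ?_, ?_⟩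
  · intro x y
    exact isNonarchimedean_spectralNorm x y
  · intro x
    show spectralNorm _ _ _ = _
    rw [RingHom.comp_apply, spectralNorm_extends, FinitePlace.norm_embedding]
    rfl

section general

variable {Ω : Type*} [Field Ω] (B : AbsoluteValue Ω ℝ) (hna : IsNonarchimedean B)

/-- The ring of the elements of size at most `1`. -/
def aux_ball (hna : IsNonarchimedean B) : Subring Ω where
  carrier := {x | B x ≤ 1}
  mul_mem' := fun {x y} hx hy => by
    show B (x * y) ≤ 1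
    rw [map_mul]
    exact mul_le_one₀ hx (B.nonneg _) hy
  one_mem' := by
    show B 1 ≤ 1
    rw [map_one]
  add_mem' := fun {x y} hx hy => (hna x y).trans (max_le hx hy)
  zero_mem' := by
    show B 0 ≤ 1
    rw [map_zero]
    exact zero_le_one
  neg_mem' := fun {x} hx => by
    show B (-x) ≤ 1
    rw [B.map_neg]
    exact hx

theorem aux_mem_ball {hna : IsNonarchimedean B} {x : Ω} : x ∈ aux_ball B hna ↔ B x ≤ 1 := Iff.rfl

include hna in
theorem aux_sub_le (x y : Ω) : B (x - y) ≤ max (B x) (B y) := by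
  have h := hna x (-y)
  rwa [B.map_neg, ← sub_eq_add_neg] at h

include hna in
theorem aux_add_eq {x y : Ω} (h : B y < B x) : B (x + y) = B x := by
  refine le_antisymm ((hna x y).trans (max_le le_rfl h.le)) ?_
  by_contra h1
  push Not at h1
  have h2 := aux_sub_le B hna (x + y) y
  rw [add_sub_cancel_right] at h2
  exact absurd h2 (not_le.2 (max_lt h1 h))

include hna in
theorem aux_sub_eq {x y : Ω} (h : B y < B x) : B (x - y) = B x := by
  rw [sub_eq_add_neg]
  exact aux_add_eq B hna (by rwa [B.map_neg])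

include hna in
/-- A root of a monic polynomial with coefficients of size at most `1` has size at most `1`. -/
theorem aux_root_le (p : Polynomial Ω) (hp : p.Monic) (hc : ∀ i, B (p.coeff i) ≤ 1) (y : Ω) (hy : p.eval y = 0) : B y ≤ 1 := by
  by_contra h1
  push Not at h1
  have h2 : p.eval y = y ^ p.natDegree + ∑ i ∈ Finset.range p.natDegree, p.coeff i * y ^ i := by
    conv_lhs => rw [hp.as_sum]
    simp [eval_finsetSum]
  rw [hy] at h2
  rcases Nat.eq_zero_or_pos p.natDegree with h0 | h0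
  · rw [h0] at h2
    simp at h2
  · have h3 : B (∑ i ∈ Finset.range p.natDegree, p.coeff i * y ^ i) ≤ B y ^ (p.natDegree - 1) := by
      refine Vander_abv_sum_le B hna _ _ _ (pow_nonneg (B.nonneg _) _) fun i hi => ?_
      rw [map_mul, map_pow]
      calc B (p.coeff i) * B y ^ i ≤ 1 * B y ^ i := mul_le_mul_of_nonneg_right (hc i) (pow_nonneg (B.nonneg _) _)
        _ = B y ^ i := one_mul _
        _ ≤ B y ^ (p.natDegree - 1) := pow_le_pow_right₀ h1.le (by
          have := Finset.mem_range.1 hi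
          omega)
    have h4 : B (∑ i ∈ Finset.range p.natDegree, p.coeff i * y ^ i) = B y ^ p.natDegree := by
      have h5 : (∑ i ∈ Finset.range p.natDegree, p.coeff i * y ^ i) = -(y ^ p.natDegree) := by
        linear_combination -h2
      rw [h5, B.map_neg, map_pow]
    rw [h4] at h3
    have h6 : B y ^ (p.natDegree - 1) < B y ^ p.natDegree := pow_lt_pow_right₀ h1 (by omega)
    exact absurd h3 (not_le.2 h6)

include hna in
/-- For a polynomial with coefficients of size at most `1` and arguments of size at most `1`, the values differ by at most the difference of the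
arguments. -/
theorem aux_eval_sub_le (p : Polynomial Ω) (hc : ∀ i, B (p.coeff i) ≤ 1) (x y : Ω) (hx : B x ≤ 1) (hy : B y ≤ 1) :
    B (p.eval x - p.eval y) ≤ B (x - y) := by
  have hpl : p ∈ Polynomial.lifts (aux_ball B hna).subtype := by
    rw [Polynomial.lifts_iff_coeff_lifts]
    intro i
    exact ⟨⟨p.coeff i, hc i⟩, rfl⟩
  obtain ⟨P, hP⟩ := (Polynomial.mem_lifts _).1 hpl
  obtain ⟨c, hc'⟩ := Polynomial.sub_dvd_eval_sub (⟨x, hx⟩ : aux_ball B hna) ⟨y, hy⟩ P
  have e1 : p.eval x = ((P.eval (⟨x, hx⟩ : aux_ball B hna) : aux_ball B hna) : Ω) := by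
    rw [← hP]
    exact Polynomial.eval_map_apply (aux_ball B hna).subtype (⟨x, hx⟩ : aux_ball B hna)
  have e2 : p.eval y = ((P.eval (⟨y, hy⟩ : aux_ball B hna) : aux_ball B hna) : Ω) := by
    rw [← hP]
    exact Polynomial.eval_map_apply (aux_ball B hna).subtype (⟨y, hy⟩ : aux_ball B hna)
  have e3 : p.eval x - p.eval y = (x - y) * (c : Ω) := by
    rw [e1, e2]
    have := congrArg (Subtype.val) hc'
    simpa using this
  rw [e3, map_mul]
  calc B (x - y) * B (c : Ω) ≤ B (x - y) * 1 := mul_le_mul_of_nonneg_left c.2 (B.nonneg _)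
    _ = B (x - y) := mul_one _

include hna in
theorem aux_eval_le (p : Polynomial Ω) (b : ℝ) (hb : 0 ≤ b) (hc : ∀ i, B (p.coeff i) ≤ b) (x : Ω) (hx : B x ≤ 1) :
    B (p.eval x) ≤ b := by
  rw [Polynomial.eval_eq_sum_range]
  refine Vander_abv_sum_le B hna _ _ _ hb fun i _ => ?_
  rw [map_mul, map_pow]
  calc B (p.coeff i) * B x ^ i ≤ b * 1 :=
        mul_le_mul (hc i) (pow_le_one₀ (B.nonneg _) hx) (pow_nonneg (B.nonneg _) _) hb
    _ = b := mul_one _

/-- Roots of unity of order prime to the residue characteristic have different reductions. -/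
theorem aux_zeta (hna : IsNonarchimedean B) (N : ℕ) (hN : 1 ≤ N) (hB : B (N : Ω) = 1) (ζ : Ω) (hζ : IsPrimitiveRoot ζ N) :
    B ζ = 1 ∧ ∀ a b : ℕ, a < N → b < N → a ≠ b → B (ζ ^ a - ζ ^ b) = 1 := by
  have h1 : B ζ = 1 := by
    have h := congrArg B hζ.pow_eq_one
    rw [map_pow, map_one] at h
    exact (pow_eq_one_iff_of_nonneg (B.nonneg _) (by omega)).1 h
  have hle : ∀ k : ℕ, B (1 - ζ ^ k) ≤ 1 := by
    intro k
    refine (aux_sub_le B hna _ _).trans ?_
    rw [map_one, map_pow, h1, one_pow, max_self]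
  have hprod : ∀ k : ℕ, 0 < k → k < N → B (1 - ζ ^ k) = 1 := by
    obtain ⟨n, rfl⟩ : ∃ n, N = n + 1 := ⟨N - 1, by omega⟩
    have h := congrArg B hζ.prod_one_sub_pow_eq_order
    rw [map_prod] at h
    have h' : B ((n : Ω) + 1) = 1 := by
      have : ((n + 1 : ℕ) : Ω) = (n : Ω) + 1 := by push_cast; ring
      rw [← this]; exact hB
    rw [h'] at h
    intro k hk0 hk
    refine le_antisymm (hle k) ?_
    obtain ⟨j, rfl⟩ : ∃ j, k = j + 1 := ⟨k - 1, by omega⟩
    have hj : j ∈ Finset.range n := Finset.mem_range.2 (by omega)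
    rw [← Finset.mul_prod_erase _ _ hj] at h
    have h2 : ∏ x ∈ (Finset.range n).erase j, B (1 - ζ ^ (x + 1)) ≤ 1 :=
      Finset.prod_le_one (fun _ _ => B.nonneg _) (fun _ _ => hle _)
    calc (1 : ℝ) = B (1 - ζ ^ (j + 1)) * ∏ x ∈ (Finset.range n).erase j, B (1 - ζ ^ (x + 1)) := h.symm
      _ ≤ B (1 - ζ ^ (j + 1)) * 1 := mul_le_mul_of_nonneg_left h2 (B.nonneg _)
      _ = _ := mul_one _
  have hlt : ∀ a b : ℕ, a < b → b < N → B (ζ ^ a - ζ ^ b) = 1 := by
    intro a b hab hb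
    have e : ζ ^ a - ζ ^ b = ζ ^ a * (1 - ζ ^ (b - a)) := by
      rw [mul_sub, mul_one, ← pow_add]
      congr 2
      omega
    rw [e, map_mul, map_pow, h1, one_pow, one_mul]
    exact hprod _ (by omega) (by omega)
  refine ⟨h1, fun a b ha hb hab => ?_⟩
  rcases lt_or_gt_of_ne hab with h | h
  · exact hlt a b h hb
  · rw [B.map_sub]
    exact hlt b a h ha

end general

/-- a rational prime which is large is not in `v` -/
theorem aux_prime (v : HeightOneSpectrum (𝓞 K)) (M : ℕ) : ∃ N : ℕ, M < N ∧ N.Prime ∧ ((N : ℕ) : 𝓞 K) ∉ v.asIdeal := by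
  obtain ⟨N, hN, hp⟩ := Nat.exists_infinite_primes (M + Ideal.absNorm v.asIdeal + 1)
  refine ⟨N, by omega, hp, fun hmem => ?_⟩
  have hn : ((Ideal.absNorm v.asIdeal : ℕ) : 𝓞 K) ∈ v.asIdeal := Ideal.absNorm_mem _
  have hpos : 0 < Ideal.absNorm v.asIdeal := by
    have := NumberField.HeightOneSpectrum.one_lt_absNorm v
    omega
  have hcop : Nat.Coprime N (Ideal.absNorm v.asIdeal) :=
    (Nat.Prime.coprime_iff_not_dvd hp).2 fun h => by
      have := Nat.le_of_dvd hpos h
      omega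
  have h1 : IsCoprime ((N : ℤ)) ((Ideal.absNorm v.asIdeal : ℕ) : ℤ) := Nat.isCoprime_iff_coprime.2 hcop
  obtain ⟨a, b, hab⟩ := h1
  apply v.isPrime.ne_top
  rw [Ideal.eq_top_iff_one]
  have h2 : ((a * N + b * (Ideal.absNorm v.asIdeal : ℕ) : ℤ) : 𝓞 K) = 1 := by
    rw [hab]
    simp
  rw [← h2]
  push_cast
  exact v.asIdeal.add_mem (v.asIdeal.mul_mem_left _ hmem) (v.asIdeal.mul_mem_left _ hn)

/-- an element integral at `v` is congruent to an integer modulo `v` -/
theorem aux_approx (v : HeightOneSpectrum (𝓞 K)) (x : K) (hx : av v x ≤ 1) : ∃ a : 𝓞 K, av v (algebraMap (𝓞 K) K a - x) < 1 := by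
  have h1 : v.valuation K x ≤ 1 := by
    rw [av_eq] at hx
    exact (WithZeroMulInt.toNNReal_le_one_iff
      (NumberField.HeightOneSpectrum.one_lt_absNorm_nnreal v)).1 (by exact_mod_cast hx)
  obtain ⟨a, ha⟩ := v.exists_valuation_sub_lt_of_integer h1 1
  refine ⟨a, ?_⟩
  rw [av_eq]
  have h2 := (WithZeroMulInt.toNNReal_strictMono
      (NumberField.HeightOneSpectrum.one_lt_absNorm_nnreal v)) (show v.valuation K (algebraMap (𝓞 K) K a - x) < 1 from ha)
  rw [map_one] at h2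
  exact_mod_cast h2

/-- an element of size exactly `exp (-lq v)` -/
theorem aux_unif (v : HeightOneSpectrum (𝓞 K)) : ∃ π : 𝓞 K, av v (algebraMap (𝓞 K) K π) = Real.exp (-lq v) := by
  obtain ⟨π, hπ⟩ := v.valuation_exists_uniformizer' K
  refine ⟨π, ?_⟩
  rw [av_eq]
  have h : v.valuation K (algebraMap (𝓞 K) K π) = WithZero.exp (-1 : ℤ) := hπ
  rw [h, av_exp]
  congr 1
  push_cast
  ring

/-- the auxiliary points, for a monic polynomial without root modulo `v` -/
theorem exists_aux' (v : HeightOneSpectrum (𝓞 K)) (h : (𝓞 K)[X]) (hm : h.Monic) (hdeg : 0 < h.natDegree)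
    (hroot : ∀ x : 𝓞 K, h.eval x ∉ v.asIdeal) (s M : ℕ) (hs : 1 ≤ s) :
    ∃ (L : Type) (_ : Field L) (abv : AbsoluteValue L ℝ) (ι : K →+* L) (y : Fin M → L),
      IsNonarchimedean abv ∧ (∀ x, abv (ι x) = av v x) ∧ (∀ l, abv (y l) ≤ 1) ∧
      (∀ l l', l ≠ l' → abv (y l - y l') = Real.exp (-(s * lq v))) ∧
      (∀ l (x : K × K), abv (ι x.1 - ι x.2 * y l) = nrm (av v) x) ∧
      (∀ l (A : (𝓞 K)[X]), (∃ q : (𝓞 K)[X], ∀ i, (A - q * h).coeff i ∈ v.asIdeal ^ s) →
        abv (A.eval₂ (ι.comp (algebraMap (𝓞 K) K)) (y l)) ≤ Real.exp (-(s * lq v))) := by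
  classical
  obtain ⟨Ω, _, _, φ, B, hna, hB⟩ := aux_ext v
  obtain ⟨N, hMN, hNp, hNv⟩ := aux_prime v M
  have hBN : B (N : Ω) = 1 := by
    have h1 := hB (algebraMap (𝓞 K) K (N : 𝓞 K))
    rw [(av_int_eq_one v _).2 hNv] at h1
    rw [← h1]
    congr 1
    simp
  have _i : NeZero ((N : ℕ) : Ω) := ⟨fun h0 => by
    rw [h0, map_zero] at hBN
    exact zero_ne_one hBN⟩
  obtain ⟨ζ, hζ⟩ := HasEnoughRootsOfUnity.exists_primitiveRoot Ω N
  obtain ⟨hζ1, hζ2⟩ := aux_zeta B hna N hNp.one_lt.le hBN ζ hζ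
  obtain ⟨π, hπ⟩ := aux_unif v
  set f : 𝓞 K →+* Ω := φ.comp (algebraMap (𝓞 K) K) with hf
  have hBf : ∀ a : 𝓞 K, B (f a) ≤ 1 := fun a => by
    rw [hf, RingHom.comp_apply, hB]
    exact av_int_le_one v a
  have hcf : ∀ (p : (𝓞 K)[X]) i, B ((p.map f).coeff i) ≤ 1 := fun p i => by
    rw [coeff_map]
    exact hBf _
  have hmf : (h.map f).Monic := hm.map f
  have hdf : 0 < (h.map f).natDegree := by rwa [hm.natDegree_map]
  obtain ⟨y₀, hy₀⟩ := IsAlgClosed.exists_root (h.map f) (by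
    intro h0
    rw [degree_eq_natDegree hmf.ne_zero] at h0
    have : (h.map f).natDegree = 0 := by exact_mod_cast h0
    omega)
  have hy₀' : (h.map f).eval y₀ = 0 := hy₀
  have hy1 : B y₀ ≤ 1 := aux_root_le B hna _ hmf (hcf h) y₀ hy₀'
  set ϖ : Ω := f π ^ s with hϖ
  have hϖB : B ϖ = Real.exp (-(s * lq v)) := by
    rw [hϖ, map_pow, hf, RingHom.comp_apply, hB, hπ, ← Real.exp_nat_mul]
    congr 1
    ring
  have hlq := lq_pos v
  have hϖ1 : B ϖ < 1 := by
    rw [hϖB, Real.exp_lt_one_iff]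
    have : (1 : ℝ) ≤ s := by exact_mod_cast hs
    nlinarith
  have hζp : ∀ l : ℕ, B (ϖ * ζ ^ l) = B ϖ := fun l => by
    rw [map_mul, map_pow B ζ l, hζ1, one_pow, mul_one]
  have hyl : ∀ l : ℕ, B (y₀ + ϖ * ζ ^ l) ≤ 1 := fun l =>
    (hna _ _).trans (max_le hy1 ((hζp l).le.trans hϖ1.le))
  have key : ∀ (l : ℕ) (x : K), av v x ≤ 1 → B (φ x - (y₀ + ϖ * ζ ^ l)) = 1 := by
    intro l x hx
    refine le_antisymm ((aux_sub_le B hna _ _).trans (max_le (by rw [hB]; exact hx) (hyl l))) ?_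
    by_contra hlt
    push Not at hlt
    obtain ⟨a, ha⟩ := aux_approx v x hx
    have h1 : B (f a - y₀) < 1 := by
      have e : f a - y₀ = (f a - φ x) + ((φ x - (y₀ + ϖ * ζ ^ l)) + ϖ * ζ ^ l) := by ring
      rw [e]
      refine lt_of_le_of_lt (hna _ _) (max_lt ?_ (lt_of_le_of_lt (hna _ _) (max_lt hlt ?_)))
      · rw [hf, RingHom.comp_apply, ← map_sub, hB]
        exact ha
      · rw [hζp]
        exact hϖ1
    have h2 := aux_eval_sub_le B hna (h.map f) (hcf h) (f a) y₀ (hBf a) hy1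
    rw [hy₀', sub_zero, eval_map_apply, hf, RingHom.comp_apply, hB] at h2
    exact hroot a ((av_int_lt_one v _).1 (lt_of_le_of_lt h2 h1))
  refine ⟨Ω, inferInstance, B, φ, fun l => y₀ + ϖ * ζ ^ (l : ℕ), hna, hB, fun l => hyl l, ?_, ?_, ?_⟩
  · intro l l' hl
    have e : y₀ + ϖ * ζ ^ (l : ℕ) - (y₀ + ϖ * ζ ^ (l' : ℕ)) = ϖ * (ζ ^ (l : ℕ) - ζ ^ (l' : ℕ)) := by ring
    show B (y₀ + ϖ * ζ ^ (l : ℕ) - (y₀ + ϖ * ζ ^ (l' : ℕ))) = _
    rw [e, map_mul, hζ2 _ _ (by omega) (by omega) (fun h => hl (Fin.ext h)), mul_one, hϖB]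
  · intro l x
    obtain ⟨x₁, x₂⟩ := x
    show B (φ x₁ - φ x₂ * (y₀ + ϖ * ζ ^ (l : ℕ))) = max (av v x₁) (av v x₂)
    rcases lt_or_ge (av v x₂) (av v x₁) with hlt | hle
    · rw [max_eq_left hlt.le, ← hB x₁]
      refine aux_sub_eq B hna ?_
      rw [map_mul, hB, hB]
      calc av v x₂ * B (y₀ + ϖ * ζ ^ (l : ℕ)) ≤ av v x₂ * 1 :=
            mul_le_mul_of_nonneg_left (hyl l) ((av v).nonneg _)
        _ = av v x₂ := mul_one _
        _ < av v x₁ := hlt
    · rw [max_eq_right hle]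
      by_cases hx2 : x₂ = 0
      · subst hx2
        rw [map_zero] at hle
        have : x₁ = 0 := (av v).eq_zero.1 (le_antisymm hle ((av v).nonneg _))
        subst this
        simp
      · have hpos : 0 < av v x₂ := (av v).pos hx2
        have e : φ x₁ - φ x₂ * (y₀ + ϖ * ζ ^ (l : ℕ)) = φ x₂ * (φ (x₁ / x₂) - (y₀ + ϖ * ζ ^ (l : ℕ))) := by
          rw [mul_sub, ← map_mul, mul_div_cancel₀ _ hx2]
        rw [e, map_mul, hB, key l (x₁ / x₂) (by
          rw [map_div₀]
          exact (div_le_one hpos).2 hle), mul_one]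
  · rintro l A ⟨q, hq⟩
    show B (A.eval₂ f (y₀ + ϖ * ζ ^ (l : ℕ))) ≤ _
    have e : A.eval₂ f (y₀ + ϖ * ζ ^ (l : ℕ)) =
        ((A - q * h).map f).eval (y₀ + ϖ * ζ ^ (l : ℕ)) +
          (q.map f).eval (y₀ + ϖ * ζ ^ (l : ℕ)) * (h.map f).eval (y₀ + ϖ * ζ ^ (l : ℕ)) := by
      rw [← eval_map, ← eval_mul, ← Polynomial.map_mul, ← eval_add, ← Polynomial.map_add, sub_add_cancel]
    rw [e]
    refine (hna _ _).trans (max_le ?_ ?_)
    · refine aux_eval_le B hna _ _ (Real.exp_pos _).le (fun i => ?_) _ (hyl l)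
      rw [coeff_map, hf, RingHom.comp_apply, hB]
      exact (av_int_le_pow v _ s).1 (hq i)
    · rw [map_mul]
      have h1 : B ((q.map f).eval (y₀ + ϖ * ζ ^ (l : ℕ))) ≤ 1 :=
        aux_eval_le B hna _ _ zero_le_one (hcf q) _ (hyl l)
      have h2 := aux_eval_sub_le B hna (h.map f) (hcf h) (y₀ + ϖ * ζ ^ (l : ℕ)) y₀ (hyl l) hy1
      rw [hy₀', sub_zero, add_sub_cancel_left, hζp, hϖB] at h2
      calc B ((q.map f).eval (y₀ + ϖ * ζ ^ (l : ℕ))) * B ((h.map f).eval (y₀ + ϖ * ζ ^ (l : ℕ)))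
          ≤ 1 * Real.exp (-(s * lq v)) := mul_le_mul h1 h2 (B.nonneg _) zero_le_one
        _ = _ := one_mul _

/-- the auxiliary points -/
theorem exists_aux {K : Type} [Field K] [NumberField K] (v : HeightOneSpectrum (𝓞 K))
    (h : (𝓞 K)[X]) (hm : h.Monic) (hdeg : 2 ≤ h.natDegree)
    (hirr : Irreducible (h.map (Ideal.Quotient.mk v.asIdeal))) (s M : ℕ) (hs : 1 ≤ s) :
    ∃ (L : Type) (_ : Field L) (abv : AbsoluteValue L ℝ) (ι : K →+* L) (y : Fin M → L),
      IsNonarchimedean abv ∧ (∀ x, abv (ι x) = av v x) ∧ (∀ l, abv (y l) ≤ 1) ∧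
      (∀ l l', l ≠ l' → Real.exp (-(s * lq v)) ≤ abv (y l - y l')) ∧
      (∀ l (x : K × K), abv (ι x.1 - ι x.2 * y l) = nrm (av v) x) ∧
      (∀ l (A : (𝓞 K)[X]), (∃ q : (𝓞 K)[X], ∀ i, (A - q * h).coeff i ∈ v.asIdeal ^ s) →
        abv (A.eval₂ (ι.comp (algebraMap (𝓞 K) K)) (y l)) ≤ Real.exp (-(s * lq v))) := by
  have hroot : ∀ x : 𝓞 K, h.eval x ∉ v.asIdeal := by
    intro x hx
    have _i := v.isMaximal
    let _j := Ideal.Quotient.field v.asIdeal
    have h1 : (h.map (Ideal.Quotient.mk v.asIdeal)).IsRoot (Ideal.Quotient.mk v.asIdeal x) := by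
      rw [IsRoot.def, eval_map_apply]
      exact Ideal.Quotient.eq_zero_iff_mem.2 hx
    have h2 := degree_eq_one_of_irreducible_of_root hirr h1
    have h3 : (h.map (Ideal.Quotient.mk v.asIdeal)).natDegree = 1 := natDegree_eq_of_degree_eq_some h2
    rw [hm.natDegree_map] at h3
    omega
  obtain ⟨L, i1, abv, ι, y, h1, h2, h3, h4, h5, h6⟩ := exists_aux' v h hm (by omega) hroot s M hs
  exact ⟨L, i1, abv, ι, y, h1, h2, h3, fun l l' hl => (h4 l l' hl).ge, h5, h6⟩

end Pool.Agent.RDF
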