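import Pool.Agent.RDF.NDefs
import Pool.Agent.RDF.AuxP

set_option autoImplicit false

/-!
# The residue class of a point of bounded degree
-/

namespace Pool.Agent.RDF

open Polynomial NumberField IsDedekindDomain Pool.Agent.GPoly

variable {K L : Type} [Field K] [NumberField K] [Field L] [NumberField L] [Algebra K L]

namespace NRes

/-- An element with `v(b) = e` divides `u a` for all `a` in `v ^ e`, for some `u` outside `v`. -/
theorem exists_clear (v : HeightOneSpectrum (𝓞 K)) (b : 𝓞 K) (e : ℕ) (hb : b ∈ v.asIdeal ^ e)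
    (hb' : b ∉ v.asIdeal ^ (e + 1)) : ∃ u ∉ v.asIdeal, ∀ a ∈ v.asIdeal ^ e, b ∣ u * a := by
  obtain ⟨B, hB⟩ := Ideal.dvd_span_singleton.mpr hb
  by_cases h : B ≤ v.asIdeal
  · exfalso
    obtain ⟨B', hB'⟩ := Ideal.dvd_iff_le.mpr h
    apply hb'
    rw [← Ideal.dvd_span_singleton, hB, hB', pow_succ]
    exact mul_dvd_mul_left _ (Dvd.intro _ rfl)
  · obtain ⟨u, hu, hu'⟩ := Set.not_subset.mp h
    refine ⟨u, hu', fun a ha => ?_⟩
    rw [← Ideal.mem_span_singleton, hB, mul_comm u a]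
    exact Ideal.mul_mem_mul ha hu

/-- A nonzero element is not in all powers of `v`. -/
theorem exists_notMem (v : HeightOneSpectrum (𝓞 K)) (b : 𝓞 K) (hb : b ≠ 0) :
    ∃ n : ℕ, b ∉ v.asIdeal ^ (n + 1) := by
  by_contra hcon
  push Not at hcon
  have hpos : 0 < av v (algebraMap (𝓞 K) K b) :=
    (av v).pos ((map_ne_zero_iff _ RingOfIntegers.coe_injective).mpr hb)
  have hlq := lq_pos v
  obtain ⟨n, hn⟩ := exists_nat_gt (-Real.log (av v (algebraMap (𝓞 K) K b)) / lq v)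
  rw [div_lt_iff₀ hlq] at hn
  have h1 := (av_int_le_pow v b (n + 1)).mp (hcon n)
  have h2 := Real.log_le_log hpos h1
  rw [Real.log_exp] at h2
  push_cast at h2
  nlinarith

/-- A point of degree at most `N` is a root of a polynomial of degree at most `N` which is not zero
modulo `v`. -/
theorem exists_prim (v : HeightOneSpectrum (𝓞 K)) (N : ℕ) (E : IntermediateField K L)
    (hE : Module.finrank K E ≤ N) (x : L) (hx : x ∈ E) :
    ∃ g : (𝓞 K)[X], g.natDegree ≤ N ∧ g.map (Ideal.Quotient.mk v.asIdeal) ≠ 0 ∧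
      g.eval₂ (algebraMap (𝓞 K) L) x = 0 := by
  -- the minimal polynomial
  set μ : K[X] := minpoly K x with hμ
  have hint : IsIntegral K x := Algebra.IsIntegral.isIntegral x
  have hμ0 : μ ≠ 0 := minpoly.ne_zero hint
  have hμN : μ.natDegree ≤ N := by
    have h1 : minpoly K (algebraMap E L ⟨x, hx⟩) = minpoly K (⟨x, hx⟩ : E) :=
      minpoly.algebraMap_eq (algebraMap E L).injective _
    have h2 : μ = minpoly K (⟨x, hx⟩ : E) := by
      rw [hμ, ← h1]
      rfl
    rw [h2]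
    exact (minpoly.natDegree_le _).trans hE
  -- clear the denominators
  obtain ⟨c, hc⟩ := IsLocalization.exist_integer_multiples_of_finset (nonZeroDivisors (𝓞 K))
    (μ.coeffs)
  have hc0 : (c : 𝓞 K) ≠ 0 := nonZeroDivisors.coe_ne_zero c
  have hcK : algebraMap (𝓞 K) K c ≠ 0 :=
    (map_ne_zero_iff _ RingOfIntegers.coe_injective).mpr hc0
  have hlift : C (algebraMap (𝓞 K) K c) * μ ∈ Polynomial.lifts (algebraMap (𝓞 K) K) := by
    rw [Polynomial.lifts_iff_coeff_lifts]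
    intro i
    rw [coeff_C_mul]
    by_cases hi : μ.coeff i = 0
    · rw [hi, mul_zero]
      exact ⟨0, map_zero _⟩
    · obtain ⟨y, hy⟩ := hc (μ.coeff i) (coeff_mem_coeffs hi)
      refine ⟨y, ?_⟩
      rw [hy, Algebra.smul_def]
  obtain ⟨P, hP, hPd⟩ := Polynomial.exists_degree_eq_of_mem_lifts hlift
  have hCμ : C (algebraMap (𝓞 K) K c) * μ ≠ 0 := mul_ne_zero (C_ne_zero.mpr hcK) hμ0
  have hP0 : P ≠ 0 := by
    rintro rfl
    rw [Polynomial.map_zero] at hP
    exact hCμ hP.symm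
  have hPN : P.natDegree ≤ N := by
    rw [natDegree_eq_of_degree_eq hPd, natDegree_C_mul hcK]
    exact hμN
  have hPx : P.eval₂ (algebraMap (𝓞 K) L) x = 0 := by
    have e : (algebraMap (𝓞 K) L) = (algebraMap K L).comp (algebraMap (𝓞 K) K) :=
      IsScalarTower.algebraMap_eq _ _ _
    rw [e, ← eval₂_map, hP, eval₂_mul, hμ, ← aeval_def, ← aeval_def, minpoly.aeval, mul_zero]
  -- the first exponent with a coefficient outside
  have hex : ∃ n : ℕ, ∃ i, P.coeff i ∉ v.asIdeal ^ (n + 1) := by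
    obtain ⟨n, hn⟩ := exists_notMem v P.leadingCoeff (leadingCoeff_ne_zero.mpr hP0)
    exact ⟨n, P.natDegree, hn⟩
  classical
  obtain ⟨i₀, hi₀⟩ := Nat.find_spec hex
  set e := Nat.find hex with he
  have hall : ∀ i, P.coeff i ∈ v.asIdeal ^ e := by
    intro i
    rcases Nat.eq_zero_or_pos e with h0 | h0
    · rw [h0, pow_zero, Ideal.one_eq_top]
      exact Submodule.mem_top
    · by_contra hcon
      have h1 := Nat.find_min hex (m := e - 1) (by omega)
      exact h1 ⟨i, by rwa [Nat.sub_add_cancel h0]⟩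
  obtain ⟨u, hu, hdiv⟩ := exists_clear v (P.coeff i₀) e (hall i₀) hi₀
  have hPi0 : P.coeff i₀ ≠ 0 := by
    intro h0
    rw [h0] at hi₀
    exact hi₀ (Submodule.zero_mem _)
  have hdvd : C (P.coeff i₀) ∣ C u * P := by
    rw [C_dvd_iff_dvd_coeff]
    intro i
    rw [coeff_C_mul]
    exact hdiv _ (hall i)
  obtain ⟨g, hg⟩ := hdvd
  refine ⟨g, ?_, ?_, ?_⟩
  · have h1 := congrArg natDegree hg
    rw [natDegree_C_mul hPi0] at h1
    rw [← h1]
    exact (natDegree_C_mul_le _ _).trans hPN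
  · intro h0
    have h1 := congrArg (fun p => p.coeff i₀) h0
    simp only [coeff_map, coeff_zero] at h1
    rw [Ideal.Quotient.eq_zero_iff_mem] at h1
    have h2 := congrArg (fun p => p.coeff i₀) hg
    simp only [coeff_C_mul] at h2
    rw [mul_comm u] at h2
    rw [← mul_left_cancel₀ hPi0 h2] at h1
    exact hu h1
  · have h1 := congrArg (fun p => p.eval₂ (algebraMap (𝓞 K) L) x) hg
    simp only [eval₂_mul, eval₂_C, hPx, mul_zero] at h1
    have h2 : algebraMap (𝓞 K) L (P.coeff i₀) ≠ 0 := by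
      have e : (algebraMap (𝓞 K) L) = (algebraMap K L).comp (algebraMap (𝓞 K) K) :=
        IsScalarTower.algebraMap_eq _ _ _
      rw [e, RingHom.comp_apply]
      exact (map_ne_zero_iff _ (algebraMap K L).injective).mpr
        ((map_ne_zero_iff _ RingOfIntegers.coe_injective).mpr hPi0)
    rcases mul_eq_zero.mp h1.symm with h | h
    · exact absurd h h2
    · exact h

end NRes

open NRes in
/-- The residue class of a point of degree at most `N` has degree at most `N`. -/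
theorem exists_resPoly {v : HeightOneSpectrum (𝓞 K)} {w : HeightOneSpectrum (𝓞 L)} (h : Above v w)
    (N : ℕ) (E : IntermediateField K L) (hE : Module.finrank K E ≤ N) (x : L) (hx : x ∈ E)
    (hx1 : av w x ≤ 1) :
    ∃ p : (𝓞 K ⧸ v.asIdeal)[X], Irreducible p ∧ p.natDegree ≤ N ∧
      ∀ A : (𝓞 K)[X], av w (A.eval₂ (algebraMap (𝓞 K) L) x) < 1 →
        p ∣ A.map (Ideal.Quotient.mk v.asIdeal) := by
  obtain ⟨a, ha⟩ := aux_approx w x hx1
  have hle : v.asIdeal ≤ w.asIdeal.comap (algebraMap (𝓞 K) (𝓞 L)) := fun b hb => h b hb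
  let _ : Field (𝓞 K ⧸ v.asIdeal) := Ideal.Quotient.field v.asIdeal
  let _ : Field (𝓞 L ⧸ w.asIdeal) := Ideal.Quotient.field w.asIdeal
  let f : (𝓞 K ⧸ v.asIdeal) →+* (𝓞 L ⧸ w.asIdeal) :=
    Ideal.quotientMap w.asIdeal (algebraMap (𝓞 K) (𝓞 L)) hle
  have hf : ∀ b : 𝓞 K, f (Ideal.Quotient.mk v.asIdeal b) =
      Ideal.Quotient.mk w.asIdeal (algebraMap (𝓞 K) (𝓞 L) b) := fun b => Ideal.quotientMap_mk
  let _ : Algebra (𝓞 K ⧸ v.asIdeal) (𝓞 L ⧸ w.asIdeal) := f.toAlgebra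
  have hfin : Finite (𝓞 L ⧸ w.asIdeal) := Ideal.finiteQuotientOfFreeOfNeBot w.asIdeal w.ne_bot
  have _ : Module.Finite (𝓞 K ⧸ v.asIdeal) (𝓞 L ⧸ w.asIdeal) := Module.Finite.of_finite
  set ab : 𝓞 L ⧸ w.asIdeal := Ideal.Quotient.mk w.asIdeal a with hab
  have hint : IsIntegral (𝓞 K ⧸ v.asIdeal) ab := Algebra.IsIntegral.isIntegral ab
  -- the residue of a value
  have hres : ∀ A : (𝓞 K)[X], av w (A.eval₂ (algebraMap (𝓞 K) L) x) < 1 ↔
      aeval ab (A.map (Ideal.Quotient.mk v.asIdeal)) = 0 := by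
    intro A
    have hc : ∀ i, av w ((A.map (algebraMap (𝓞 K) L)).coeff i) ≤ 1 := fun i => by
      rw [coeff_map, IsScalarTower.algebraMap_apply (𝓞 K) (𝓞 L) L]
      exact av_int_le_one w _
    have h1 := aux_eval_sub_le (av w) (av_nonarch w) (A.map (algebraMap (𝓞 K) L)) hc
      (algebraMap (𝓞 L) L a) x (av_int_le_one w a) hx1
    have h2 : (A.map (algebraMap (𝓞 K) L)).eval (algebraMap (𝓞 L) L a) =
        algebraMap (𝓞 L) L (A.eval₂ (algebraMap (𝓞 K) (𝓞 L)) a) := by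
      rw [eval_map, hom_eval₂, ← IsScalarTower.algebraMap_eq]
    rw [h2, eval_map] at h1
    have h3 : aeval ab (A.map (Ideal.Quotient.mk v.asIdeal)) =
        Ideal.Quotient.mk w.asIdeal (A.eval₂ (algebraMap (𝓞 K) (𝓞 L)) a) := by
      rw [aeval_def, eval₂_map, hom_eval₂]
      congr 1
    rw [h3, Ideal.Quotient.eq_zero_iff_mem, ← av_int_lt_one]
    constructor
    · intro h4
      have e : algebraMap (𝓞 L) L (A.eval₂ (algebraMap (𝓞 K) (𝓞 L)) a) =
          (algebraMap (𝓞 L) L (A.eval₂ (algebraMap (𝓞 K) (𝓞 L)) a) -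
            A.eval₂ (algebraMap (𝓞 K) L) x) + A.eval₂ (algebraMap (𝓞 K) L) x := by ring
      rw [e]
      exact lt_of_le_of_lt (av_nonarch w _ _) (max_lt (lt_of_le_of_lt h1 ha) h4)
    · intro h4
      have e : A.eval₂ (algebraMap (𝓞 K) L) x =
          -(algebraMap (𝓞 L) L (A.eval₂ (algebraMap (𝓞 K) (𝓞 L)) a) -
            A.eval₂ (algebraMap (𝓞 K) L) x) +
            algebraMap (𝓞 L) L (A.eval₂ (algebraMap (𝓞 K) (𝓞 L)) a) := by ring
      rw [e]
      refine lt_of_le_of_lt (av_nonarch w _ _) (max_lt ?_ h4)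
      rw [(av w).map_neg]
      exact lt_of_le_of_lt h1 ha
  refine ⟨minpoly (𝓞 K ⧸ v.asIdeal) ab, minpoly.irreducible hint, ?_, fun A hA =>
    minpoly.dvd _ _ ((hres A).mp hA)⟩
  obtain ⟨g, hgN, hg0, hgx⟩ := exists_prim v N E hE x hx
  have h1 : minpoly (𝓞 K ⧸ v.asIdeal) ab ∣ g.map (Ideal.Quotient.mk v.asIdeal) := by
    apply minpoly.dvd
    rw [← hres, hgx, map_zero]
    exact zero_lt_one
  exact (natDegree_le_of_dvd h1 hg0).trans (natDegree_map_le.trans hgN)

end Pool.Agent.RDF
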