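import Pool.Agent.RDF.NOver
import Pool.Agent.RDF.NResP
import Pool.Agent.RDF.LocU
import Pool.Agent.RDF.FibRes

set_option autoImplicit false

/-!
# Case (A): no common factor of small degree over the residue field
-/

namespace Pool.Agent.RDF

open Polynomial NumberField IsDedekindDomain Pool.Agent.GPoly

variable {K L : Type} [Field K] [NumberField K] [Field L] [NumberField L] [Algebra K L]

namespace NLocA

omit [NumberField K] [NumberField L] in
/-- The map `Φ` preserves the points of bounded degree. -/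
theorem degLe_lift (d N : ℕ) (F G : (𝓞 K)[X]) (z : L × L) (hzN : DegLe K N z) :
    DegLe K N (lift d (F.map (algebraMap (𝓞 K) L)) (G.map (algebraMap (𝓞 K) L)) z) := by
  obtain ⟨E, hE, h1, h2⟩ := hzN
  have key : ∀ A : (𝓞 K)[X], form d (A.map (algebraMap (𝓞 K) L)) z ∈ E := by
    intro A
    refine E.sum_mem fun i _ => E.mul_mem (E.mul_mem ?_ (pow_mem h1 i)) (pow_mem h2 _)
    rw [coeff_map]
    exact E.algebraMap_mem (algebraMap (𝓞 K) K (A.coeff i))
  exact ⟨E, hE, key F, key G⟩

/-- Near the point at infinity the value is the leading coefficient. -/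
theorem form_eq_one {v : HeightOneSpectrum (𝓞 K)} {w : HeightOneSpectrum (𝓞 L)}
    (hvw : Above v w) (d : ℕ) (F : (𝓞 K)[X]) (z : L × L) (h1 : av w z.1 = 1)
    (h2 : av w z.2 < 1) (hc : F.coeff d ∉ v.asIdeal) :
    av w (form d (F.map (algebraMap (𝓞 K) L)) z) = 1 := by
  have hna := av_nonarch w
  rw [form, Finset.sum_range_succ, coeff_map, Nat.sub_self, pow_zero, mul_one]
  have hlead : av w (algebraMap (𝓞 K) L (F.coeff d) * z.1 ^ d) = 1 := by
    rw [map_mul, map_pow, h1, one_pow, mul_one]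
    exact (above_eq_one hvw _).mpr hc
  have hrest : av w (∑ i ∈ Finset.range d,
      (F.map (algebraMap (𝓞 K) L)).coeff i * z.1 ^ i * z.2 ^ (d - i)) ≤ av w z.2 := by
    refine sum_le_of_na (av w) hna _ _ _ ((av w).nonneg _) fun i hi => ?_
    have hi' : d - i ≠ 0 := by
      have := Finset.mem_range.mp hi
      omega
    rw [map_mul, map_mul, map_pow, map_pow, h1, one_pow, mul_one, coeff_map]
    calc av w (algebraMap (𝓞 K) L (F.coeff i)) * av w z.2 ^ (d - i)
        ≤ 1 * av w z.2 ^ (d - i) :=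
          mul_le_mul_of_nonneg_right (above_le_one w _) (pow_nonneg ((av w).nonneg _) _)
      _ = av w z.2 ^ (d - i) := one_mul _
      _ ≤ av w z.2 := pow_le_of_le_one ((av w).nonneg _) h2.le hi'
  have hne : av w (∑ i ∈ Finset.range d,
      (F.map (algebraMap (𝓞 K) L)).coeff i * z.1 ^ i * z.2 ^ (d - i)) ≠
      av w (algebraMap (𝓞 K) L (F.coeff d) * z.1 ^ d) := by
    rw [hlead]
    exact (hrest.trans_lt h2).ne
  rw [hna.add_eq_max_of_ne hne, hlead]
  exact max_eq_right (hrest.trans h2.le)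

/-- The map `Φ` preserves the vectors of norm one and bounded degree. -/
theorem nrm_lift_eq_one (d N : ℕ) (F G : (𝓞 K)[X]) (hF : F.natDegree ≤ d)
    (hG : G.natDegree ≤ d) {v : HeightOneSpectrum (𝓞 K)} {w : HeightOneSpectrum (𝓞 L)}
    (hvw : Above v w)
    (hdef : ∀ h : (𝓞 K ⧸ v.asIdeal)[X], Irreducible h →
      h ∣ F.map (Ideal.Quotient.mk v.asIdeal) → h ∣ G.map (Ideal.Quotient.mk v.asIdeal) →
      N < h.natDegree)
    (hinf : F.coeff d ∉ v.asIdeal ∨ G.coeff d ∉ v.asIdeal)
    (z : L × L) (hz : nrm (av w) z = 1) (hzN : DegLe K N z) :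
    nrm (av w) (lift d (F.map (algebraMap (𝓞 K) L)) (G.map (algebraMap (𝓞 K) L)) z) = 1 := by
  have hna := av_nonarch w
  have hle : nrm (av w) (lift d (F.map (algebraMap (𝓞 K) L)) (G.map (algebraMap (𝓞 K) L)) z) ≤
      1 := by
    have h := nrm_lift_le (av w) hna d (F.map (algebraMap (𝓞 K) L)) (G.map (algebraMap (𝓞 K) L))
      (fun i => by rw [coeff_map]; exact above_le_one w _)
      (fun i => by rw [coeff_map]; exact above_le_one w _) z
    rwa [hz, one_pow] at h
  refine le_antisymm hle ?_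
  by_contra hlt
  push Not at hlt
  have hF1 : av w (form d (F.map (algebraMap (𝓞 K) L)) z) < 1 := (le_max_left _ _).trans_lt hlt
  have hG1 : av w (form d (G.map (algebraMap (𝓞 K) L)) z) < 1 := (le_max_right _ _).trans_lt hlt
  have hz1 : av w z.1 ≤ 1 := hz ▸ le_max_left _ _
  have hz2 : av w z.2 ≤ 1 := hz ▸ le_max_right _ _
  rcases hz2.eq_or_lt with h2 | h2
  · -- the point is finite
    obtain ⟨E, hE, e1, e2⟩ := hzN
    have hz20 : z.2 ≠ 0 := by
      intro h0
      rw [h0, map_zero] at h2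
      exact zero_ne_one h2
    have hx1 : av w (z.1 / z.2) ≤ 1 := by rwa [map_div₀, h2, div_one]
    obtain ⟨p, hp, hpN, hpd⟩ := exists_resPoly hvw N E hE (z.1 / z.2) (E.div_mem e1 e2) hx1
    have key : ∀ A : (𝓞 K)[X], A.natDegree ≤ d →
        av w (form d (A.map (algebraMap (𝓞 K) L)) z) < 1 →
        av w (A.eval₂ (algebraMap (𝓞 K) L) (z.1 / z.2)) < 1 := by
      intro A hA h
      have e := form_affine d (A.map (algebraMap (𝓞 K) L)) (natDegree_map_le.trans hA)
        z.1 z.2 hz20
      rw [show (z.1, z.2) = z from rfl] at e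
      rw [e, map_mul, map_pow, h2, one_pow, one_mul, eval_map] at h
      exact h
    have := hdef p hp (hpd F (key F hF hF1)) (hpd G (key G hG hG1))
    omega
  · -- the point is near infinity
    have h1 : av w z.1 = 1 := by
      refine le_antisymm hz1 ?_
      by_contra h
      push Not at h
      exact absurd hz (max_lt h h2).ne
    rcases hinf with h | h
    · exact absurd (form_eq_one hvw d F z h1 h2 h) hF1.ne
    · exact absurd (form_eq_one hvw d G z h1 h2 h) hG1.ne

end NLocA

/-- Case (A), for vectors of norm one and bounded degree. -/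
theorem UU_eq_zero_N (d N m : ℕ) (hd : 1 ≤ d) (F G : (𝓞 K)[X]) (hF : F.natDegree ≤ d)
    (hG : G.natDegree ≤ d) {v : HeightOneSpectrum (𝓞 K)} {w : HeightOneSpectrum (𝓞 L)}
    (hvw : Above v w)
    (hdef : ∀ h : (𝓞 K ⧸ v.asIdeal)[X], Irreducible h →
      h ∣ F.map (Ideal.Quotient.mk v.asIdeal) → h ∣ G.map (Ideal.Quotient.mk v.asIdeal) →
      N < h.natDegree)
    (hinf : F.coeff d ∉ v.asIdeal ∨ G.coeff d ∉ v.asIdeal)
    (z : L × L) (hz : nrm (av w) z = 1) (hzN : DegLe K N z) :
    UU (av w) d m (F.map (algebraMap (𝓞 K) L)) (G.map (algebraMap (𝓞 K) L)) z = 0 := by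
  have hk : ∀ k, nrm (av w) ((lift d (F.map (algebraMap (𝓞 K) L))
      (G.map (algebraMap (𝓞 K) L)))^[k] z) = 1 ∧ DegLe K N ((lift d (F.map (algebraMap (𝓞 K) L))
      (G.map (algebraMap (𝓞 K) L)))^[k] z) := by
    intro k
    induction k with
    | zero => exact ⟨hz, hzN⟩
    | succ k ih =>
      rw [Function.iterate_succ_apply']
      exact ⟨NLocA.nrm_lift_eq_one d N F G hF hG hvw hdef hinf _ ih.1 ih.2,
        NLocA.degLe_lift d N F G _ ih.2⟩
  rw [UU, Finset.sum_eq_zero, mul_zero]
  intro k _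
  rw [(hk k).1, Real.log_one]

end Pool.Agent.RDF
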