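import Pool.Agent.RDF.NDefs
import Pool.Agent.RDF.LocI
import Pool.Agent.RDF.AuxP

set_option autoImplicit false

/-!
# Places of an extension over a place of the base field
-/

namespace Pool.Agent.RDF

open Polynomial NumberField IsDedekindDomain Pool.Agent.GPoly

variable {K L : Type} [Field K] [NumberField K] [Field L] [NumberField L] [Algebra K L]

theorem above_iff {v : HeightOneSpectrum (𝓞 K)} {w : HeightOneSpectrum (𝓞 L)} (h : Above v w)
    (a : 𝓞 K) : algebraMap (𝓞 K) (𝓞 L) a ∈ w.asIdeal ↔ a ∈ v.asIdeal := by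
  have h1 : v.asIdeal ≤ w.asIdeal.comap (algebraMap (𝓞 K) (𝓞 L)) := fun a ha =>
    Ideal.mem_comap.mpr (h a ha)
  have h2 : (w.asIdeal.comap (algebraMap (𝓞 K) (𝓞 L))) ≠ ⊤ := Ideal.IsPrime.ne_top inferInstance
  rw [v.isMaximal.eq_of_le h2 h1, Ideal.mem_comap]

omit [NumberField K] [NumberField L] in
theorem algebraMap_int (a : 𝓞 K) :
    algebraMap (𝓞 K) L a = algebraMap (𝓞 L) L (algebraMap (𝓞 K) (𝓞 L) a) := rfl

omit [NumberField K] [NumberField L] in
theorem algebraMap_int' (a : 𝓞 K) :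
    algebraMap (𝓞 K) L a = algebraMap K L (algebraMap (𝓞 K) K a) := rfl

theorem above_lt_one {v : HeightOneSpectrum (𝓞 K)} {w : HeightOneSpectrum (𝓞 L)} (h : Above v w)
    (a : 𝓞 K) : av w (algebraMap (𝓞 K) L a) < 1 ↔ a ∈ v.asIdeal := by
  rw [algebraMap_int, av_int_lt_one, above_iff h]

theorem above_eq_one {v : HeightOneSpectrum (𝓞 K)} {w : HeightOneSpectrum (𝓞 L)} (h : Above v w)
    (a : 𝓞 K) : av w (algebraMap (𝓞 K) L a) = 1 ↔ a ∉ v.asIdeal := by
  rw [algebraMap_int, av_int_eq_one, above_iff h]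

theorem above_le_one (w : HeightOneSpectrum (𝓞 L)) (a : 𝓞 K) :
    av w (algebraMap (𝓞 K) L a) ≤ 1 := by
  rw [algebraMap_int]
  exact av_int_le_one w _

theorem exists_above (J : Ideal (𝓞 K)) (hJ : J ≠ ⊥) (w : HeightOneSpectrum (𝓞 L))
    (hw : w.asIdeal ∣ J.map (algebraMap (𝓞 K) (𝓞 L))) :
    ∃ v : HeightOneSpectrum (𝓞 K), Above v w ∧ v.asIdeal ∣ J := by
  have h1 : J ≤ w.asIdeal.comap (algebraMap (𝓞 K) (𝓞 L)) :=
    Ideal.map_le_iff_le_comap.mp (Ideal.dvd_iff_le.mp hw)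
  refine ⟨⟨w.asIdeal.comap (algebraMap (𝓞 K) (𝓞 L)), Ideal.IsPrime.comap _, fun h => ?_⟩,
    fun a ha => Ideal.mem_comap.mp ha, Ideal.dvd_iff_le.mpr h1⟩
  exact hJ (le_bot_iff.mp (h ▸ h1))

/-- The absolute values at `v` and at a place over `v` give the same order. -/
theorem above_mono {v : HeightOneSpectrum (𝓞 K)} {w : HeightOneSpectrum (𝓞 L)} (hvw : Above v w)
    (x y : K) (h : av v x ≤ av v y) : av w (algebraMap K L x) ≤ av w (algebraMap K L y) := by
  rcases eq_or_ne y 0 with rfl | hy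
  · rw [map_zero] at h
    have hx : x = 0 := (av v).eq_zero.mp (le_antisymm h ((av v).nonneg x))
    rw [hx]
  · have hpos := (av v).pos hy
    have h1 : av v (x / y) ≤ 1 := by
      rw [map_div₀]
      exact div_le_one_of_le₀ h hpos.le
    obtain ⟨c, z, hc, hz⟩ := exists_denom v (x / y) h1
    have h2 := congrArg (fun t => av w (algebraMap K L t)) hz
    simp only [map_mul, ← algebraMap_int'] at h2
    rw [(above_eq_one hvw c).mpr hc, one_mul] at h2
    have h3 : av w (algebraMap K L (x / y)) ≤ 1 := by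
      rw [h2]
      exact above_le_one w z
    have hyw : 0 < av w (algebraMap K L y) :=
      (av w).pos ((map_ne_zero_iff _ (algebraMap K L).injective).mpr hy)
    rw [map_div₀, map_div₀, div_le_one hyw] at h3
    exact h3

theorem above_unif {v : HeightOneSpectrum (𝓞 K)} {w : HeightOneSpectrum (𝓞 L)} (h : Above v w) :
    ∃ π : 𝓞 K, π ∈ v.asIdeal ∧ π ≠ 0 ∧
      (∀ a ∈ v.asIdeal, av w (algebraMap (𝓞 K) L a) ≤ av w (algebraMap (𝓞 K) L π)) ∧
      ∀ (k : ℕ) (a : 𝓞 K), a ∉ v.asIdeal ^ (k + 1) →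
        av w (algebraMap (𝓞 K) L π) ^ k ≤ av w (algebraMap (𝓞 K) L a) := by
  obtain ⟨π, hπ⟩ := aux_unif v
  have hlq := lq_pos v
  have hmem : ∀ a : 𝓞 K, a ∈ v.asIdeal ↔
      av v (algebraMap (𝓞 K) K a) ≤ av v (algebraMap (𝓞 K) K π) := by
    intro a
    have h1 := av_int_le_pow v a 1
    rw [pow_one] at h1
    rw [h1, hπ]
    simp
  refine ⟨π, (hmem π).mpr le_rfl, ?_, fun a ha => ?_, fun k a ha => ?_⟩
  · rintro rfl
    rw [map_zero, map_zero] at hπ
    exact (Real.exp_pos _).ne hπ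
  · rw [algebraMap_int' (L := L) a, algebraMap_int' (L := L) π]
    exact above_mono h _ _ ((hmem a).mp ha)
  · rw [algebraMap_int' (L := L) a, algebraMap_int' (L := L) π, ← map_pow, ← map_pow]
    refine above_mono h _ _ ?_
    have ha0 : algebraMap (𝓞 K) K a ≠ 0 := by
      refine (map_ne_zero_iff _ RingOfIntegers.coe_injective).mpr ?_
      rintro rfl
      exact ha (Ideal.zero_mem _)
    obtain ⟨n, hn⟩ := av_disc v _ ha0
    rw [av_int_le_pow, hn] at ha
    rw [hn, map_pow, hπ, ← Real.exp_nat_mul]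
    have h1 := not_le.mp fun h => ha (Real.exp_le_exp.mpr h)
    push_cast at h1
    have h2 : (n : ℝ) < k + 1 := by nlinarith
    have h3 : (n : ℝ) ≤ k := by
      have h4 : n < (k : ℤ) + 1 := by exact_mod_cast h2
      exact_mod_cast Int.lt_add_one_iff.mp h4
    apply Real.exp_le_exp.mpr
    nlinarith

open Classical in
/-- the weights of the primes of `L` which divide `J` -/
theorem weight_ext (r : 𝓞 K) (hr : r ≠ 0) (J : Ideal (𝓞 K)) (hJ : J ∣ Ideal.span {r})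
    (P : Finset (HeightOneSpectrum (𝓞 L)))
    (hP : ∀ w : HeightOneSpectrum (𝓞 L), algebraMap (𝓞 K) (𝓞 L) r ∈ w.asIdeal → w ∈ P) :
    Module.finrank K L * Real.log (Ideal.absNorm J) ≤
      ∑ w ∈ P with w.asIdeal ∣ J.map (algebraMap (𝓞 K) (𝓞 L)),
        -Real.log (av w (algebraMap (𝓞 K) L r)) := by
  have h1 : algebraMap (𝓞 K) (𝓞 L) r ≠ 0 :=
    (map_ne_zero_iff _ (FaithfulSMul.algebraMap_injective (𝓞 K) (𝓞 L))).mpr hr
  have h2 : J.map (algebraMap (𝓞 K) (𝓞 L)) ∣ Ideal.span {algebraMap (𝓞 K) (𝓞 L) r} := by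
    rw [Ideal.dvd_iff_le] at hJ ⊢
    have h3 := Ideal.map_mono (f := algebraMap (𝓞 K) (𝓞 L)) hJ
    rwa [Ideal.map_span, Set.image_singleton] at h3
  have h3 := log_absNorm_le (algebraMap (𝓞 K) (𝓞 L) r) h1 _ h2 P hP
  rw [Ideal.absNorm_algebraMap, Nat.cast_pow, Real.log_pow,
    ← IsFractionRing.finrank_eq (𝓞 K) K (𝓞 L) L] at h3
  exact h3

end Pool.Agent.RDF
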