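import Pool.Agent.RDF.Core
import Pool.Agent.RDF.Star
import Pool.Agent.RDF.LocRi
import Pool.Agent.RDF.NOver
import Pool.Agent.RDF.NAux
import Pool.Agent.RDF.NLocA

set_option autoImplicit false

/-!
# The local defect at the points of bounded degree
-/

namespace Pool.Agent.RDF

open Polynomial NumberField IsDedekindDomain Pool.Agent.GPoly

/-- A nonzero vector of bounded degree has a multiple of norm one, of bounded degree. -/
theorem exists_primN {K L : Type} [Field K] [Field L] [Algebra K L] (abv : AbsoluteValue L ℝ)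
    (N : ℕ) (p : L × L) (hp : p ≠ 0) (hN : DegLe K N p) :
    ∃ c : L, c ≠ 0 ∧ nrm abv (c • p) = 1 ∧ DegLe K N (c • p) := by
  have hpos := nrm_pos abv hp
  obtain ⟨E, hE, h1, h2⟩ := hN
  rcases le_total (abv p.1) (abv p.2) with h | h
  · have e : nrm abv p = abv p.2 := max_eq_right h
    have h3 : p.2 ≠ 0 := abv.pos_iff.1 (e ▸ hpos)
    refine ⟨p.2⁻¹, inv_ne_zero h3, ?_, E, hE, ?_, ?_⟩
    · rw [nrm_smul, e, ← map_mul, inv_mul_cancel₀ h3, map_one]
    · exact E.mul_mem (E.inv_mem h2) h1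
    · exact E.mul_mem (E.inv_mem h2) h2
  · have e : nrm abv p = abv p.1 := max_eq_left h
    have h3 : p.1 ≠ 0 := abv.pos_iff.1 (e ▸ hpos)
    refine ⟨p.1⁻¹, inv_ne_zero h3, ?_, E, hE, ?_, ?_⟩
    · rw [nrm_smul, e, ← map_mul, inv_mul_cancel₀ h3, map_one]
    · exact E.mul_mem (E.inv_mem h1) h1
    · exact E.mul_mem (E.inv_mem h1) h2

/-- The bound of the determinant does not depend on the multiples of the vectors. -/
theorem of_smul {L : Type*} [Field L] (abv : AbsoluteValue L ℝ) (d m : ℕ) (hd : 1 ≤ d)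
    (F G : L[X]) (hF : F.natDegree ≤ d) (hG : G.natDegree ≤ d) (hR : resultant F G d d ≠ 0)
    (E : ℝ) (z : Fin (d ^ m) → L × L) (hz : ∀ i, z i ≠ 0)
    (hw : ∀ i j, i ≠ j → wedge (z i) (z j) ≠ 0) (c : Fin (d ^ m) → L) (hc : ∀ i, c i ≠ 0)
    (h1 : Real.log (abv (mat d m F G fun i => c i • z i).det) ≤
      ∑ i, UU abv d m F G (c i • z i) - E) :
    Real.log (abv (mat d m F G z).det) ≤ ∑ i, UU abv d m F G (z i) - E := by
  have hdet := det_mat_ne_zero d m hd F G hF hG hR z hw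
  have hcp : ∀ i, abv (c i) ^ (d ^ m - 1) ≠ 0 := fun i => pow_ne_zero _ (abv.pos (hc i)).ne'
  have hT : ((d ^ m - 1 : ℕ) : ℝ) = (d : ℝ) ^ m - 1 := by
    rw [Nat.cast_sub (Nat.one_le_pow _ _ (by omega)), Nat.cast_pow, Nat.cast_one]
  have h2 : Real.log (abv (mat d m F G fun i => c i • z i).det) =
      ∑ i, ((d : ℝ) ^ m - 1) * Real.log (abv (c i)) + Real.log (abv (mat d m F G z).det) := by
    rw [det_smul d m hd, map_mul, map_prod, Real.log_mul ?_ (abv.pos hdet).ne', Real.log_prod]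
    · congr 1
      refine Finset.sum_congr rfl fun i _ => ?_
      rw [map_pow, Real.log_pow, hT]
    · intro i _
      rw [map_pow]
      exact hcp i
    · refine Finset.prod_ne_zero_iff.2 fun i _ => ?_
      rw [map_pow]
      exact hcp i
  have h3 : ∑ i, UU abv d m F G (c i • z i) =
      ∑ i, UU abv d m F G (z i) + ∑ i, ((d : ℝ) ^ m - 1) * Real.log (abv (c i)) := by
    rw [← Finset.sum_add_distrib]
    refine Finset.sum_congr rfl fun i _ => ?_
    exact UU_smul abv d m hd F G (c i) (hc i) (z i) fun k =>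
      iter_ne_zero d hd F G hF hG hR k (hz i)
  rw [h2, h3] at h1
  linarith

variable {K L : Type} [Field K] [NumberField K] [Field L] [NumberField L] [Algebra K L]

/-- Case (B), for primitive vectors and `j ≤ m`. -/
theorem locN_ii (d N k : ℕ) (hd : 2 ≤ d) (F G : (𝓞 K)[X])
    (hF : F.natDegree ≤ d) (hG : G.natDegree ≤ d) (hR : resultant F G d d ≠ 0)
    (v : HeightOneSpectrum (𝓞 K)) (w : HeightOneSpectrum (𝓞 L)) (hvw : Above v w)
    (hv : resultant F G d d ∈ v.asIdeal)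
    (hmin : ∃ i j, F.coeff i * G.coeff j - F.coeff j * G.coeff i ∉ v.asIdeal)
    (hRk : resultant F G d d ∉ v.asIdeal ^ (k + 1)) (h : (𝓞 K ⧸ v.asIdeal)[X]) (j : ℕ)
    (hirr : Irreducible h) (hdeg : N < h.natDegree) (hj : j ≤ k)
    (h1 : h ∣ ((lift d (F.map C) (G.map C))^[j] (X, 1)).1.map (Ideal.Quotient.mk v.asIdeal))
    (h2 : h ∣ ((lift d (F.map C) (G.map C))^[j] (X, 1)).2.map (Ideal.Quotient.mk v.asIdeal))
    (m : ℕ) (hjm : j ≤ m) (z : Fin (d ^ m) → L × L) (hz : ∀ i, nrm (av w) (z i) = 1)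
    (hzN : ∀ i, DegLe K N (z i)) (hw : ∀ i j, i ≠ j → wedge (z i) (z j) ≠ 0) :
    Real.log (av w (mat d m (F.map (algebraMap (𝓞 K) L)) (G.map (algebraMap (𝓞 K) L)) z).det) ≤
      ∑ i, UU (av w) d m (F.map (algebraMap (𝓞 K) L)) (G.map (algebraMap (𝓞 K) L)) (z i) -
      (1 / (2 * (k + 1) * (d : ℝ) ^ (2 * k)) * ((d : ℝ) ^ m) ^ 2 - 4 * (m + 1) * (d : ℝ) ^ m) *
        (-Real.log (av w (algebraMap (𝓞 K) L (resultant F G d d)))) := by
  have hd1 : 1 ≤ d := by omega
  have hdR : (1 : ℝ) ≤ d := by exact_mod_cast hd1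
  have hd0 : (0 : ℝ) < d := by linarith
  have hinj : Function.Injective (algebraMap (𝓞 K) L) := by
    rw [IsScalarTower.algebraMap_eq (𝓞 K) K L]
    exact (algebraMap K L).injective.comp RingOfIntegers.coe_injective
  obtain ⟨π, hπ, hπ0, hmax, hpow⟩ := above_unif hvw
  obtain ⟨Ω, _, _, abv, ι, y, hna, hι, gen, hy1, hyy, hxy, hA⟩ :=
    exists_auxN hvw N h hirr hdeg π hπ hmax (d ^ m)
  have hπpos : 0 < av w (algebraMap (𝓞 K) L π) :=
    (av w).pos ((map_ne_zero_iff _ hinj).mpr hπ0)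
  obtain ⟨s, hs⟩ : ∃ s, s = -Real.log (av w (algebraMap (𝓞 K) L π)) := ⟨_, rfl⟩
  have hs0 : 0 < s := by
    have := Real.log_neg hπpos ((above_lt_one hvw π).mpr hπ)
    linarith
  have hexp : Real.exp (-s) = av w (algebraMap (𝓞 K) L π) := by
    rw [hs, neg_neg, Real.exp_log hπpos]
  set f : 𝓞 K →+* Ω := ι.comp (algebraMap (𝓞 K) L) with hf
  set FK := F.map (algebraMap (𝓞 K) L) with hFK
  set GK := G.map (algebraMap (𝓞 K) L) with hGK
  have hFf : FK.map ι = F.map f := by rw [hFK, hf, Polynomial.map_map]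
  have hGf : GK.map ι = G.map f := by rw [hGK, hf, Polynomial.map_map]
  have hFd : (F.map f).natDegree ≤ d := natDegree_map_le.trans hF
  have hGd : (G.map f).natDegree ≤ d := natDegree_map_le.trans hG
  have hFKd : FK.natDegree ≤ d := natDegree_map_le.trans hF
  have hGKd : GK.natDegree ≤ d := natDegree_map_le.trans hG
  have hRK : resultant FK GK d d = algebraMap (𝓞 K) L (resultant F G d d) := by
    rw [hFK, hGK, resultant_map_map]
  have hRK0 : resultant FK GK d d ≠ 0 := by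
    rw [hRK]
    exact (map_ne_zero_iff _ hinj).mpr hR
  have hRL : resultant (F.map f) (G.map f) d d = ι (resultant FK GK d d) := by
    rw [← hFf, ← hGf, resultant_map_map]
  have hRL0 : resultant (F.map f) (G.map f) d d ≠ 0 := by
    rw [hRL]
    exact (map_ne_zero_iff _ ι.injective).mpr hRK0
  have hfv : ∀ a : 𝓞 K, abv (f a) = av w (algebraMap (𝓞 K) L a) := fun a => hι _
  have hBF : ∀ i, abv ((F.map f).coeff i) ≤ 1 := fun i => by
    rw [coeff_map, hfv]
    exact above_le_one w _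
  have hBG : ∀ i, abv ((G.map f).coeff i) ≤ 1 := fun i => by
    rw [coeff_map, hfv]
    exact above_le_one w _
  have hmin' : ∃ i j, abv ((F.map f).coeff i * (G.map f).coeff j -
      (F.map f).coeff j * (G.map f).coeff i) = 1 := by
    obtain ⟨a, b, hab⟩ := hmin
    refine ⟨a, b, ?_⟩
    rw [coeff_map, coeff_map, coeff_map, coeff_map, ← map_mul, ← map_mul, ← map_sub, hfv]
    exact (above_eq_one hvw _).mpr hab
  have hnrmι : ∀ p : L × L, nrm abv (Prod.map ι ι p) = nrm (av w) p := fun p => by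
    simp only [nrm, Prod.map_fst, Prod.map_snd, hι]
  -- the auxiliary points
  have hyn : ∀ l, nrm abv ((y l, 1) : Ω × Ω) = 1 := fun l => by
    simp only [nrm, map_one]
    exact max_eq_right (hy1 l)
  have hj1 : ∀ l, nrm abv ((lift d (F.map f) (G.map f))^[j] (y l, 1)) ≤ Real.exp (-s) := by
    intro l
    let e : (𝓞 K)[X] →+* Ω := Polynomial.eval₂RingHom f (y l)
    have he : ∀ A : (𝓞 K)[X], (A.map C).map e = A.map f := by
      intro A
      rw [Polynomial.map_map]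
      congr 1
      ext a
      simp [e]
    have h3 := iter_map e d j (F.map C) (G.map C) ((X, 1) : (𝓞 K)[X] × (𝓞 K)[X])
    rw [he, he] at h3
    have h4 : Prod.map e e ((X, 1) : (𝓞 K)[X] × (𝓞 K)[X]) = (y l, 1) := by
      simp [e]
    rw [h4] at h3
    rw [← h3, hexp]
    exact max_le (hA l _ h1) (hA l _ h2)
  obtain ⟨n, rfl⟩ := Nat.exists_eq_add_of_le hjm
  have ha : ∀ l, Real.log (nrm abv ((lift d (F.map f) (G.map f))^[j + n] (y l, 1))) ≤
      -((d : ℝ) ^ n * s) := by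
    intro l
    have hne : ((y l, 1) : Ω × Ω) ≠ 0 := fun h0 => one_ne_zero (congrArg Prod.snd h0)
    have hpos := nrm_pos abv (iter_ne_zero d hd1 _ _ hFd hGd hRL0 (j + n) hne)
    rw [Real.log_le_iff_le_exp hpos, add_comm j n, Function.iterate_add_apply]
    refine (nrm_iter_le abv hna d _ _ hBF hBG _ n).trans ?_
    refine (pow_le_pow_left₀ (nrm_nonneg abv _) (hj1 l) _).trans ?_
    rw [← Real.exp_nat_mul, Nat.cast_pow]
    apply le_of_eq
    congr 1
    ring
  have hτ : (d : ℝ) ^ n ≤ (d : ℝ) ^ (j + n) := pow_le_pow_right₀ hdR (by omega)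
  have hcore := core abv hna gen d (j + n) hd1 (F.map f) (G.map f) hFd hGd hRL0 hBF hBG hmin'
    (fun i => Prod.map ι ι (z i)) (fun l => (y l, 1)) (fun i => by rw [hnrmι, hz]) hyn
    (fun i l hil => by
      rw [← wedge_map]
      exact (map_ne_zero_iff _ ι.injective).mpr (hw i l hil))
    (fun i l => by
      have h5 := hxy l (z i) (hzN i)
      rw [hz] at h5
      rw [← h5]
      congr 1
      simp only [wedge, Prod.map_fst, Prod.map_snd]
      ring)
    s ((d : ℝ) ^ n * s) ((d : ℝ) ^ n)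
    (fun l l' hll => by
      rw [hexp, ← hyy l l' hll]
      apply le_of_eq
      congr 1
      simp only [wedge]
      ring)
    ha hs0.le (by positivity) hτ
  have hdet := log_det_eq (av w) d (j + n) hd1 FK GK hFKd hGKd hRK0 z hw
  have hee : (d : ℝ) * ee d (j + n) = 2 * d * rr d (j + n) + (j + n) * (d : ℝ) ^ (j + n) := by
    exact_mod_cast ee_rr d (j + n) hd1
  have hit : ∀ i, nrm abv ((lift d (F.map f) (G.map f))^[j + n] (Prod.map ι ι (z i))) =
      nrm (av w) ((lift d FK GK)^[j + n] (z i)) := by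
    intro i
    rw [← hFf, ← hGf, ← iter_map, hnrmι]
  have hUU : ∀ i, Real.log (nrm (av w) ((lift d FK GK)^[j + n] (z i))) ≤
      UU (av w) d (j + n) FK GK (z i) := fun i =>
    log_nrm_iter_le_UU (av w) (av_nonarch w) d (j + n) hd1 FK GK hFKd hGKd hRK0
      (fun i => by rw [hFK, coeff_map]; exact above_le_one w _)
      (fun i => by rw [hGK, coeff_map]; exact above_le_one w _) (z i) (hz i)
  have hsum := Finset.sum_le_sum fun i (_ : i ∈ (Finset.univ : Finset (Fin (d ^ (j + n))))) =>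
    hUU i
  simp only [hit, ← wedge_map, hι, hRL, Finset.sum_neg_distrib] at hcore
  rw [hRK] at hcore hdet
  obtain ⟨ρ, hρ⟩ : ∃ ρ, ρ = -Real.log (av w (algebraMap (𝓞 K) L (resultant F G d d))) := ⟨_, rfl⟩
  have hlog : Real.log (av w (algebraMap (𝓞 K) L (resultant F G d d))) = -ρ := by rw [hρ]; ring
  rw [hlog] at hcore hdet
  rw [← hρ]
  have hRpos : 0 < av w (algebraMap (𝓞 K) L (resultant F G d d)) :=
    (av w).pos ((map_ne_zero_iff _ hinj).mpr hR)
  have hρ0 : 0 < ρ := by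
    have := Real.log_neg hRpos ((above_lt_one hvw _).mpr hv)
    linarith
  have hρk : ρ ≤ (k + 1) * s := by
    have h7 := Real.log_le_log (pow_pos hπpos k) (hpow k _ hRk)
    rw [Real.log_pow, hlog] at h7
    have h8 : Real.log (av w (algebraMap (𝓞 K) L π)) = -s := by rw [hs]; ring
    rw [h8] at h7
    nlinarith
  -- `τ² ≥ T² / d^(2k)`
  have hdk : (0 : ℝ) < (d : ℝ) ^ (2 * k) := by positivity
  have hτ2 : ((d : ℝ) ^ (j + n)) ^ 2 ≤ (d : ℝ) ^ (2 * k) * ((d : ℝ) ^ n) ^ 2 := by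
    rw [← pow_mul, ← pow_mul, ← pow_add]
    exact pow_le_pow_right₀ hdR (by omega)
  have hmain : 1 / (2 * (k + 1) * (d : ℝ) ^ (2 * k)) * ((d : ℝ) ^ (j + n)) ^ 2 * ρ ≤
      ((d : ℝ) ^ n) ^ 2 * s / 2 := by
    rw [div_mul_eq_mul_div, one_mul, div_mul_eq_mul_div, div_le_div_iff₀ (by positivity)
      (by norm_num)]
    have h8 : ((d : ℝ) ^ (j + n)) ^ 2 * ρ ≤
        ((d : ℝ) ^ (2 * k) * ((d : ℝ) ^ n) ^ 2) * ((k + 1) * s) :=
      mul_le_mul hτ2 hρk hρ0.le (by positivity)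
    nlinarith [h8]
  have hT : (0 : ℝ) < (d : ℝ) ^ (j + n) := by positivity
  have hee2 : (ee d (j + n) : ℝ) * ρ ≤ 2 * rr d (j + n) * ρ + (j + n) * (d : ℝ) ^ (j + n) * ρ := by
    have h9 : (ee d (j + n) : ℝ) ≤ 2 * rr d (j + n) + (j + n) * (d : ℝ) ^ (j + n) := by
      have h10 : (0 : ℝ) ≤ (j + n) * (d : ℝ) ^ (j + n) := by positivity
      have h11 : (d : ℝ) * ee d (j + n) ≤
          d * (2 * rr d (j + n) + (j + n) * (d : ℝ) ^ (j + n)) := by
        rw [hee]
        nlinarith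
      exact le_of_mul_le_mul_left h11 hd0
    nlinarith
  have hTρ : 0 ≤ (d : ℝ) ^ (j + n) * ρ := by positivity
  have hjn : (0 : ℝ) ≤ (j : ℝ) + n := by positivity
  push_cast at hcore ⊢
  nlinarith [mul_nonneg hjn hTρ]

end Pool.Agent.RDF

namespace Pool.Agent.RDF

open Polynomial NumberField IsDedekindDomain Pool.Agent.GPoly

/-- The local defect at the points of degree at most `N`, at a place above an
`(N, k)`-defective prime. -/
theorem local_defect_N (d N k : ℕ) (hd : 2 ≤ d) : ∃ κ C : ℝ, 0 < κ ∧ 0 ≤ C ∧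
    ∀ (K L : Type) [Field K] [NumberField K] [Field L] [NumberField L] [Algebra K L]
      (F G : (𝓞 K)[X]), F.natDegree ≤ d → G.natDegree ≤ d → resultant F G d d ≠ 0 →
      ∀ (v : HeightOneSpectrum (𝓞 K)) (w : HeightOneSpectrum (𝓞 L)), Above v w →
      resultant F G d d ∈ v.asIdeal → DefectiveN d N k F G v →
      ∀ (m : ℕ) (z : Fin (d ^ m) → L × L), (∀ i, z i ≠ 0) → (∀ i, DegLe K N (z i)) →
      (∀ i j, i ≠ j → wedge (z i) (z j) ≠ 0) →
      Real.log (av w (mat d m (F.map (algebraMap (𝓞 K) L)) (G.map (algebraMap (𝓞 K) L)) z).det) ≤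
        ∑ i, UU (av w) d m (F.map (algebraMap (𝓞 K) L)) (G.map (algebraMap (𝓞 K) L)) (z i) -
        (κ * ((d : ℝ) ^ m) ^ 2 - C * (m + 1) * (d : ℝ) ^ m) *
          (-Real.log (av w (algebraMap (𝓞 K) L (resultant F G d d)))) := by
  have hd1 : 1 ≤ d := by omega
  have hdR : (1 : ℝ) ≤ d := by exact_mod_cast hd1
  have hd2 : (2 : ℝ) ≤ d := by exact_mod_cast hd
  obtain ⟨κ₁, hκ₁⟩ : ∃ κ₁ : ℝ, κ₁ = 1 / (2 * (d : ℝ) ^ 2) := ⟨_, rfl⟩
  have hκ₁0 : 0 < κ₁ := by rw [hκ₁]; positivity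
  obtain ⟨κ₂, hκ₂⟩ : ∃ κ₂ : ℝ, κ₂ = 1 / (2 * (k + 1) * (d : ℝ) ^ (2 * k)) := ⟨_, rfl⟩
  have hκ₂0 : 0 < κ₂ := by rw [hκ₂]; positivity
  refine ⟨min κ₁ κ₂, 4, lt_min hκ₁0 hκ₂0, by norm_num, ?_⟩
  intro K L _ _ _ _ _ F G hF hG hR v w hvw hv hdef m z hz hzN hw
  have hinj : Function.Injective (algebraMap (𝓞 K) L) := by
    rw [IsScalarTower.algebraMap_eq (𝓞 K) K L]
    exact (algebraMap K L).injective.comp RingOfIntegers.coe_injective
  obtain ⟨ρ, hρ⟩ : ∃ ρ, ρ = -Real.log (av w (algebraMap (𝓞 K) L (resultant F G d d))) := ⟨_, rfl⟩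
  have hRpos : 0 < av w (algebraMap (𝓞 K) L (resultant F G d d)) :=
    (av w).pos ((map_ne_zero_iff _ hinj).mpr hR)
  have hρ0 : 0 < ρ := by
    have := Real.log_neg hRpos ((above_lt_one hvw _).mpr hv)
    linarith
  have hT : (0 : ℝ) < (d : ℝ) ^ m := by positivity
  -- monotonicity in the constants
  have hmono : ∀ κ : ℝ, min κ₁ κ₂ ≤ κ →
      (min κ₁ κ₂ * ((d : ℝ) ^ m) ^ 2 - 4 * (m + 1) * (d : ℝ) ^ m) * ρ ≤
        (κ * ((d : ℝ) ^ m) ^ 2 - 4 * (m + 1) * (d : ℝ) ^ m) * ρ := by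
    intro κ h1
    refine mul_le_mul_of_nonneg_right ?_ hρ0.le
    have h3 := mul_le_mul_of_nonneg_right h1 (sq_nonneg ((d : ℝ) ^ m))
    linarith
  have hFKd : (F.map (algebraMap (𝓞 K) L)).natDegree ≤ d := natDegree_map_le.trans hF
  have hGKd : (G.map (algebraMap (𝓞 K) L)).natDegree ≤ d := natDegree_map_le.trans hG
  have hRm : resultant (F.map (algebraMap (𝓞 K) L)) (G.map (algebraMap (𝓞 K) L)) d d =
      algebraMap (𝓞 K) L (resultant F G d d) := resultant_map_map _ _ _ _ _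
  have hRK0 : resultant (F.map (algebraMap (𝓞 K) L)) (G.map (algebraMap (𝓞 K) L)) d d ≠ 0 := by
    rw [hRm]
    exact (map_ne_zero_iff _ hinj).mpr hR
  rw [← hρ]
  choose c hc hc1 hcN using fun i => exists_primN (K := K) (av w) N (z i) (hz i) (hzN i)
  have hwc : ∀ i j, i ≠ j → wedge (c i • z i) (c j • z j) ≠ 0 := fun i j hij => by
    rw [wedge_smul_left, wedge_smul_right]
    exact mul_ne_zero (hc i) (mul_ne_zero (hc j) (hw i j hij))
  refine of_smul (av w) d m hd1 _ _ hFKd hGKd hRK0 _ z hz hw c hc ?_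
  rcases hdef with ⟨hA, hinf⟩ | ⟨hmin, hRk, h, j, hirr, hdeg, hj, h1, h2⟩
  · have h1 := log_det_eq (av w) d m hd1 _ _ hFKd hGKd hRK0 (fun i => c i • z i) hwc
    have h2 : ∑ i, UU (av w) d m (F.map (algebraMap (𝓞 K) L)) (G.map (algebraMap (𝓞 K) L))
        (c i • z i) = 0 :=
      Finset.sum_eq_zero fun i _ => UU_eq_zero_N d N m hd1 F G hF hG hvw hA hinf _ (hc1 i) (hcN i)
    have h3 : ∑ i, ∑ j ∈ Finset.univ.erase i,
        Real.log (av w (wedge (c i • z i) (c j • z j))) ≤ 0 :=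
      Finset.sum_nonpos fun i _ => Finset.sum_nonpos fun j _ =>
        Real.log_nonpos ((av w).nonneg _) (abv_wedge_le_one _ (av_nonarch w) _ _ (hc1 i) (hc1 j))
    rw [hRm] at h1
    rw [h2]
    have hlog : Real.log (av w (algebraMap (𝓞 K) L (resultant F G d d))) = -ρ := by
      rw [hρ]; ring
    rw [hlog] at h1
    have h4 : κ₁ * (2 * (d : ℝ) ^ 2) ≤ 1 := by
      rw [hκ₁, div_mul_cancel₀]
      positivity
    have h5 := mul_le_mul_of_nonneg_right (le_rr d m hd κ₁ 4 h4 (by norm_num)) hρ0.le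
    have h6 := hmono κ₁ (min_le_left _ _)
    linarith
  · rcases le_or_gt j m with hjm | hjm
    · have h3 := locN_ii d N k hd F G hF hG hR v w hvw hv hmin hRk h j hirr hdeg hj h1 h2 m hjm
        (fun i => c i • z i) hc1 hcN hwc
      rw [← hρ, ← hκ₂] at h3
      have h4 := hmono κ₂ (min_le_right _ _)
      linarith
    · -- few points: nothing is claimed
      have hz0 : ∀ i, c i • z i ≠ 0 := fun i h0 => by
        have h5 := hc1 i
        rw [h0] at h5
        simp [nrm] at h5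
      have hdet0 := det_mat_ne_zero d m hd1 _ _ hFKd hGKd hRK0 (fun i => c i • z i) hwc
      have h3 := log_det_le (av w) (av_nonarch w) d m hd1 _ _ (fun i => c i • z i)
        (fun i l => iter_ne_zero d hd1 _ _ hFKd hGKd hRK0 l (hz0 i)) hdet0
      have h4 : min κ₁ κ₂ * ((d : ℝ) ^ m) ^ 2 ≤ 4 * (m + 1) * (d : ℝ) ^ m := by
        have h5 : min κ₁ κ₂ * (d : ℝ) ^ m ≤ 1 := by
          have h6 : κ₂ * (d : ℝ) ^ m ≤ 1 := by
            rw [hκ₂, div_mul_eq_mul_div, one_mul, div_le_one (by positivity)]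
            have h7 : (d : ℝ) ^ m ≤ (d : ℝ) ^ (2 * k) := pow_le_pow_right₀ hdR (by omega)
            have h8 : (1 : ℝ) ≤ 2 * (k + 1) := by
              have : (0 : ℝ) ≤ k := Nat.cast_nonneg k
              linarith
            nlinarith [pow_pos (lt_of_lt_of_le one_pos hdR) (2 * k)]
          exact (mul_le_mul_of_nonneg_right (min_le_right _ _) hT.le).trans h6
        have h9 : (1 : ℝ) ≤ 4 * (m + 1) := by
          have h11 : (0 : ℝ) ≤ m := Nat.cast_nonneg m
          linarith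
        calc min κ₁ κ₂ * ((d : ℝ) ^ m) ^ 2 = (min κ₁ κ₂ * (d : ℝ) ^ m) * (d : ℝ) ^ m := by ring
          _ ≤ 1 * (d : ℝ) ^ m := mul_le_mul_of_nonneg_right h5 hT.le
          _ ≤ (4 * (m + 1)) * (d : ℝ) ^ m := mul_le_mul_of_nonneg_right h9 hT.le
      have h5 : (min κ₁ κ₂ * ((d : ℝ) ^ m) ^ 2 - 4 * (m + 1) * (d : ℝ) ^ m) * ρ ≤ 0 :=
        mul_nonpos_of_nonpos_of_nonneg (by linarith) hρ0.le
      linarith

end Pool.Agent.RDF
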