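import Pool.Agent.RDF.FibRes

set_option autoImplicit false

/-!
# The fibres of a rational function over a non-archimedean algebraically closed field

If `F` and `G` are linearly independent over the residue field, then for every `g` of norm `1` the
form of `Φ ∧ g` is `c ∏ (p ∧ z_i)` with `|c| = 1` and vectors `z_i` of norm `1`.
-/

namespace Pool.Agent.RDF

open Polynomial

variable {L : Type*} [Field L]

theorem form_mul_lin (k : ℕ) (f : L[X]) (hf : f.natDegree ≤ k) (z p : L × L) :
    form (k + 1) (f * lin z) p = form k f p * wedge p z := by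
  obtain ⟨a, b⟩ := p
  by_cases hb : b = 0
  · subst hb
    rw [form_infty, form_infty, coeff_mul_add_eq_of_natDegree_le hf (natDegree_lin_le z)]
    simp only [lin, wedge, coeff_sub, coeff_C_mul, coeff_X_one, mul_one, coeff_C_succ, sub_zero,
      mul_zero]
    ring
  · have hn : (f * lin z).natDegree ≤ k + 1 :=
      natDegree_mul_le.trans (Nat.add_le_add hf (natDegree_lin_le z))
    rw [form_affine _ _ hn _ _ hb, form_affine _ _ hf _ _ hb]
    simp only [lin, wedge, eval_mul, eval_sub, eval_C, eval_X]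
    field_simp
    ring

theorem form_prod_lin (k : ℕ) (z : Fin k → L × L) (p : L × L) :
    form k (∏ i, lin (z i)) p = ∏ i, wedge p (z i) := by
  induction k with
  | zero => simp [form]
  | succ k ih =>
    rw [Fin.prod_univ_castSucc, Fin.prod_univ_castSucc,
      form_mul_lin _ _ (natDegree_prod_lin_le k _), ih]

theorem form_C_mul (k : ℕ) (c : L) (f : L[X]) (p : L × L) :
    form k (C c * f) p = c * form k f p := by
  simp only [form, coeff_C_mul, Finset.mul_sum]
  refine Finset.sum_congr rfl fun i _ => ?_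
  ring

theorem exists_factor [IsAlgClosed L] (abv : AbsoluteValue L ℝ) (d : ℕ) (P : L[X])
    (hP : P.natDegree ≤ d) :
    ∃ (c : L) (z : Fin d → L × L), (∀ i, nrm abv (z i) = 1) ∧ P = C c * ∏ i, lin (z i) := by
  induction d generalizing P with
  | zero =>
    refine ⟨P.coeff 0, fun i => i.elim0, fun i => i.elim0, ?_⟩
    simpa using eq_C_of_natDegree_le_zero hP
  | succ d ih =>
    rcases Nat.lt_or_ge P.natDegree (d + 1) with h | h
    · obtain ⟨c, z, hz, hPz⟩ := ih P (Nat.lt_succ_iff.mp h)
      refine ⟨c, Fin.snoc z (-1, 0), ?_, ?_⟩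
      · intro i
        refine Fin.lastCases ?_ (fun j => ?_) i
        · rw [Fin.snoc_last]
          simp [nrm]
        · rw [Fin.snoc_castSucc]
          exact hz j
      · rw [Fin.prod_univ_castSucc]
        simp only [Fin.snoc_castSucc, Fin.snoc_last]
        have : lin ((-1 : L), (0 : L)) = 1 := by simp [lin]
        rw [this, mul_one]
        exact hPz
    · have hd : P.natDegree = d + 1 := le_antisymm hP h
      obtain ⟨ζ, hζ⟩ := IsAlgClosed.exists_root P (by
        intro h0
        have h1 : P.natDegree = 0 := natDegree_eq_zero_iff_degree_le_zero.mpr h0.le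
        omega)
      obtain ⟨Q, hQ⟩ := dvd_iff_isRoot.mpr hζ
      have hP0 : P ≠ 0 := by
        rintro rfl
        simp at hd
      have hQ0 : Q ≠ 0 := by
        rintro rfl
        rw [mul_zero] at hQ
        exact hP0 hQ
      have hQd : Q.natDegree = d := by
        have := natDegree_mul (X_sub_C_ne_zero ζ) hQ0
        rw [← hQ, natDegree_X_sub_C] at this
        omega
      -- the vector of norm `1` of the root
      obtain ⟨w, r, hw, hwl⟩ : ∃ (w : L × L) (r : L), nrm abv w = 1 ∧ X - C ζ = C r * lin w := by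
        rcases le_or_gt (abv ζ) 1 with h1 | h1
        · refine ⟨(ζ, 1), 1, ?_, ?_⟩
          · simp [nrm, h1]
          · simp [lin]
        · have hζ0 : ζ ≠ 0 := by
            rintro rfl
            rw [map_zero] at h1
            linarith
          refine ⟨(1, ζ⁻¹), ζ, ?_, ?_⟩
          · simp only [nrm, map_one, map_inv₀]
            exact max_eq_left (inv_le_one_of_one_le₀ h1.le)
          · simp only [lin, mul_sub, ← mul_assoc, ← C_mul, mul_inv_cancel₀ hζ0, C_1, one_mul,
              mul_one]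
      obtain ⟨c, z, hz, hQz⟩ := ih (C r * Q) ((natDegree_C_mul_le r Q).trans hQd.le)
      refine ⟨c, Fin.snoc z w, ?_, ?_⟩
      · intro i
        refine Fin.lastCases ?_ (fun j => ?_) i
        · rw [Fin.snoc_last]
          exact hw
        · rw [Fin.snoc_castSucc]
          exact hz j
      · rw [Fin.prod_univ_castSucc]
        simp only [Fin.snoc_castSucc, Fin.snoc_last]
        rw [← mul_assoc, ← hQz, hQ, hwl]
        ring

theorem coeff_mul_le_one (abv : AbsoluteValue L ℝ) (hna : IsNonarchimedean abv) (A B : L[X])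
    (hA : ∀ i, abv (A.coeff i) ≤ 1) (hB : ∀ i, abv (B.coeff i) ≤ 1) (n : ℕ) :
    abv ((A * B).coeff n) ≤ 1 := by
  rw [coeff_mul]
  refine Finset.sum_induction _ (fun x => abv x ≤ 1) ?_ ?_ ?_
  · intro a b ha hb
    exact (hna a b).trans (max_le ha hb)
  · simp
  · intro x _
    rw [map_mul]
    exact mul_le_one₀ (hA _) (abv.nonneg _) (hB _)

theorem coeff_lin_le_one (abv : AbsoluteValue L ℝ) (z : L × L) (hz : nrm abv z = 1) (n : ℕ) :
    abv ((lin z).coeff n) ≤ 1 := by
  have h1 : abv z.1 ≤ 1 := hz ▸ le_max_left _ _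
  have h2 : abv z.2 ≤ 1 := hz ▸ le_max_right _ _
  rcases n with _ | n
  · simpa [lin] using h1
  · rcases n with _ | n
    · simpa [lin] using h2
    · simp [lin]

theorem coeff_prod_lin_le_one (abv : AbsoluteValue L ℝ) (hna : IsNonarchimedean abv) (k : ℕ)
    (z : Fin k → L × L) (hz : ∀ i, nrm abv (z i) = 1) (n : ℕ) :
    abv ((∏ i, lin (z i)).coeff n) ≤ 1 := by
  induction k generalizing n with
  | zero =>
    rw [Fin.prod_univ_zero, coeff_one]
    split_ifs <;> simp
  | succ k ih =>
    rw [Fin.prod_univ_castSucc]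
    exact coeff_mul_le_one abv hna _ _ (fun i => ih _ (fun j => hz _) i)
      (coeff_lin_le_one abv _ (hz _)) n

theorem abv_sub_le_max (abv : AbsoluteValue L ℝ) (hna : IsNonarchimedean abv) (a b : L) :
    abv (a - b) ≤ max (abv a) (abv b) := by
  have := hna a (-b)
  rwa [← sub_eq_add_neg, abv.map_neg] at this

/-- A point of norm `1` whose residue differs from those of the `z_i`. -/
theorem exists_generic (abv : AbsoluteValue L ℝ) (hna : IsNonarchimedean abv)
    (gen : ∀ N : ℕ, ∃ t : Fin N → L, (∀ i, abv (t i) ≤ 1) ∧ ∀ i j, i ≠ j → abv (t i - t j) = 1)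
    (d : ℕ) (z : Fin d → L × L) (hz : ∀ i, nrm abv (z i) = 1) :
    ∃ t : L, abv t ≤ 1 ∧ ∀ i, abv (wedge (t, 1) (z i)) = 1 := by
  obtain ⟨t, ht1, ht⟩ := gen (d + 1)
  by_contra hcon
  push Not at hcon
  have hle : ∀ j i, abv (wedge (t j, 1) (z i)) ≤ 1 := by
    intro j i
    have h1 : abv (z i).1 ≤ 1 := hz i ▸ le_max_left _ _
    have h2 : abv (z i).2 ≤ 1 := hz i ▸ le_max_right _ _
    simp only [wedge, mul_one]
    refine (abv_sub_le_max abv hna _ _).trans (max_le ?_ h1)
    rw [map_mul]
    exact mul_le_one₀ (ht1 j) (abv.nonneg _) h2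
  choose f hf using fun j => hcon (t j) (ht1 j)
  obtain ⟨j, k, hjk, hfe⟩ := Fintype.exists_ne_map_eq_of_card_lt f (by simp)
  have h1 : abv (wedge (t j, 1) (z (f j))) < 1 := lt_of_le_of_ne (hle _ _) (hf j)
  have h2 : abv (wedge (t k, 1) (z (f j))) < 1 := by
    rw [hfe]
    exact lt_of_le_of_ne (hle _ _) (hf k)
  have h3 : abv (z (f j)).2 < 1 := by
    have e : (t j - t k) * (z (f j)).2 =
        wedge (t j, 1) (z (f j)) - wedge (t k, 1) (z (f j)) := by
      simp only [wedge]
      ring
    have h := congrArg abv e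
    rw [map_mul, ht j k hjk, one_mul] at h
    rw [h]
    exact (abv_sub_le_max abv hna _ _).trans_lt (max_lt h1 h2)
  have h4 : abv (z (f j)).1 < 1 := by
    have e : (z (f j)).1 = t j * (z (f j)).2 - wedge (t j, 1) (z (f j)) := by
      simp only [wedge]
      ring
    rw [e]
    refine (abv_sub_le_max abv hna _ _).trans_lt (max_lt ?_ h1)
    rw [map_mul]
    exact (mul_le_of_le_one_left (abv.nonneg _) (ht1 j)).trans_lt h3
  have := hz (f j)
  rw [nrm] at this
  exact absurd this (max_lt h4 h3).ne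

theorem exists_fibre {L : Type*} [Field L] [IsAlgClosed L] (abv : AbsoluteValue L ℝ)
    (hna : IsNonarchimedean abv)
    (gen : ∀ N : ℕ, ∃ t : Fin N → L, (∀ i, abv (t i) ≤ 1) ∧ ∀ i j, i ≠ j → abv (t i - t j) = 1)
    (d : ℕ) (hd : 1 ≤ d) (F G : L[X]) (hF : F.natDegree ≤ d)
    (hG : G.natDegree ≤ d) (hR : resultant F G d d ≠ 0) (hBF : ∀ i, abv (F.coeff i) ≤ 1)
    (hBG : ∀ i, abv (G.coeff i) ≤ 1)
    (hmin : ∃ i j, abv (F.coeff i * G.coeff j - F.coeff j * G.coeff i) = 1)
    (g : L × L) (hg : nrm abv g = 1) :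
    ∃ z : Fin d → L × L, (∀ i, nrm abv (z i) = 1) ∧
      (∀ p, abv (wedge (lift d F G p) g) = ∏ i, abv (wedge p (z i))) ∧
      Real.log (abv (resultant F G d d)) ≤ ∑ i, Real.log (nrm abv (lift d F G (z i))) := by
  have : Infinite L := IsAlgClosed.instInfinite
  have hg1 : abv g.1 ≤ 1 := hg ▸ le_max_left _ _
  have hg2 : abv g.2 ≤ 1 := hg ▸ le_max_right _ _
  have hC : ∀ (r : L) (p : L[X]), p.natDegree ≤ d → (C r * p).natDegree ≤ d := fun r p hp =>
    (natDegree_C_mul_le r p).trans hp
  set P : L[X] := C g.2 * F - C g.1 * G with hPdef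
  have hPd : P.natDegree ≤ d := (natDegree_sub_le _ _).trans (max_le (hC _ _ hF) (hC _ _ hG))
  have hPc : ∀ i, P.coeff i = g.2 * F.coeff i - g.1 * G.coeff i := by
    intro i
    rw [hPdef, coeff_sub, coeff_C_mul, coeff_C_mul]
  have hP1 : ∀ i, abv (P.coeff i) ≤ 1 := by
    intro i
    rw [hPc]
    refine (abv_sub_le_max abv hna _ _).trans (max_le ?_ ?_)
    · rw [map_mul]
      exact mul_le_one₀ hg2 (abv.nonneg _) (hBF i)
    · rw [map_mul]
      exact mul_le_one₀ hg1 (abv.nonneg _) (hBG i)
  -- some coefficient of `P` has absolute value `1`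
  obtain ⟨k, hk⟩ : ∃ k, 1 ≤ abv (P.coeff k) := by
    obtain ⟨i, j, hij⟩ := hmin
    by_contra hcon
    push Not at hcon
    have hi := hcon i
    have hj := hcon j
    have key : ∀ a b : L, abv a ≤ 1 → abv b ≤ 1 →
        abv (a * P.coeff i - b * P.coeff j) < 1 := by
      intro a b ha hb
      refine (abv_sub_le_max abv hna _ _).trans_lt (max_lt ?_ ?_)
      · rw [map_mul]
        exact (mul_le_of_le_one_left (abv.nonneg _) ha).trans_lt hi
      · rw [map_mul]
        exact (mul_le_of_le_one_left (abv.nonneg _) hb).trans_lt hj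
    have e1 : G.coeff j * P.coeff i - G.coeff i * P.coeff j =
        g.2 * (F.coeff i * G.coeff j - F.coeff j * G.coeff i) := by
      rw [hPc, hPc]
      ring
    have e2 : F.coeff j * P.coeff i - F.coeff i * P.coeff j =
        g.1 * (F.coeff i * G.coeff j - F.coeff j * G.coeff i) := by
      rw [hPc, hPc]
      ring
    have h1 := key _ _ (hBG j) (hBG i)
    have h2 := key _ _ (hBF j) (hBF i)
    rw [e1, map_mul, hij, mul_one] at h1
    rw [e2, map_mul, hij, mul_one] at h2
    rw [nrm] at hg
    exact absurd hg (max_lt h2 h1).ne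
  obtain ⟨c, z, hz, hPz⟩ := exists_factor abv d P hPd
  have hform : ∀ p, wedge (lift d F G p) g = c * ∏ i, wedge p (z i) := by
    intro p
    rw [← form_lin_comb, ← hPdef, hPz, form_C_mul, form_prod_lin]
  have hc1 : 1 ≤ abv c := by
    have h1 : P.coeff k = c * (∏ i, lin (z i)).coeff k := by
      rw [← coeff_C_mul, ← hPz]
    rw [h1, map_mul] at hk
    exact hk.trans (mul_le_of_le_one_right (abv.nonneg _) (coeff_prod_lin_le_one abv hna d z hz k))
  have hc2 : abv c ≤ 1 := by
    obtain ⟨t, ht1, ht⟩ := exists_generic abv hna gen d z hz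
    have h1 : P.eval t = c * ∏ i, wedge (t, 1) (z i) := by
      rw [← form_one d P hPd t, hPdef, form_lin_comb, hform]
    have h2 : abv (P.eval t) = abv c := by
      rw [h1, map_mul, map_prod, Finset.prod_congr rfl fun i _ => ht i]
      simp
    rw [← h2, eval_eq_sum_range]
    refine Finset.sum_induction _ (fun x => abv x ≤ 1) ?_ ?_ ?_
    · intro a b ha hb
      exact (hna a b).trans (max_le ha hb)
    · simp
    · intro x _
      rw [map_mul, map_pow]
      exact mul_le_one₀ (hP1 x) (pow_nonneg (abv.nonneg _) _) (pow_le_one₀ (abv.nonneg _) ht1)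
  have hc : abv c = 1 := le_antisymm hc2 hc1
  refine ⟨z, hz, ?_, ?_⟩
  · intro p
    rw [hform, map_mul, hc, one_mul, map_prod]
  · refine (log_resultant_fibre abv d hd F G hF hG hR g hg c hc z ?_ hform).le
    intro i h0
    have := hz i
    rw [h0] at this
    simp [nrm] at this

end Pool.Agent.RDF
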