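import Pool.Agent.RDF.Link
import Pool.Agent.RDF.ResId

set_option autoImplicit false

/-!
# Heights of preperiodic points
-/

namespace Pool.Agent.RDF

open Polynomial NumberField IsDedekindDomain Pool.Agent.GPoly

namespace Ht

theorem iSup_pair {K : Type} [Field K] (f : K → ℝ) (p : K × K) :
    (⨆ i, f ((![p.1, p.2] : Fin 2 → K) i)) = max (f p.1) (f p.2) := by
  apply le_antisymm
  · refine ciSup_le fun i => ?_
    fin_cases i
    · exact le_max_left _ _
    · exact le_max_right _ _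
  · refine max_le ?_ ?_
    · exact le_ciSup (f := fun i => f ((![p.1, p.2] : Fin 2 → K) i)) (Set.finite_range _).bddAbove 0
    · exact le_ciSup (f := fun i => f ((![p.1, p.2] : Fin 2 → K) i)) (Set.finite_range _).bddAbove 1

theorem iSup_nrm {K : Type} [Field K] (abv : AbsoluteValue K ℝ) (p : K × K) :
    (⨆ i, abv ((![p.1, p.2] : Fin 2 → K) i)) = nrm abv p := iSup_pair (fun x => abv x) p

theorem pair_ne {K : Type} [Field K] {p : K × K} (hp : p ≠ 0) : (![p.1, p.2] : Fin 2 → K) ≠ 0 := by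
  intro h
  apply hp
  ext
  · exact congrFun h 0
  · exact congrFun h 1

/-- the local inequality in logarithms -/
theorem log_local {L : Type} [Field L] (abv : AbsoluteValue L ℝ) {d : ℕ} (hd : 1 ≤ d)
    {R : L} (hR : R ≠ 0) {p q : L × L} (hp : p ≠ 0) (hq : q ≠ 0) {B c : ℝ} (hB : 0 < B)
    (hc : 0 < c) (h : abv R * nrm abv p ^ d ≤ c * B ^ (2 * d - 1) * nrm abv q) :
    Real.log (abv R) + d * Real.log (nrm abv p) ≤
      Real.log c + (2 * d - 1) * Real.log B + Real.log (nrm abv q) := by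
  have hR' : 0 < abv R := abv.pos hR
  have hp' := nrm_pos abv hp
  have hq' := nrm_pos abv hq
  have h1 := Real.log_le_log (mul_pos hR' (pow_pos hp' d)) h
  rw [Real.log_mul hR'.ne' (pow_pos hp' d).ne', Real.log_pow,
    Real.log_mul (mul_pos hc (pow_pos hB _)).ne' hq'.ne', Real.log_mul hc.ne' (pow_pos hB _).ne',
    Real.log_pow] at h1
  have h2 : ((2 * d - 1 : ℕ) : ℝ) = 2 * d - 1 := by
    rw [Nat.cast_sub (by omega)]
    push_cast
    ring
  rw [h2] at h1
  exact h1

theorem coeff_le {K : Type} [Field K] (abv : AbsoluteValue K ℝ) {d : ℕ} {F G : K[X]}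
    (hF : F.natDegree ≤ d) (hG : G.natDegree ≤ d) :
    (∀ i, abv (F.coeff i) ≤ ⨆ i, abv (coeffs d F G i)) ∧
      ∀ i, abv (G.coeff i) ≤ ⨆ i, abv (coeffs d F G i) := by
  have hbdd : BddAbove (Set.range fun i => abv (coeffs d F G i)) := (Set.finite_range _).bddAbove
  have h0 : 0 ≤ ⨆ i, abv (coeffs d F G i) := Real.iSup_nonneg fun i => abv.nonneg _
  constructor
  · intro i
    by_cases hi : i ≤ d
    · exact le_ciSup hbdd (Sum.inl ⟨i, by omega⟩)
    · rw [coeff_eq_zero_of_natDegree_lt (by omega), map_zero]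
      exact h0
  · intro i
    by_cases hi : i ≤ d
    · exact le_ciSup hbdd (Sum.inr ⟨i, by omega⟩)
    · rw [coeff_eq_zero_of_natDegree_lt (by omega), map_zero]
      exact h0

theorem coeffs_ne {K : Type} [Field K] {d : ℕ} {F G : K[X]} {p : K × K}
    (h : lift d F G p ≠ 0) : coeffs d F G ≠ 0 := by
  intro h0
  apply h
  have h1 : ∀ i ∈ Finset.range (d + 1), F.coeff i = 0 := fun i hi =>
    congrFun h0 (Sum.inl ⟨i, Finset.mem_range.mp hi⟩)
  have h2 : ∀ i ∈ Finset.range (d + 1), G.coeff i = 0 := fun i hi =>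
    congrFun h0 (Sum.inr ⟨i, Finset.mem_range.mp hi⟩)
  have e1 : form d F p = 0 := Finset.sum_eq_zero fun i hi => by rw [h1 i hi, zero_mul, zero_mul]
  have e2 : form d G p = 0 := Finset.sum_eq_zero fun i hi => by rw [h2 i hi, zero_mul, zero_mul]
  exact Prod.ext e1 e2

theorem iSup_pos {K ι : Type} [Field K] [Finite ι] (abv : AbsoluteValue K ℝ) {x : ι → K}
    (hx : x ≠ 0) : 0 < ⨆ i, abv (x i) := by
  obtain ⟨i, hi⟩ := Function.ne_iff.mp hx
  exact (abv.pos hi).trans_le (le_ciSup (f := fun i => abv (x i)) (Set.finite_range _).bddAbove i)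

/-- the height of the image -/
theorem height_step (d : ℕ) (hd : 2 ≤ d) : ∃ c : ℝ, 0 ≤ c ∧
    ∀ (K : Type) [Field K] [NumberField K] (F G : K[X]), F.natDegree ≤ d → G.natDegree ≤ d →
      resultant F G d d ≠ 0 → ∀ p : K × K, p ≠ 0 →
      d * Height.logHeight ![p.1, p.2] ≤ (2 * d - 1) * Height.logHeight (coeffs d F G) +
        Height.logHeight ![(lift d F G p).1, (lift d F G p).2] + Module.finrank ℚ K * c := by
  classical
  obtain ⟨c, hc, H⟩ := nrm_lift_ge_arch d (by omega)
  refine ⟨Real.log c, Real.log_nonneg hc, ?_⟩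
  intro K _ _ F G hF hG hR p hp
  have hq : lift d F G p ≠ 0 := iter_ne_zero d (by omega) F G hF hG hR 1 hp
  have hco := coeffs_ne hq
  have f1 := link_finite (K := K) _ (pair_ne hp)
  have f2 := link_finite (K := K) _ (pair_ne hq)
  have f3 := link_finite (K := K) _ hco
  have f4 := av_support_finite (K := K) _ hR
  obtain ⟨P, hP1, hP2, hP3, hP4⟩ : ∃ P : Finset (HeightOneSpectrum (𝓞 K)),
      (∀ v, (⨆ i, av v ((![p.1, p.2] : Fin 2 → K) i)) ≠ 1 → v ∈ P) ∧
      (∀ v, (⨆ i, av v ((![(lift d F G p).1, (lift d F G p).2] : Fin 2 → K) i)) ≠ 1 → v ∈ P) ∧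
      (∀ v, (⨆ i, av v (coeffs d F G i)) ≠ 1 → v ∈ P) ∧
      (∀ v, av v (resultant F G d d) ≠ 1 → v ∈ P) := by
    refine ⟨f1.toFinset ∪ f2.toFinset ∪ f3.toFinset ∪ f4.toFinset, ?_, ?_, ?_, ?_⟩ <;>
    · intro v hv
      simp only [Finset.mem_union, Set.Finite.mem_toFinset]
      tauto
  have e1 := link _ (pair_ne hp) P hP1
  have e2 := link _ (pair_ne hq) P hP2
  have e3 := link _ hco P hP3
  have e4 := product_formula _ hR P hP4
  have l1 : ∀ v : HeightOneSpectrum (𝓞 K),
      Real.log (av v (resultant F G d d)) +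
        d * Real.log (⨆ i, av v ((![p.1, p.2] : Fin 2 → K) i)) ≤
      (2 * d - 1) * Real.log (⨆ i, av v (coeffs d F G i)) +
        Real.log (⨆ i, av v ((![(lift d F G p).1, (lift d F G p).2] : Fin 2 → K) i)) := by
    intro v
    rw [iSup_nrm (av v) p, iSup_nrm (av v) (lift d F G p)]
    have h1 := nrm_lift_ge (av v) (av_nonarch v) d (by omega) F G hF hG _
      (coeff_le (av v) hF hG).1 (coeff_le (av v) hF hG).2 p
    have h2 := log_local (av v) (d := d) (by omega) hR hp hq (iSup_pos (av v) hco) one_pos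
      (by rw [one_mul]; exact h1)
    rw [Real.log_one, zero_add] at h2
    exact h2
  have l2 : ∀ σ : K →+* ℂ,
      Real.log ‖σ (resultant F G d d)‖ +
        d * Real.log (⨆ i, ‖σ ((![p.1, p.2] : Fin 2 → K) i)‖) ≤
      Real.log c + (2 * d - 1) * Real.log (⨆ i, ‖σ (coeffs d F G i)‖) +
        Real.log (⨆ i, ‖σ ((![(lift d F G p).1, (lift d F G p).2] : Fin 2 → K) i)‖) := by
    intro σ
    set abv : AbsoluteValue K ℝ := NumberField.place σ with habv
    have hab : ∀ x, abv x = ‖σ x‖ := fun x => rfl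
    have h1 := H abv F G hF hG _ (coeff_le abv hF hG).1 (coeff_le abv hF hG).2 p
    have h2 := log_local abv (d := d) (by omega) hR hp hq (iSup_pos abv hco)
      (zero_lt_one.trans_le hc) h1
    rw [← iSup_nrm abv p, ← iSup_nrm abv (lift d F G p)] at h2
    exact h2
  have s1 := Finset.sum_le_sum fun v (_ : v ∈ P) => l1 v
  have s2 := Finset.sum_le_sum fun σ (_ : σ ∈ (Finset.univ : Finset (K →+* ℂ))) => l2 σ
  simp only [Finset.sum_add_distrib, ← Finset.mul_sum] at s1 s2
  have hcard : ∑ _σ : K →+* ℂ, Real.log c = Module.finrank ℚ K * Real.log c := by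
    rw [Finset.sum_const, nsmul_eq_mul, Finset.card_univ, NumberField.Embeddings.card]
  rw [hcard] at s2
  rw [e1, e2, e3]
  linarith

theorem exists_smul {K : Type} [Field K] {p q : K × K} (hp : p ≠ 0) (hq : q ≠ 0)
    (h : wedge p q = 0) : ∃ c : K, c ≠ 0 ∧ q = c • p := by
  unfold wedge at h
  by_cases h1 : p.1 = 0
  · have h2 : p.2 ≠ 0 := fun h2 => hp (Prod.ext h1 h2)
    have h3 : q.1 = 0 := by
      rw [h1, zero_mul, zero_sub, neg_eq_zero] at h
      exact (mul_eq_zero.mp h).resolve_right h2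
    have h4 : q = (q.2 / p.2) • p := by
      ext
      · simp [h1, h3]
      · simp [h2]
    refine ⟨q.2 / p.2, ?_, h4⟩
    intro h5
    rw [h5, zero_smul] at h4
    exact hq h4
  · have h4 : q = (q.1 / p.1) • p := by
      ext
      · simp [h1]
      · simp only [Prod.smul_snd, smul_eq_mul]
        field_simp
        linear_combination h
    refine ⟨q.1 / p.1, ?_, h4⟩
    intro h5
    rw [h5, zero_smul] at h4
    exact hq h4

theorem height_smul {K : Type} [Field K] [NumberField K] {p : K × K} {c : K} (hc : c ≠ 0) :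
    Height.logHeight ![(c • p).1, (c • p).2] = Height.logHeight ![p.1, p.2] := by
  rw [← Height.logHeight_smul_eq_logHeight ![p.1, p.2] hc]
  congr 1
  funext i
  fin_cases i <;> rfl

end Ht

open Ht

theorem height_preper (d : ℕ) (hd : 2 ≤ d) : ∃ C : ℝ, 0 ≤ C ∧
    ∀ (K : Type) [Field K] [NumberField K] (F G : K[X]), F.natDegree ≤ d → G.natDegree ≤ d →
      resultant F G d d ≠ 0 → ∀ p : K × K, p ≠ 0 →
      (∃ a b, a < b ∧ wedge ((lift d F G)^[a] p) ((lift d F G)^[b] p) = 0) → ∀ k,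
      Height.logHeight ![((lift d F G)^[k] p).1, ((lift d F G)^[k] p).2] ≤
        C * (Height.logHeight (coeffs d F G) + Module.finrank ℚ K) := by
  obtain ⟨c, hc, H⟩ := height_step d hd
  have hd' : (2 : ℝ) ≤ d := by exact_mod_cast hd
  refine ⟨2 * d - 1 + c, by linarith, ?_⟩
  intro K _ _ F G hF hG hR p hp ⟨a, b, hab, hw⟩
  have hne : ∀ k, (lift d F G)^[k] p ≠ 0 := fun k =>
    iter_ne_zero d (by omega) F G hF hG hR k hp
  set h : ℕ → ℝ := fun k => Height.logHeight ![((lift d F G)^[k] p).1, ((lift d F G)^[k] p).2]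
    with hh
  have hper : ∀ j, h (b + j) = h (a + j) := by
    intro j
    obtain ⟨c, hc, e⟩ := exists_smul (hne a) (hne b) hw
    have e1 : (lift d F G)^[b + j] p = c ^ d ^ j • (lift d F G)^[a + j] p := by
      rw [add_comm b j, Function.iterate_add_apply, e, iter_smul, ← Function.iterate_add_apply,
        add_comm j a]
    simp only [hh, e1]
    exact height_smul (pow_ne_zero _ hc)
  obtain ⟨k₀, hk₀, hmax⟩ := Finset.exists_max_image (Finset.range b) h ⟨a, Finset.mem_range.mpr hab⟩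
  have hM : ∀ k, h k ≤ h k₀ := by
    intro k
    induction k using Nat.strong_induction_on with
    | _ k ih =>
      by_cases hk : k < b
      · exact hmax k (Finset.mem_range.mpr hk)
      · have e : k = b + (k - b) := by omega
        rw [e, hper]
        exact ih _ (by omega)
  have h1 := H K F G hF hG hR _ (hne k₀)
  rw [← Function.iterate_succ_apply' (lift d F G)] at h1
  have h2 := hM (k₀ + 1)
  have h3 : 0 ≤ h k₀ := Height.logHeight_nonneg _
  have h4 : 0 ≤ Height.logHeight (coeffs d F G) := Height.logHeight_nonneg _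
  have h5 : (0 : ℝ) ≤ Module.finrank ℚ K := Nat.cast_nonneg _
  have h6 : (d : ℝ) * h k₀ ≤ (2 * d - 1) * Height.logHeight (coeffs d F G) + h (k₀ + 1) +
      Module.finrank ℚ K * c := h1
  have h7 : h k₀ ≤ (2 * d - 1) * Height.logHeight (coeffs d F G) + Module.finrank ℚ K * c := by
    nlinarith [mul_le_mul_of_nonneg_right hd' h3]
  intro k
  calc h k ≤ h k₀ := hM k
    _ ≤ (2 * d - 1) * Height.logHeight (coeffs d F G) + Module.finrank ℚ K * c := h7
    _ ≤ _ := by nlinarith [mul_nonneg hc h4, mul_nonneg (show (0 : ℝ) ≤ 2 * d - 1 by linarith) h5]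

end Pool.Agent.RDF
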