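import Pool.Agent.RDF.LocU

set_option autoImplicit false

/-!
# The Lipschitz property of the lift

For a nonarchimedean absolute value for which `F` and `G` have integral coefficients,
`|Φ(p) ∧ Φ(q)| ≤ |p ∧ q| (‖p‖ ‖q‖)^(d-1)`; so the distance of `φ^m(p)` and `φ^m(q)` is at most
`|Res(F, G)|^(-2m)` times the distance of `p` and `q`.
-/

namespace Pool.Agent.RDF

open Polynomial

section lip

variable {L : Type*} [Field L]

private theorem pow_sub_pow_le (abv : AbsoluteValue L ℝ) (hna : IsNonarchimedean abv)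
    (a b : L) (B : ℝ) (ha : abv a ≤ B) (hb : abv b ≤ B) (n : ℕ) :
    abv (a ^ n - b ^ n) ≤ abv (a - b) * B ^ (n - 1) := by
  have hB : 0 ≤ B := (abv.nonneg a).trans ha
  have h := Commute.mul_geom_sum₂ (Commute.all a b) n
  rw [← h, map_mul]
  refine mul_le_mul_of_nonneg_left ?_ (abv.nonneg _)
  refine sum_le_of_na abv hna _ _ _ (pow_nonneg hB _) fun i hi => ?_
  have hi' : i < n := Finset.mem_range.mp hi
  rw [map_mul, map_pow, map_pow]
  calc abv a ^ i * abv b ^ (n - 1 - i) ≤ B ^ i * B ^ (n - 1 - i) :=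
        mul_le_mul (pow_le_pow_left₀ (abv.nonneg _) ha _) (pow_le_pow_left₀ (abv.nonneg _) hb _)
          (pow_nonneg (abv.nonneg _) _) (pow_nonneg hB _)
    _ = B ^ (n - 1) := by rw [← pow_add]; congr 1; omega

private theorem term_le (abv : AbsoluteValue L ℝ) (hna : IsNonarchimedean abv) (d : ℕ)
    (p q : L × L) (i j : ℕ) (hij : j ≤ i) (hi : i ≤ d) :
    abv ((p.1 ^ i * p.2 ^ (d - i)) * (q.1 ^ j * q.2 ^ (d - j)) -
      (q.1 ^ i * q.2 ^ (d - i)) * (p.1 ^ j * p.2 ^ (d - j))) ≤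
      abv (wedge p q) * (nrm abv p * nrm abv q) ^ (d - 1) := by
  obtain ⟨n, rfl⟩ := Nat.exists_eq_add_of_le hij
  obtain ⟨e, rfl⟩ := Nat.exists_eq_add_of_le hi
  have e1 : j + n + e - (j + n) = e := by omega
  have e2 : j + n + e - j = n + e := by omega
  rw [e1, e2]
  rcases Nat.eq_zero_or_pos n with hn | hn
  · subst hn
    simp only [Nat.add_zero, Nat.zero_add]
    rw [show (p.1 ^ j * p.2 ^ e) * (q.1 ^ j * q.2 ^ e) -
      (q.1 ^ j * q.2 ^ e) * (p.1 ^ j * p.2 ^ e) = 0 by ring, map_zero]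
    exact mul_nonneg (abv.nonneg _) (pow_nonneg (mul_nonneg (nrm_nonneg _ _) (nrm_nonneg _ _)) _)
  have e3 : (p.1 ^ (j + n) * p.2 ^ e) * (q.1 ^ j * q.2 ^ (n + e)) -
      (q.1 ^ (j + n) * q.2 ^ e) * (p.1 ^ j * p.2 ^ (n + e)) =
      ((p.1 * q.1) ^ j * (p.2 * q.2) ^ e) * ((p.1 * q.2) ^ n - (q.1 * p.2) ^ n) := by
    simp only [pow_add, mul_pow]; ring
  rw [e3, map_mul, map_mul, map_pow, map_pow]
  set B := nrm abv p * nrm abv q with hB
  have hB0 : 0 ≤ B := mul_nonneg (nrm_nonneg _ _) (nrm_nonneg _ _)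
  have hp1 : abv p.1 ≤ nrm abv p := le_max_left _ _
  have hp2 : abv p.2 ≤ nrm abv p := le_max_right _ _
  have hq1 : abv q.1 ≤ nrm abv q := le_max_left _ _
  have hq2 : abv q.2 ≤ nrm abv q := le_max_right _ _
  have h11 : abv (p.1 * q.1) ≤ B := by
    rw [map_mul]; exact mul_le_mul hp1 hq1 (abv.nonneg _) (nrm_nonneg _ _)
  have h22 : abv (p.2 * q.2) ≤ B := by
    rw [map_mul]; exact mul_le_mul hp2 hq2 (abv.nonneg _) (nrm_nonneg _ _)
  have h12 : abv (p.1 * q.2) ≤ B := by
    rw [map_mul]; exact mul_le_mul hp1 hq2 (abv.nonneg _) (nrm_nonneg _ _)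
  have h21 : abv (q.1 * p.2) ≤ B := by
    rw [map_mul, mul_comm]; exact mul_le_mul hp2 hq1 (abv.nonneg _) (nrm_nonneg _ _)
  have hs := pow_sub_pow_le abv hna _ _ B h12 h21 n
  calc abv (p.1 * q.1) ^ j * abv (p.2 * q.2) ^ e * abv ((p.1 * q.2) ^ n - (q.1 * p.2) ^ n)
      ≤ B ^ j * B ^ e * (abv (wedge p q) * B ^ (n - 1)) := by
        refine mul_le_mul (mul_le_mul (pow_le_pow_left₀ (abv.nonneg _) h11 _)
          (pow_le_pow_left₀ (abv.nonneg _) h22 _) (pow_nonneg (abv.nonneg _) _)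
          (pow_nonneg hB0 _)) hs (abv.nonneg _) (mul_nonneg (pow_nonneg hB0 _) (pow_nonneg hB0 _))
    _ = abv (wedge p q) * B ^ (j + n + e - 1) := by
        have : j + n + e - 1 = j + e + (n - 1) := by omega
        rw [this, pow_add, pow_add]; ring

private theorem term_le' (abv : AbsoluteValue L ℝ) (hna : IsNonarchimedean abv) (d : ℕ)
    (p q : L × L) (i j : ℕ) (hi : i ≤ d) (hj : j ≤ d) :
    abv ((p.1 ^ i * p.2 ^ (d - i)) * (q.1 ^ j * q.2 ^ (d - j)) -
      (q.1 ^ i * q.2 ^ (d - i)) * (p.1 ^ j * p.2 ^ (d - j))) ≤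
      abv (wedge p q) * (nrm abv p * nrm abv q) ^ (d - 1) := by
  rcases le_total j i with h | h
  · exact term_le abv hna d p q i j h hi
  · have := term_le abv hna d p q j i h hj
    rw [← abv.map_neg] at this
    convert this using 2
    ring

/-- The Lipschitz property of the lift: `|Φ(p) ∧ Φ(q)| ≤ |p ∧ q| (‖p‖ ‖q‖)^(d-1)`. -/
theorem wedge_lift_le (abv : AbsoluteValue L ℝ) (hna : IsNonarchimedean abv) (d : ℕ)
    (F G : L[X]) (hBF : ∀ i, abv (F.coeff i) ≤ 1) (hBG : ∀ i, abv (G.coeff i) ≤ 1)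
    (p q : L × L) :
    abv (wedge (lift d F G p) (lift d F G q)) ≤
      abv (wedge p q) * (nrm abv p * nrm abv q) ^ (d - 1) := by
  have e : wedge (lift d F G p) (lift d F G q) =
      ∑ i ∈ Finset.range (d + 1), ∑ j ∈ Finset.range (d + 1), F.coeff i * G.coeff j *
        ((p.1 ^ i * p.2 ^ (d - i)) * (q.1 ^ j * q.2 ^ (d - j)) -
          (q.1 ^ i * q.2 ^ (d - i)) * (p.1 ^ j * p.2 ^ (d - j))) := by
    simp only [wedge, lift, form]
    rw [Finset.sum_mul_sum, Finset.sum_mul_sum, ← Finset.sum_sub_distrib]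
    refine Finset.sum_congr rfl fun i _ => ?_
    rw [← Finset.sum_sub_distrib]
    refine Finset.sum_congr rfl fun j _ => ?_
    ring
  rw [e]
  have hC : 0 ≤ abv (wedge p q) * (nrm abv p * nrm abv q) ^ (d - 1) :=
    mul_nonneg (abv.nonneg _) (pow_nonneg (mul_nonneg (nrm_nonneg _ _) (nrm_nonneg _ _)) _)
  refine sum_le_of_na abv hna _ _ _ hC fun i hi => sum_le_of_na abv hna _ _ _ hC fun j hj => ?_
  rw [map_mul, map_mul]
  have hi' : i ≤ d := Nat.lt_succ_iff.mp (Finset.mem_range.mp hi)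
  have hj' : j ≤ d := Nat.lt_succ_iff.mp (Finset.mem_range.mp hj)
  calc _ ≤ 1 * (abv (wedge p q) * (nrm abv p * nrm abv q) ^ (d - 1)) := by
        refine mul_le_mul ?_ (term_le' abv hna d p q i j hi' hj') (abv.nonneg _) zero_le_one
        exact mul_le_one₀ (hBF i) (abv.nonneg _) (hBG j)
    _ = _ := one_mul _

/-- The ultrametric inequality for `|p ∧ q|`. -/
theorem wedge_ultra (abv : AbsoluteValue L ℝ) (hna : IsNonarchimedean abv) (p q r : L × L) :
    abv (wedge p r) * nrm abv q ≤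
      max (abv (wedge p q) * nrm abv r) (abv (wedge q r) * nrm abv p) := by
  have e1 : wedge p r * q.1 = wedge p q * r.1 + wedge q r * p.1 := by simp only [wedge]; ring
  have e2 : wedge p r * q.2 = wedge p q * r.2 + wedge q r * p.2 := by simp only [wedge]; ring
  have h1 : abv (wedge p r) * abv q.1 ≤
      max (abv (wedge p q) * nrm abv r) (abv (wedge q r) * nrm abv p) := by
    rw [← map_mul, e1]
    refine (hna _ _).trans (max_le_max ?_ ?_) <;> rw [map_mul] <;>
      exact mul_le_mul_of_nonneg_left (le_max_left _ _) (abv.nonneg _)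
  have h2 : abv (wedge p r) * abv q.2 ≤
      max (abv (wedge p q) * nrm abv r) (abv (wedge q r) * nrm abv p) := by
    rw [← map_mul, e2]
    refine (hna _ _).trans (max_le_max ?_ ?_) <;> rw [map_mul] <;>
      exact mul_le_mul_of_nonneg_left (le_max_right _ _) (abv.nonneg _)
  rw [nrm, mul_max_of_nonneg _ _ (abv.nonneg _)]
  exact max_le h1 h2

theorem log_nrm_iter_le_UU (abv : AbsoluteValue L ℝ)
    (hna : IsNonarchimedean abv) (d m : ℕ) (hd : 1 ≤ d) (F G : L[X]) (hF : F.natDegree ≤ d)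
    (hG : G.natDegree ≤ d) (hR : resultant F G d d ≠ 0) (hBF : ∀ i, abv (F.coeff i) ≤ 1)
    (hBG : ∀ i, abv (G.coeff i) ≤ 1) (p : L × L) (hp : nrm abv p = 1) :
    Real.log (nrm abv ((lift d F G)^[m] p)) ≤ UU abv d m F G p := by
  have hp0 : p ≠ 0 := by
    rintro rfl
    simp [nrm] at hp
  induction m with
  | zero => simp [UU, hp]
  | succ m ih =>
    have h0 : (lift d F G)^[m] p ≠ 0 := iter_ne_zero d hd F G hF hG hR m hp0
    have h1 : (lift d F G)^[m + 1] p ≠ 0 := iter_ne_zero d hd F G hF hG hR (m + 1) hp0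
    have h2 : Real.log (nrm abv ((lift d F G)^[m + 1] p)) ≤
        d * Real.log (nrm abv ((lift d F G)^[m] p)) := by
      rw [← Real.log_pow]
      refine Real.log_le_log (nrm_pos abv h1) ?_
      rw [Function.iterate_succ_apply']
      exact nrm_lift_le abv hna d F G hBF hBG _
    have h3 : UU abv d (m + 1) F G p = UU abv d m F G p +
        ((d : ℝ) - 1) * Real.log (nrm abv ((lift d F G)^[m] p)) := by
      rw [UU, UU, Finset.sum_range_succ, mul_add]
    rw [h3]
    linarith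

private theorem wedge_step (abv : AbsoluteValue L ℝ)
    (hna : IsNonarchimedean abv) (d m : ℕ) (hd : 1 ≤ d) (F G : L[X]) (hF : F.natDegree ≤ d)
    (hG : G.natDegree ≤ d) (hR : resultant F G d d ≠ 0) (hBF : ∀ i, abv (F.coeff i) ≤ 1)
    (hBG : ∀ i, abv (G.coeff i) ≤ 1) (p q : L × L) (hp : p ≠ 0) (hq : q ≠ 0)
    (h : wedge ((lift d F G)^[m] p) ((lift d F G)^[m] q) ≠ 0) :
    wedge p q ≠ 0 ∧
      Real.log (nrm abv p) + Real.log (nrm abv q) - Real.log (abv (wedge p q)) ≤
      Real.log (nrm abv ((lift d F G)^[m] p)) + Real.log (nrm abv ((lift d F G)^[m] q)) -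
        Real.log (abv (wedge ((lift d F G)^[m] p) ((lift d F G)^[m] q))) +
        2 * m * (-Real.log (abv (resultant F G d d))) := by
  induction m generalizing p q with
  | zero => exact ⟨by simpa using h, by simp⟩
  | succ m ih =>
    rw [Function.iterate_succ_apply, Function.iterate_succ_apply] at h
    have hp' : lift d F G p ≠ 0 := lift_ne_zero d hd F G hR hp
    have hq' : lift d F G q ≠ 0 := lift_ne_zero d hd F G hR hq
    obtain ⟨h1, h2⟩ := ih _ _ hp' hq' h
    have hlip := wedge_lift_le abv hna d F G hBF hBG p q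
    have hpos : 0 < abv (wedge (lift d F G p) (lift d F G q)) := abv.pos h1
    have h0 : wedge p q ≠ 0 := by
      intro h0
      rw [h0, map_zero, zero_mul] at hlip
      exact absurd hlip (not_le.mpr hpos)
    have hnp := nrm_pos abv hp
    have hnq := nrm_pos abv hq
    have hw : 0 < abv (wedge p q) := abv.pos h0
    have hRp : 0 < abv (resultant F G d d) := abv.pos hR
    have l1 : Real.log (abv (wedge (lift d F G p) (lift d F G q))) ≤
        Real.log (abv (wedge p q)) +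
          ((d : ℝ) - 1) * (Real.log (nrm abv p) + Real.log (nrm abv q)) := by
      have := Real.log_le_log hpos hlip
      rw [Real.log_mul hw.ne' (pow_ne_zero _ (mul_pos hnp hnq).ne'), Real.log_pow,
        Real.log_mul hnp.ne' hnq.ne', Nat.cast_sub hd, Nat.cast_one] at this
      exact this
    have l2 : ∀ r : L × L, r ≠ 0 → Real.log (abv (resultant F G d d)) + d * Real.log (nrm abv r) ≤
        Real.log (nrm abv (lift d F G r)) := by
      intro r hr
      have hr0 := nrm_pos abv hr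
      have := nrm_lift_ge abv hna d hd F G hF hG 1 hBF hBG r
      rw [one_pow, one_mul] at this
      have := Real.log_le_log (mul_pos hRp (pow_pos hr0 _)) this
      rwa [Real.log_mul hRp.ne' (pow_ne_zero _ hr0.ne'), Real.log_pow] at this
    have l3 := l2 p hp
    have l4 := l2 q hq
    refine ⟨h0, ?_⟩
    rw [Function.iterate_succ_apply, Function.iterate_succ_apply, Nat.cast_add, Nat.cast_one]
    nlinarith [l1, l3, l4, h2]

theorem wedge_ge (abv : AbsoluteValue L ℝ)
    (hna : IsNonarchimedean abv) (d m : ℕ) (hd : 1 ≤ d) (F G : L[X]) (hF : F.natDegree ≤ d)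
    (hG : G.natDegree ≤ d) (hR : resultant F G d d ≠ 0) (hBF : ∀ i, abv (F.coeff i) ≤ 1)
    (hBG : ∀ i, abv (G.coeff i) ≤ 1) (p q : L × L) (hp : nrm abv p = 1) (hq : nrm abv q = 1)
    (h : abv (wedge ((lift d F G)^[m] p) ((lift d F G)^[m] q)) =
      nrm abv ((lift d F G)^[m] p) * nrm abv ((lift d F G)^[m] q)) :
    wedge p q ≠ 0 ∧
      -Real.log (abv (wedge p q)) ≤ 2 * m * (-Real.log (abv (resultant F G d d))) := by
  have hp0 : p ≠ 0 := by
    rintro rfl
    simp [nrm] at hp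
  have hq0 : q ≠ 0 := by
    rintro rfl
    simp [nrm] at hq
  have h1 := nrm_pos abv (iter_ne_zero d hd F G hF hG hR m hp0)
  have h2 := nrm_pos abv (iter_ne_zero d hd F G hF hG hR m hq0)
  have hw : wedge ((lift d F G)^[m] p) ((lift d F G)^[m] q) ≠ 0 := by
    intro h0
    rw [h0, map_zero] at h
    exact absurd h (mul_pos h1 h2).ne
  obtain ⟨h3, h4⟩ := wedge_step abv hna d m hd F G hF hG hR hBF hBG p q hp0 hq0 hw
  refine ⟨h3, ?_⟩
  rw [h, Real.log_mul h1.ne' h2.ne', hp, hq, Real.log_one] at h4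
  linarith

end lip

end Pool.Agent.RDF
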