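import Pool.Agent.RDF.Link

set_option autoImplicit false

/-!
# The global inequality from the local ones
-/

namespace Pool.Agent.RDF

open Polynomial NumberField IsDedekindDomain Pool.Agent.GPoly

theorem glob_sup (a b : ℝ) : (⨆ i, (![a, b] : Fin 2 → ℝ) i) = max a b := by
  refine le_antisymm (ciSup_le fun i => ?_) (max_le ?_ ?_)
  · fin_cases i
    · exact le_max_left _ _
    · exact le_max_right _ _
  · exact Finite.le_ciSup (![a, b] : Fin 2 → ℝ) 0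
  · exact Finite.le_ciSup (![a, b] : Fin 2 → ℝ) 1

theorem glob_sup_map {K : Type} (f : K → ℝ) (a b : K) :
    (⨆ i, f ((![a, b] : Fin 2 → K) i)) = max (f a) (f b) := by
  rw [← glob_sup]
  congr 1
  funext i
  fin_cases i <;> rfl

open Classical in
theorem glob_ineq {K : Type} [Field K] [NumberField K] {ι : Type*} (I : Finset ι) (q : ι → K × K)
    (hq : ∀ i ∈ I, q i ≠ 0) (w : ι → ℝ) (hw : ∀ i ∈ I, 0 ≤ w i) (Δ : K) (hΔ : Δ ≠ 0) (c : ℝ)
    (hc : 0 ≤ c) (S : Finset (HeightOneSpectrum (𝓞 K))) (E : HeightOneSpectrum (𝓞 K) → ℝ)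
    (harch : ∀ σ : K →+* ℂ, Real.log ‖σ Δ‖ ≤
      c + ∑ i ∈ I, w i * Real.log (max ‖σ (q i).1‖ ‖σ (q i).2‖))
    (hfin : ∀ v : HeightOneSpectrum (𝓞 K), Real.log (av v Δ) ≤
      ∑ i ∈ I, w i * Real.log (nrm (av v) (q i)) - if v ∈ S then E v else 0) :
    ∑ v ∈ S, E v ≤ Module.finrank ℚ K * c +
      ∑ i ∈ I, w i * Height.logHeight ![(q i).1, (q i).2] := by
  have hx : ∀ i ∈ I, (![(q i).1, (q i).2] : Fin 2 → K) ≠ 0 := by
    intro i hi h
    apply hq i hi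
    ext
    · exact congrFun h 0
    · exact congrFun h 1
  have hf1 : (⋃ i ∈ (I : Set ι), {v : HeightOneSpectrum (𝓞 K) |
      (⨆ j, av v ((![(q i).1, (q i).2] : Fin 2 → K) j)) ≠ 1}).Finite :=
    I.finite_toSet.biUnion fun i hi => link_finite _ (hx i hi)
  have hf2 := (hf1.union (av_support_finite Δ hΔ)).union S.finite_toSet
  set P : Finset (HeightOneSpectrum (𝓞 K)) := hf2.toFinset with hP
  have hmem : ∀ v, v ∈ P ↔ (v ∈ (⋃ i ∈ (I : Set ι), {v : HeightOneSpectrum (𝓞 K) |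
      (⨆ j, av v ((![(q i).1, (q i).2] : Fin 2 → K) j)) ≠ 1}) ∨ av v Δ ≠ 1) ∨ v ∈ S := by
    intro v
    rw [hP, Set.Finite.mem_toFinset]
    rfl
  have hSP : S ⊆ P := fun v hv => (hmem v).2 (Or.inr hv)
  have h1 := product_formula Δ hΔ P fun v hv => (hmem v).2 (Or.inl (Or.inr hv))
  have h2 : ∀ i ∈ I, Height.logHeight ![(q i).1, (q i).2] =
      ∑ v ∈ P, Real.log (nrm (av v) (q i)) +
        ∑ σ : K →+* ℂ, Real.log (max ‖σ (q i).1‖ ‖σ (q i).2‖) := by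
    intro i hi
    rw [link _ (hx i hi) P fun v hv => (hmem v).2 (Or.inl (Or.inl (Set.mem_biUnion
      (show i ∈ (I : Set ι) from hi) hv)))]
    congr 1
    · refine Finset.sum_congr rfl fun v _ => ?_
      rw [glob_sup_map (fun a => av v a)]
      rfl
    · refine Finset.sum_congr rfl fun σ _ => ?_
      rw [glob_sup_map (fun a => ‖σ a‖)]
  have h3 : ∑ v ∈ P, Real.log (av v Δ) ≤ ∑ v ∈ P, (∑ i ∈ I, w i * Real.log (nrm (av v) (q i)) -
      if v ∈ S then E v else 0) := Finset.sum_le_sum fun v _ => hfin v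
  have h4 : ∑ σ : K →+* ℂ, Real.log ‖σ Δ‖ ≤ ∑ σ : K →+* ℂ,
      (c + ∑ i ∈ I, w i * Real.log (max ‖σ (q i).1‖ ‖σ (q i).2‖)) :=
    Finset.sum_le_sum fun σ _ => harch σ
  have h5 : ∑ v ∈ P, (if v ∈ S then E v else 0) = ∑ v ∈ S, E v := by
    rw [Finset.sum_ite_mem, Finset.inter_eq_right.2 hSP]
  have h6 : ∑ i ∈ I, w i * Height.logHeight ![(q i).1, (q i).2] =
      ∑ v ∈ P, ∑ i ∈ I, w i * Real.log (nrm (av v) (q i)) +
        ∑ σ : K →+* ℂ, ∑ i ∈ I, w i * Real.log (max ‖σ (q i).1‖ ‖σ (q i).2‖) := by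
    rw [Finset.sum_comm, Finset.sum_comm (s := (Finset.univ : Finset (K →+* ℂ))),
      ← Finset.sum_add_distrib]
    refine Finset.sum_congr rfl fun i hi => ?_
    rw [h2 i hi, mul_add, Finset.mul_sum, Finset.mul_sum]
  have h7 : (Fintype.card (K →+* ℂ) : ℝ) = Module.finrank ℚ K := by
    rw [NumberField.Embeddings.card K ℂ]
  rw [Finset.sum_sub_distrib, h5] at h3
  rw [Finset.sum_add_distrib, Finset.sum_const, Finset.card_univ, nsmul_eq_mul, h7] at h4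
  rw [h6]
  linarith

end Pool.Agent.RDF
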