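import Pool.Agent.RDF.LocR
import Pool.Agent.RDF.Ht
import Pool.Agent.RDF.Glob

set_option autoImplicit false

/-!
# The global argument
-/

namespace Pool.Agent.RDF

open Polynomial NumberField IsDedekindDomain Pool.Agent.GPoly

/-- `p` is a nonzero vector whose class in the projective line is preperiodic for `F / G`. -/
def Preper {K : Type*} [Field K] (d : ℕ) (F G : K[X]) (p : K × K) : Prop :=
  p ≠ 0 ∧ ∃ a b, a < b ∧ wedge ((lift d F G)^[a] p) ((lift d F G)^[b] p) = 0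

theorem sum_UU {K : Type} [Field K] (abv : AbsoluteValue K ℝ) (d m : ℕ) (F G : K[X])
    (z : Fin (d ^ m) → K × K) :
    ∑ x ∈ (Finset.univ : Finset (Fin (d ^ m))) ×ˢ Finset.range m, ((d : ℝ) - 1) *
      Real.log (nrm abv ((lift d F G)^[x.2] (z x.1))) = ∑ i, UU abv d m F G (z i) := by
  rw [Finset.sum_product]
  refine Finset.sum_congr rfl fun i _ => ?_
  rw [UU, Finset.mul_sum]

/-- The global inequality for `d ^ m` preperiodic points. -/
theorem global_ineq (d k : ℕ) (hd : 2 ≤ d) : ∃ κ A B : ℝ, 0 < κ ∧ 0 ≤ A ∧ 0 ≤ B ∧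
    ∀ (K : Type) [Field K] [NumberField K] (F G : (𝓞 K)[X]), F.natDegree ≤ d → G.natDegree ≤ d →
      resultant F G d d ≠ 0 → ∀ J : Ideal (𝓞 K), J ∣ Ideal.span {resultant F G d d} →
      (∀ v : HeightOneSpectrum (𝓞 K), v.asIdeal ∣ J → Defective d k F G v) →
      ∀ (m : ℕ) (z : Fin (d ^ m) → K × K),
      (∀ i, Preper d (F.map (algebraMap (𝓞 K) K)) (G.map (algebraMap (𝓞 K) K)) (z i)) →
      (∀ i j, i ≠ j → wedge (z i) (z j) ≠ 0) →
      0 ≤ κ * ((d : ℝ) ^ m) ^ 2 - A * (m + 1) * (d : ℝ) ^ m →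
      (κ * ((d : ℝ) ^ m) ^ 2 - A * (m + 1) * (d : ℝ) ^ m) * Real.log (Ideal.absNorm J) ≤
        Module.finrank ℚ K * Real.log ((d ^ m).factorial : ℝ) +
        (d : ℝ) ^ m * m * (B * (Height.logHeight (coeffs d (F.map (algebraMap (𝓞 K) K))
          (G.map (algebraMap (𝓞 K) K))) + Module.finrank ℚ K)) := by
  classical
  obtain ⟨κ, A, hκ, hA, hloc⟩ := local_defect d k hd
  obtain ⟨C, hC, hht⟩ := height_preper d hd
  have hd' : (2 : ℝ) ≤ d := by exact_mod_cast hd
  refine ⟨κ, A, (d - 1) * C, hκ, hA, mul_nonneg (by linarith) hC, ?_⟩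
  intro K _ _ F G hF hG hR J hJ hdef m z hz hw hpos
  set FK := F.map (algebraMap (𝓞 K) K) with hFK
  set GK := G.map (algebraMap (𝓞 K) K) with hGK
  have hinj : Function.Injective (algebraMap (𝓞 K) K) := RingOfIntegers.coe_injective
  have hRK : resultant FK GK d d = algebraMap (𝓞 K) K (resultant F G d d) :=
    resultant_map_map _ _ _ _ _
  have hRK0 : resultant FK GK d d ≠ 0 := by
    rw [hRK]
    exact (map_ne_zero_iff _ hinj).mpr hR
  have hFd : FK.natDegree ≤ d := natDegree_map_le.trans hF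
  have hGd : GK.natDegree ≤ d := natDegree_map_le.trans hG
  have hz0 : ∀ i, z i ≠ 0 := fun i => (hz i).1
  have hiter : ∀ i l, (lift d FK GK)^[l] (z i) ≠ 0 := fun i l =>
    iter_ne_zero d (by omega) FK GK hFd hGd hRK0 l (hz0 i)
  have hdet0 : (mat d m FK GK z).det ≠ 0 := by
    obtain ⟨ε, hε, hdet⟩ := det_mat d m (by omega) FK GK hFd hGd
    rw [hdet z]
    refine mul_ne_zero (mul_ne_zero ?_ (pow_ne_zero _ hRK0)) ?_
    · rcases hε with rfl | rfl
      · exact one_ne_zero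
      · exact neg_ne_zero.mpr one_ne_zero
    · refine Finset.prod_ne_zero_iff.mpr fun i _ => Finset.prod_ne_zero_iff.mpr fun j hj => ?_
      exact hw i j (Finset.mem_Ioi.mp hj).ne
  -- the finite set of places
  obtain ⟨P, hP⟩ : ∃ P : Finset (HeightOneSpectrum (𝓞 K)),
      ∀ v : HeightOneSpectrum (𝓞 K), resultant F G d d ∈ v.asIdeal → v ∈ P := by
    have h1 := av_support_finite (algebraMap (𝓞 K) K (resultant F G d d))
      ((map_ne_zero_iff _ hinj).mpr hR)
    refine ⟨h1.toFinset, fun v hv => ?_⟩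
    rw [Set.Finite.mem_toFinset, Set.mem_ofPred_eq, Ne, av_int_eq_one, not_not]
    exact hv
  set S : Finset (HeightOneSpectrum (𝓞 K)) := P.filter fun v => v.asIdeal ∣ J with hS
  have hSJ : ∀ v, v ∈ S ↔ v.asIdeal ∣ J := by
    intro v
    rw [hS, Finset.mem_filter]
    refine ⟨fun h => h.2, fun h => ⟨hP v ?_, h⟩⟩
    exact Ideal.dvd_span_singleton.1 (h.trans hJ)
  set g : ℝ := κ * ((d : ℝ) ^ m) ^ 2 - A * (m + 1) * (d : ℝ) ^ m with hg
  have hmain := glob_ineq ((Finset.univ : Finset (Fin (d ^ m))) ×ˢ Finset.range m)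
    (fun x => (lift d FK GK)^[x.2] (z x.1)) (fun x _ => hiter x.1 x.2)
    (fun _ => (d : ℝ) - 1) (fun _ _ => by linarith) (mat d m FK GK z).det hdet0
    (Real.log ((d ^ m).factorial : ℝ))
    (Real.log_nonneg (by exact_mod_cast Nat.one_le_iff_ne_zero.mpr (Nat.factorial_ne_zero _))) S
    (fun v => g * (-Real.log (av v (algebraMap (𝓞 K) K (resultant F G d d)))))
    (by
      intro σ
      have h1 := log_det_le_arch (NumberField.place σ) d m (by omega) FK GK z hiter hdet0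
      rw [← sum_UU] at h1
      exact h1)
    (by
      intro v
      rw [sum_UU]
      by_cases hv : v ∈ S
      · rw [if_pos hv]
        have hvJ := (hSJ v).mp hv
        exact hloc K F G hF hG hR v (Ideal.dvd_span_singleton.1 (hvJ.trans hJ)) (hdef v hvJ) m z
          hz0 hw
      · rw [if_neg hv, sub_zero]
        exact log_det_le (av v) (av_nonarch v) d m (by omega) FK GK z hiter hdet0)
  rw [← Finset.mul_sum] at hmain
  have hJlog : Real.log (Ideal.absNorm J) ≤
      ∑ v ∈ S, -Real.log (av v (algebraMap (𝓞 K) K (resultant F G d d))) :=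
    log_absNorm_le _ hR J hJ P hP
  have h2 := mul_le_mul_of_nonneg_left hJlog hpos
  refine (h2.trans hmain).trans ?_
  refine add_le_add_right ?_ _
  have h3 : ∀ x ∈ (Finset.univ : Finset (Fin (d ^ m))) ×ˢ Finset.range m,
      ((d : ℝ) - 1) * Height.logHeight ![((lift d FK GK)^[x.2] (z x.1)).1,
        ((lift d FK GK)^[x.2] (z x.1)).2] ≤
      (d - 1) * C * (Height.logHeight (coeffs d FK GK) + Module.finrank ℚ K) := by
    intro x _
    rw [mul_assoc]
    refine mul_le_mul_of_nonneg_left ?_ (by linarith)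
    exact hht K FK GK hFd hGd hRK0 (z x.1) (hz0 x.1) (hz x.1).2 x.2
  refine (Finset.sum_le_card_nsmul _ _ _ h3).trans (le_of_eq ?_)
  rw [Finset.card_product, Finset.card_univ, Fintype.card_fin, Finset.card_range, nsmul_eq_mul]
  push_cast
  ring

theorem exists_m (κ A d : ℝ) (hκ : 0 < κ) (hd : 2 ≤ d) : ∃ m : ℕ, A * (m + 1) < κ * d ^ m := by
  obtain ⟨n, hn⟩ := exists_nat_gt (A / κ)
  refine ⟨2 * n + 4, ?_⟩
  have h1 : A < n * κ := by rwa [div_lt_iff₀ hκ] at hn
  have h2 : ((n : ℝ) + 1) ≤ 2 ^ n := by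
    have : n + 1 ≤ 2 ^ n := Nat.lt_two_pow_self
    exact_mod_cast this
  have h3 : (2 : ℝ) ^ (2 * n + 4) ≤ d ^ (2 * n + 4) := pow_le_pow_left₀ (by norm_num) hd _
  have h4 : (2 : ℝ) ^ (2 * n + 4) = 16 * ((2 : ℝ) ^ n) ^ 2 := by
    rw [pow_add, pow_mul']
    ring
  have h5 : ((n : ℝ) + 1) ^ 2 ≤ ((2 : ℝ) ^ n) ^ 2 := pow_le_pow_left₀ (by positivity) h2 2
  have hn0 : (0 : ℝ) ≤ n := Nat.cast_nonneg n
  have h6 : (n : ℝ) * (2 * n + 5) ≤ d ^ (2 * n + 4) := by nlinarith
  push_cast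
  calc A * (2 * n + 4 + 1) = A * (2 * n + 5) := by ring
    _ < n * κ * (2 * n + 5) := mul_lt_mul_of_pos_right h1 (by positivity)
    _ = κ * (n * (2 * n + 5)) := by ring
    _ ≤ κ * d ^ (2 * n + 4) := mul_le_mul_of_nonneg_left h6 hκ.le

/-- **Theorem.** -/
theorem main (D d k : ℕ) (hd : 2 ≤ d) : ∃ C : ℕ,
    ∀ (K : Type) [Field K] [NumberField K], Module.finrank ℚ K ≤ D →
    ∀ F G : (𝓞 K)[X], F.natDegree ≤ d → G.natDegree ≤ d → resultant F G d d ≠ 0 →
    ∀ J : Ideal (𝓞 K), J ∣ Ideal.span {resultant F G d d} → J ≠ ⊤ →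
    (∀ v : HeightOneSpectrum (𝓞 K), v.asIdeal ∣ J → Defective d k F G v) →
    Height.mulHeight (coeffs d (F.map (algebraMap (𝓞 K) K)) (G.map (algebraMap (𝓞 K) K))) ≤
      (Ideal.absNorm J : ℝ) ^ k →
    ∀ S : Finset (K × K),
      (∀ p ∈ S, Preper d (F.map (algebraMap (𝓞 K) K)) (G.map (algebraMap (𝓞 K) K)) p) →
      (∀ p ∈ S, ∀ q ∈ S, p ≠ q → wedge p q ≠ 0) → S.card ≤ C := by
  classical
  obtain ⟨κ, A, B, hκ, hA, hB, h⟩ := global_ineq d k hd
  have hd' : (2 : ℝ) ≤ d := by exact_mod_cast hd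
  have hl2 : 0 < Real.log 2 := Real.log_pos (by norm_num)
  have hld : 0 ≤ Real.log d := Real.log_nonneg (by linarith)
  set E : ℝ := D * Real.log d / Real.log 2 + B * (k + D / Real.log 2) with hE
  have hE0 : 0 ≤ E := by positivity
  obtain ⟨m, hm⟩ := exists_m κ (A + E) d hκ hd'
  refine ⟨d ^ m, ?_⟩
  intro K _ _ hK F G hF hG hR J hJ hJ1 hdef hH S hS hSw
  by_contra hcon
  rw [not_le] at hcon
  -- the points
  obtain ⟨z, hzS, hzinj⟩ : ∃ z : Fin (d ^ m) → K × K, (∀ i, z i ∈ S) ∧ Function.Injective z := by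
    have h1 : Fintype.card (Fin (d ^ m)) ≤ Fintype.card S := by
      rw [Fintype.card_fin, Fintype.card_coe]
      exact hcon.le
    obtain ⟨f⟩ := Function.Embedding.nonempty_of_card_le h1
    exact ⟨fun i => (f i : K × K), fun i => (f i).2, fun i j hij => f.injective (Subtype.ext hij)⟩
  -- the norm of `J`
  have hJ0 : J ≠ 0 := by
    rintro rfl
    exact hR (by simpa using zero_dvd_iff.1 hJ)
  have hN : 2 ≤ Ideal.absNorm J := by
    have h1 : Ideal.absNorm J ≠ 0 := by rwa [Ne, Ideal.absNorm_eq_zero_iff]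
    have h2 : Ideal.absNorm J ≠ 1 := by rwa [Ne, Ideal.absNorm_eq_one_iff]
    omega
  have hNr : (2 : ℝ) ≤ Ideal.absNorm J := by exact_mod_cast hN
  set ℓ : ℝ := Real.log (Ideal.absNorm J) with hℓ
  have hℓ2 : Real.log 2 ≤ ℓ := Real.log_le_log (by norm_num) hNr
  have hℓ0 : 0 < ℓ := lt_of_lt_of_le hl2 hℓ2
  have hHlog : Height.logHeight (coeffs d (F.map (algebraMap (𝓞 K) K))
      (G.map (algebraMap (𝓞 K) K))) ≤ k * ℓ := by
    rw [Height.logHeight_eq_log_mulHeight, hℓ, ← Real.log_pow]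
    exact Real.log_le_log (Height.mulHeight_pos _) hH
  set T : ℝ := (d : ℝ) ^ m with hT
  have hT0 : 0 < T := by positivity
  have hm0 : (0 : ℝ) ≤ m := Nat.cast_nonneg m
  have hpos : 0 ≤ κ * T ^ 2 - A * (m + 1) * T := by
    have h1 : A * (m + 1) ≤ κ * T := by
      have : A * (m + 1) ≤ (A + E) * (m + 1) := by nlinarith
      linarith
    nlinarith
  have hineq := h K F G hF hG hR J hJ hdef m z (fun i => hS _ (hzS i))
    (fun i j hij => hSw _ (hzS i) _ (hzS j) fun e => hij (hzinj e)) hpos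
  have hfin : (Module.finrank ℚ K : ℝ) ≤ D := by exact_mod_cast hK
  have hfin0 : (0 : ℝ) ≤ Module.finrank ℚ K := Nat.cast_nonneg _
  have hfact : Real.log ((d ^ m).factorial : ℝ) ≤ T * (m * Real.log d) := by
    have h1 : ((d ^ m).factorial : ℝ) ≤ ((d : ℝ) ^ m) ^ (d ^ m) := by
      have := Nat.factorial_le_pow (d ^ m)
      exact_mod_cast this
    have h2 := Real.log_le_log (by exact_mod_cast Nat.factorial_pos _) h1
    rw [Real.log_pow, Real.log_pow] at h2
    push_cast at h2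
    exact h2
  have hfact0 : 0 ≤ Real.log ((d ^ m).factorial : ℝ) :=
    Real.log_nonneg (by exact_mod_cast Nat.one_le_iff_ne_zero.mpr (Nat.factorial_ne_zero _))
  -- the right hand side
  have hD2 : (D : ℝ) ≤ D / Real.log 2 * ℓ := by
    rw [div_mul_eq_mul_div, le_div_iff₀ hl2]
    exact mul_le_mul_of_nonneg_left hℓ2 (Nat.cast_nonneg _)
  have e1 : (Module.finrank ℚ K : ℝ) * Real.log ((d ^ m).factorial : ℝ) ≤
      T * m * (D * Real.log d / Real.log 2 * ℓ) := by
    calc (Module.finrank ℚ K : ℝ) * Real.log ((d ^ m).factorial : ℝ) ≤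
        D * Real.log ((d ^ m).factorial : ℝ) := mul_le_mul_of_nonneg_right hfin hfact0
      _ ≤ D * (T * (m * Real.log d)) := mul_le_mul_of_nonneg_left hfact (Nat.cast_nonneg _)
      _ = T * m * Real.log d * D := by ring
      _ ≤ T * m * Real.log d * (D / Real.log 2 * ℓ) :=
        mul_le_mul_of_nonneg_left hD2 (by positivity)
      _ = T * m * (D * Real.log d / Real.log 2 * ℓ) := by ring
  have e2 : T * m * (B * (Height.logHeight (coeffs d (F.map (algebraMap (𝓞 K) K))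
      (G.map (algebraMap (𝓞 K) K))) + Module.finrank ℚ K)) ≤
      T * m * (B * (k + D / Real.log 2) * ℓ) := by
    refine mul_le_mul_of_nonneg_left ?_ (by positivity)
    rw [mul_assoc]
    refine mul_le_mul_of_nonneg_left ?_ hB
    rw [add_mul]
    exact add_le_add hHlog (hfin.trans hD2)
  have e3 : (κ * T ^ 2 - A * (m + 1) * T) * ℓ ≤ T * m * E * ℓ := by
    refine hineq.trans ((add_le_add e1 e2).trans (le_of_eq ?_))
    rw [hE]
    ring
  have e4 : κ * T ^ 2 - A * (m + 1) * T ≤ T * m * E := le_of_mul_le_mul_right e3 hℓ0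
  have e5 : T * (κ * T) ≤ T * ((A + E) * (m + 1)) := by
    have : T * m * E ≤ T * (E * (m + 1)) := by
      have : 0 ≤ T * E := by positivity
      nlinarith
    nlinarith
  have e6 : κ * T ≤ (A + E) * (m + 1) := le_of_mul_le_mul_left e5 hT0
  linarith

end Pool.Agent.RDF
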