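import Pool.Agent.RDF.NHt
import Pool.Agent.RDF.NLoc
import Pool.Agent.RDF.NAux
import Pool.Agent.RDF.NOver
import Pool.Agent.RDF.Main

set_option autoImplicit false

/-!
# The global argument for points of bounded degree
-/

namespace Pool.Agent.RDF

open Polynomial NumberField IsDedekindDomain Pool.Agent.GPoly

theorem coeffs_ne_zero {K : Type*} [Field K] (d : ℕ) (hd : 1 ≤ d) (F G : K[X])
    (hF : F.natDegree ≤ d) (hG : G.natDegree ≤ d) (hR : resultant F G d d ≠ 0) :
    coeffs d F G ≠ 0 := by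
  intro h
  have h1 : ∀ i ≤ d, F.coeff i = 0 := fun i hi =>
    congrFun h (Sum.inl (⟨i, Nat.lt_succ_of_le hi⟩ : Fin (d + 1)))
  have h2 : ∀ i ≤ d, G.coeff i = 0 := fun i hi =>
    congrFun h (Sum.inr (⟨i, Nat.lt_succ_of_le hi⟩ : Fin (d + 1)))
  have hF0 : F = 0 := by
    ext i
    rcases le_or_gt i d with hi | hi
    · rw [h1 i hi, coeff_zero]
    · rw [coeff_eq_zero_of_natDegree_lt (lt_of_le_of_lt hF hi), coeff_zero]
  have hG0 : G = 0 := by
    ext i
    rcases le_or_gt i d with hi | hi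
    · rw [h2 i hi, coeff_zero]
    · rw [coeff_eq_zero_of_natDegree_lt (lt_of_le_of_lt hG hi), coeff_zero]
  have h3 := iter_ne_zero d hd F G hF hG hR 1 (p := ((1, 0) : K × K))
    (fun h0 => one_ne_zero (congrArg Prod.fst h0))
  apply h3
  rw [hF0, hG0]
  ext <;> simp [lift, form]

/-- The global inequality for `d ^ m` preperiodic points of degree at most `N`. -/
theorem global_ineq_N (d N k : ℕ) (hd : 2 ≤ d) : ∃ κ A B : ℝ, 0 < κ ∧ 0 ≤ A ∧ 0 ≤ B ∧
    ∀ (K : Type) [Field K] [NumberField K] (F G : (𝓞 K)[X]), F.natDegree ≤ d → G.natDegree ≤ d →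
      resultant F G d d ≠ 0 → ∀ J : Ideal (𝓞 K), J ∣ Ideal.span {resultant F G d d} →
      (∀ v : HeightOneSpectrum (𝓞 K), v.asIdeal ∣ J → DefectiveN d N k F G v) →
      ∀ (L : Type) [Field L] [NumberField L] [Algebra K L] (m : ℕ) (z : Fin (d ^ m) → L × L),
      (∀ i, DegLe K N (z i)) →
      (∀ i, Preper d (F.map (algebraMap (𝓞 K) L)) (G.map (algebraMap (𝓞 K) L)) (z i)) →
      (∀ i j, i ≠ j → wedge (z i) (z j) ≠ 0) →
      0 ≤ κ * ((d : ℝ) ^ m) ^ 2 - A * (m + 1) * (d : ℝ) ^ m →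
      (κ * ((d : ℝ) ^ m) ^ 2 - A * (m + 1) * (d : ℝ) ^ m) * Real.log (Ideal.absNorm J) ≤
        Module.finrank ℚ K * Real.log ((d ^ m).factorial : ℝ) +
        (d : ℝ) ^ m * m * (B * (Height.logHeight (coeffs d (F.map (algebraMap (𝓞 K) K))
          (G.map (algebraMap (𝓞 K) K))) + Module.finrank ℚ K)) := by
  classical
  obtain ⟨κ, A, hκ, hA, hloc⟩ := local_defect_N d N k hd
  obtain ⟨C, hC, hht⟩ := height_preper d hd
  have hd' : (2 : ℝ) ≤ d := by exact_mod_cast hd
  refine ⟨κ, A, (d - 1) * C, hκ, hA, mul_nonneg (by linarith) hC, ?_⟩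
  intro K _ _ F G hF hG hR J hJ hdef L _ _ _ m z hzN hz hw hpos
  set F₁ := F.map (algebraMap (𝓞 K) L) with hF₁
  set G₁ := G.map (algebraMap (𝓞 K) L) with hG₁
  have hinj : Function.Injective (algebraMap (𝓞 K) L) := by
    rw [IsScalarTower.algebraMap_eq (𝓞 K) K L]
    exact (algebraMap K L).injective.comp RingOfIntegers.coe_injective
  have hinjO : Function.Injective (algebraMap (𝓞 K) (𝓞 L)) := by
    intro a b hab
    apply hinj
    rw [IsScalarTower.algebraMap_apply (𝓞 K) (𝓞 L) L, hab,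
      ← IsScalarTower.algebraMap_apply (𝓞 K) (𝓞 L) L]
  have hRL : resultant F₁ G₁ d d = algebraMap (𝓞 K) L (resultant F G d d) :=
    resultant_map_map _ _ _ _ _
  have hRL0 : resultant F₁ G₁ d d ≠ 0 := by
    rw [hRL]
    exact (map_ne_zero_iff _ hinj).mpr hR
  have hFd : F₁.natDegree ≤ d := natDegree_map_le.trans hF
  have hGd : G₁.natDegree ≤ d := natDegree_map_le.trans hG
  have hz0 : ∀ i, z i ≠ 0 := fun i => (hz i).1
  have hiter : ∀ i l, (lift d F₁ G₁)^[l] (z i) ≠ 0 := fun i l =>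
    iter_ne_zero d (by omega) F₁ G₁ hFd hGd hRL0 l (hz0 i)
  have hdet0 : (mat d m F₁ G₁ z).det ≠ 0 := by
    obtain ⟨ε, hε, hdet⟩ := det_mat d m (by omega) F₁ G₁ hFd hGd
    rw [hdet z]
    refine mul_ne_zero (mul_ne_zero ?_ (pow_ne_zero _ hRL0)) ?_
    · rcases hε with rfl | rfl
      · exact one_ne_zero
      · exact neg_ne_zero.mpr one_ne_zero
    · refine Finset.prod_ne_zero_iff.mpr fun i _ => Finset.prod_ne_zero_iff.mpr fun j hj => ?_
      exact hw i j (Finset.mem_Ioi.mp hj).ne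
  have hJ0 : J ≠ ⊥ := by
    rintro rfl
    exact hR (by simpa using zero_dvd_iff.1 hJ)
  set r : 𝓞 L := algebraMap (𝓞 K) (𝓞 L) (resultant F G d d) with hr
  have hr0 : r ≠ 0 := (map_ne_zero_iff _ hinjO).mpr hR
  have hrL : algebraMap (𝓞 L) L r = algebraMap (𝓞 K) L (resultant F G d d) := by
    rw [hr, ← IsScalarTower.algebraMap_apply (𝓞 K) (𝓞 L) L]
  -- the finite set of places
  obtain ⟨P, hP⟩ : ∃ P : Finset (HeightOneSpectrum (𝓞 L)),
      ∀ w : HeightOneSpectrum (𝓞 L), r ∈ w.asIdeal → w ∈ P := by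
    have h1 := av_support_finite (algebraMap (𝓞 L) L r)
      ((map_ne_zero_iff _ (RingOfIntegers.coe_injective)).mpr hr0)
    refine ⟨h1.toFinset, fun w hw' => ?_⟩
    rw [Set.Finite.mem_toFinset, Set.mem_ofPred_eq, Ne, av_int_eq_one, not_not]
    exact hw'
  set S : Finset (HeightOneSpectrum (𝓞 L)) :=
    P.filter fun w => w.asIdeal ∣ J.map (algebraMap (𝓞 K) (𝓞 L)) with hS
  set g : ℝ := κ * ((d : ℝ) ^ m) ^ 2 - A * (m + 1) * (d : ℝ) ^ m with hg
  have hmain := glob_ineq ((Finset.univ : Finset (Fin (d ^ m))) ×ˢ Finset.range m)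
    (fun x => (lift d F₁ G₁)^[x.2] (z x.1)) (fun x _ => hiter x.1 x.2)
    (fun _ => (d : ℝ) - 1) (fun _ _ => by linarith) (mat d m F₁ G₁ z).det hdet0
    (Real.log ((d ^ m).factorial : ℝ))
    (Real.log_nonneg (by exact_mod_cast Nat.one_le_iff_ne_zero.mpr (Nat.factorial_ne_zero _))) S
    (fun w => g * (-Real.log (av w (algebraMap (𝓞 K) L (resultant F G d d)))))
    (by
      intro σ
      have h1 := log_det_le_arch (NumberField.place σ) d m (by omega) F₁ G₁ z hiter hdet0
      rw [← sum_UU] at h1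
      exact h1)
    (by
      intro w
      rw [sum_UU]
      by_cases hwS : w ∈ S
      · rw [if_pos hwS]
        obtain ⟨v, hvw, hvJ⟩ := exists_above J hJ0 w (Finset.mem_filter.mp hwS).2
        exact hloc K L F G hF hG hR v w hvw (Ideal.dvd_span_singleton.1 (hvJ.trans hJ))
          (hdef v hvJ) m z hz0 hzN hw
      · rw [if_neg hwS, sub_zero]
        exact log_det_le (av w) (av_nonarch w) d m (by omega) F₁ G₁ z hiter hdet0)
  rw [← Finset.mul_sum] at hmain
  have hJlog : Module.finrank K L * Real.log (Ideal.absNorm J) ≤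
      ∑ w ∈ S, -Real.log (av w (algebraMap (𝓞 K) L (resultant F G d d))) :=
    weight_ext (resultant F G d d) hR J hJ P hP
  have h2 := mul_le_mul_of_nonneg_left hJlog hpos
  have h3 : ∀ x ∈ (Finset.univ : Finset (Fin (d ^ m))) ×ˢ Finset.range m,
      ((d : ℝ) - 1) * Height.logHeight ![((lift d F₁ G₁)^[x.2] (z x.1)).1,
        ((lift d F₁ G₁)^[x.2] (z x.1)).2] ≤
      (d - 1) * C * (Height.logHeight (coeffs d F₁ G₁) + Module.finrank ℚ L) := by
    intro x _
    rw [mul_assoc]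
    refine mul_le_mul_of_nonneg_left ?_ (by linarith)
    exact hht L F₁ G₁ hFd hGd hRL0 (z x.1) (hz0 x.1) (hz x.1).2 x.2
  have h4 := Finset.sum_le_card_nsmul _ _ _ h3
  rw [Finset.card_product, Finset.card_univ, Fintype.card_fin, Finset.card_range,
    nsmul_eq_mul] at h4
  push_cast at h4
  -- everything is a multiple of the degree of `L` over `K`
  have hn0 : 0 < Module.finrank K L := Module.finrank_pos
  have hn : (0 : ℝ) < Module.finrank K L := by exact_mod_cast hn0
  have hdeg : (Module.finrank ℚ L : ℝ) = Module.finrank K L * Module.finrank ℚ K := by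
    rw [← Module.finrank_mul_finrank ℚ K L]
    push_cast
    ring
  have hx0 : Sum.elim (fun i : Fin (d + 1) => F.coeff i) (fun i : Fin (d + 1) => G.coeff i) ≠
      (0 : Fin (d + 1) ⊕ Fin (d + 1) → 𝓞 K) := by
    intro h0
    apply coeffs_ne_zero d (by omega) F₁ G₁ hFd hGd hRL0
    funext i
    have h5 := congrArg (algebraMap (𝓞 K) L) (congrFun h0 i)
    rcases i with i | i
    · simpa [coeffs, hF₁, coeff_map] using h5
    · simpa [coeffs, hG₁, coeff_map] using h5
  have hext := logHeight_ext (K := K) (L := L)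
    (Sum.elim (fun i : Fin (d + 1) => F.coeff i) (fun i : Fin (d + 1) => G.coeff i)) hx0
  have eL : (fun i => algebraMap (𝓞 K) L (Sum.elim (fun i : Fin (d + 1) => F.coeff i)
      (fun i : Fin (d + 1) => G.coeff i) i)) = coeffs d F₁ G₁ := by
    funext i
    rcases i with i | i
    · simp [coeffs, hF₁, coeff_map]
    · simp [coeffs, hG₁, coeff_map]
  have eK : (fun i => algebraMap (𝓞 K) K (Sum.elim (fun i : Fin (d + 1) => F.coeff i)
      (fun i : Fin (d + 1) => G.coeff i) i)) =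
      coeffs d (F.map (algebraMap (𝓞 K) K)) (G.map (algebraMap (𝓞 K) K)) := by
    funext i
    rcases i with i | i
    · simp [coeffs, coeff_map]
    · simp [coeffs, coeff_map]
  rw [eL, eK] at hext
  set H : ℝ := Height.logHeight (coeffs d (F.map (algebraMap (𝓞 K) K))
    (G.map (algebraMap (𝓞 K) K))) with hH
  rw [hdeg] at hmain h4
  have h6 : (d : ℝ) ^ m * m * ((d - 1) * C * (Height.logHeight (coeffs d F₁ G₁) +
      Module.finrank K L * Module.finrank ℚ K)) ≤
      (d : ℝ) ^ m * m * ((d - 1) * C * (Module.finrank K L * H +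
      Module.finrank K L * Module.finrank ℚ K)) := by
    refine mul_le_mul_of_nonneg_left ?_ (by positivity)
    exact mul_le_mul_of_nonneg_left (by linarith) (mul_nonneg (by linarith) hC)
  have h7 : (Module.finrank K L : ℝ) * (g * Real.log (Ideal.absNorm J)) ≤
      Module.finrank K L * (Module.finrank ℚ K * Real.log ((d ^ m).factorial : ℝ) +
        (d : ℝ) ^ m * m * ((d - 1) * C * (H + Module.finrank ℚ K))) := by
    linarith
  exact le_of_mul_le_mul_left h7 hn

/-- **Theorem.** -/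
theorem main_N (D d N k : ℕ) (hd : 2 ≤ d) : ∃ C : ℕ,
    ∀ (K : Type) [Field K] [NumberField K], Module.finrank ℚ K ≤ D →
    ∀ F G : (𝓞 K)[X], F.natDegree ≤ d → G.natDegree ≤ d → resultant F G d d ≠ 0 →
    ∀ J : Ideal (𝓞 K), J ∣ Ideal.span {resultant F G d d} → J ≠ ⊤ →
    (∀ v : HeightOneSpectrum (𝓞 K), v.asIdeal ∣ J → DefectiveN d N k F G v) →
    Height.mulHeight (coeffs d (F.map (algebraMap (𝓞 K) K)) (G.map (algebraMap (𝓞 K) K))) ≤
      (Ideal.absNorm J : ℝ) ^ k →
    ∀ (L : Type) [Field L] [NumberField L] [Algebra K L], ∀ S : Finset (L × L),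
      (∀ p ∈ S, p ≠ 0 ∧ DegLe K N p ∧ ∃ a b, a < b ∧
        wedge ((lift d (F.map (algebraMap (𝓞 K) L)) (G.map (algebraMap (𝓞 K) L)))^[a] p)
          ((lift d (F.map (algebraMap (𝓞 K) L)) (G.map (algebraMap (𝓞 K) L)))^[b] p) = 0) →
      (∀ p ∈ S, ∀ q ∈ S, p ≠ q → wedge p q ≠ 0) → S.card ≤ C := by
  classical
  obtain ⟨κ, A, B, hκ, hA, hB, h⟩ := global_ineq_N d N k hd
  have hd' : (2 : ℝ) ≤ d := by exact_mod_cast hd
  have hl2 : 0 < Real.log 2 := Real.log_pos (by norm_num)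
  have hld : 0 ≤ Real.log d := Real.log_nonneg (by linarith)
  set E : ℝ := D * Real.log d / Real.log 2 + B * (k + D / Real.log 2) with hE
  have hE0 : 0 ≤ E := by positivity
  obtain ⟨m, hm⟩ := exists_m κ (A + E) d hκ hd'
  refine ⟨d ^ m, ?_⟩
  intro K _ _ hK F G hF hG hR J hJ hJ1 hdef hH L _ _ _ S hS hSw
  by_contra hcon
  rw [not_le] at hcon
  -- the points
  obtain ⟨z, hzS, hzinj⟩ : ∃ z : Fin (d ^ m) → L × L, (∀ i, z i ∈ S) ∧ Function.Injective z := by
    have h1 : Fintype.card (Fin (d ^ m)) ≤ Fintype.card S := by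
      rw [Fintype.card_fin, Fintype.card_coe]
      exact hcon.le
    obtain ⟨f⟩ := Function.Embedding.nonempty_of_card_le h1
    exact ⟨fun i => (f i : L × L), fun i => (f i).2, fun i j hij => f.injective (Subtype.ext hij)⟩
  -- the norm of `J`
  have hJ0 : J ≠ 0 := by
    rintro rfl
    exact hR (by simpa using zero_dvd_iff.1 hJ)
  have hN : 2 ≤ Ideal.absNorm J := by
    have h1 : Ideal.absNorm J ≠ 0 := by rwa [Ne, Ideal.absNorm_eq_zero_iff]
    have h2 : Ideal.absNorm J ≠ 1 := by rwa [Ne, Ideal.absNorm_eq_one_iff]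
    omega
  have hNr : (2 : ℝ) ≤ Ideal.absNorm J := by exact_mod_cast hN
  set ℓ : ℝ := Real.log (Ideal.absNorm J) with hℓ
  have hℓ2 : Real.log 2 ≤ ℓ := Real.log_le_log (by norm_num) hNr
  have hℓ0 : 0 < ℓ := lt_of_lt_of_le hl2 hℓ2
  have hHlog : Height.logHeight (coeffs d (F.map (algebraMap (𝓞 K) K))
      (G.map (algebraMap (𝓞 K) K))) ≤ k * ℓ := by
    rw [Height.logHeight_eq_log_mulHeight, hℓ, ← Real.log_pow]
    exact Real.log_le_log (Height.mulHeight_pos _) hH
  set T : ℝ := (d : ℝ) ^ m with hT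
  have hT0 : 0 < T := by positivity
  have hm0 : (0 : ℝ) ≤ m := Nat.cast_nonneg m
  have hpos : 0 ≤ κ * T ^ 2 - A * (m + 1) * T := by
    have h1 : A * (m + 1) ≤ κ * T := by
      have : A * (m + 1) ≤ (A + E) * (m + 1) := by nlinarith
      linarith
    nlinarith
  have hineq := h K F G hF hG hR J hJ hdef L m z (fun i => (hS _ (hzS i)).2.1)
    (fun i => ⟨(hS _ (hzS i)).1, (hS _ (hzS i)).2.2⟩)
    (fun i j hij => hSw _ (hzS i) _ (hzS j) fun e => hij (hzinj e)) hpos
  have hfin : (Module.finrank ℚ K : ℝ) ≤ D := by exact_mod_cast hK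
  have hfin0 : (0 : ℝ) ≤ Module.finrank ℚ K := Nat.cast_nonneg _
  have hfact : Real.log ((d ^ m).factorial : ℝ) ≤ T * (m * Real.log d) := by
    have h1 : ((d ^ m).factorial : ℝ) ≤ ((d : ℝ) ^ m) ^ (d ^ m) := by
      have := Nat.factorial_le_pow (d ^ m)
      exact_mod_cast this
    have h2 := Real.log_le_log (by exact_mod_cast Nat.factorial_pos _) h1
    rw [Real.log_pow, Real.log_pow] at h2
    push_cast at h2
    exact h2
  have hfact0 : 0 ≤ Real.log ((d ^ m).factorial : ℝ) :=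
    Real.log_nonneg (by exact_mod_cast Nat.one_le_iff_ne_zero.mpr (Nat.factorial_ne_zero _))
  -- the right hand side
  have hD2 : (D : ℝ) ≤ D / Real.log 2 * ℓ := by
    rw [div_mul_eq_mul_div, le_div_iff₀ hl2]
    exact mul_le_mul_of_nonneg_left hℓ2 (Nat.cast_nonneg _)
  have e1 : (Module.finrank ℚ K : ℝ) * Real.log ((d ^ m).factorial : ℝ) ≤
      T * m * (D * Real.log d / Real.log 2 * ℓ) := by
    calc (Module.finrank ℚ K : ℝ) * Real.log ((d ^ m).factorial : ℝ) ≤
        D * Real.log ((d ^ m).factorial : ℝ) := mul_le_mul_of_nonneg_right hfin hfact0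
      _ ≤ D * (T * (m * Real.log d)) := mul_le_mul_of_nonneg_left hfact (Nat.cast_nonneg _)
      _ = T * m * Real.log d * D := by ring
      _ ≤ T * m * Real.log d * (D / Real.log 2 * ℓ) :=
        mul_le_mul_of_nonneg_left hD2 (by positivity)
      _ = T * m * (D * Real.log d / Real.log 2 * ℓ) := by ring
  have e2 : T * m * (B * (Height.logHeight (coeffs d (F.map (algebraMap (𝓞 K) K))
      (G.map (algebraMap (𝓞 K) K))) + Module.finrank ℚ K)) ≤
      T * m * (B * (k + D / Real.log 2) * ℓ) := by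
    refine mul_le_mul_of_nonneg_left ?_ (by positivity)
    rw [mul_assoc]
    refine mul_le_mul_of_nonneg_left ?_ hB
    rw [add_mul]
    exact add_le_add hHlog (hfin.trans hD2)
  have e3 : (κ * T ^ 2 - A * (m + 1) * T) * ℓ ≤ T * m * E * ℓ := by
    refine hineq.trans ((add_le_add e1 e2).trans (le_of_eq ?_))
    rw [hE]
    ring
  have e4 : κ * T ^ 2 - A * (m + 1) * T ≤ T * m * E := le_of_mul_le_mul_right e3 hℓ0
  have e5 : T * (κ * T) ≤ T * ((A + E) * (m + 1)) := by
    have : T * m * E ≤ T * (E * (m + 1)) := by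
      have : 0 ≤ T * E := by positivity
      nlinarith
    nlinarith
  have e6 : κ * T ≤ (A + E) * (m + 1) := le_of_mul_le_mul_left e5 hT0
  linarith

end Pool.Agent.RDF
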