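import Pool.Agent.RDF.Basic

set_option autoImplicit false

/-!
# The height of a vector as a sum over the primes and the complex embeddings
-/

namespace Pool.Agent.RDF

open Polynomial NumberField IsDedekindDomain Pool.Agent.GPoly

theorem link_sup_pos {K : Type} [Field K] [NumberField K] {ι : Type*} [Fintype ι] (x : ι → K)
    (hx : x ≠ 0) (f : AbsoluteValue K ℝ) : 0 < ⨆ i, f (x i) := by
  obtain ⟨i, hi⟩ := Function.ne_iff.mp hx
  exact (f.pos hi).trans_le (Finite.le_ciSup (fun i => f (x i)) i)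

theorem link_sup_eq_one {K : Type} [Field K] [NumberField K] {ι : Type*} [Fintype ι] (x : ι → K)
    (hx : x ≠ 0) (f : AbsoluteValue K ℝ) (h : ∀ i, x i ≠ 0 → f (x i) = 1) :
    ⨆ i, f (x i) = 1 := by
  obtain ⟨i, hi⟩ := Function.ne_iff.mp hx
  haveI : Nonempty ι := ⟨i⟩
  refine le_antisymm (ciSup_le fun j => ?_) ?_
  · by_cases hj : x j = 0
    · rw [hj, map_zero]; exact zero_le_one
    · exact (h j hj).le
  · rw [← h i hi]
    exact Finite.le_ciSup (fun i => f (x i)) i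

theorem link_finite {K : Type} [Field K] [NumberField K] {ι : Type*} [Fintype ι] [Nonempty ι]
    (x : ι → K) (hx : x ≠ 0) :
    {v : HeightOneSpectrum (𝓞 K) | (⨆ i, av v (x i)) ≠ 1}.Finite := by
  classical
  have h : (⋃ i ∈ {i : ι | x i ≠ 0}, {v : HeightOneSpectrum (𝓞 K) | av v (x i) ≠ 1}).Finite :=
    (Set.toFinite {i : ι | x i ≠ 0}).biUnion fun i hi => av_support_finite (x i) hi
  refine h.subset fun v hv => ?_
  by_contra hc
  apply hv
  refine link_sup_eq_one x hx (av v) fun i hi => ?_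
  by_contra h1
  exact hc (Set.mem_biUnion (show i ∈ {i : ι | x i ≠ 0} from hi) h1)

theorem link_fin {K : Type} [Field K] [NumberField K] {ι : Type*} [Fintype ι] [Nonempty ι]
    (x : ι → K) (P : Finset (HeightOneSpectrum (𝓞 K)))
    (hP : ∀ v, (⨆ i, av v (x i)) ≠ 1 → v ∈ P) :
    ∏ᶠ v : FinitePlace K, ⨆ i, v (x i) = ∏ v ∈ P, ⨆ i, av v (x i) := by
  rw [← finprod_comp_equiv FinitePlace.equivHeightOneSpectrum.symm]
  have h2 : (fun v : HeightOneSpectrum (𝓞 K) =>
      ⨆ i, (FinitePlace.equivHeightOneSpectrum.symm v) (x i)) = fun v => ⨆ i, av v (x i) := by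
    funext v
    congr 1
    funext i
    exact (pb_av_eq v (x i)).symm
  rw [h2, finprod_eq_prod_of_mulSupport_subset (s := P)]
  intro v hv
  exact hP v hv

theorem link_emb {K : Type} [Field K] [NumberField K] (g : InfinitePlace K → ℝ) :
    ∏ σ : K →+* ℂ, g (InfinitePlace.mk σ) = ∏ w : InfinitePlace K, g w ^ w.mult := by
  classical
  rw [← Finset.prod_fiberwise Finset.univ (fun σ : K →+* ℂ => InfinitePlace.mk σ)]
  refine Finset.prod_congr rfl fun w _ => ?_
  rw [Finset.prod_congr rfl (g := fun _ => g w) fun σ hσ => by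
    rw [(Finset.mem_filter.1 hσ).2], Finset.prod_const, InfinitePlace.card_filter_mk_eq]

theorem link {K : Type} [Field K] [NumberField K] {ι : Type*} [Fintype ι] [Nonempty ι] (x : ι → K)
    (hx : x ≠ 0) (P : Finset (HeightOneSpectrum (𝓞 K)))
    (hP : ∀ v, (⨆ i, av v (x i)) ≠ 1 → v ∈ P) :
    Height.logHeight x = ∑ v ∈ P, Real.log (⨆ i, av v (x i)) +
      ∑ σ : K →+* ℂ, Real.log (⨆ i, ‖σ (x i)‖) := by
  have h1 := NumberField.mulHeight_eq hx
  rw [link_fin x P hP, ← link_emb (fun w => ⨆ i, w (x i))] at h1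
  have h2 : ∀ σ : K →+* ℂ, (⨆ i, (InfinitePlace.mk σ) (x i)) = ⨆ i, ‖σ (x i)‖ := by
    intro σ
    congr 1
  simp only [h2] at h1
  have h3 : ∀ v ∈ P, (⨆ i, av v (x i)) ≠ 0 := fun v _ => (link_sup_pos x hx (av v)).ne'
  have h4 : ∀ σ ∈ (Finset.univ : Finset (K →+* ℂ)), (⨆ i, ‖σ (x i)‖) ≠ 0 := fun σ _ => by
    obtain ⟨i, hi⟩ := Function.ne_iff.mp hx
    refine ((norm_pos_iff.2 ?_).trans_le (Finite.le_ciSup (fun i => ‖σ (x i)‖) i)).ne'
    simpa using hi
  rw [Height.logHeight_eq_log_mulHeight, h1, Real.log_mul (Finset.prod_ne_zero_iff.2 h4)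
    (Finset.prod_ne_zero_iff.2 h3), Real.log_prod h4, Real.log_prod h3, add_comm]

end Pool.Agent.RDF
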