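import Pool.Agent.RDF.AuxP

set_option autoImplicit false

/-!
# Auxiliary points in an algebraically closed field
-/

namespace Pool.Agent.RDF

open NumberField IsDedekindDomain Polynomial Pool.Agent.GPoly

/-- the auxiliary points, in an algebraically closed field, with many residue classes -/
theorem exists_auxQ {K : Type} [Field K] [NumberField K] (v : HeightOneSpectrum (𝓞 K))
    (h : (𝓞 K)[X]) (hm : h.Monic) (hdeg : 0 < h.natDegree)
    (hroot : ∀ x : 𝓞 K, h.eval x ∉ v.asIdeal) (M : ℕ) :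
    ∃ (L : Type) (_ : Field L) (_ : IsAlgClosed L) (abv : AbsoluteValue L ℝ) (ι : K →+* L)
      (y : Fin M → L), IsNonarchimedean abv ∧ (∀ x, abv (ι x) = av v x) ∧
      (∀ N : ℕ, ∃ t : Fin N → L, (∀ i, abv (t i) ≤ 1) ∧ ∀ i j, i ≠ j → abv (t i - t j) = 1) ∧
      (∀ l, abv (y l) ≤ 1) ∧
      (∀ l l', l ≠ l' → abv (y l - y l') = Real.exp (-lq v)) ∧
      (∀ l (x : K × K), abv (ι x.1 - ι x.2 * y l) = nrm (av v) x) ∧
      (∀ l (A : (𝓞 K)[X]), (∃ q : (𝓞 K)[X], ∀ i, (A - q * h).coeff i ∈ v.asIdeal) →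
        abv (A.eval₂ (ι.comp (algebraMap (𝓞 K) K)) (y l)) ≤ Real.exp (-lq v)) := by
  classical
  obtain ⟨Ω, _, _, φ, B, hna, hB⟩ := aux_ext v
  obtain ⟨N, hMN, hNp, hNv⟩ := aux_prime v M
  have hBN : B (N : Ω) = 1 := by
    have h1 := hB (algebraMap (𝓞 K) K (N : 𝓞 K))
    rw [(av_int_eq_one v _).2 hNv] at h1
    rw [← h1]
    congr 1
    simp
  have _i : NeZero ((N : ℕ) : Ω) := ⟨fun h0 => by
    rw [h0, map_zero] at hBN
    exact zero_ne_one hBN⟩
  obtain ⟨ζ, hζ⟩ := HasEnoughRootsOfUnity.exists_primitiveRoot Ω N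
  obtain ⟨hζ1, hζ2⟩ := aux_zeta B hna N hNp.one_lt.le hBN ζ hζ
  obtain ⟨π, hπ⟩ := aux_unif v
  set f : 𝓞 K →+* Ω := φ.comp (algebraMap (𝓞 K) K) with hf
  have hBf : ∀ a : 𝓞 K, B (f a) ≤ 1 := fun a => by
    rw [hf, RingHom.comp_apply, hB]
    exact av_int_le_one v a
  have hcf : ∀ (p : (𝓞 K)[X]) i, B ((p.map f).coeff i) ≤ 1 := fun p i => by
    rw [coeff_map]
    exact hBf _
  have hmf : (h.map f).Monic := hm.map f
  have hdf : 0 < (h.map f).natDegree := by rwa [hm.natDegree_map]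
  obtain ⟨y₀, hy₀⟩ := IsAlgClosed.exists_root (h.map f) (by
    intro h0
    rw [degree_eq_natDegree hmf.ne_zero] at h0
    have : (h.map f).natDegree = 0 := by exact_mod_cast h0
    omega)
  have hy₀' : (h.map f).eval y₀ = 0 := hy₀
  have hy1 : B y₀ ≤ 1 := aux_root_le B hna _ hmf (hcf h) y₀ hy₀'
  set ϖ : Ω := f π with hϖ
  have hϖB : B ϖ = Real.exp (-lq v) := by
    rw [hϖ, hf, RingHom.comp_apply, hB, hπ]
  have hlq := lq_pos v
  have hϖ1 : B ϖ < 1 := by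
    rw [hϖB, Real.exp_lt_one_iff]
    linarith
  have hζp : ∀ l : ℕ, B (ϖ * ζ ^ l) = B ϖ := fun l => by
    rw [map_mul, map_pow B ζ l, hζ1, one_pow, mul_one]
  have hyl : ∀ l : ℕ, B (y₀ + ϖ * ζ ^ l) ≤ 1 := fun l =>
    (hna _ _).trans (max_le hy1 ((hζp l).le.trans hϖ1.le))
  have key : ∀ (l : ℕ) (x : K), av v x ≤ 1 → B (φ x - (y₀ + ϖ * ζ ^ l)) = 1 := by
    intro l x hx
    refine le_antisymm ((aux_sub_le B hna _ _).trans (max_le (by rw [hB]; exact hx) (hyl l))) ?_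
    by_contra hlt
    push Not at hlt
    obtain ⟨a, ha⟩ := aux_approx v x hx
    have h1 : B (f a - y₀) < 1 := by
      have e : f a - y₀ = (f a - φ x) + ((φ x - (y₀ + ϖ * ζ ^ l)) + ϖ * ζ ^ l) := by ring
      rw [e]
      refine lt_of_le_of_lt (hna _ _) (max_lt ?_ (lt_of_le_of_lt (hna _ _) (max_lt hlt ?_)))
      · rw [hf, RingHom.comp_apply, ← map_sub, hB]
        exact ha
      · rw [hζp]
        exact hϖ1
    have h2 := aux_eval_sub_le B hna (h.map f) (hcf h) (f a) y₀ (hBf a) hy1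
    rw [hy₀', sub_zero, eval_map_apply, hf, RingHom.comp_apply, hB] at h2
    exact hroot a ((av_int_lt_one v _).1 (lt_of_le_of_lt h2 h1))
  refine ⟨Ω, inferInstance, inferInstance, B, φ, fun l => y₀ + ϖ * ζ ^ (l : ℕ), hna, hB, ?_, fun l => hyl l, ?_, ?_, ?_⟩
  · intro n
    obtain ⟨n', hn', hnp, hnv⟩ := aux_prime v n
    have hBn : B (n' : Ω) = 1 := by
      have h1 := hB (algebraMap (𝓞 K) K (n' : 𝓞 K))
      rw [(av_int_eq_one v _).2 hnv] at h1
      rw [← h1]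
      congr 1
      simp
    have _j : NeZero ((n' : ℕ) : Ω) := ⟨fun h0 => by
      rw [h0, map_zero] at hBn
      exact zero_ne_one hBn⟩
    obtain ⟨η, hη⟩ := HasEnoughRootsOfUnity.exists_primitiveRoot Ω n'
    obtain ⟨hη1, hη2⟩ := aux_zeta B hna n' hnp.one_lt.le hBn η hη
    refine ⟨fun i => η ^ (i : ℕ), fun i => ?_, fun i j hij => ?_⟩
    · show B (η ^ (i : ℕ)) ≤ 1
      rw [map_pow, hη1, one_pow]
    · exact hη2 _ _ (by omega) (by omega) (fun e => hij (Fin.ext e))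
  · intro l l' hl
    have e : y₀ + ϖ * ζ ^ (l : ℕ) - (y₀ + ϖ * ζ ^ (l' : ℕ)) = ϖ * (ζ ^ (l : ℕ) - ζ ^ (l' : ℕ)) := by ring
    show B (y₀ + ϖ * ζ ^ (l : ℕ) - (y₀ + ϖ * ζ ^ (l' : ℕ))) = _
    rw [e, map_mul, hζ2 _ _ (by omega) (by omega) (fun h => hl (Fin.ext h)), mul_one, hϖB]
  · intro l x
    obtain ⟨x₁, x₂⟩ := x
    show B (φ x₁ - φ x₂ * (y₀ + ϖ * ζ ^ (l : ℕ))) = max (av v x₁) (av v x₂)
    rcases lt_or_ge (av v x₂) (av v x₁) with hlt | hle
    · rw [max_eq_left hlt.le, ← hB x₁]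
      refine aux_sub_eq B hna ?_
      rw [map_mul, hB, hB]
      calc av v x₂ * B (y₀ + ϖ * ζ ^ (l : ℕ)) ≤ av v x₂ * 1 :=
            mul_le_mul_of_nonneg_left (hyl l) ((av v).nonneg _)
        _ = av v x₂ := mul_one _
        _ < av v x₁ := hlt
    · rw [max_eq_right hle]
      by_cases hx2 : x₂ = 0
      · subst hx2
        rw [map_zero] at hle
        have : x₁ = 0 := (av v).eq_zero.1 (le_antisymm hle ((av v).nonneg _))
        subst this
        simp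
      · have hpos : 0 < av v x₂ := (av v).pos hx2
        have e : φ x₁ - φ x₂ * (y₀ + ϖ * ζ ^ (l : ℕ)) = φ x₂ * (φ (x₁ / x₂) - (y₀ + ϖ * ζ ^ (l : ℕ))) := by
          rw [mul_sub, ← map_mul, mul_div_cancel₀ _ hx2]
        rw [e, map_mul, hB, key l (x₁ / x₂) (by
          rw [map_div₀]
          exact (div_le_one hpos).2 hle), mul_one]
  · rintro l A ⟨q, hq⟩
    show B (A.eval₂ f (y₀ + ϖ * ζ ^ (l : ℕ))) ≤ _
    have e : A.eval₂ f (y₀ + ϖ * ζ ^ (l : ℕ)) =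
        ((A - q * h).map f).eval (y₀ + ϖ * ζ ^ (l : ℕ)) +
          (q.map f).eval (y₀ + ϖ * ζ ^ (l : ℕ)) * (h.map f).eval (y₀ + ϖ * ζ ^ (l : ℕ)) := by
      rw [← eval_map, ← eval_mul, ← Polynomial.map_mul, ← eval_add, ← Polynomial.map_add, sub_add_cancel]
    rw [e]
    refine (hna _ _).trans (max_le ?_ ?_)
    · refine aux_eval_le B hna _ _ (Real.exp_pos _).le (fun i => ?_) _ (hyl l)
      rw [coeff_map, hf, RingHom.comp_apply, hB]
      have h3 := (av_int_le_pow v ((A - q * h).coeff i) 1).1 (by rw [pow_one]; exact hq i)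
      rwa [Nat.cast_one, one_mul] at h3
    · rw [map_mul]
      have h1 : B ((q.map f).eval (y₀ + ϖ * ζ ^ (l : ℕ))) ≤ 1 :=
        aux_eval_le B hna _ _ zero_le_one (hcf q) _ (hyl l)
      have h2 := aux_eval_sub_le B hna (h.map f) (hcf h) (y₀ + ϖ * ζ ^ (l : ℕ)) y₀ (hyl l) hy1
      rw [hy₀', sub_zero, add_sub_cancel_left, hζp, hϖB] at h2
      calc B ((q.map f).eval (y₀ + ϖ * ζ ^ (l : ℕ))) * B ((h.map f).eval (y₀ + ϖ * ζ ^ (l : ℕ)))
          ≤ 1 * Real.exp (-lq v) := mul_le_mul h1 h2 (B.nonneg _) zero_le_one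
        _ = _ := one_mul _

end Pool.Agent.RDF
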