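import Pool.Agent.RDF.Fib

set_option autoImplicit false

/-!
# The tree of preimages of a point
-/

namespace Pool.Agent.RDF

open Polynomial

/-- `e_m = d^(m-1) (d^m - 1) / (d - 1)`. -/
def ee (d : ℕ) : ℕ → ℕ
  | 0 => 0
  | m + 1 => (d ^ m) ^ 2 + d * ee d m

theorem ee_rr (d m : ℕ) (hd : 1 ≤ d) : d * ee d m = 2 * d * rr d m + m * d ^ m := by
  induction m with
  | zero => simp [ee, rr]
  | succ m ih =>
    have hp : 1 ≤ d ^ m := Nat.one_le_pow _ _ hd
    have h2 : 2 * (d ^ m).choose 2 = d ^ m * (d ^ m - 1) := by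
      rw [Nat.choose_two_right]
      exact Nat.mul_div_cancel' (Nat.even_mul_pred_self _).two_dvd
    have h3 : d ^ m * (d ^ m - 1) + d ^ m = (d ^ m) ^ 2 := by
      obtain ⟨t, ht⟩ : ∃ t, d ^ m = t + 1 := ⟨d ^ m - 1, by omega⟩
      rw [ht]
      simp only [Nat.add_sub_cancel]
      ring
    have e1 : d * ee d (m + 1) = d * (d ^ m) ^ 2 + d * (d * ee d m) := by
      simp only [ee]
      ring
    have e2 : 2 * d * rr d (m + 1) = d * (2 * d * rr d m) + d * (2 * (d ^ m).choose 2) := by
      simp only [rr]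
      ring
    rw [e1, e2, ih, h2, ← h3]
    ring

/-- a vector of norm one spans the vectors with zero determinant -/
theorem tree_smul {L : Type*} [Field L] (abv : AbsoluteValue L ℝ) (p q : L × L)
    (hq : nrm abv q = 1) (h : wedge p q = 0) : ∃ c : L, p = c • q ∧ abv c = nrm abv p := by
  have key : ∃ c : L, p = c • q := by
    have h' : p.1 * q.2 = q.1 * p.2 := sub_eq_zero.mp h
    by_cases h1 : q.1 = 0
    · have h2 : q.2 ≠ 0 := by
        intro h2
        have : nrm abv q = 0 := by simp [nrm, h1, h2]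
        rw [this] at hq
        exact zero_ne_one hq
      refine ⟨p.2 / q.2, ?_⟩
      ext
      · simp only [Prod.smul_fst, smul_eq_mul]
        rw [div_mul_eq_mul_div, eq_div_iff h2, h']
        ring
      · simp only [Prod.smul_snd, smul_eq_mul]
        rw [div_mul_cancel₀ _ h2]
    · refine ⟨p.1 / q.1, ?_⟩
      ext
      · simp only [Prod.smul_fst, smul_eq_mul]
        rw [div_mul_cancel₀ _ h1]
      · simp only [Prod.smul_snd, smul_eq_mul]
        rw [div_mul_eq_mul_div, eq_div_iff h1, h']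
        ring
  obtain ⟨c, hc⟩ := key
  exact ⟨c, hc, by rw [hc, nrm_smul, hq, mul_one]⟩

/-- The preimages of a point under `φ^m`. -/
theorem exists_tree {L : Type*} [Field L] [IsAlgClosed L] (abv : AbsoluteValue L ℝ)
    (hna : IsNonarchimedean abv)
    (gen : ∀ N : ℕ, ∃ t : Fin N → L, (∀ i, abv (t i) ≤ 1) ∧ ∀ i j, i ≠ j → abv (t i - t j) = 1)
    (d m : ℕ) (hd : 1 ≤ d) (F G : L[X]) (hF : F.natDegree ≤ d)
    (hG : G.natDegree ≤ d) (hR : resultant F G d d ≠ 0) (hBF : ∀ i, abv (F.coeff i) ≤ 1)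
    (hBG : ∀ i, abv (G.coeff i) ≤ 1)
    (hmin : ∃ i j, abv (F.coeff i * G.coeff j - F.coeff j * G.coeff i) = 1)
    (g : L × L) (hg : nrm abv g = 1) :
    ∃ z : Fin (d ^ m) → L × L, (∀ i, nrm abv (z i) = 1) ∧
      (∀ p, abv (wedge ((lift d F G)^[m] p) g) = ∏ i, abv (wedge p (z i))) ∧
      ee d m * Real.log (abv (resultant F G d d)) ≤
        ∑ i, Real.log (nrm abv ((lift d F G)^[m] (z i))) := by
  induction m with
  | zero =>
    refine ⟨fun _ => g, fun _ => hg, fun p => ?_, by simp [ee, hg]⟩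
    rw [Finset.prod_const, Finset.card_univ, Fintype.card_fin, pow_zero, pow_one]
    rfl
  | succ m ih =>
    obtain ⟨z, hz1, hz2, hz3⟩ := ih
    have hf := fun i => exists_fibre abv hna gen d hd F G hF hG hR hBF hBG hmin (z i) (hz1 i)
    choose w hw1 hw2 hw3 using hf
    let e : Fin (d ^ (m + 1)) ≃ Fin (d ^ m) × Fin d :=
      (finCongr (pow_succ d m)).trans finProdFinEquiv.symm
    have hsum : ∀ f : Fin (d ^ m) × Fin d → ℝ, ∑ i, f (e i) = ∑ i, ∑ j, f (i, j) := by
      intro f
      rw [e.sum_comp f, Fintype.sum_prod_type]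
    have hprod : ∀ f : Fin (d ^ m) × Fin d → ℝ, ∏ i, f (e i) = ∏ i, ∏ j, f (i, j) := by
      intro f
      rw [e.prod_comp f, Fintype.prod_prod_type]
    refine ⟨fun i => w (e i).1 (e i).2, fun i => hw1 _ _, fun p => ?_, ?_⟩
    · rw [Function.iterate_succ_apply, hz2, hprod fun a => abv (wedge p (w a.1 a.2))]
      exact Finset.prod_congr rfl fun i _ => hw2 i p
    · rw [hsum fun a => Real.log (nrm abv ((lift d F G)^[m + 1] (w a.1 a.2)))]
      have h0 : ∀ i j, wedge (lift d F G (w i j)) (z i) = 0 := by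
        intro i j
        apply abv.eq_zero.mp
        rw [hw2]
        apply Finset.prod_eq_zero (Finset.mem_univ j)
        rw [abv.eq_zero]
        simp only [wedge]
        ring
      have hne : ∀ q : L × L, nrm abv q = 1 → q ≠ 0 := by
        rintro q hq rfl
        simp [nrm] at hq
      have h1 : ∀ i j, Real.log (nrm abv ((lift d F G)^[m + 1] (w i j))) =
          ((d ^ m : ℕ) : ℝ) * Real.log (nrm abv (lift d F G (w i j))) +
            Real.log (nrm abv ((lift d F G)^[m] (z i))) := by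
        intro i j
        obtain ⟨c, hc1, hc2⟩ := tree_smul abv _ _ (hz1 i) (h0 i j)
        have hl : lift d F G (w i j) ≠ 0 := lift_ne_zero d hd F G hR (hne _ (hw1 i j))
        have hc : 0 < abv c := by
          rw [hc2]
          exact nrm_pos abv hl
        have hq : 0 < nrm abv ((lift d F G)^[m] (z i)) :=
          nrm_pos abv (iter_ne_zero d hd F G hF hG hR m (hne _ (hz1 i)))
        rw [Function.iterate_succ_apply, hc1, iter_smul, nrm_smul, nrm_smul, hz1, mul_one, map_pow,
          Real.log_mul (pow_ne_zero _ hc.ne') hq.ne', Real.log_pow]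
      have h2 : ∑ i, ∑ j, Real.log (nrm abv ((lift d F G)^[m + 1] (w i j))) =
          ((d ^ m : ℕ) : ℝ) * ∑ i, ∑ j, Real.log (nrm abv (lift d F G (w i j))) +
            d * ∑ i, Real.log (nrm abv ((lift d F G)^[m] (z i))) := by
        simp only [h1, Finset.sum_add_distrib, Finset.sum_const, Finset.card_univ,
          Fintype.card_fin, nsmul_eq_mul, ← Finset.mul_sum]
      have h3 : ((d ^ m : ℕ) : ℝ) * Real.log (abv (resultant F G d d)) ≤
          ∑ i, ∑ j, Real.log (nrm abv (lift d F G (w i j))) := by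
        have := Finset.sum_le_sum fun i (_ : i ∈ Finset.univ) => hw3 i
        simpa using this
      have h4 : (0 : ℝ) ≤ ((d ^ m : ℕ) : ℝ) := Nat.cast_nonneg _
      have h5 : (0 : ℝ) ≤ (d : ℝ) := Nat.cast_nonneg _
      rw [h2]
      have h6 := mul_le_mul_of_nonneg_left h3 h4
      have h7 := mul_le_mul_of_nonneg_left hz3 h5
      simp only [ee]
      push_cast at h6 h7 ⊢
      nlinarith [h6, h7]

end Pool.Agent.RDF
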