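import Pool.Agent.RDF.Psd
import Pool.Agent.RDF.Lip
import Pool.Agent.RDF.Tree

set_option autoImplicit false

/-!
# The quadratic form at the points, the preimages of generic points and the auxiliary points
-/

namespace Pool.Agent.RDF

open Polynomial

/-- points `(t, 1)` in general position with respect to finitely many vectors -/
theorem exists_gen_points {L : Type*} [Field L] (abv : AbsoluteValue L ℝ)
    (hna : IsNonarchimedean abv)
    (gen : ∀ N : ℕ, ∃ t : Fin N → L, (∀ i, abv (t i) ≤ 1) ∧ ∀ i j, i ≠ j → abv (t i - t j) = 1)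
    {κ : Type*} [Fintype κ] (q : κ → L × L) (T : ℕ) :
    ∃ t : Fin T → L, (∀ i, abv (t i) ≤ 1) ∧ (∀ i j, i ≠ j → abv (t i - t j) = 1) ∧
      ∀ a i, abv (wedge (q i) (t a, 1)) = nrm abv (q i) := by
  classical
  set M := Fintype.card κ with hM
  obtain ⟨t, ht1, ht2⟩ := gen (M + T)
  have hle : ∀ a i, abv (wedge (q i) (t a, 1)) ≤ nrm abv (q i) := by
    intro a i
    refine (wedge_le_nrm abv hna _ _).trans ?_
    refine mul_le_of_le_one_right (nrm_nonneg abv _) ?_
    exact max_le (ht1 a) (by simp)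
  -- two bad indices for the same vector are equal
  have hinj : ∀ a b i, abv (wedge (q i) (t a, 1)) ≠ nrm abv (q i) →
      abv (wedge (q i) (t b, 1)) ≠ nrm abv (q i) → a = b := by
    intro a b i ha hb
    by_contra hab
    have ha' := lt_of_le_of_ne (hle a i) ha
    have hb' := lt_of_le_of_ne (hle b i) hb
    have e : (t a - t b) * (q i).2 = wedge (q i) (t b, 1) - wedge (q i) (t a, 1) := by
      simp [wedge]; ring
    have h1 : abv ((q i).2) < nrm abv (q i) := by
      have h2 : abv ((t a - t b) * (q i).2) < nrm abv (q i) := by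
        rw [e, sub_eq_add_neg]
        refine lt_of_le_of_lt (hna _ _) (max_lt hb' ?_)
        rwa [abv.map_neg]
      rwa [map_mul, ht2 a b hab, one_mul] at h2
    have h3 : nrm abv (q i) = abv (q i).1 := by
      rcases max_choice (abv (q i).1) (abv (q i).2) with h | h
      · exact h
      · exact absurd h1 (by rw [nrm, h]; exact lt_irrefl _)
    have h4 : abv (q i).1 ≤ max (abv (wedge (q i) (t a, 1))) (abv (t a * (q i).2)) := by
      have e2 : (q i).1 = wedge (q i) (t a, 1) + t a * (q i).2 := by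
        simp [wedge]
      conv_lhs => rw [e2]
      exact hna _ _
    have h5 : abv (t a * (q i).2) < nrm abv (q i) := by
      rw [map_mul]
      refine lt_of_le_of_lt ?_ h1
      exact mul_le_of_le_one_left (abv.nonneg _) (ht1 a)
    rw [← h3] at h4
    exact absurd h4 (not_le.mpr (max_lt ha' h5))
  set bad : Finset (Fin (M + T)) :=
    Finset.univ.filter fun a => ∃ i, abv (wedge (q i) (t a, 1)) ≠ nrm abv (q i) with hbad
  have hcard : bad.card ≤ M := by
    have hch : ∀ a ∈ bad, ∃ i, abv (wedge (q i) (t a, 1)) ≠ nrm abv (q i) := by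
      intro a ha
      exact (Finset.mem_filter.mp ha).2
    choose f hf using hch
    have h : Fintype.card bad ≤ Fintype.card κ := by
      refine Fintype.card_le_of_injective (fun a : bad => f a.1 a.2) fun a b hab => ?_
      refine Subtype.ext (hinj a b (f a.1 a.2) (hf a.1 a.2) ?_)
      have hab' : f a.1 a.2 = f b.1 b.2 := hab
      rw [hab']
      exact hf b.1 b.2
    simpa using h
  have hgood : T ≤ (badᶜ).card := by
    rw [Finset.card_compl, Fintype.card_fin]
    omega
  obtain ⟨S, hS, hScard⟩ := Finset.exists_subset_card_eq hgood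
  let e := S.orderEmbOfFin hScard
  have he : ∀ a, e a ∈ badᶜ := fun a => hS (S.orderEmbOfFin_mem hScard a)
  refine ⟨fun a => t (e a), fun a => ht1 _, fun a b hab => ht2 _ _ ?_, fun a i => ?_⟩
  · intro h
    exact hab (e.injective h)
  · by_contra h
    have h1 := he a
    rw [Finset.mem_compl] at h1
    exact h1 (Finset.mem_filter.mpr ⟨Finset.mem_univ _, i, h⟩)

section

variable {L : Type*} [Field L] (abv : AbsoluteValue L ℝ)

/-- vectors with wedge zero are proportional -/
theorem eq_smul_of_wedge {p g : L × L} (hg : nrm abv g = 1) (h : wedge p g = 0) :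
    ∃ c : L, p = c • g ∧ abv c = nrm abv p := by
  have hg0 : g ≠ 0 := by
    rintro rfl
    simp [nrm] at hg
  have key : ∃ c : L, p = c • g := by
    by_cases h1 : g.1 = 0
    · have h2 : g.2 ≠ 0 := fun h2 => hg0 (Prod.ext h1 h2)
      refine ⟨p.2 / g.2, ?_⟩
      have h3 : p.1 * g.2 = 0 := by
        rw [wedge, h1, zero_mul, sub_zero] at h
        exact h
      ext
      · rw [Prod.smul_fst, h1, smul_zero]
        exact (mul_eq_zero.mp h3).resolve_right h2
      · rw [Prod.smul_snd, smul_eq_mul, div_mul_cancel₀ _ h2]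
    · refine ⟨p.1 / g.1, ?_⟩
      ext
      · rw [Prod.smul_fst, smul_eq_mul, div_mul_cancel₀ _ h1]
      · rw [Prod.smul_snd, smul_eq_mul, div_mul_eq_mul_div, eq_div_iff h1]
        rw [wedge, sub_eq_zero] at h
        rw [h]
        ring
  obtain ⟨c, rfl⟩ := key
  exact ⟨c, rfl, by rw [nrm_smul, hg, mul_one]⟩

theorem kr_le_log (R : ℝ) {p q : L × L} (h : wedge p q ≠ 0) :
    kr abv R p q ≤ -Real.log (abv (wedge p q)) := by
  rw [kr, if_neg h]
  exact min_le_right _ _

theorem kr_eq_log (R : ℝ) {p q : L × L} (h : wedge p q ≠ 0)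
    (hR : -Real.log (abv (wedge p q)) ≤ R) : kr abv R p q = -Real.log (abv (wedge p q)) := by
  rw [kr, if_neg h, min_eq_right hR]

/-- The nine blocks of a quadratic form. -/
theorem blocks {A B C : Type*} [Fintype A] [Fintype B] [Fintype C] (f : A ⊕ B ⊕ C → A ⊕ B ⊕ C → ℝ)
    (hf : ∀ p q, f p q = f q p) :
    ∑ p, ∑ q, f p q = (∑ i, ∑ j, f (.inl i) (.inl j)) +
      (∑ i, ∑ j, f (.inr (.inl i)) (.inr (.inl j))) +
      (∑ i, ∑ j, f (.inr (.inr i)) (.inr (.inr j))) +
      2 * (∑ i, ∑ j, f (.inl i) (.inr (.inl j))) +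
      2 * (∑ i, ∑ j, f (.inl i) (.inr (.inr j))) +
      2 * (∑ i, ∑ j, f (.inr (.inr i)) (.inr (.inl j))) := by
  simp only [Fintype.sum_sum_type, Finset.sum_add_distrib]
  have h1 : ∑ x : B, ∑ y : A, f (.inr (.inl x)) (.inl y) =
      ∑ i, ∑ j, f (.inl i) (.inr (.inl j)) := by
    rw [Finset.sum_comm]
    exact Finset.sum_congr rfl fun i _ => Finset.sum_congr rfl fun j _ => hf _ _
  have h2 : ∑ x : C, ∑ y : A, f (.inr (.inr x)) (.inl y) =
      ∑ i, ∑ j, f (.inl i) (.inr (.inr j)) := by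
    rw [Finset.sum_comm]
    exact Finset.sum_congr rfl fun i _ => Finset.sum_congr rfl fun j _ => hf _ _
  have h3 : ∑ x : B, ∑ y : C, f (.inr (.inl x)) (.inr (.inr y)) =
      ∑ i, ∑ j, f (.inr (.inr i)) (.inr (.inl j)) := by
    rw [Finset.sum_comm]
    exact Finset.sum_congr rfl fun i _ => Finset.sum_congr rfl fun j _ => hf _ _
  rw [h1, h2, h3]
  ring

end


/-- The quadratic form at the points `x_i`, the preimages of generic points and the points `y_l`. -/
theorem core_aux {L : Type*} [Field L] [IsAlgClosed L] (abv : AbsoluteValue L ℝ)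
    (hna : IsNonarchimedean abv)
    (gen : ∀ N : ℕ, ∃ t : Fin N → L, (∀ i, abv (t i) ≤ 1) ∧ ∀ i j, i ≠ j → abv (t i - t j) = 1)
    (d m : ℕ) (hd : 1 ≤ d) (F G : L[X]) (hF : F.natDegree ≤ d)
    (hG : G.natDegree ≤ d) (hR : resultant F G d d ≠ 0) (hBF : ∀ i, abv (F.coeff i) ≤ 1)
    (hBG : ∀ i, abv (G.coeff i) ≤ 1)
    (hmin : ∃ i j, abv (F.coeff i * G.coeff j - F.coeff j * G.coeff i) = 1)
    (T : ℕ) (hT : T = d ^ m) (x y : Fin T → L × L) (hx : ∀ i, nrm abv (x i) = 1) (hy : ∀ i, nrm abv (y i) = 1)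
    (hxx : ∀ i j, i ≠ j → wedge (x i) (x j) ≠ 0) (hxy : ∀ i j, abv (wedge (x i) (y j)) = 1)
    (s a τ : ℝ) (hyy : ∀ i j, i ≠ j → Real.exp (-s) ≤ abv (wedge (y i) (y j)))
    (ha : ∀ i, Real.log (nrm abv ((lift d F G)^[m] (y i))) ≤ -a) (hs : 0 ≤ s) (hτ0 : 0 ≤ τ)
    (hτ : τ ≤ (d : ℝ) ^ m) :
    2 * τ * a - τ ^ 2 * s + 6 * m * (d : ℝ) ^ m * Real.log (abv (resultant F G d d)) ≤
      ∑ i, ∑ j ∈ Finset.univ.erase i, -Real.log (abv (wedge (x i) (x j))) +
      2 * ∑ i, Real.log (nrm abv ((lift d F G)^[m] (x i))) -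
      ee d m * Real.log (abv (resultant F G d d)) := by
  classical
  have hcast : ((d : ℝ) ^ m) = (T : ℝ) := by rw [hT]; push_cast; rfl
  rw [hcast] at hτ ⊢
  have hTpos : 0 < T := by rw [hT]; exact pow_pos (by omega) m
  have hcard : ((d ^ m : ℕ) : ℝ) = T := by rw [hT]
  have hTr : (0 : ℝ) < T := by exact_mod_cast hTpos
  set Φ := (lift d F G)^[m] with hΦ
  set ℓ := Real.log (abv (resultant F G d d)) with hℓ
  have hne : ∀ p, nrm abv p = 1 → p ≠ 0 := by
    rintro p hp rfl
    simp [nrm] at hp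
  have hit : ∀ p, nrm abv p = 1 → Φ p ≠ 0 := fun p hp =>
    iter_ne_zero d hd F G hF hG hR m (hne p hp)
  have hle1 : ∀ p, nrm abv p = 1 → nrm abv (Φ p) ≤ 1 := by
    intro p hp
    have h := nrm_iter_le abv hna d F G hBF hBG p m
    rwa [hp, one_pow] at h
  have hℓ0 : ℓ ≤ 0 := by
    refine Real.log_nonpos (abv.nonneg _) ?_
    have h1 := nrm_lift_ge abv hna d hd F G hF hG 1 hBF hBG (x ⟨0, hTpos⟩)
    have h2 := nrm_lift_le abv hna d F G hBF hBG (x ⟨0, hTpos⟩)
    rw [hx] at h1 h2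
    simp only [one_pow, mul_one, one_mul] at h1 h2
    exact h1.trans h2
  set R : ℝ := 2 * m * (-ℓ) with hRdef
  have hR0 : 0 ≤ R := by
    have : (0 : ℝ) ≤ 2 * m := by positivity
    exact mul_nonneg this (by linarith)
  -- generic points
  obtain ⟨t, ht1, ht2, ht3⟩ := exists_gen_points abv hna gen
    (Sum.elim (fun i => Φ (x i)) (fun i => Φ (y i))) T
  set g : Fin T → L × L := fun b => (t b, 1) with hgdef
  have hg : ∀ b, nrm abv (g b) = 1 := by
    intro b
    refine le_antisymm (max_le (ht1 b) (by simp [hgdef])) (le_max_of_le_right (by simp [hgdef]))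
  have hgg : ∀ b b', b ≠ b' → abv (wedge (g b) (g b')) = 1 := by
    intro b b' hb
    have h := ht2 b b' hb
    simpa [wedge, hgdef] using h
  have hgx : ∀ b i, abv (wedge (Φ (x i)) (g b)) = nrm abv (Φ (x i)) := fun b i => ht3 b (.inl i)
  have hgy : ∀ b i, abv (wedge (Φ (y i)) (g b)) = nrm abv (Φ (y i)) := fun b i => ht3 b (.inr i)
  -- the trees
  choose z hz1 hz2 hz3 using fun b => exists_tree abv hna gen d m hd F G hF hG hR hBF hBG hmin
    (g b) (hg b)
  have hzc : ∀ b w, ∃ c : L, Φ (z b w) = c • g b ∧ abv c = nrm abv (Φ (z b w)) := by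
    intro b w
    refine eq_smul_of_wedge abv (hg b) ?_
    rw [← abv.eq_zero, hz2 b (z b w)]
    refine Finset.prod_eq_zero (Finset.mem_univ w) ?_
    rw [wedge_self', map_zero]
  have hsum : ∀ p, nrm abv p = 1 → ∀ b, abv (wedge (Φ p) (g b)) = nrm abv (Φ p) →
      ∑ w, kr abv R p (z b w) = -Real.log (nrm abv (Φ p)) := by
    intro p hp b hb
    have h1 : ∀ w, wedge p (z b w) ≠ 0 ∧ -Real.log (abv (wedge p (z b w))) ≤ R := by
      intro w
      refine wedge_ge abv hna d m hd F G hF hG hR hBF hBG p (z b w) hp (hz1 b w) ?_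
      obtain ⟨c, hc1, hc2⟩ := hzc b w
      change abv (wedge (Φ p) (Φ (z b w))) = nrm abv (Φ p) * nrm abv (Φ (z b w))
      rw [hc1, wedge_smul_right, map_mul, hb, ← hc1, hc2, mul_comm]
    have h2 : ∑ w, kr abv R p (z b w) = ∑ w, -Real.log (abv (wedge p (z b w))) :=
      Finset.sum_congr rfl fun w _ => kr_eq_log abv R (h1 w).1 (h1 w).2
    rw [h2, Finset.sum_neg_distrib, ← Real.log_prod fun w _ => (abv.pos (h1 w).1).ne', ← hz2 b p,
      ← hb]
  -- the points and the weights
  set P : Fin T ⊕ (Fin T × Fin (d ^ m)) ⊕ Fin T → L × L :=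
    Sum.elim x (Sum.elim (fun q => z q.1 q.2) y) with hP
  set c : Fin T ⊕ (Fin T × Fin (d ^ m)) ⊕ Fin T → ℝ :=
    Sum.elim (fun _ => 1) (Sum.elim (fun _ => -(1 / (T : ℝ))) (fun _ => τ / T)) with hc
  have hP1 : ∀ q, nrm abv (P q) = 1 := by
    rintro (i | q | l)
    · exact hx i
    · exact hz1 _ _
    · exact hy l
  have hq := kr_psd abv hna R hR0 P hP1 c
  rw [blocks (fun p q => c p * c q * kr abv R (P p) (P q)) (fun p q => by
    rw [kr_comm, mul_comm (c p)])] at hq
  simp only [hP, hc, Sum.elim_inl, Sum.elim_inr] at hq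
  -- block 1
  have b1 : ∑ i, ∑ j, (1 : ℝ) * 1 * kr abv R (x i) (x j) ≤
      T * R + ∑ i, ∑ j ∈ Finset.univ.erase i, -Real.log (abv (wedge (x i) (x j))) := by
    have : ∀ i, ∑ j, (1 : ℝ) * 1 * kr abv R (x i) (x j) ≤
        R + ∑ j ∈ Finset.univ.erase i, -Real.log (abv (wedge (x i) (x j))) := by
      intro i
      rw [← Finset.add_sum_erase _ _ (Finset.mem_univ i)]
      refine add_le_add ?_ (Finset.sum_le_sum fun j hj => ?_)
      · rw [one_mul, one_mul]
        exact kr_le abv R _ _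
      · rw [one_mul, one_mul]
        exact kr_le_log abv R (hxx i j (Finset.ne_of_mem_erase hj).symm)
    refine (Finset.sum_le_sum fun i _ => this i).trans_eq ?_
    rw [Finset.sum_add_distrib, Finset.sum_const, Finset.card_univ, Fintype.card_fin, nsmul_eq_mul]
  -- block 2
  have b2 : ∑ i : Fin T × Fin (d ^ m), ∑ j : Fin T × Fin (d ^ m),
      -(1 / (T : ℝ)) * -(1 / (T : ℝ)) * kr abv R (z i.1 i.2) (z j.1 j.2) ≤ T * R - ee d m * ℓ := by
    have h1 : ∀ b w, ∑ j : Fin T × Fin (d ^ m), kr abv R (z b w) (z j.1 j.2) ≤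
        T * R + T * (-Real.log (nrm abv (Φ (z b w)))) := by
      intro b w
      rw [Fintype.sum_prod_type, ← Finset.add_sum_erase _ _ (Finset.mem_univ b)]
      have hv : 0 ≤ -Real.log (nrm abv (Φ (z b w))) := by
        rw [neg_nonneg]
        exact Real.log_nonpos (nrm_nonneg abv _) (hle1 _ (hz1 b w))
      refine add_le_add ?_ ?_
      · refine (Finset.sum_le_sum fun w' _ => kr_le abv R _ _).trans_eq ?_
        rw [Finset.sum_const, Finset.card_univ, Fintype.card_fin, nsmul_eq_mul, hcard]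
      · have h2 : ∀ b' ∈ Finset.univ.erase b, ∑ w', kr abv R (z b w) (z b' w') =
            -Real.log (nrm abv (Φ (z b w))) := by
          intro b' hb'
          refine hsum _ (hz1 b w) b' ?_
          obtain ⟨c', hc1, hc2⟩ := hzc b w
          rw [hc1, wedge_smul_left, map_mul, hgg b b' (Finset.ne_of_mem_erase hb').symm, mul_one,
            ← hc1, hc2]
        rw [Finset.sum_congr rfl h2, Finset.sum_const, nsmul_eq_mul]
        refine mul_le_mul_of_nonneg_right ?_ hv
        have : (Finset.univ.erase b).card ≤ T := by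
          refine (Finset.card_erase_le).trans ?_
          rw [Finset.card_univ, Fintype.card_fin]
        exact_mod_cast this
    have h3 : ∑ i : Fin T × Fin (d ^ m), ∑ j : Fin T × Fin (d ^ m), kr abv R (z i.1 i.2) (z j.1 j.2)
        ≤ T ^ 2 * (T * R - ee d m * ℓ) := by
      calc ∑ i : Fin T × Fin (d ^ m), ∑ j : Fin T × Fin (d ^ m), kr abv R (z i.1 i.2) (z j.1 j.2)
          ≤ ∑ i : Fin T × Fin (d ^ m), (T * R + T * (-Real.log (nrm abv (Φ (z i.1 i.2))))) :=
            Finset.sum_le_sum fun i _ => h1 i.1 i.2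
        _ = ∑ b : Fin T, ∑ w : Fin (d ^ m), (T * R + T * (-Real.log (nrm abv (Φ (z b w))))) := by
            rw [Fintype.sum_prod_type]
        _ ≤ ∑ b : Fin T, (T * (T * R) + T * (-(ee d m * ℓ))) := by
            refine Finset.sum_le_sum fun b _ => ?_
            rw [Finset.sum_add_distrib, Finset.sum_const, Finset.card_univ, Fintype.card_fin,
              nsmul_eq_mul, hcard, ← Finset.mul_sum, Finset.sum_neg_distrib]
            refine add_le_add le_rfl (mul_le_mul_of_nonneg_left (neg_le_neg ?_) hTr.le)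
            exact hz3 b
        _ = _ := by
            rw [Finset.sum_const, Finset.card_univ, Fintype.card_fin, nsmul_eq_mul]
            ring
    have h4 : ∑ i : Fin T × Fin (d ^ m), ∑ j : Fin T × Fin (d ^ m),
        -(1 / (T : ℝ)) * -(1 / (T : ℝ)) * kr abv R (z i.1 i.2) (z j.1 j.2) =
        (1 / (T : ℝ)) ^ 2 * ∑ i : Fin T × Fin (d ^ m), ∑ j : Fin T × Fin (d ^ m),
          kr abv R (z i.1 i.2) (z j.1 j.2) := by
      rw [Finset.mul_sum]
      refine Finset.sum_congr rfl fun i _ => ?_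
      rw [Finset.mul_sum]
      refine Finset.sum_congr rfl fun j _ => ?_
      ring
    rw [h4]
    calc (1 / (T : ℝ)) ^ 2 * _ ≤ (1 / (T : ℝ)) ^ 2 * (T ^ 2 * (T * R - ee d m * ℓ)) :=
          mul_le_mul_of_nonneg_left h3 (sq_nonneg _)
      _ = T * R - ee d m * ℓ := by
          field_simp
  -- block 3
  have b3 : ∑ i, ∑ j, τ / T * (τ / T) * kr abv R (y i) (y j) ≤ τ ^ 2 * s + T * R := by
    have h1 : ∀ i, ∑ j, kr abv R (y i) (y j) ≤ R + T * s := by
      intro i
      rw [← Finset.add_sum_erase _ _ (Finset.mem_univ i)]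
      refine add_le_add (kr_le abv R _ _) ?_
      refine (Finset.sum_le_sum (g := fun _ => s) fun j hj => ?_).trans ?_
      · have h2 := hyy i j (Finset.ne_of_mem_erase hj).symm
        have h3 : wedge (y i) (y j) ≠ 0 := by
          intro h0
          rw [h0, map_zero] at h2
          exact absurd (Real.exp_pos (-s)) (not_lt.mpr h2)
        refine (kr_le_log abv R h3).trans ?_
        have h4 := Real.log_le_log (Real.exp_pos _) h2
        rw [Real.log_exp] at h4
        linarith
      · rw [Finset.sum_const, nsmul_eq_mul]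
        refine mul_le_mul_of_nonneg_right ?_ hs
        have : (Finset.univ.erase i).card ≤ T := by
          refine (Finset.card_erase_le).trans ?_
          rw [Finset.card_univ, Fintype.card_fin]
        exact_mod_cast this
    have h2 : ∑ i, ∑ j, τ / T * (τ / T) * kr abv R (y i) (y j) ≤
        ∑ i : Fin T, τ / T * (τ / T) * (R + T * s) := by
      refine Finset.sum_le_sum fun i _ => ?_
      rw [← Finset.mul_sum]
      refine mul_le_mul_of_nonneg_left (h1 i) ?_
      have : 0 ≤ τ / T := div_nonneg hτ0 hTr.le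
      positivity
    refine h2.trans ?_
    rw [Finset.sum_const, Finset.card_univ, Fintype.card_fin, nsmul_eq_mul]
    have h3 : (T : ℝ) * (τ / T * (τ / T) * (R + T * s)) = τ ^ 2 / T * R + τ ^ 2 * s := by
      field_simp
    rw [h3]
    have h4 : τ ^ 2 / T ≤ T := by
      rw [div_le_iff₀ hTr]
      nlinarith
    have h5 := mul_le_mul_of_nonneg_right h4 hR0
    linarith
  -- block 4
  have b4 : ∑ i, ∑ j : Fin T × Fin (d ^ m), 1 * -(1 / (T : ℝ)) * kr abv R (x i) (z j.1 j.2) =
      ∑ i, Real.log (nrm abv (Φ (x i))) := by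
    refine Finset.sum_congr rfl fun i _ => ?_
    rw [Fintype.sum_prod_type]
    have h1 : ∀ b, ∑ w, 1 * -(1 / (T : ℝ)) * kr abv R (x i) (z b w) =
        (1 / (T : ℝ)) * Real.log (nrm abv (Φ (x i))) := by
      intro b
      rw [← Finset.mul_sum, hsum _ (hx i) b (hgx b i)]
      ring
    rw [Finset.sum_congr rfl fun b _ => h1 b, Finset.sum_const, Finset.card_univ,
      Fintype.card_fin, nsmul_eq_mul]
    field_simp
  -- block 5
  have b5 : ∑ i, ∑ j, 1 * (τ / T) * kr abv R (x i) (y j) = 0 := by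
    refine Finset.sum_eq_zero fun i _ => Finset.sum_eq_zero fun j _ => ?_
    have h0 : wedge (x i) (y j) ≠ 0 := by
      intro h0
      have := hxy i j
      rw [h0, map_zero] at this
      exact zero_ne_one this
    rw [kr_eq_log abv R h0 (by rw [hxy, Real.log_one, neg_zero]; exact hR0), hxy, Real.log_one,
      neg_zero, mul_zero]
  -- block 6
  have b6 : ∑ i, ∑ j : Fin T × Fin (d ^ m), τ / T * -(1 / (T : ℝ)) * kr abv R (y i) (z j.1 j.2) ≤
      -(τ * a) := by
    have h1 : ∀ i, ∑ j : Fin T × Fin (d ^ m), τ / T * -(1 / (T : ℝ)) * kr abv R (y i) (z j.1 j.2) =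
        τ / T * Real.log (nrm abv (Φ (y i))) := by
      intro i
      rw [Fintype.sum_prod_type]
      have h1 : ∀ b, ∑ w, τ / T * -(1 / (T : ℝ)) * kr abv R (y i) (z b w) =
          (1 / (T : ℝ)) * (τ / T * Real.log (nrm abv (Φ (y i)))) := by
        intro b
        rw [← Finset.mul_sum, hsum _ (hy i) b (hgy b i)]
        ring
      rw [Finset.sum_congr rfl fun b _ => h1 b, Finset.sum_const, Finset.card_univ,
        Fintype.card_fin, nsmul_eq_mul]
      field_simp
    rw [Finset.sum_congr rfl fun i _ => h1 i, ← Finset.mul_sum]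
    have h2 : ∑ i, Real.log (nrm abv (Φ (y i))) ≤ T * (-a) := by
      refine (Finset.sum_le_sum fun i _ => ha i).trans_eq ?_
      rw [Finset.sum_const, Finset.card_univ, Fintype.card_fin, nsmul_eq_mul]
    calc τ / T * ∑ i, Real.log (nrm abv (Φ (y i))) ≤ τ / T * (T * (-a)) :=
          mul_le_mul_of_nonneg_left h2 (div_nonneg hτ0 hTr.le)
      _ = -(τ * a) := by
          field_simp
  have hfin : 6 * m * (T : ℝ) * ℓ = -(3 * (T * R)) := by
    rw [hRdef]
    ring
  rw [hfin]
  rw [b4, b5, mul_zero, add_zero] at hq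
  have h7 := add_le_add (add_le_add (add_le_add b1 b2) b3)
    (mul_le_mul_of_nonneg_left b6 (zero_le_two (α := ℝ)))
  have h8 : 2 * τ * a = 2 * (τ * a) := by ring
  rw [h8]
  linarith

/-- The quadratic form at the points `x_i`, the preimages of generic points and the points `y_l`. -/
theorem core {L : Type*} [Field L] [IsAlgClosed L] (abv : AbsoluteValue L ℝ)
    (hna : IsNonarchimedean abv)
    (gen : ∀ N : ℕ, ∃ t : Fin N → L, (∀ i, abv (t i) ≤ 1) ∧ ∀ i j, i ≠ j → abv (t i - t j) = 1)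
    (d m : ℕ) (hd : 1 ≤ d) (F G : L[X]) (hF : F.natDegree ≤ d)
    (hG : G.natDegree ≤ d) (hR : resultant F G d d ≠ 0) (hBF : ∀ i, abv (F.coeff i) ≤ 1)
    (hBG : ∀ i, abv (G.coeff i) ≤ 1)
    (hmin : ∃ i j, abv (F.coeff i * G.coeff j - F.coeff j * G.coeff i) = 1)
    (x y : Fin (d ^ m) → L × L) (hx : ∀ i, nrm abv (x i) = 1) (hy : ∀ i, nrm abv (y i) = 1)
    (hxx : ∀ i j, i ≠ j → wedge (x i) (x j) ≠ 0) (hxy : ∀ i j, abv (wedge (x i) (y j)) = 1)
    (s a τ : ℝ) (hyy : ∀ i j, i ≠ j → Real.exp (-s) ≤ abv (wedge (y i) (y j)))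
    (ha : ∀ i, Real.log (nrm abv ((lift d F G)^[m] (y i))) ≤ -a) (hs : 0 ≤ s) (hτ0 : 0 ≤ τ)
    (hτ : τ ≤ (d : ℝ) ^ m) :
    2 * τ * a - τ ^ 2 * s + 6 * m * (d : ℝ) ^ m * Real.log (abv (resultant F G d d)) ≤
      ∑ i, ∑ j ∈ Finset.univ.erase i, -Real.log (abv (wedge (x i) (x j))) +
      2 * ∑ i, Real.log (nrm abv ((lift d F G)^[m] (x i))) -
      ee d m * Real.log (abv (resultant F G d d)) :=
  core_aux abv hna gen d m hd F G hF hG hR hBF hBG hmin (d ^ m) rfl x y hx hy hxx hxy s a τ hyy ha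
    hs hτ0 hτ

end Pool.Agent.RDF
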