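import Pool.Agent.RDF.Basic
import Pool.Agent.RDF.DetE

set_option autoImplicit false

/-!
# The determinant of the forms `P_a`

`det (P_a(z_i)) = ± Res(F, G)^(rr d m) ∏_{i < j} (z_i ∧ z_j)`.
-/

namespace Pool.Agent.RDF

open Polynomial Matrix Kronecker

theorem rr_closed (d m : ℕ) (hd : 1 ≤ d) :
    2 * d * (d - 1) * rr d m + m * (d - 1) * d ^ m = d ^ m * (d ^ m - 1) := by
  obtain ⟨e, rfl⟩ : ∃ e, d = e + 1 := ⟨d - 1, by omega⟩
  have key : ∀ n : ℕ, ((2 * n.choose 2 : ℕ) : ℤ) = (n : ℤ) * (n - 1) := by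
    intro n
    rcases n with - | n
    · simp
    · have h1 : 2 * (n + 1).choose 2 = (n + 1) * n := by
        rw [Nat.choose_two_right, Nat.add_sub_cancel]
        exact Nat.mul_div_cancel' (Nat.even_mul_pred_self (n + 1)).two_dvd
      rw [h1]
      push_cast
      ring
  have h2 : ∀ k : ℕ, (((e + 1) ^ k * ((e + 1) ^ k - 1) : ℕ) : ℤ) =
      ((e : ℤ) + 1) ^ k * (((e : ℤ) + 1) ^ k - 1) := by
    intro k
    have : 1 ≤ (e + 1) ^ k := Nat.one_le_pow _ _ (by omega)
    rw [Nat.cast_mul, Nat.cast_sub this]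
    push_cast
    ring
  have hZ : ∀ k : ℕ, 2 * ((e : ℤ) + 1) * e * (rr (e + 1) k : ℤ) + k * e * ((e : ℤ) + 1) ^ k =
      ((e : ℤ) + 1) ^ k * (((e : ℤ) + 1) ^ k - 1) := by
    intro k
    induction k with
    | zero => simp [rr]
    | succ k ih =>
      have h3 := key ((e + 1) ^ k)
      push_cast at h3
      rw [rr]
      push_cast
      linear_combination ((e : ℤ) + 1) * ih + ((e : ℤ) + 1) * e * h3
  have h4 := hZ m
  rw [← h2 m] at h4
  have h5 : e + 1 - 1 = e := by omega
  rw [h5]
  exact_mod_cast h4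

/-- Two different indexings of the rows and of the columns change the determinant by a sign. -/
theorem det_submatrix_sign {L : Type*} [CommRing L] {α β : Type*} [Fintype α] [DecidableEq α]
    [Fintype β] [DecidableEq β] (e₁ e₂ : α ≃ β) (A : Matrix β β L) :
    (A.submatrix e₁ e₂).det = A.det ∨ (A.submatrix e₁ e₂).det = -A.det := by
  have h1 : A.submatrix e₁ e₂ = (A.submatrix e₂ e₂).submatrix (e₁.trans e₂.symm) id := by
    ext i j
    simp
  rw [h1]
  have h2 : ((A.submatrix e₂ e₂).submatrix (e₁.trans e₂.symm) id).det =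
      ((Equiv.Perm.sign (e₁.trans e₂.symm : Equiv.Perm α) : ℤˣ) : ℤ) * (A.submatrix e₂ e₂).det :=
    Matrix.det_permute (e₁.trans e₂.symm : Equiv.Perm α) (A.submatrix e₂ e₂)
  rw [h2, Matrix.det_submatrix_equiv_self]
  rcases Int.units_eq_one_or (Equiv.Perm.sign (e₁.trans e₂.symm : Equiv.Perm α)) with h | h
  · left; rw [h]; simp
  · right; rw [h]; simp

theorem bas_succ {R : Type*} [CommRing R] (d m : ℕ) (F G : R[X]) (a : Fin (m + 1) → Fin d)
    (z : R × R) :
    bas d (m + 1) F G a z = z.1 ^ (a 0 : ℕ) * z.2 ^ (d - 1 - (a 0 : ℕ)) *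
      bas d m F G (fun i => a i.succ) (lift d F G z) := by
  rw [bas, Fin.prod_univ_succ]
  simp only [Fin.val_zero, Function.iterate_zero, id_eq, Fin.val_succ,
    Function.iterate_succ_apply]
  rfl

/-- The rows of the coefficient matrix at level `m + 1`: the pair (tail, head). -/
noncomputable def rowEquiv (d m : ℕ) : Fin (d ^ (m + 1)) ≃ Fin (d ^ m) × Fin d :=
  finFunctionFinEquiv.symm.trans ((Fin.consEquiv (fun _ : Fin (m + 1) => Fin d)).symm.trans
    ((Equiv.prodComm _ _).trans (Equiv.prodCongr finFunctionFinEquiv (Equiv.refl _))))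

theorem rowEquiv_apply (d m : ℕ) (a : Fin (m + 1) → Fin d) :
    rowEquiv d m (finFunctionFinEquiv a) = (finFunctionFinEquiv (fun i => a i.succ), a 0) := by
  simp [rowEquiv, Fin.consEquiv]
  rfl

/-- The columns: `c = c₂ + d c₁`. -/
noncomputable def colEquiv (d m : ℕ) : Fin (d ^ (m + 1)) ≃ Fin (d ^ m) × Fin d :=
  (finCongr (pow_succ d m)).trans finProdFinEquiv.symm

theorem colEquiv_symm_val (d m : ℕ) (c : Fin (d ^ m) × Fin d) :
    (((colEquiv d m).symm c : Fin (d ^ (m + 1))) : ℕ) = c.2 + d * c.1 := by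
  simp [colEquiv]

theorem exists_B {L : Type*} [Field L] (d m : ℕ) (hd : 1 ≤ d) (F G : L[X])
    (hF : F.natDegree ≤ d) (hG : G.natDegree ≤ d) :
    ∃ B : Matrix (Fin (d ^ m)) (Fin (d ^ m)) L,
      (B.det = (resultant F G d d) ^ rr d m ∨ B.det = -(resultant F G d d) ^ rr d m) ∧
      ∀ (a : Fin m → Fin d) (z : L × L), bas d m F G a z =
        ∑ c : Fin (d ^ m), B (finFunctionFinEquiv a) c *
          (z.1 ^ (c : ℕ) * z.2 ^ (d ^ m - 1 - (c : ℕ))) := by
  induction m with
  | zero =>
    refine ⟨1, Or.inl ?_, ?_⟩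
    · have h1 : (1 : Matrix (Fin (d ^ 0)) (Fin (d ^ 0)) L).det = 1 := Matrix.det_one
      rw [h1, rr, pow_zero]
    · intro a z
      have : ∀ c : Fin (d ^ 0), finFunctionFinEquiv a = c := by
        intro c
        ext
        have h1 := (finFunctionFinEquiv a).isLt
        have h2 := c.isLt
        simp only [pow_zero] at h1 h2
        omega
      have hu : (Finset.univ : Finset (Fin (d ^ 0))) = {finFunctionFinEquiv a} := by
        ext c
        exact ⟨fun _ => Finset.mem_singleton.mpr (this c).symm, fun _ => Finset.mem_univ _⟩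
      rw [hu, Finset.sum_singleton, Matrix.one_apply_eq, bas]
      have h1 := (finFunctionFinEquiv a).isLt
      simp only [pow_zero] at h1
      have h3 : ((finFunctionFinEquiv a : Fin (d ^ 0)) : ℕ) = 0 := by omega
      rw [h3]
      simp
  | succ m ih =>
    obtain ⟨B, hB, hBz⟩ := ih
    obtain ⟨E, hE, hEz⟩ := exists_E d (d ^ m) hd (Nat.one_le_pow _ _ hd) F G hF hG
    refine ⟨((B ⊗ₖ (1 : Matrix (Fin d) (Fin d) L)) * E).submatrix (rowEquiv d m) (colEquiv d m),
      ?_, ?_⟩
    · have h1 : ((B ⊗ₖ (1 : Matrix (Fin d) (Fin d) L)) * E).det = B.det ^ d * E.det := by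
        rw [Matrix.det_mul, Matrix.det_kronecker]
        simp
      have h2 := det_submatrix_sign (rowEquiv d m) (colEquiv d m)
        ((B ⊗ₖ (1 : Matrix (Fin d) (Fin d) L)) * E)
      have h3 : B.det ^ d = (resultant F G d d) ^ (d * rr d m) ∨
          B.det ^ d = -(resultant F G d d) ^ (d * rr d m) := by
        rcases hB with h | h
        · left; rw [h, ← pow_mul, mul_comm]
        · rw [h, neg_pow]
          rcases neg_one_pow_eq_or L d with h' | h'
          · left; rw [h', one_mul, ← pow_mul, mul_comm]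
          · right; rw [h', ← pow_mul, mul_comm (rr d m) d]; ring
      have h4 : (resultant F G d d) ^ rr d (m + 1) =
          (resultant F G d d) ^ (d * rr d m) * (resultant F G d d) ^ (d ^ m).choose 2 := by
        rw [rr, pow_add]
      rw [h4]
      rcases h2 with h2 | h2 <;> rcases h3 with h3 | h3 <;> rcases hE with hE | hE <;>
        rw [h2, h1, h3, hE]
      · left; ring
      · right; ring
      · right; ring
      · left; ring
      · right; ring
      · left; ring
      · left; ring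
      · right; ring
    · intro a z
      rw [bas_succ, hBz, lift]
      simp only
      rw [← Equiv.sum_comp (colEquiv d m).symm]
      simp only [Matrix.submatrix_apply, rowEquiv_apply, Equiv.apply_symm_apply,
        colEquiv_symm_val, Matrix.mul_apply, Finset.sum_mul]
      rw [Finset.sum_comm, Fintype.sum_prod_type, Finset.mul_sum]
      refine Finset.sum_congr rfl fun b _ => ?_
      have h5 : ∀ a' : Fin d, ∀ c : Fin (d ^ m) × Fin d,
          (B ⊗ₖ (1 : Matrix (Fin d) (Fin d) L)) (finFunctionFinEquiv (fun i => a i.succ), a 0)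
            (b, a') * E (b, a') c *
            (z.1 ^ ((c.2 : ℕ) + d * c.1) * z.2 ^ (d ^ (m + 1) - 1 - ((c.2 : ℕ) + d * c.1))) =
          if a 0 = a' then B (finFunctionFinEquiv (fun i => a i.succ)) b * (E (b, a') c *
            (z.1 ^ ((c.2 : ℕ) + d * c.1) * z.2 ^ (d ^ m * d - 1 - ((c.2 : ℕ) + d * c.1)))) else 0 := by
        intro a' c
        rw [Matrix.kroneckerMap_apply, pow_succ d m]
        by_cases h : a 0 = a'
        · subst h; simp; ring
        · simp [h, Matrix.one_apply_ne]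
      simp only [h5]
      rw [Finset.sum_eq_single (a 0)]
      · simp only [if_true]
        rw [← Finset.mul_sum, hEz b (a 0) z]
        ring
      · intro a' _ h
        simp [Ne.symm h]
      · intro h
        exact absurd (Finset.mem_univ _) h

theorem det_mat {L : Type*} [Field L] (d m : ℕ) (hd : 1 ≤ d) (F G : L[X])
    (hF : F.natDegree ≤ d) (hG : G.natDegree ≤ d) :
    ∃ ε : L, (ε = 1 ∨ ε = -1) ∧ ∀ z : Fin (d ^ m) → L × L,
      (mat d m F G z).det = ε * (resultant F G d d) ^ rr d m *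
        ∏ i, ∏ j ∈ Finset.Ioi i, wedge (z i) (z j) := by
  obtain ⟨B, hB, hBz⟩ := exists_B d m hd F G hF hG
  have hs : (∏ i : Fin (d ^ m), ∏ _j ∈ Finset.Ioi i, (-1 : L)) = 1 ∨
      (∏ i : Fin (d ^ m), ∏ _j ∈ Finset.Ioi i, (-1 : L)) = -1 := by
    have h : ∀ i : Fin (d ^ m), (∏ _j ∈ Finset.Ioi i, (-1 : L)) = 1 ∨
        (∏ _j ∈ Finset.Ioi i, (-1 : L)) = -1 := by
      intro i
      rw [Finset.prod_const]
      exact neg_one_pow_eq_or L _
    refine Finset.prod_induction _ (fun x : L => x = 1 ∨ x = -1) ?_ (Or.inl rfl) fun i _ => h i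
    rintro a b (rfl | rfl) (rfl | rfl) <;> simp
  have hm : ∀ z : Fin (d ^ m) → L × L,
      (mat d m F G z).det = (∏ i : Fin (d ^ m), ∏ _j ∈ Finset.Ioi i, (-1 : L)) * B.det *
        ∏ i, ∏ j ∈ Finset.Ioi i, wedge (z i) (z j) := by
    intro z
    have h1 : mat d m F G z =
        Matrix.projVandermonde (fun i => (z i).1) (fun i => (z i).2) * Bᵀ := by
      ext i j
      rw [mat, Matrix.of_apply, hBz, Matrix.mul_apply]
      refine Finset.sum_congr rfl fun c _ => ?_
      rw [Matrix.projVandermonde_apply, Matrix.transpose_apply, Equiv.apply_symm_apply,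
        Fin.val_rev]
      have h2 : d ^ m - ((c : ℕ) + 1) = d ^ m - 1 - (c : ℕ) := by omega
      rw [h2]
      ring
    rw [h1, Matrix.det_mul, Matrix.det_transpose, Matrix.det_projVandermonde]
    have h3 : (∏ i : Fin (d ^ m), ∏ j ∈ Finset.Ioi i, ((z j).1 * (z i).2 - (z i).1 * (z j).2)) =
        (∏ i : Fin (d ^ m), ∏ _j ∈ Finset.Ioi i, (-1 : L)) *
          ∏ i, ∏ j ∈ Finset.Ioi i, wedge (z i) (z j) := by
      rw [← Finset.prod_mul_distrib]
      refine Finset.prod_congr rfl fun i _ => ?_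
      rw [← Finset.prod_mul_distrib]
      refine Finset.prod_congr rfl fun j _ => ?_
      rw [wedge]
      ring
    rw [h3]
    ring
  rcases hs with hs | hs <;> rcases hB with hB | hB
  · exact ⟨1, Or.inl rfl, fun z => by rw [hm, hs, hB]⟩
  · exact ⟨-1, Or.inr rfl, fun z => by rw [hm, hs, hB]; ring⟩
  · exact ⟨-1, Or.inr rfl, fun z => by rw [hm, hs, hB]⟩
  · exact ⟨1, Or.inl rfl, fun z => by rw [hm, hs, hB]; ring⟩

end Pool.Agent.RDF
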