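import Mathlib

set_option autoImplicit false

/-!
# Averaging an inequality over all subsets of given size
-/

namespace Pool.Agent.RDF

namespace Avg

open Finset

/-- the subsets of `Fin T` with `s` elements -/
def P (T s : ℕ) : Finset (Finset (Fin T)) := powersetCard s univ

theorem mem_P {T s : ℕ} {S : Finset (Fin T)} : S ∈ P T s ↔ S.card = s := by
  rw [P, mem_powersetCard]
  exact ⟨fun h => h.2, fun h => ⟨subset_univ _, h⟩⟩

theorem card_P_pos {T s : ℕ} (hs : s ≤ T) : 0 < (P T s).card := by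
  rw [P, card_powersetCard, card_univ, Fintype.card_fin]
  exact Nat.choose_pos hs

/-- a permutation with given values at two points -/
theorem exists_perm {T : ℕ} {i j i' j' : Fin T} (h : i ≠ j) (h' : i' ≠ j') :
    ∃ σ : Equiv.Perm (Fin T), σ i = i' ∧ σ j = j' := by
  refine ⟨Equiv.swap (Equiv.swap i i' j) j' * Equiv.swap i i', ?_, ?_⟩
  · rw [Equiv.Perm.mul_apply, Equiv.swap_apply_left]
    refine Equiv.swap_apply_of_ne_of_ne ?_ h'
    intro h1
    apply h
    have h2 : Equiv.swap i i' i = Equiv.swap i i' j := by rw [Equiv.swap_apply_left]; exact h1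
    exact (Equiv.swap i i').injective h2
  · rw [Equiv.Perm.mul_apply, Equiv.swap_apply_left]

/-- the number of sets containing two elements -/
def c2 (T s : ℕ) (i j : Fin T) : ℕ := ((P T s).filter fun S => i ∈ S ∧ j ∈ S).card

theorem c2_le {T s : ℕ} {i j i' j' : Fin T} (σ : Equiv.Perm (Fin T)) (h1 : σ i = i')
    (h2 : σ j = j') : c2 T s i j ≤ c2 T s i' j' := by
  refine card_le_card_of_injOn (fun S => S.map σ.toEmbedding) ?_ ?_
  · intro S hS
    have hS' : S ∈ (P T s).filter fun S => i ∈ S ∧ j ∈ S := hS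
    rw [mem_filter, mem_P] at hS'
    have h3 : S.map σ.toEmbedding ∈ (P T s).filter fun S => i' ∈ S ∧ j' ∈ S := by
      rw [mem_filter, mem_P, card_map]
      refine ⟨hS'.1, ?_, ?_⟩
      · rw [← h1]
        exact mem_map_of_mem σ.toEmbedding hS'.2.1
      · rw [← h2]
        exact mem_map_of_mem σ.toEmbedding hS'.2.2
    exact h3
  · intro S _ S' _ h
    exact map_injective σ.toEmbedding h

theorem c2_eq {T s : ℕ} {i j i' j' : Fin T} (h : i ≠ j) (h' : i' ≠ j') :
    c2 T s i j = c2 T s i' j' := by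
  obtain ⟨σ, h1, h2⟩ := exists_perm h h'
  obtain ⟨τ, h3, h4⟩ := exists_perm h' h
  exact le_antisymm (c2_le σ h1 h2) (c2_le τ h3 h4)

theorem c1_eq {T s : ℕ} (i i' : Fin T) : c2 T s i i = c2 T s i' i' :=
  le_antisymm (c2_le (Equiv.swap i i') (Equiv.swap_apply_left _ _) (Equiv.swap_apply_left _ _))
    (c2_le (Equiv.swap i i') (Equiv.swap_apply_right _ _) (Equiv.swap_apply_right _ _))

/-- the sum over all sets of a sum over the elements -/
theorem sum_one (T s : ℕ) (u : Fin T → ℝ) :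
    ∑ S ∈ P T s, ∑ i ∈ S, u i = ∑ i, (c2 T s i i : ℝ) * u i := by
  have h1 : ∀ S ∈ P T s, ∑ i ∈ S, u i = ∑ i, if i ∈ S ∧ i ∈ S then u i else 0 := by
    intro S _
    rw [← sum_filter]
    refine sum_congr ?_ fun _ _ => rfl
    ext i
    simp
  rw [sum_congr rfl h1, sum_comm]
  refine sum_congr rfl fun i _ => ?_
  rw [← sum_filter, sum_const, nsmul_eq_mul, c2]

/-- the sum over all sets of a sum over the pairs of different elements -/
theorem sum_two (T s : ℕ) (w : Fin T → Fin T → ℝ) :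
    ∑ S ∈ P T s, ∑ i ∈ S, ∑ j ∈ S.erase i, w i j =
      ∑ i, ∑ j ∈ univ.erase i, (c2 T s i j : ℝ) * w i j := by
  have h1 : ∀ S ∈ P T s, ∑ i ∈ S, ∑ j ∈ S.erase i, w i j =
      ∑ i, ∑ j ∈ univ.erase i, if i ∈ S ∧ j ∈ S then w i j else 0 := by
    intro S _
    rw [← sum_subset (subset_univ S)]
    · refine sum_congr rfl fun i hi => ?_
      rw [← sum_filter]
      refine sum_congr ?_ fun _ _ => rfl
      ext j
      simp only [mem_erase, mem_filter, mem_univ, and_true]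
      tauto
    · intro i _ hi
      exact sum_eq_zero fun j _ => if_neg fun h => hi h.1
  rw [sum_congr rfl h1, sum_comm]
  refine sum_congr rfl fun i _ => ?_
  rw [sum_comm]
  refine sum_congr rfl fun j _ => ?_
  rw [← sum_filter, sum_const, nsmul_eq_mul, c2]

theorem sum_one_eq (T s : ℕ) (u : Fin T → ℝ) :
    (T : ℝ) * ∑ S ∈ P T s, ∑ i ∈ S, u i = (s : ℝ) * (P T s).card * ∑ i, u i := by
  have h1 : ∀ i : Fin T, (T : ℝ) * (c2 T s i i : ℝ) = s * (P T s).card := by
    intro i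
    have h2 := sum_one T s fun _ => (1 : ℝ)
    have h3 : ∑ S ∈ P T s, ∑ _i ∈ S, (1 : ℝ) = s * (P T s).card := by
      rw [sum_congr rfl fun S hS => show ∑ _i ∈ S, (1 : ℝ) = (s : ℝ) by
        rw [sum_const, nsmul_eq_mul, mul_one, mem_P.1 hS], sum_const, nsmul_eq_mul, mul_comm]
    rw [h3] at h2
    rw [h2, sum_congr rfl fun j _ => show (c2 T s j j : ℝ) * 1 = c2 T s i i by
      rw [c1_eq j i, mul_one], sum_const, nsmul_eq_mul, card_univ, Fintype.card_fin]
  rw [sum_one, mul_sum, mul_sum]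
  refine sum_congr rfl fun i _ => ?_
  rw [← mul_assoc, h1]

theorem sum_two_eq (T s : ℕ) (w : Fin T → Fin T → ℝ) :
    (T : ℝ) * (T - 1) * ∑ S ∈ P T s, ∑ i ∈ S, ∑ j ∈ S.erase i, w i j =
      (s : ℝ) * (s - 1) * (P T s).card * ∑ i, ∑ j ∈ univ.erase i, w i j := by
  have h1 : ∀ i j : Fin T, i ≠ j →
      (T : ℝ) * (T - 1) * (c2 T s i j : ℝ) = s * (s - 1) * (P T s).card := by
    intro i j hij
    have h2 := sum_two T s fun _ _ => (1 : ℝ)
    have h3 : ∑ S ∈ P T s, ∑ i ∈ S, ∑ _j ∈ S.erase i, (1 : ℝ) = s * (s - 1) * (P T s).card := by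
      have h4 : ∀ S ∈ P T s, ∑ i ∈ S, ∑ _j ∈ S.erase i, (1 : ℝ) = (s : ℝ) * (s - 1) := by
        intro S hS
        have h5 : ∀ i ∈ S, ∑ _j ∈ S.erase i, (1 : ℝ) = (s : ℝ) - 1 := by
          intro i hi
          rw [sum_const, nsmul_eq_mul, mul_one, card_erase_of_mem hi, mem_P.1 hS,
            Nat.cast_sub, Nat.cast_one]
          rw [← mem_P.1 hS]
          exact card_pos.2 ⟨i, hi⟩
        rw [sum_congr rfl h5, sum_const, nsmul_eq_mul, mem_P.1 hS]
      rw [sum_congr rfl h4, sum_const, nsmul_eq_mul]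
      ring
    rw [h3] at h2
    have hT : 1 ≤ T := Nat.one_le_iff_ne_zero.2 fun h => by
      subst h
      exact i.elim0
    have h6 : ∑ i : Fin T, ∑ j ∈ univ.erase i, (c2 T s i j : ℝ) * 1 =
        (T : ℝ) * (T - 1) * c2 T s i j := by
      have h7 : ∀ i' : Fin T, ∑ j' ∈ univ.erase i', (c2 T s i' j' : ℝ) * 1 =
          (T - 1) * c2 T s i j := by
        intro i'
        rw [sum_congr rfl fun j' hj' => show (c2 T s i' j' : ℝ) * 1 = c2 T s i j by
          rw [c2_eq (Ne.symm (ne_of_mem_erase hj')) hij, mul_one], sum_const, nsmul_eq_mul,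
          card_erase_of_mem (mem_univ _), card_univ, Fintype.card_fin, Nat.cast_sub hT,
          Nat.cast_one]
      rw [sum_congr rfl fun i' _ => h7 i', sum_const, nsmul_eq_mul, card_univ, Fintype.card_fin]
      ring
    rw [← h6]
    exact h2.symm
  rw [sum_two, mul_sum, mul_sum]
  refine sum_congr rfl fun i _ => ?_
  rw [mul_sum, mul_sum]
  refine sum_congr rfl fun j hj => ?_
  rw [← mul_assoc, h1 i j (Ne.symm (ne_of_mem_erase hj))]

end Avg

/-- Averaging an inequality between energies over all subsets with `T - M` elements. -/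
theorem avg {T M : ℕ} (hT : 2 ≤ T) (hM : M ≤ T) (u : Fin T → ℝ) (w : Fin T → Fin T → ℝ) (a b : ℝ)
    (h : ∀ S : Finset (Fin T), S.card = T - M →
      a + ∑ i ∈ S, ∑ j ∈ S.erase i, w i j ≤ b + ∑ i ∈ S, u i) :
    (T * (T - 1) : ℝ) * a + ((T - M) * (T - M - 1) : ℝ) * ∑ i, ∑ j ∈ Finset.univ.erase i, w i j ≤
      (T * (T - 1) : ℝ) * b + ((T - M) * (T - 1) : ℝ) * ∑ i, u i := by
  have hn : 0 < ((Avg.P T (T - M)).card : ℝ) := by
    exact_mod_cast Avg.card_P_pos (Nat.sub_le T M)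
  have h1 := Finset.sum_le_sum fun S (hS : S ∈ Avg.P T (T - M)) => h S (Avg.mem_P.1 hS)
  rw [Finset.sum_add_distrib, Finset.sum_add_distrib, Finset.sum_const, Finset.sum_const,
    nsmul_eq_mul, nsmul_eq_mul] at h1
  have h2 := Avg.sum_one_eq T (T - M) u
  have h3 := Avg.sum_two_eq T (T - M) w
  rw [Nat.cast_sub hM] at h2 h3
  have hT' : (2 : ℝ) ≤ T := by exact_mod_cast hT
  have h4 : 0 ≤ (T : ℝ) * (T - 1) := by
    apply mul_nonneg <;> linarith
  have h5 := mul_le_mul_of_nonneg_left h1 h4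
  refine le_of_mul_le_mul_left ?_ hn
  calc ((Avg.P T (T - M)).card : ℝ) * ((T * (T - 1) : ℝ) * a +
        ((T - M) * (T - M - 1) : ℝ) * ∑ i, ∑ j ∈ Finset.univ.erase i, w i j)
      = (T : ℝ) * (T - 1) * (((Avg.P T (T - M)).card : ℝ) * a) +
        ((T : ℝ) - M) * ((T : ℝ) - M - 1) * ((Avg.P T (T - M)).card : ℝ) *
          ∑ i, ∑ j ∈ Finset.univ.erase i, w i j := by ring
    _ = (T : ℝ) * (T - 1) * (((Avg.P T (T - M)).card : ℝ) * a +
          ∑ S ∈ Avg.P T (T - M), ∑ i ∈ S, ∑ j ∈ S.erase i, w i j) := by rw [← h3]; ring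
    _ ≤ (T : ℝ) * (T - 1) * (((Avg.P T (T - M)).card : ℝ) * b +
          ∑ S ∈ Avg.P T (T - M), ∑ i ∈ S, u i) := h5
    _ = (T : ℝ) * (T - 1) * (((Avg.P T (T - M)).card : ℝ) * b) +
          (T - 1) * ((T : ℝ) * ∑ S ∈ Avg.P T (T - M), ∑ i ∈ S, u i) := by ring
    _ = ((Avg.P T (T - M)).card : ℝ) * ((T * (T - 1) : ℝ) * b +
        ((T - M) * (T - 1) : ℝ) * ∑ i, u i) := by rw [h2]; ring

end Pool.Agent.RDF
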