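import Pool.Agent.RDF.Core
import Pool.Agent.RDF.Star
import Pool.Agent.RDF.AuxQ
import Pool.Agent.RDF.LocRi

set_option autoImplicit false

/-!
# The local defect

Case (ii): the quadratic form of `core` at the given points, the preimages of generic points and
the auxiliary points `(y_l, 1)`, whose orbits run into the common zero.
-/

namespace Pool.Agent.RDF

open Polynomial NumberField IsDedekindDomain Pool.Agent.GPoly

/-- Case (ii), for primitive vectors and `j ≤ m`. -/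
theorem loc_ii {K : Type} [Field K] [NumberField K] (d k : ℕ) (hd : 2 ≤ d) (F G : (𝓞 K)[X])
    (hF : F.natDegree ≤ d) (hG : G.natDegree ≤ d) (hR : resultant F G d d ≠ 0)
    (v : HeightOneSpectrum (𝓞 K)) (hv : resultant F G d d ∈ v.asIdeal)
    (hmin : ∃ i j, F.coeff i * G.coeff j - F.coeff j * G.coeff i ∉ v.asIdeal)
    (hRk : resultant F G d d ∉ v.asIdeal ^ (k + 1)) (h : (𝓞 K)[X]) (j : ℕ) (hm : h.Monic)
    (hdeg : 0 < h.natDegree) (hroot : ∀ x, h.eval x ∉ v.asIdeal) (hj : j ≤ k)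
    (h1 : ∃ q : (𝓞 K)[X], ∀ i,
      (((lift d (F.map C) (G.map C))^[j] (X, 1)).1 - q * h).coeff i ∈ v.asIdeal)
    (h2 : ∃ q : (𝓞 K)[X], ∀ i,
      (((lift d (F.map C) (G.map C))^[j] (X, 1)).2 - q * h).coeff i ∈ v.asIdeal)
    (m : ℕ) (hjm : j ≤ m) (z : Fin (d ^ m) → K × K) (hz : ∀ i, nrm (av v) (z i) = 1)
    (hw : ∀ i j, i ≠ j → wedge (z i) (z j) ≠ 0) :
    Real.log (av v (mat d m (F.map (algebraMap (𝓞 K) K)) (G.map (algebraMap (𝓞 K) K)) z).det) ≤
      ∑ i, UU (av v) d m (F.map (algebraMap (𝓞 K) K)) (G.map (algebraMap (𝓞 K) K)) (z i) -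
      (1 / (2 * (k + 1) * (d : ℝ) ^ (2 * k)) * ((d : ℝ) ^ m) ^ 2 - 4 * (m + 1) * (d : ℝ) ^ m) *
        (-Real.log (av v (algebraMap (𝓞 K) K (resultant F G d d)))) := by
  have hd1 : 1 ≤ d := by omega
  have hdR : (1 : ℝ) ≤ d := by exact_mod_cast hd1
  have hd0 : (0 : ℝ) < d := by linarith
  obtain ⟨L, _, _, abv, ι, y, hna, hι, gen, hy1, hyy, hxy, hA⟩ :=
    exists_auxQ v h hm hdeg hroot (d ^ m)
  set f : 𝓞 K →+* L := ι.comp (algebraMap (𝓞 K) K) with hf
  set FK := F.map (algebraMap (𝓞 K) K) with hFK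
  set GK := G.map (algebraMap (𝓞 K) K) with hGK
  have hFf : FK.map ι = F.map f := by rw [hFK, hf, Polynomial.map_map]
  have hGf : GK.map ι = G.map f := by rw [hGK, hf, Polynomial.map_map]
  have hFd : (F.map f).natDegree ≤ d := natDegree_map_le.trans hF
  have hGd : (G.map f).natDegree ≤ d := natDegree_map_le.trans hG
  have hFKd : FK.natDegree ≤ d := natDegree_map_le.trans hF
  have hGKd : GK.natDegree ≤ d := natDegree_map_le.trans hG
  have hRK : resultant FK GK d d = algebraMap (𝓞 K) K (resultant F G d d) := by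
    rw [hFK, hGK, resultant_map_map]
  have hRK0 : resultant FK GK d d ≠ 0 := by
    rw [hRK]
    exact (map_ne_zero_iff _ RingOfIntegers.coe_injective).mpr hR
  have hRL : resultant (F.map f) (G.map f) d d = ι (resultant FK GK d d) := by
    rw [← hFf, ← hGf, resultant_map_map]
  have hRL0 : resultant (F.map f) (G.map f) d d ≠ 0 := by
    rw [hRL]
    exact (map_ne_zero_iff _ ι.injective).mpr hRK0
  have hfv : ∀ a : 𝓞 K, abv (f a) = av v (algebraMap (𝓞 K) K a) := fun a => hι _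
  have hBF : ∀ i, abv ((F.map f).coeff i) ≤ 1 := fun i => by
    rw [coeff_map, hfv]
    exact av_int_le_one v _
  have hBG : ∀ i, abv ((G.map f).coeff i) ≤ 1 := fun i => by
    rw [coeff_map, hfv]
    exact av_int_le_one v _
  have hmin' : ∃ i j, abv ((F.map f).coeff i * (G.map f).coeff j -
      (F.map f).coeff j * (G.map f).coeff i) = 1 := by
    obtain ⟨a, b, hab⟩ := hmin
    refine ⟨a, b, ?_⟩
    rw [coeff_map, coeff_map, coeff_map, coeff_map, ← map_mul, ← map_mul, ← map_sub, hfv]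
    exact (av_int_eq_one v _).mpr hab
  have hnrmι : ∀ p : K × K, nrm abv (Prod.map ι ι p) = nrm (av v) p := fun p => by
    simp only [nrm, Prod.map_fst, Prod.map_snd, hι]
  -- the auxiliary points
  have hyn : ∀ l, nrm abv ((y l, 1) : L × L) = 1 := fun l => by
    simp only [nrm, map_one]
    exact max_eq_right (hy1 l)
  have hj1 : ∀ l, nrm abv ((lift d (F.map f) (G.map f))^[j] (y l, 1)) ≤ Real.exp (-lq v) := by
    intro l
    let e : (𝓞 K)[X] →+* L := Polynomial.eval₂RingHom f (y l)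
    have he : ∀ A : (𝓞 K)[X], (A.map C).map e = A.map f := by
      intro A
      rw [Polynomial.map_map]
      congr 1
      ext a
      simp [e]
    have h3 := iter_map e d j (F.map C) (G.map C) ((X, 1) : (𝓞 K)[X] × (𝓞 K)[X])
    rw [he, he] at h3
    have h4 : Prod.map e e ((X, 1) : (𝓞 K)[X] × (𝓞 K)[X]) = (y l, 1) := by
      simp [e]
    rw [h4] at h3
    rw [← h3]
    exact max_le (hA l _ h1) (hA l _ h2)
  have hlq := lq_pos v
  obtain ⟨n, rfl⟩ := Nat.exists_eq_add_of_le hjm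
  have ha : ∀ l, Real.log (nrm abv ((lift d (F.map f) (G.map f))^[j + n] (y l, 1))) ≤
      -((d : ℝ) ^ n * lq v) := by
    intro l
    have hne : ((y l, 1) : L × L) ≠ 0 := fun h0 => one_ne_zero (congrArg Prod.snd h0)
    have hpos := nrm_pos abv (iter_ne_zero d hd1 _ _ hFd hGd hRL0 (j + n) hne)
    rw [Real.log_le_iff_le_exp hpos, add_comm j n, Function.iterate_add_apply]
    refine (nrm_iter_le abv hna d _ _ hBF hBG _ n).trans ?_
    refine (pow_le_pow_left₀ (nrm_nonneg abv _) (hj1 l) _).trans ?_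
    rw [← Real.exp_nat_mul, Nat.cast_pow]
    apply le_of_eq
    congr 1
    ring
  have hτ : (d : ℝ) ^ n ≤ (d : ℝ) ^ (j + n) := pow_le_pow_right₀ hdR (by omega)
  have hcore := core abv hna gen d (j + n) hd1 (F.map f) (G.map f) hFd hGd hRL0 hBF hBG hmin'
    (fun i => Prod.map ι ι (z i)) (fun l => (y l, 1)) (fun i => by rw [hnrmι, hz]) hyn
    (fun i l hil => by
      rw [← wedge_map]
      exact (map_ne_zero_iff _ ι.injective).mpr (hw i l hil))
    (fun i l => by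
      have h5 := hxy l (z i)
      rw [hz] at h5
      rw [← h5]
      congr 1
      simp only [wedge, Prod.map_fst, Prod.map_snd]
      ring)
    (lq v) ((d : ℝ) ^ n * lq v) ((d : ℝ) ^ n)
    (fun l l' hll => by
      rw [← hyy l l' hll]
      apply le_of_eq
      congr 1
      simp only [wedge]
      ring)
    ha hlq.le (by positivity) hτ
  have hdet := log_det_eq (av v) d (j + n) hd1 FK GK hFKd hGKd hRK0 z hw
  have hee : (d : ℝ) * ee d (j + n) = 2 * d * rr d (j + n) + (j + n) * (d : ℝ) ^ (j + n) := by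
    exact_mod_cast ee_rr d (j + n) hd1
  have hit : ∀ i, nrm abv ((lift d (F.map f) (G.map f))^[j + n] (Prod.map ι ι (z i))) =
      nrm (av v) ((lift d FK GK)^[j + n] (z i)) := by
    intro i
    rw [← hFf, ← hGf, ← iter_map, hnrmι]
  have hUU : ∀ i, Real.log (nrm (av v) ((lift d FK GK)^[j + n] (z i))) ≤
      UU (av v) d (j + n) FK GK (z i) := fun i =>
    log_nrm_iter_le_UU (av v) (av_nonarch v) d (j + n) hd1 FK GK hFKd hGKd hRK0
      (fun i => by rw [hFK, coeff_map]; exact av_int_le_one v _)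
      (fun i => by rw [hGK, coeff_map]; exact av_int_le_one v _) (z i) (hz i)
  have hsum := Finset.sum_le_sum fun i (_ : i ∈ (Finset.univ : Finset (Fin (d ^ (j + n))))) =>
    hUU i
  simp only [hit, ← wedge_map, hι, hRL, Finset.sum_neg_distrib] at hcore
  rw [hRK] at hcore hdet
  obtain ⟨ρ, hρ⟩ : ∃ ρ, ρ = -Real.log (av v (algebraMap (𝓞 K) K (resultant F G d d))) := ⟨_, rfl⟩
  have hlog : Real.log (av v (algebraMap (𝓞 K) K (resultant F G d d))) = -ρ := by rw [hρ]; ring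
  rw [hlog] at hcore hdet
  rw [← hρ]
  have hRpos : 0 < av v (algebraMap (𝓞 K) K (resultant F G d d)) :=
    (av v).pos ((map_ne_zero_iff _ RingOfIntegers.coe_injective).mpr hR)
  have hρ0 : 0 < ρ := by
    have := Real.log_neg hRpos ((av_int_lt_one v _).mpr hv)
    linarith
  have hρk : ρ ≤ (k + 1) * lq v := by
    have h6 : ¬ av v (algebraMap (𝓞 K) K (resultant F G d d)) ≤
        Real.exp (-(((k + 1 : ℕ) : ℝ) * lq v)) := fun h6 => hRk ((av_int_le_pow v _ _).mpr h6)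
    have h7 := (Real.lt_log_iff_exp_lt hRpos).mpr (not_le.mp h6)
    rw [hlog] at h7
    push_cast at h7
    linarith
  -- `τ² ≥ T² / d^(2k)`
  have hdk : (0 : ℝ) < (d : ℝ) ^ (2 * k) := by positivity
  have hτ2 : ((d : ℝ) ^ (j + n)) ^ 2 ≤ (d : ℝ) ^ (2 * k) * ((d : ℝ) ^ n) ^ 2 := by
    rw [← pow_mul, ← pow_mul, ← pow_add]
    exact pow_le_pow_right₀ hdR (by omega)
  have hmain : 1 / (2 * (k + 1) * (d : ℝ) ^ (2 * k)) * ((d : ℝ) ^ (j + n)) ^ 2 * ρ ≤
      ((d : ℝ) ^ n) ^ 2 * lq v / 2 := by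
    rw [div_mul_eq_mul_div, one_mul, div_mul_eq_mul_div, div_le_div_iff₀ (by positivity)
      (by norm_num)]
    have h8 : ((d : ℝ) ^ (j + n)) ^ 2 * ρ ≤
        ((d : ℝ) ^ (2 * k) * ((d : ℝ) ^ n) ^ 2) * ((k + 1) * lq v) :=
      mul_le_mul hτ2 hρk hρ0.le (by positivity)
    nlinarith [h8]
  have hT : (0 : ℝ) < (d : ℝ) ^ (j + n) := by positivity
  have hee2 : (ee d (j + n) : ℝ) * ρ ≤ 2 * rr d (j + n) * ρ + (j + n) * (d : ℝ) ^ (j + n) * ρ := by
    have h9 : (ee d (j + n) : ℝ) ≤ 2 * rr d (j + n) + (j + n) * (d : ℝ) ^ (j + n) := by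
      have h10 : (0 : ℝ) ≤ (j + n) * (d : ℝ) ^ (j + n) := by positivity
      have h11 : (d : ℝ) * ee d (j + n) ≤
          d * (2 * rr d (j + n) + (j + n) * (d : ℝ) ^ (j + n)) := by
        rw [hee]
        nlinarith
      exact le_of_mul_le_mul_left h11 hd0
    nlinarith
  have hTρ : 0 ≤ (d : ℝ) ^ (j + n) * ρ := by positivity
  have hjn : (0 : ℝ) ≤ (j : ℝ) + n := by positivity
  push_cast at hcore ⊢
  nlinarith [mul_nonneg hjn hTρ]

/-- The local defect at a `k`-defective prime. -/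
theorem local_defect (d k : ℕ) (hd : 2 ≤ d) : ∃ κ C : ℝ, 0 < κ ∧ 0 ≤ C ∧
    ∀ (K : Type) [Field K] [NumberField K] (F G : (𝓞 K)[X]), F.natDegree ≤ d → G.natDegree ≤ d →
      resultant F G d d ≠ 0 → ∀ v : HeightOneSpectrum (𝓞 K), resultant F G d d ∈ v.asIdeal →
      Defective d k F G v → ∀ (m : ℕ) (z : Fin (d ^ m) → K × K), (∀ i, z i ≠ 0) →
      (∀ i j, i ≠ j → wedge (z i) (z j) ≠ 0) →
      Real.log (av v (mat d m (F.map (algebraMap (𝓞 K) K)) (G.map (algebraMap (𝓞 K) K)) z).det) ≤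
        ∑ i, UU (av v) d m (F.map (algebraMap (𝓞 K) K)) (G.map (algebraMap (𝓞 K) K)) (z i) -
        (κ * ((d : ℝ) ^ m) ^ 2 - C * (m + 1) * (d : ℝ) ^ m) *
          (-Real.log (av v (algebraMap (𝓞 K) K (resultant F G d d)))) := by
  obtain ⟨κ₁, C₁, hκ₁, hC₁, hi⟩ := local_defect_i d hd
  have hd1 : 1 ≤ d := by omega
  have hdR : (1 : ℝ) ≤ d := by exact_mod_cast hd1
  obtain ⟨κ₂, hκ₂⟩ : ∃ κ₂ : ℝ, κ₂ = 1 / (2 * (k + 1) * (d : ℝ) ^ (2 * k)) := ⟨_, rfl⟩
  have hκ₂0 : 0 < κ₂ := by rw [hκ₂]; positivity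
  refine ⟨min κ₁ κ₂, max C₁ 4, lt_min hκ₁ hκ₂0, le_max_of_le_left hC₁, ?_⟩
  intro K _ _ F G hF hG hR v hv hdef m z hz hw
  obtain ⟨ρ, hρ⟩ : ∃ ρ, ρ = -Real.log (av v (algebraMap (𝓞 K) K (resultant F G d d))) := ⟨_, rfl⟩
  have hRpos : 0 < av v (algebraMap (𝓞 K) K (resultant F G d d)) :=
    (av v).pos ((map_ne_zero_iff _ RingOfIntegers.coe_injective).mpr hR)
  have hρ0 : 0 < ρ := by
    have := Real.log_neg hRpos ((av_int_lt_one v _).mpr hv)
    linarith
  have hT : (0 : ℝ) < (d : ℝ) ^ m := by positivity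
  -- monotonicity in the constants
  have hmono : ∀ κ C : ℝ, min κ₁ κ₂ ≤ κ → C ≤ max C₁ 4 →
      (min κ₁ κ₂ * ((d : ℝ) ^ m) ^ 2 - max C₁ 4 * (m + 1) * (d : ℝ) ^ m) * ρ ≤
        (κ * ((d : ℝ) ^ m) ^ 2 - C * (m + 1) * (d : ℝ) ^ m) * ρ := by
    intro κ C h1 h2
    refine mul_le_mul_of_nonneg_right ?_ hρ0.le
    have h3 := mul_le_mul_of_nonneg_right h1 (sq_nonneg ((d : ℝ) ^ m))
    have h4 := mul_le_mul_of_nonneg_right h2 (by positivity : (0 : ℝ) ≤ (m + 1) * (d : ℝ) ^ m)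
    linarith
  rw [← hρ]
  rcases hdef with hdef | ⟨hmin, hRk, h, j, hmon, hdeg, hroot, hj, h1, h2⟩
  · have h3 := hi K F G hF hG hR v hdef m z hz hw
    rw [← hρ] at h3
    have h4 := hmono κ₁ C₁ (min_le_left _ _) (le_max_left _ _)
    linarith
  · have hFKd : (F.map (algebraMap (𝓞 K) K)).natDegree ≤ d := natDegree_map_le.trans hF
    have hGKd : (G.map (algebraMap (𝓞 K) K)).natDegree ≤ d := natDegree_map_le.trans hG
    have hRK0 : resultant (F.map (algebraMap (𝓞 K) K)) (G.map (algebraMap (𝓞 K) K)) d d ≠ 0 := by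
      rw [resultant_map_map]
      exact (map_ne_zero_iff _ RingOfIntegers.coe_injective).mpr hR
    refine of_prim (av v) d m hd1 _ _ hFKd hGKd hRK0 _ ?_ z hz hw
    intro z hz hw
    rcases le_or_gt j m with hjm | hjm
    · have h3 := loc_ii d k hd F G hF hG hR v hv hmin hRk h j hmon hdeg hroot hj h1 h2 m hjm z hz hw
      rw [← hρ, ← hκ₂] at h3
      have h4 := hmono κ₂ 4 (min_le_right _ _) (le_max_right _ _)
      linarith
    · -- few points: nothing is claimed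
      have hz0 : ∀ i, z i ≠ 0 := fun i h0 => by
        have h5 := hz i
        rw [h0] at h5
        simp [nrm] at h5
      have hdet0 : (mat d m (F.map (algebraMap (𝓞 K) K)) (G.map (algebraMap (𝓞 K) K)) z).det ≠
          0 := by
        obtain ⟨ε, hε, hdm⟩ := det_mat d m hd1 _ _ hFKd hGKd
        rw [hdm]
        refine mul_ne_zero (mul_ne_zero ?_ (pow_ne_zero _ hRK0)) ?_
        · rcases hε with rfl | rfl
          · exact one_ne_zero
          · exact neg_ne_zero.mpr one_ne_zero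
        · exact Finset.prod_ne_zero_iff.mpr fun i _ => Finset.prod_ne_zero_iff.mpr fun l hl =>
            hw i l (Finset.mem_Ioi.mp hl).ne
      have h3 := log_det_le (av v) (av_nonarch v) d m hd1 _ _ z
        (fun i l => iter_ne_zero d hd1 _ _ hFKd hGKd hRK0 l (hz0 i)) hdet0
      have h4 : min κ₁ κ₂ * ((d : ℝ) ^ m) ^ 2 ≤ max C₁ 4 * (m + 1) * (d : ℝ) ^ m := by
        have h5 : min κ₁ κ₂ * (d : ℝ) ^ m ≤ 1 := by
          have h6 : κ₂ * (d : ℝ) ^ m ≤ 1 := by
            rw [hκ₂, div_mul_eq_mul_div, one_mul, div_le_one (by positivity)]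
            have h7 : (d : ℝ) ^ m ≤ (d : ℝ) ^ (2 * k) := pow_le_pow_right₀ hdR (by omega)
            have h8 : (1 : ℝ) ≤ 2 * (k + 1) := by
              have : (0 : ℝ) ≤ k := Nat.cast_nonneg k
              linarith
            nlinarith [pow_pos (lt_of_lt_of_le one_pos hdR) (2 * k)]
          exact (mul_le_mul_of_nonneg_right (min_le_right _ _) hT.le).trans h6
        have h9 : (1 : ℝ) ≤ max C₁ 4 * (m + 1) := by
          have h10 : (4 : ℝ) ≤ max C₁ 4 := le_max_right _ _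
          have h11 : (0 : ℝ) ≤ m := Nat.cast_nonneg m
          nlinarith
        calc min κ₁ κ₂ * ((d : ℝ) ^ m) ^ 2 = (min κ₁ κ₂ * (d : ℝ) ^ m) * (d : ℝ) ^ m := by ring
          _ ≤ 1 * (d : ℝ) ^ m := mul_le_mul_of_nonneg_right h5 hT.le
          _ ≤ (max C₁ 4 * (m + 1)) * (d : ℝ) ^ m := mul_le_mul_of_nonneg_right h9 hT.le
      have h5 : (min κ₁ κ₂ * ((d : ℝ) ^ m) ^ 2 - max C₁ 4 * (m + 1) * (d : ℝ) ^ m) * ρ ≤ 0 :=
        mul_nonpos_of_nonpos_of_nonneg (by linarith) hρ0.le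
      linarith

end Pool.Agent.RDF
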