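import Pool.Agent.RDF.Link

set_option autoImplicit false

/-!
# The height of an integral vector in an extension
-/

namespace Pool.Agent.RDF

open Polynomial NumberField IsDedekindDomain Pool.Agent.GPoly

variable {K L : Type} [Field K] [NumberField K] [Field L] [NumberField L] [Algebra K L]

/-- A complex embedding of `K` has `[L : K]` extensions to `L`. -/
theorem card_ext (σ : K →+* ℂ) [DecidablePred fun τ : L →+* ℂ => τ.comp (algebraMap K L) = σ] :
    (Finset.univ.filter fun τ : L →+* ℂ => τ.comp (algebraMap K L) = σ).card =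
      Module.finrank K L := by
  let : Algebra K ℂ := σ.toAlgebra
  have h1 := AlgHom.card K L ℂ
  rw [← h1, ← Fintype.card_subtype]
  refine Fintype.card_congr ⟨fun τ => ⟨τ.1, fun a => RingHom.congr_fun τ.2 a⟩,
    fun τ => ⟨(τ : L →+* ℂ), ?_⟩, fun τ => ?_, fun τ => ?_⟩
  · ext a
    exact τ.commutes a
  · ext a
    rfl
  · ext a
    rfl

theorem prod_ext (g : (K →+* ℂ) → ℝ) :
    ∏ τ : L →+* ℂ, g (τ.comp (algebraMap K L)) = (∏ σ : K →+* ℂ, g σ) ^ Module.finrank K L := by
  classical
  rw [← Finset.prod_fiberwise Finset.univ (fun τ : L →+* ℂ => τ.comp (algebraMap K L)),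
    ← Finset.prod_pow]
  refine Finset.prod_congr rfl fun σ _ => ?_
  rw [Finset.prod_congr rfl (g := fun _ => g σ) fun τ hτ => by rw [(Finset.mem_filter.1 hτ).2],
    Finset.prod_const, card_ext (L := L) σ]

/-- The height of an integral vector in an extension. -/
theorem logHeight_ext {ι : Type*} [Fintype ι] [Nonempty ι] (x : ι → 𝓞 K) (hx : x ≠ 0) :
    Height.logHeight (fun i => algebraMap (𝓞 K) L (x i)) ≤
      Module.finrank K L * Height.logHeight (fun i => algebraMap (𝓞 K) K (x i)) := by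
  have hinjK : Function.Injective (algebraMap (𝓞 K) K) := RingOfIntegers.coe_injective
  have hinj : Function.Injective (algebraMap (𝓞 K) (𝓞 L)) :=
    FaithfulSMul.algebraMap_injective (𝓞 K) (𝓞 L)
  set y : ι → 𝓞 L := fun i => algebraMap (𝓞 K) (𝓞 L) (x i) with hy
  have hyx : ∀ i, algebraMap (𝓞 L) L (y i) = algebraMap (𝓞 K) L (x i) := fun i => by
    rw [hy]
    exact (IsScalarTower.algebraMap_apply (𝓞 K) (𝓞 L) L (x i)).symm
  have hxy : ∀ i, algebraMap K L (algebraMap (𝓞 K) K (x i)) = algebraMap (𝓞 K) L (x i) := fun i =>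
    (IsScalarTower.algebraMap_apply (𝓞 K) K L (x i)).symm
  have hy0 : y ≠ 0 := by
    obtain ⟨i, hi⟩ := Function.ne_iff.mp hx
    refine Function.ne_iff.mpr ⟨i, ?_⟩
    exact (map_ne_zero_iff _ hinj).mpr hi
  have hxK : (fun i => algebraMap (𝓞 K) K (x i)) ≠ 0 := by
    obtain ⟨i, hi⟩ := Function.ne_iff.mp hx
    exact Function.ne_iff.mpr ⟨i, (map_ne_zero_iff _ hinjK).mpr hi⟩
  have hyL : (fun i => algebraMap (𝓞 L) L (y i)) ≠ 0 := by
    obtain ⟨i, hi⟩ := Function.ne_iff.mp hy0
    exact Function.ne_iff.mpr ⟨i, (map_ne_zero_iff _ RingOfIntegers.coe_injective).mpr hi⟩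
  have h1 : Height.mulHeight (fun i => algebraMap (𝓞 L) L (y i)) =
      Height.mulHeight (fun i => algebraMap (𝓞 K) K (x i)) ^ Module.finrank K L := by
    have hfK := NumberField.absNorm_mul_finprod_finitePlace_eq_one hx
    have hfL := NumberField.absNorm_mul_finprod_finitePlace_eq_one hy0
    have hspan : Ideal.span (Set.range y) =
        (Ideal.span (Set.range x)).map (algebraMap (𝓞 K) (𝓞 L)) := by
      rw [Ideal.map_span, ← Set.range_comp]
      rfl
    have hfin : Module.finrank (𝓞 K) (𝓞 L) = Module.finrank K L :=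
      (IsFractionRing.finrank_eq (𝓞 K) K (𝓞 L) L).symm
    rw [hspan, Ideal.absNorm_algebraMap, hfin] at hfL
    rw [NumberField.mulHeight_eq hyL, NumberField.mulHeight_eq hxK, mul_pow,
      ← link_emb (fun w => ⨆ i, w (algebraMap (𝓞 L) L (y i))),
      ← link_emb (fun w => ⨆ i, w (algebraMap (𝓞 K) K (x i)))]
    congr 1
    · rw [← prod_ext (L := L)]
      refine Finset.prod_congr rfl fun τ _ => ?_
      simp only [hyx, ← hxy]
      rfl
    · have hn : ((Ideal.absNorm (Ideal.span (Set.range x)) : ℕ) : ℝ) ≠ 0 := by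
        intro h0
        rw [h0, zero_mul] at hfK
        exact zero_ne_one hfK
      have h2 : ((Ideal.absNorm (Ideal.span (Set.range x)) : ℕ) : ℝ) ^ Module.finrank K L *
          (∏ᶠ v : FinitePlace L, ⨆ i, v (algebraMap (𝓞 L) L (y i))) = 1 := by
        have := hfL
        push_cast at this
        exact this
      have h3 : ((Ideal.absNorm (Ideal.span (Set.range x)) : ℕ) : ℝ) ^ Module.finrank K L *
          (∏ᶠ v : FinitePlace K, ⨆ i, v (algebraMap (𝓞 K) K (x i))) ^ Module.finrank K L = 1 := by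
        rw [← mul_pow]
        have : ((Ideal.absNorm (Ideal.span (Set.range x)) : ℕ) : ℝ) *
          (∏ᶠ v : FinitePlace K, ⨆ i, v (algebraMap (𝓞 K) K (x i))) = 1 := hfK
        rw [this, one_pow]
      exact mul_left_cancel₀ (pow_ne_zero _ hn) (h2.trans h3.symm)
  have h2 : (fun i => algebraMap (𝓞 K) L (x i)) = fun i => algebraMap (𝓞 L) L (y i) :=
    funext fun i => (hyx i).symm
  rw [h2, Height.logHeight_eq_log_mulHeight, h1, Real.log_pow, Height.logHeight_eq_log_mulHeight]

end Pool.Agent.RDF
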