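import Pool.Agent.RDF.Basic

set_option autoImplicit false

/-!
# The iterates of a homogeneous lift vanish identically only if the second one does
-/

namespace Pool.Agent.RDF

open Polynomial

theorem nz_form_eval {L : Type*} [Field L] (d : ℕ) (f : L[X]) (hf : f.natDegree ≤ d) (q : L × L)
    (hq : q.2 ≠ 0) : form d f q = q.2 ^ d * f.eval (q.1 / q.2) := by
  rw [eval_eq_sum_range' (Nat.lt_succ_of_le hf), form, Finset.mul_sum]
  refine Finset.sum_congr rfl fun i hi => ?_
  have h : i + (d - i) = d := Nat.add_sub_cancel' (by simpa [Nat.lt_succ_iff] using hi)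
  have e : q.2 ^ d = q.2 ^ i * q.2 ^ (d - i) := by rw [← pow_add, h]
  rw [e, div_pow]
  field_simp

theorem nz_form_sub {R : Type*} [CommRing R] (d : ℕ) (f g : R[X]) (q : R × R) :
    form d (f - g) q = form d f q - form d g q := by
  simp only [form, ← Finset.sum_sub_distrib, coeff_sub]
  exact Finset.sum_congr rfl fun i _ => by ring

theorem nz_form_C_mul {R : Type*} [CommRing R] (d : ℕ) (a : R) (f : R[X]) (q : R × R) :
    form d (C a * f) q = a * form d f q := by
  simp only [form, Finset.mul_sum, coeff_C_mul]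
  exact Finset.sum_congr rfl fun i _ => by ring

/-- The direction of `q` is not defined over `k`. -/
def NonConst {k L : Type*} [Field k] [Field L] (ι : k →+* L) (q : L × L) : Prop :=
  ∀ c : k × k, c ≠ 0 → wedge q (ι c.1, ι c.2) ≠ 0

theorem NonConst.ne_zero {k L : Type*} [Field k] [Field L] {ι : k →+* L} {q : L × L}
    (h : NonConst ι q) : q ≠ 0 := by
  rintro rfl
  refine h (1, 0) (by simp) ?_
  simp [wedge]

theorem NonConst.form_ne_zero {k L : Type*} [Field k] [IsAlgClosed k] [Field L] {ι : k →+* L}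
    {q : L × L} (h : NonConst ι q) (d : ℕ) (f : k[X]) (hf : f.natDegree ≤ d) (h0 : f ≠ 0) :
    form d (f.map ι) q ≠ 0 := by
  have hq : q.2 ≠ 0 := by
    intro hq
    refine h (1, 0) (by simp) ?_
    simp [wedge, hq]
  rw [nz_form_eval d _ (natDegree_map_le.trans hf) q hq]
  intro he
  have hr : (f.map ι).IsRoot (q.1 / q.2) := by
    rcases mul_eq_zero.mp he with h1 | h1
    · exact absurd h1 (pow_ne_zero _ hq)
    · exact h1
  obtain ⟨a, ha⟩ := (IsAlgClosed.splits f).mem_range_of_isRoot h0 hr
  refine h (a, 1) (by simp) ?_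
  have h2 : q.1 = ι a * q.2 := by
    rw [ha, div_mul_cancel₀ _ hq]
  simp [wedge, h2]

theorem nz_alg {k L : Type*} [Field k] [IsAlgClosed k] [Field L] (ι : k →+* L) (d : ℕ)
    (hd : 1 ≤ d) (F G : k[X]) (hF : F.natDegree ≤ d) (hG : G.natDegree ≤ d) (q : L × L)
    (hq : NonConst ι q) (h : (lift d (F.map ι) (G.map ι))^[2] q ≠ 0) (m : ℕ) :
    (lift d (F.map ι) (G.map ι))^[m] q ≠ 0 := by
  by_cases hc : ∃ c : k × k, c ≠ 0 ∧ C c.2 * F = C c.1 * G
  · obtain ⟨c, hc0, hc⟩ := hc
    have hH : ∃ H : k[X], F = C c.1 * H ∧ G = C c.2 * H := by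
      by_cases h1 : c.1 = 0
      · have h2 : c.2 ≠ 0 := fun h2 => hc0 (Prod.ext h1 h2)
        refine ⟨C c.2⁻¹ * G, ?_, ?_⟩
        · rw [h1, C_0, zero_mul] at hc ⊢
          rcases mul_eq_zero.mp hc with h3 | h3
          · exact absurd (C_eq_zero.mp h3) h2
          · exact h3
        · rw [← mul_assoc, ← C_mul, mul_inv_cancel₀ h2, C_1, one_mul]
      · refine ⟨C c.1⁻¹ * F, ?_, ?_⟩
        · rw [← mul_assoc, ← C_mul, mul_inv_cancel₀ h1, C_1, one_mul]
        · rw [mul_left_comm, hc, ← mul_assoc, ← C_mul, inv_mul_cancel₀ h1, C_1, one_mul]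
    obtain ⟨H, hF', hG'⟩ := hH
    have hl : ∀ p : L × L, lift d (F.map ι) (G.map ι) p =
        form d (H.map ι) p • ((ι c.1, ι c.2) : L × L) := by
      intro p
      rw [hF', hG', lift, Polynomial.map_mul, Polynomial.map_mul, map_C, map_C, nz_form_C_mul,
        nz_form_C_mul]
      ext <;> simp [mul_comm]
    have h2 : (lift d (F.map ι) (G.map ι))^[2] q =
        (form d (H.map ι) q ^ d * form d (H.map ι) (ι c.1, ι c.2)) •
          ((ι c.1, ι c.2) : L × L) := by
      rw [Function.iterate_succ_apply, Function.iterate_one, hl q, hl, form_smul]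
    rw [h2] at h
    have h3 := left_ne_zero_of_smul h
    have h4 : (ι c.1, ι c.2) ≠ (0 : L × L) := right_ne_zero_of_smul h
    have h5 : form d (H.map ι) q ≠ 0 := by
      intro h5
      rw [h5, zero_pow (by omega), zero_mul] at h3
      exact h3 rfl
    have h6 := right_ne_zero_of_mul h3
    have key : ∀ m, ∃ t : L, t ≠ 0 ∧ (lift d (F.map ι) (G.map ι))^[m + 1] q =
        t • ((ι c.1, ι c.2) : L × L) := by
      intro m
      induction m with
      | zero => exact ⟨_, h5, by rw [zero_add, Function.iterate_one, hl]⟩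
      | succ m ih =>
        obtain ⟨t, ht, he⟩ := ih
        refine ⟨t ^ d * form d (H.map ι) (ι c.1, ι c.2), mul_ne_zero (pow_ne_zero _ ht) h6, ?_⟩
        rw [Function.iterate_succ_apply', he, hl, form_smul]
    rcases m with _ | m
    · exact hq.ne_zero
    · obtain ⟨t, ht, he⟩ := key m
      rw [he]
      exact smul_ne_zero ht h4
  · have key : ∀ m, NonConst ι ((lift d (F.map ι) (G.map ι))^[m] q) := by
      intro m
      induction m with
      | zero => exact hq
      | succ m ih =>
        intro c hc0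
        rw [Function.iterate_succ_apply']
        have h1 : C c.2 * F - C c.1 * G ≠ 0 := fun h1 => hc ⟨c, hc0, sub_eq_zero.mp h1⟩
        have h2 := ih.form_ne_zero d (C c.2 * F - C c.1 * G)
          ((natDegree_sub_le _ _).trans (max_le ((natDegree_C_mul_le _ _).trans hF)
            ((natDegree_C_mul_le _ _).trans hG))) h1
        rw [Polynomial.map_sub, Polynomial.map_mul, Polynomial.map_mul, map_C, map_C,
          nz_form_sub, nz_form_C_mul, nz_form_C_mul] at h2
        intro h3
        apply h2
        rw [← h3]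
        simp only [wedge, lift]
        ring
    exact (key m).ne_zero

theorem nz_alg' {k : Type*} [Field k] [IsAlgClosed k] (d : ℕ) (hd : 1 ≤ d) (F G : k[X])
    (hF : F.natDegree ≤ d) (hG : G.natDegree ≤ d)
    (h : (lift d (F.map C) (G.map C))^[2] ((X, 1) : k[X] × k[X]) ≠ 0) (m : ℕ) :
    (lift d (F.map C) (G.map C))^[m] ((X, 1) : k[X] × k[X]) ≠ 0 := by
  let a : k[X] →+* FractionRing k[X] := algebraMap _ _
  have ha : Function.Injective a := IsFractionRing.injective _ _
  have hm : ∀ f : k[X], (f.map C).map a = f.map (a.comp C) := fun f => map_map _ _ _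
  have hi : ∀ j, Prod.map a a ((lift d (F.map C) (G.map C))^[j] ((X, 1) : k[X] × k[X])) =
      (lift d (F.map (a.comp C)) (G.map (a.comp C)))^[j] (a X, a 1) := by
    intro j
    rw [iter_map, hm, hm]
    rfl
  have h0 : ∀ p : k[X] × k[X], Prod.map a a p = 0 ↔ p = 0 := by
    intro p
    constructor
    · intro hp
      have h1 : a p.1 = 0 := congrArg Prod.fst hp
      have h2 : a p.2 = 0 := congrArg Prod.snd hp
      exact Prod.ext ((map_eq_zero_iff a ha).mp h1) ((map_eq_zero_iff a ha).mp h2)
    · rintro rfl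
      exact Prod.ext (map_zero a) (map_zero a)
  have hnc : NonConst (a.comp C) (a X, a 1) := by
    intro c hc he
    have h1 : a (wedge ((X, 1) : k[X] × k[X]) (C c.1, C c.2)) = 0 := by
      rw [wedge_map]
      exact he
    have h2 := (map_eq_zero_iff a ha).mp h1
    simp only [wedge] at h2
    have h3 := congrArg (fun f => f.coeff 1) h2
    have h4 := congrArg (fun f => f.coeff 0) h2
    simp at h3 h4
    apply hc
    ext
    · simpa using h4
    · simpa using h3
  have hj := nz_alg (a.comp C) d hd F G hF hG (a X, a 1) hnc (by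
    rw [← hi, Ne, h0]
    exact h) m
  rw [← hi, Ne, h0] at hj
  exact hj

/-- If `Φ ∘ Φ` does not vanish identically, no iterate of `Φ` vanishes identically. -/
theorem iter_ne_zero_of_two {k : Type*} [Field k] (d : ℕ) (hd : 1 ≤ d) (F G : k[X])
    (hF : F.natDegree ≤ d) (hG : G.natDegree ≤ d)
    (h : (lift d (F.map C) (G.map C))^[2] ((X, 1) : k[X] × k[X]) ≠ 0) (m : ℕ) :
    (lift d (F.map C) (G.map C))^[m] ((X, 1) : k[X] × k[X]) ≠ 0 := by
  let i : k →+* AlgebraicClosure k := algebraMap _ _
  let b : k[X] →+* (AlgebraicClosure k)[X] := mapRingHom i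
  have hb : Function.Injective b := Polynomial.map_injective i i.injective
  have hm : ∀ f : k[X], (f.map C).map b = (f.map i).map C := by
    intro f
    rw [map_map, map_map]
    congr 1
    ext x
    simp [b]
  have hi : ∀ j, Prod.map b b ((lift d (F.map C) (G.map C))^[j] ((X, 1) : k[X] × k[X])) =
      (lift d ((F.map i).map C) ((G.map i).map C))^[j] (X, 1) := by
    intro j
    rw [iter_map, hm, hm]
    congr 1
    simp [b]
  have h0 : ∀ p : k[X] × k[X], Prod.map b b p = 0 ↔ p = 0 := by
    intro p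
    constructor
    · intro hp
      have h1 : b p.1 = 0 := congrArg Prod.fst hp
      have h2 : b p.2 = 0 := congrArg Prod.snd hp
      exact Prod.ext ((map_eq_zero_iff b hb).mp h1) ((map_eq_zero_iff b hb).mp h2)
    · rintro rfl
      exact Prod.ext (map_zero b) (map_zero b)
  have hj := nz_alg' d hd (F.map i) (G.map i) (natDegree_map_le.trans hF)
    (natDegree_map_le.trans hG) (by
      rw [← hi, Ne, h0]
      exact h) m
  rw [← hi, Ne, h0] at hj
  exact hj

end Pool.Agent.RDF
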