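import Pool.Agent.RDF.Basic

set_option autoImplicit false

/-!
# The truncated logarithmic kernel of an ultrametric absolute value is positive semidefinite
-/

namespace Pool.Agent.RDF

open MeasureTheory

/-- `min (R, -log |p ∧ q|)` -/
noncomputable def kr {L : Type*} [Field L] (abv : AbsoluteValue L ℝ) (R : ℝ) (p q : L × L) : ℝ :=
  open Classical in if wedge p q = 0 then R else min R (-Real.log (abv (wedge p q)))

/-- The kernel of an equivalence relation is positive semidefinite. -/
theorem psd_equiv {ι κ : Type*} [Fintype ι] (f : ι → κ) (c : ι → ℝ) :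
    open Classical in 0 ≤ ∑ i, ∑ j, c i * c j * (if f i = f j then 1 else 0) := by
  classical
  have h : ∑ i, ∑ j, c i * c j * (if f i = f j then (1 : ℝ) else 0) =
      ∑ x ∈ Finset.univ.image f, (∑ i, if f i = x then c i else 0) ^ 2 := by
    have e : ∀ x, (∑ i, if f i = x then c i else 0) ^ 2 =
        ∑ i, ∑ j, c i * c j * (if f i = x then (if f j = x then (1 : ℝ) else 0) else 0) := by
      intro x
      rw [sq, Finset.sum_mul_sum]
      refine Finset.sum_congr rfl fun i _ => Finset.sum_congr rfl fun j _ => ?_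
      by_cases h1 : f i = x <;> by_cases h2 : f j = x <;> simp [h1, h2]
    calc ∑ i, ∑ j, c i * c j * (if f i = f j then (1 : ℝ) else 0)
        = ∑ i, ∑ j, ∑ x ∈ Finset.univ.image f,
            c i * c j * (if f i = x then (if f j = x then (1 : ℝ) else 0) else 0) := by
          refine Finset.sum_congr rfl fun i _ => Finset.sum_congr rfl fun j _ => ?_
          rw [← Finset.mul_sum, Finset.sum_ite_eq,
            if_pos (Finset.mem_image_of_mem f (Finset.mem_univ i))]
          simp only [eq_comm]
      _ = ∑ i, ∑ x ∈ Finset.univ.image f, ∑ j,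
            c i * c j * (if f i = x then (if f j = x then (1 : ℝ) else 0) else 0) := by
          refine Finset.sum_congr rfl fun i _ => ?_
          rw [Finset.sum_comm]
      _ = ∑ x ∈ Finset.univ.image f, ∑ i, ∑ j,
            c i * c j * (if f i = x then (if f j = x then (1 : ℝ) else 0) else 0) := by
          rw [Finset.sum_comm]
      _ = _ := Finset.sum_congr rfl fun x _ => (e x).symm
  rw [h]
  exact Finset.sum_nonneg fun x _ => sq_nonneg _

/-- The kernel of a relation which is an equivalence relation is positive semidefinite. -/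
theorem psd_rel {ι : Type*} [Fintype ι] (r : ι → ι → Prop) (hr : Equivalence r) (c : ι → ℝ) :
    open Classical in 0 ≤ ∑ i, ∑ j, c i * c j * (if r i j then 1 else 0) := by
  classical
  have h := psd_equiv (fun i => Quotient.mk (⟨r, hr⟩ : Setoid ι) i) c
  refine h.trans_eq ?_
  refine Finset.sum_congr rfl fun i _ => Finset.sum_congr rfl fun j _ => ?_
  congr 1
  have e : Quotient.mk (⟨r, hr⟩ : Setoid ι) i = Quotient.mk (⟨r, hr⟩ : Setoid ι) j ↔ r i j :=
    Quotient.eq
  by_cases hij : r i j
  · rw [if_pos hij, if_pos (e.mpr hij)]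
  · rw [if_neg hij, if_neg (fun h => hij (e.mp h))]

theorem layer {a R : ℝ} (ha : 0 ≤ a) (haR : a ≤ R) :
    ∫ t in Set.Ioo 0 R, (Set.Iio a).indicator (fun _ => (1 : ℝ)) t = a := by
  rw [setIntegral_indicator measurableSet_Iio, setIntegral_const]
  have h : Set.Ioo 0 R ∩ Set.Iio a = Set.Ioo 0 a := by
    ext t
    simp only [Set.mem_inter_iff, Set.mem_Ioo, Set.mem_Iio]
    constructor
    · rintro ⟨⟨h1, -⟩, h2⟩
      exact ⟨h1, h2⟩
    · rintro ⟨h1, h2⟩
      exact ⟨⟨h1, h2.trans_le haR⟩, h2⟩
  rw [h]
  simp [Measure.real, ha]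

section

variable {L : Type*} [Field L] (abv : AbsoluteValue L ℝ)

theorem wedge_self' (p : L × L) : wedge p p = 0 := by simp [wedge]

theorem wedge_smul_eq (p q r : L × L) : wedge p r • q = wedge p q • r + wedge q r • p := by
  ext
  · simp only [wedge, Prod.smul_fst, smul_eq_mul, Prod.fst_add]
    ring
  · simp only [wedge, Prod.smul_snd, smul_eq_mul, Prod.snd_add]
    ring

theorem nrm_add_le (hna : IsNonarchimedean abv) (p q : L × L) :
    nrm abv (p + q) ≤ max (nrm abv p) (nrm abv q) := by
  refine max_le ?_ ?_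
  · exact (hna _ _).trans (max_le_max (le_max_left _ _) (le_max_left _ _))
  · exact (hna _ _).trans (max_le_max (le_max_right _ _) (le_max_right _ _))

theorem psd_ultra (hna : IsNonarchimedean abv) {p q r : L × L} (hp : nrm abv p = 1)
    (hq : nrm abv q = 1) (hr : nrm abv r = 1) :
    abv (wedge p r) ≤ max (abv (wedge p q)) (abv (wedge q r)) := by
  have h := nrm_add_le abv hna (wedge p q • r) (wedge q r • p)
  rwa [← wedge_smul_eq, nrm_smul, nrm_smul, nrm_smul, hp, hq, hr, mul_one, mul_one, mul_one] at h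

theorem wedge_le_nrm (hna : IsNonarchimedean abv) (p q : L × L) :
    abv (wedge p q) ≤ nrm abv p * nrm abv q := by
  have h1 : abv (p.1 * q.2) ≤ nrm abv p * nrm abv q := by
    rw [map_mul]
    exact mul_le_mul (le_max_left _ _) (le_max_right _ _) (abv.nonneg _) (nrm_nonneg abv p)
  have h2 : abv (q.1 * p.2) ≤ nrm abv p * nrm abv q := by
    rw [map_mul, mul_comm]
    exact mul_le_mul (le_max_right _ _) (le_max_left _ _) (abv.nonneg _) (nrm_nonneg abv p)
  have h3 := hna (p.1 * q.2) (-(q.1 * p.2))
  rw [abv.map_neg, ← sub_eq_add_neg] at h3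
  exact h3.trans (max_le h1 h2)

theorem kr_le (R : ℝ) (p q : L × L) : kr abv R p q ≤ R := by
  unfold kr
  split_ifs
  · exact le_rfl
  · exact min_le_left _ _

theorem kr_nonneg (hna : IsNonarchimedean abv) (R : ℝ) (hR : 0 ≤ R) {p q : L × L}
    (hp : nrm abv p = 1) (hq : nrm abv q = 1) : 0 ≤ kr abv R p q := by
  unfold kr
  split_ifs with h
  · exact hR
  · refine le_min hR ?_
    rw [neg_nonneg]
    refine Real.log_nonpos (abv.nonneg _) ?_
    have := wedge_le_nrm abv hna p q
    rwa [hp, hq, mul_one] at this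

theorem lt_kr_iff (R t : ℝ) (p q : L × L) :
    t < kr abv R p q ↔ t < R ∧ abv (wedge p q) < Real.exp (-t) := by
  unfold kr
  split_ifs with h
  · rw [h, map_zero]
    exact ⟨fun h => ⟨h, Real.exp_pos _⟩, fun h => h.1⟩
  · rw [lt_min_iff, lt_neg, Real.log_lt_iff_lt_exp (abv.pos h)]

theorem kr_self (R : ℝ) (p : L × L) : kr abv R p p = R := by
  rw [kr, if_pos (wedge_self' p)]

theorem kr_comm (R : ℝ) (p q : L × L) : kr abv R p q = kr abv R q p := by
  unfold kr
  rw [wedge_comm p q, AbsoluteValue.map_neg]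
  by_cases h : wedge q p = 0
  · rw [if_pos h, if_pos (by rw [h, neg_zero])]
  · rw [if_neg h, if_neg (neg_ne_zero.mpr h)]

theorem kr_psd (hna : IsNonarchimedean abv)
    (R : ℝ) (hR : 0 ≤ R) {ι : Type*} [Fintype ι] (p : ι → L × L) (hp : ∀ i, nrm abv (p i) = 1)
    (c : ι → ℝ) : 0 ≤ ∑ i, ∑ j, c i * c j * kr abv R (p i) (p j) := by
  classical
  have h1 : ∑ i, ∑ j, c i * c j * kr abv R (p i) (p j) =
      ∫ t in Set.Ioo 0 R, ∑ i, ∑ j, c i * c j *
        (Set.Iio (kr abv R (p i) (p j))).indicator (fun _ => (1 : ℝ)) t := by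
    have hint : ∀ i j, Integrable (fun t => c i * c j *
        (Set.Iio (kr abv R (p i) (p j))).indicator (fun _ => (1 : ℝ)) t)
        (volume.restrict (Set.Ioo 0 R)) := by
      intro i j
      refine Integrable.const_mul ?_ _
      refine Integrable.indicator ?_ measurableSet_Iio
      exact integrable_const 1
    rw [integral_finsetSum _ fun i _ => integrable_finsetSum _ fun j _ => hint i j]
    refine Finset.sum_congr rfl fun i _ => ?_
    rw [integral_finsetSum _ fun j _ => hint i j]
    refine Finset.sum_congr rfl fun j _ => ?_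
    rw [integral_const_mul, layer (kr_nonneg abv hna R hR (hp i) (hp j)) (kr_le abv R _ _)]
  rw [h1]
  refine setIntegral_nonneg measurableSet_Ioo fun t ht => ?_
  have hr : Equivalence fun i j => t < kr abv R (p i) (p j) := by
    refine ⟨fun i => ?_, fun {i j} h => ?_, fun {i j k} h h' => ?_⟩
    · rw [kr_self]
      exact ht.2
    · rw [kr_comm]
      exact h
    · rw [lt_kr_iff] at h h' ⊢
      refine ⟨h.1, lt_of_le_of_lt (psd_ultra abv hna (hp i) (hp j) (hp k)) (max_lt h.2 h'.2)⟩
  refine (psd_rel _ hr c).trans_eq ?_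
  refine Finset.sum_congr rfl fun i _ => Finset.sum_congr rfl fun j _ => ?_
  congr 1

end

end Pool.Agent.RDF
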